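import Pool.Agent.Helper25.SH.MatS

/-!
# Packed numbers with wider digits
-/

set_option autoImplicit false

namespace Helper25.SH.Mat

open Helper54.RC.Fast Helper76.RC.TPoly Helper25.SH.Dot Helper95.SH Helper54.RC

/-- `N` groups of `s` ones at the distance `d` -/
def mw (s d N : ℕ) : ℕ :=
  Nat.mul (Nat.sub (Nat.pow 2 s) 1) (Nat.div (Nat.sub (Nat.pow 2 (Nat.mul d N)) 1) (Nat.sub (Nat.pow 2 d) 1))
/-- one level -/
def lv (s t M X : ℕ) : ℕ := Nat.add (Nat.land X M) (Nat.shiftLeft (Nat.land (Nat.shiftRight X s) M) t)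
/-- the masks -/
def msw (w1 w2 : ℕ) : ℕ → ℕ → List ℕ
  | 0, _ => []
  | m + 1, N => mw (Nat.mul w1 (Nat.pow 2 m)) (Nat.mul 2 (Nat.mul w2 (Nat.pow 2 m))) N :: msw w1 w2 m (Nat.mul 2 N)
/-- all levels -/
def wl (w1 w2 : ℕ) : ℕ → List ℕ → ℕ → ℕ
  | 0, _, X => X
  | _ + 1, [], X => X
  | m + 1, M :: l, X => wl w1 w2 m l (lv (Nat.mul w1 (Nat.pow 2 m)) (Nat.mul w2 (Nat.pow 2 m)) M X)
/-- by recursion -/
def ww (w1 w2 : ℕ) : ℕ → ℕ → ℕ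
  | 0, X => X
  | m + 1, X => ww w1 w2 m (X % 2 ^ (w1 * 2 ^ m)) + 2 ^ (w2 * 2 ^ m) * ww w1 w2 m (X / 2 ^ (w1 * 2 ^ m))

theorem mw_eq (s d N : ℕ) (hd : 0 < d) : mw s d N = (2 ^ s - 1) * gs (2 ^ d) N := by
  have e : mw s d N = (2 ^ s - 1) * ((2 ^ (d * N) - 1) / (2 ^ d - 1)) := rfl
  have h1 : 1 ≤ 2 ^ d := Nat.one_le_two_pow
  have h2 : 0 < 2 ^ d - 1 := by
    have : 2 ≤ 2 ^ d := by
      calc 2 = 2 ^ 1 := rfl
        _ ≤ 2 ^ d := Nat.pow_le_pow_right (by norm_num) (by omega)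
    omega
  rw [e, pow_mul 2 d N, ← gs_mul _ N h1, Nat.mul_div_cancel_left _ h2]

theorem mw_succ (s d N : ℕ) (hd : 0 < d) : mw s d (N + 1) = (2 ^ s - 1) + 2 ^ d * mw s d N := by
  rw [mw_eq _ _ _ hd, mw_eq _ _ _ hd, gs]
  ring

theorem lv_succ {s t N x : ℕ} (ht : 0 < t) (hst : s ≤ t) (hx : x < 2 ^ s * 2 ^ s) (X : ℕ) :
    lv s t (mw s (2 * t) (N + 1)) (x + 2 ^ (2 * t) * X) =
      (x % 2 ^ s + 2 ^ t * (x / 2 ^ s)) + 2 ^ (2 * t) * lv s t (mw s (2 * t) N) X := by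
  have hs0 : 0 < 2 ^ s := by positivity
  have h1 : 2 ^ s * 2 ^ s ≤ 2 ^ (2 * t) := by
    rw [← pow_add]
    exact Nat.pow_le_pow_right (by norm_num) (by omega)
  have hx2 : x < 2 ^ (2 * t) := lt_of_lt_of_le hx h1
  have hm : 2 ^ s - 1 < 2 ^ (2 * t) := by
    have h3 : 2 ^ s ≤ 2 ^ (2 * t) := Nat.pow_le_pow_right (by norm_num) (by omega)
    omega
  have d1 : ∀ M Y, lv s t M Y = (Y &&& M) + (((Y >>> s) &&& M) <<< t) := fun _ _ => rfl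
  rw [d1, d1, mw_succ _ _ _ (by omega), land_cons hx2 hm, Nat.and_two_pow_sub_one_eq_mod]
  obtain ⟨k, hk⟩ : ∃ k, 2 * t = s + (s + k) := ⟨2 * t - s - s, by omega⟩
  have e1 : (x + 2 ^ (2 * t) * X) >>> s = (x / 2 ^ s + 2 ^ (s + k) * (X % 2 ^ s)) + 2 ^ (2 * t) * (X >>> s) := by
    have hX : X = X % 2 ^ s + 2 ^ s * (X / 2 ^ s) := (Nat.mod_add_div X _).symm
    rw [Nat.shiftRight_eq_div_pow, Nat.shiftRight_eq_div_pow, hk, pow_add 2 s (s + k), mul_assoc,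
      Nat.add_mul_div_left _ _ hs0]
    conv_lhs => rw [hX]
    ring
  have hxs : x / 2 ^ s < 2 ^ s := by
    rw [Nat.div_lt_iff_lt_mul hs0]
    exact hx
  have hXs : X % 2 ^ s < 2 ^ s := Nat.mod_lt _ hs0
  have e2 : x / 2 ^ s + 2 ^ (s + k) * (X % 2 ^ s) < 2 ^ (2 * t) := by
    rw [hk, pow_add 2 s (s + k)]
    have h4 : 2 ^ s ≤ 2 ^ (s + k) := Nat.pow_le_pow_right (by norm_num) (by omega)
    have h5 : X % 2 ^ s + 1 ≤ 2 ^ s := hXs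
    calc x / 2 ^ s + 2 ^ (s + k) * (X % 2 ^ s) < 2 ^ (s + k) + 2 ^ (s + k) * (X % 2 ^ s) := by omega
      _ = 2 ^ (s + k) * (X % 2 ^ s + 1) := by ring
      _ ≤ 2 ^ (s + k) * 2 ^ s := Nat.mul_le_mul_left _ h5
      _ = _ := mul_comm _ _
  have e3 : (x / 2 ^ s + 2 ^ (s + k) * (X % 2 ^ s)) &&& (2 ^ s - 1) = x / 2 ^ s := by
    rw [Nat.and_two_pow_sub_one_eq_mod, pow_add 2 s k, mul_assoc, Nat.add_mul_mod_self_left, Nat.mod_eq_of_lt hxs]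
  rw [e1, land_cons e2 hm, e3]
  simp only [Nat.shiftLeft_eq]
  ring

theorem mw_zero (s d : ℕ) (hd : 0 < d) : mw s d 0 = 0 := by rw [mw_eq _ _ _ hd]; simp [gs]

theorem wl_zero (w1 w2 m : ℕ) (l : ℕ) : wl w1 w2 m (msw w1 w2 m l) 0 = 0 := by
  induction m generalizing l with
  | zero => rfl
  | succ m ih =>
    show wl w1 w2 m (msw w1 w2 m (2 * l)) (lv (w1 * 2 ^ m) (w2 * 2 ^ m) (mw (w1 * 2 ^ m) (2 * (w2 * 2 ^ m)) l) 0) = 0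
    have : lv (w1 * 2 ^ m) (w2 * 2 ^ m) (mw (w1 * 2 ^ m) (2 * (w2 * 2 ^ m)) l) 0 = 0 := by
      show (0 &&& _) + (((0 >>> _) &&& _) <<< _) = 0
      simp
    rw [this, ih]

theorem wl_cons (w1 w2 m N x X : ℕ) (h1 : 0 < w1) (h12 : w1 ≤ w2) (hx : x < 2 ^ (w1 * 2 ^ m)) :
    wl w1 w2 m (msw w1 w2 m (N + 1)) (x + 2 ^ (w2 * 2 ^ m) * X) =
      ww w1 w2 m x + 2 ^ (w2 * 2 ^ m) * wl w1 w2 m (msw w1 w2 m N) X := by
  induction m generalizing N x X with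
  | zero => rfl
  | succ m ih =>
    have e : 2 ^ (w1 * 2 ^ (m + 1)) = 2 ^ (w1 * 2 ^ m) * 2 ^ (w1 * 2 ^ m) := by
      rw [← pow_add]
      congr 1
      rw [pow_succ]
      ring
    have e' : w2 * 2 ^ (m + 1) = 2 * (w2 * 2 ^ m) := by rw [pow_succ]; ring
    have e2 : 2 ^ (2 * (w2 * 2 ^ m)) = 2 ^ (w2 * 2 ^ m) * 2 ^ (w2 * 2 ^ m) := by rw [two_mul, pow_add]
    rw [e] at hx
    rw [e']
    have d1 : ∀ N X, wl w1 w2 (m + 1) (msw w1 w2 (m + 1) N) X =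
      wl w1 w2 m (msw w1 w2 m (2 * N)) (lv (w1 * 2 ^ m) (w2 * 2 ^ m) (mw (w1 * 2 ^ m) (2 * (w2 * 2 ^ m)) N) X) :=
        fun _ _ => rfl
    have d2 : ww w1 w2 (m + 1) x = ww w1 w2 m (x % 2 ^ (w1 * 2 ^ m)) +
      2 ^ (w2 * 2 ^ m) * ww w1 w2 m (x / 2 ^ (w1 * 2 ^ m)) := rfl
    have hx1 : x / 2 ^ (w1 * 2 ^ m) < 2 ^ (w1 * 2 ^ m) := Nat.div_lt_of_lt_mul hx
    have hx0 : x % 2 ^ (w1 * 2 ^ m) < 2 ^ (w1 * 2 ^ m) := Nat.mod_lt _ (by positivity)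
    have hw2 : 0 < w2 * 2 ^ m := Nat.mul_pos (by omega) (by positivity)
    rw [d1, d1, d2, lv_succ hw2 (Nat.mul_le_mul_right _ h12) hx, e2]
    set Z := lv (w1 * 2 ^ m) (w2 * 2 ^ m) (mw (w1 * 2 ^ m) (2 * (w2 * 2 ^ m)) N) X with hZ
    have e3 : x % 2 ^ (w1 * 2 ^ m) + 2 ^ (w2 * 2 ^ m) * (x / 2 ^ (w1 * 2 ^ m)) +
        2 ^ (w2 * 2 ^ m) * 2 ^ (w2 * 2 ^ m) * Z =
      x % 2 ^ (w1 * 2 ^ m) + 2 ^ (w2 * 2 ^ m) * (x / 2 ^ (w1 * 2 ^ m) + 2 ^ (w2 * 2 ^ m) * Z) := by ring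
    rw [e3, show 2 * (N + 1) = (2 * N + 1) + 1 by ring, ih _ _ _ hx0, ih _ _ _ hx1]
    ring

theorem wl_eq (w1 w2 m X : ℕ) (h1 : 0 < w1) (h12 : w1 ≤ w2) (hX : X < 2 ^ (w1 * 2 ^ m)) :
    wl w1 w2 m (msw w1 w2 m 1) X = ww w1 w2 m X := by
  have h := wl_cons w1 w2 m 0 X 0 h1 h12 hX
  rw [mul_zero, add_zero] at h
  rw [h, wl_zero w1 w2 m 0, mul_zero, add_zero]

theorem evz_ls_zero (B : ℤ) (b k : ℕ) : evz B (ls b k 0) = -(2 ^ b : ℕ) * ∑ j ∈ Finset.range k, B ^ j := by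
  induction k with
  | zero => simp [lst, evz]
  | succ k ih =>
    have e : ls b (k + 1) 0 = (((0 % 2 ^ (b + 1) : ℕ) : ℤ) - ((2 ^ b : ℕ) : ℤ)) :: ls b k (0 / 2 ^ (b + 1)) := rfl
    rw [e, Nat.zero_div, evz, ih, Finset.sum_range_succ' (fun j => B ^ j), Nat.zero_mod]
    simp only [pow_succ, ← Finset.sum_mul]
    push_cast
    ring

theorem gs_sum (B n : ℕ) : ((gs B n : ℕ) : ℤ) = ∑ j ∈ Finset.range n, (B : ℤ) ^ j := by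
  induction n with
  | zero => simp [gs]
  | succ n ih =>
    rw [gs, Finset.sum_range_succ' (fun j => (B : ℤ) ^ j)]
    push_cast
    rw [ih]
    simp only [pow_succ, ← Finset.sum_mul]
    ring

theorem ww_eq (b1 b2 m X : ℕ) (hX : X < (2 ^ (b1 + 1)) ^ 2 ^ m) :
    ((ww (b1 + 1) (b2 + 1) m X : ℕ) : ℤ) = evz ((2 ^ (b2 + 1) : ℕ) : ℤ) (ls b1 (2 ^ m) X) +
      (2 ^ b1 : ℕ) * (gs (2 ^ (b2 + 1)) (2 ^ m) : ℕ) := by
  induction m generalizing X with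
  | zero =>
    have e : ls b1 (2 ^ 0) X = [((X % 2 ^ (b1 + 1) : ℕ) : ℤ) - ((2 ^ b1 : ℕ) : ℤ)] := rfl
    have hX' : X < 2 ^ (b1 + 1) := by simpa using hX
    rw [e, Nat.mod_eq_of_lt hX']
    simp [ww, evz, gs]
  | succ m ih =>
    have e2 : 2 ^ (m + 1) = 2 ^ m + 2 ^ m := by rw [pow_succ]; ring
    have hP : 2 ^ ((b1 + 1) * 2 ^ m) = (2 ^ (b1 + 1)) ^ 2 ^ m := by rw [pow_mul]
    have hQ : 2 ^ ((b2 + 1) * 2 ^ m) = (2 ^ (b2 + 1)) ^ 2 ^ m := by rw [pow_mul]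
    have hp : 0 < (2 ^ (b1 + 1)) ^ 2 ^ m := by positivity
    rw [e2, pow_add] at hX
    have hx1 : X / (2 ^ (b1 + 1)) ^ 2 ^ m < (2 ^ (b1 + 1)) ^ 2 ^ m := Nat.div_lt_of_lt_mul hX
    have hx0 : X % (2 ^ (b1 + 1)) ^ 2 ^ m < (2 ^ (b1 + 1)) ^ 2 ^ m := Nat.mod_lt _ hp
    have d : ww (b1 + 1) (b2 + 1) (m + 1) X = ww (b1 + 1) (b2 + 1) m (X % 2 ^ ((b1 + 1) * 2 ^ m)) +
      2 ^ ((b2 + 1) * 2 ^ m) * ww (b1 + 1) (b2 + 1) m (X / 2 ^ ((b1 + 1) * 2 ^ m)) := rfl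
    rw [d, hP, hQ, e2, ls_append, Helper54.RC.Fast.evz_append, length_ls, gs_add]
    push_cast
    have i1 := ih _ hx1
    have i0 := ih _ hx0
    rw [ls_mod b1 _ _ _ le_rfl] at i0
    rw [i0, i1]
    push_cast
    ring

/-- one number of `m` digits, `2 ^ mm ≥ m` -/
def wid1 (w1 w2 mm : ℕ) (ms : List ℕ) (P C a : ℕ) : ℕ := Nat.add (wl w1 w2 mm ms (Nat.mod a P)) C
/-- a list -/
def widL (w1 w2 mm : ℕ) (ms : List ℕ) (P C : ℕ) : List ℕ → List ℕ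
  | [] => []
  | a :: A => wid1 w1 w2 mm ms P C a :: widL w1 w2 mm ms P C A
/-- **columns with wider digits** -/
def wid (b1 b2 mm m : ℕ) (A : List ℕ) : List ℕ :=
  widL (Nat.succ b1) (Nat.succ b2) mm (msw (Nat.succ b1) (Nat.succ b2) mm 1) (Nat.pow 2 (Nat.mul (Nat.succ b1) m))
    (Nat.mul (Nat.sub (Nat.pow 2 b2) (Nat.pow 2 b1)) (on b2 m)) A

theorem widL_getD (w1 w2 mm : ℕ) (ms : List ℕ) (P C : ℕ) (A : List ℕ) (i : ℕ) (h : i < A.length) :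
    (widL w1 w2 mm ms P C A).getD i 0 = wid1 w1 w2 mm ms P C (A.getD i 0) := by
  induction A generalizing i with
  | nil => simp at h
  | cons a A ih =>
    cases i with
    | zero => rfl
    | succ i => exact ih i (by simpa using h)

theorem wid_length (b1 b2 mm m : ℕ) (A : List ℕ) : (wid b1 b2 mm m A).length = A.length := by
  unfold wid
  induction A with
  | nil => rfl
  | cons a A ih => simp only [widL, List.length_cons, ih]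

theorem wid_ls (b1 b2 mm m : ℕ) (hb : b1 ≤ b2) (hm : m ≤ 2 ^ mm) (A : List ℕ) (i : ℕ) (h : i < A.length) :
    ls b2 m ((wid b1 b2 mm m A).getD i 0) = ls b1 m (A.getD i 0) := by
  unfold wid
  rw [widL_getD _ _ _ _ _ _ _ _ h]
  set a := A.getD i 0 with ha
  have hpow : Nat.pow 2 (Nat.mul (Nat.succ b1) m) = (2 ^ (b1 + 1)) ^ m := by
    show 2 ^ ((b1 + 1) * m) = _
    rw [pow_mul]
  rw [hpow]
  set x := a % (2 ^ (b1 + 1)) ^ m with hx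
  have hxm : x < (2 ^ (b1 + 1)) ^ m := Nat.mod_lt _ (by positivity)
  obtain ⟨k, hk⟩ : ∃ k, 2 ^ mm = m + k := ⟨2 ^ mm - m, by omega⟩
  have hx2 : x < (2 ^ (b1 + 1)) ^ 2 ^ mm := lt_of_lt_of_le hxm (Nat.pow_le_pow_right (by positivity) hm)
  have hx3 : x < 2 ^ ((b1 + 1) * 2 ^ mm) := by rw [pow_mul]; exact hx2
  have e1 : wid1 (Nat.succ b1) (Nat.succ b2) mm (msw (Nat.succ b1) (Nat.succ b2) mm 1) ((2 ^ (b1 + 1)) ^ m)
      (Nat.mul (Nat.sub (Nat.pow 2 b2) (Nat.pow 2 b1)) (on b2 m)) a =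
      ww (b1 + 1) (b2 + 1) mm x + (2 ^ b2 - 2 ^ b1) * gs (2 ^ (b2 + 1)) m := by
    show wl (b1 + 1) (b2 + 1) mm (msw (b1 + 1) (b2 + 1) mm 1) x + (2 ^ b2 - 2 ^ b1) * on b2 m = _
    rw [wl_eq _ _ _ _ (by omega) (by omega) hx3, on_eq]
  rw [e1]
  have hls : ls b1 m a = ls b1 m x := by rw [hx, ls_mod b1 m m _ le_rfl]
  rw [hls]
  have hb2 : 2 ^ b1 ≤ 2 ^ b2 := Nat.pow_le_pow_right (by norm_num) hb
  have hbz : ((2 ^ b1 : ℕ) : ℤ) ≤ ((2 ^ b2 : ℕ) : ℤ) := by exact_mod_cast hb2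
  refine (ls_of b2 m (ls b1 m x) (length_ls _ _ _) (fun c hc => ?_) _ ?_).1
  · have := ls_range b1 m x c hc
    exact ⟨by linarith [this.1], by linarith [this.2]⟩
  · have e2 := ww_eq b1 b2 mm x hx2
    have e3 : ls b1 (2 ^ mm) x = ls b1 m x ++ ls b1 k 0 := by
      rw [hk, ls_append, Nat.div_eq_of_lt hxm]
    rw [e3, Helper54.RC.Fast.evz_append, length_ls, evz_ls_zero, hk, gs_add] at e2
    rw [Nat.cast_add, e2, Nat.cast_mul (2 ^ b2 - 2 ^ b1), Nat.cast_sub hb2]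
    generalize 2 ^ (b2 + 1) = B
    simp only [Nat.cast_add, Nat.cast_mul, Nat.cast_pow, gs_sum]
    ring

/-- the rows are the same -/
theorem row_wid {b1 b2 mm m : ℕ} (hb : b1 ≤ b2) (hm : m ≤ 2 ^ mm) {A : List ℕ} {i k : ℕ} (h : i < A.length) (hk : k < m) :
    row b2 (wid b1 b2 mm m A) k i = row b1 A k i := by
  unfold row
  rw [← ls_getD b2 m _ k hk, ← ls_getD b1 m _ k hk, wid_ls b1 b2 mm m hb hm A i h]

theorem iv_wid {b1 b2 mm m N : ℕ} (hb : b1 ≤ b2) (hm : m ≤ 2 ^ mm) {A : List ℕ} (h : N ≤ A.length) {k : ℕ} (hk : k < m)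
    (v : ℕ → ℝ) : iv N (row b2 (wid b1 b2 mm m A) k) v = iv N (row b1 A k) v := by
  unfold iv
  refine Finset.sum_congr rfl fun i hi => ?_
  rw [row_wid hb hm (lt_of_lt_of_le (Finset.mem_range.1 hi) h) hk]

/-- the blocks have the same values -/
theorem val_wid_sq {b1 b2 mm m N : ℕ} (hb : b1 ≤ b2) (hm : m ≤ 2 ^ mm) {A : List ℕ} (h : N ≤ A.length) (s : Bool) (c : ℕ)
    (v : ℕ → ℝ) : (Blk.sq s c m (wid b1 b2 mm m A)).val b2 N v = (Blk.sq s c m A).val b1 N v := by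
  show sgr s * (c * ∑ k ∈ Finset.range m, iv N (row b2 (wid b1 b2 mm m A) k) v ^ 2) =
    sgr s * (c * ∑ k ∈ Finset.range m, iv N (row b1 A k) v ^ 2)
  rw [Finset.sum_congr rfl fun k hk => by rw [iv_wid hb hm h (Finset.mem_range.1 hk)]]

theorem val_wid_bl {b1 b2 mm m N : ℕ} (hb : b1 ≤ b2) (hm : m ≤ 2 ^ mm) {A B : List ℕ} (h : N ≤ A.length)
    (h' : N ≤ B.length) (s : Bool) (c : ℕ) (v : ℕ → ℝ) :
    (Blk.bl s c m (wid b1 b2 mm m A) (wid b1 b2 mm m B)).val b2 N v = (Blk.bl s c m A B).val b1 N v := by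
  show sgr s * (2 * c * ∑ k ∈ Finset.range m, iv N (row b2 (wid b1 b2 mm m A) k) v *
      iv N (row b2 (wid b1 b2 mm m B) k) v) =
    sgr s * (2 * c * ∑ k ∈ Finset.range m, iv N (row b1 A k) v * iv N (row b1 B k) v)
  rw [Finset.sum_congr rfl fun k hk => by
    rw [iv_wid hb hm h (Finset.mem_range.1 hk), iv_wid hb hm h' (Finset.mem_range.1 hk)]]

end Helper25.SH.Mat
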