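import Pool.Agent.Helper25.SH.MatT

/-!
# Soundness of the matrix check
-/

set_option autoImplicit false

namespace Helper25.SH.Mat

open Helper54.RC.Fast Helper76.RC.TPoly Helper25.SH.Dot Helper95.SH Helper54.RC

theorem inn_spec (s M e X : ℕ) (l : List ℕ) (h : inn s M e X l = true) (j : ℕ) (hj : j < l.length) :
    (mid s M X (l.getD j 0) + e) % M ≤ 2 * e := by
  induction l generalizing j with
  | nil => simp at hj
  | cons Y l ih =>
    simp only [inn, Bool.cond_false_right, Bool.and_eq_true] at h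
    obtain ⟨h1, h2⟩ := h
    cases j with
    | zero => exact Nat.le_of_ble_eq_true h1
    | succ j => exact ih h2 j (by simpa using hj)

theorem out_spec {b s M e T : ℕ} {U V P D : List ℕ} (h : out b s M e T U V P D = true) :
    U.length = V.length ∧
      (∀ i < U.length, dia b T (P.getD i 0) (D.getD i 0) (mid s M (U.getD i 0) (V.getD i 0)) = true) ∧
      (∀ i j, i < j → j < U.length → (mid s M (U.getD i 0) (V.getD j 0) + e) % M ≤ 2 * e) := by
  induction U generalizing V P D with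
  | nil =>
    cases V with
    | nil => exact ⟨rfl, fun i hi => by simp at hi, fun i j _ hj => by simp at hj⟩
    | cons Y V =>
      cases P <;> cases D <;> simp [out] at h
  | cons X U ih =>
    cases V with
    | nil => cases P <;> cases D <;> simp [out] at h
    | cons Y V =>
      cases P with
      | nil => cases D <;> simp [out] at h
      | cons p P =>
        cases D with
        | nil => simp [out] at h
        | cons d D =>
          simp only [out, Bool.cond_false_right, Bool.and_eq_true] at h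
          obtain ⟨h1, h2, h3⟩ := h
          obtain ⟨i1, i2, i3⟩ := ih h3
          refine ⟨by simp [i1], ?_, ?_⟩
          · intro i hi
            cases i with
            | zero => exact h1
            | succ i => exact i2 i (by simpa using hi)
          · intro i j hij hj
            cases j with
            | zero => omega
            | succ j =>
              have hj' : j < U.length := by simpa using hj
              cases i with
              | zero => exact inn_spec s M e X V h2 j (by omega)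
              | succ i => exact i3 i j (by omega) hj'

/-- off the diagonal -/
theorem off_bound {b e t : ℕ} {g d : ℤ} (hd : d = 0 ∨ d = 1) (he : e < 2 ^ b)
    (hm : (t : ℤ) ≡ g - d [ZMOD ((2 ^ (b + 1) : ℕ) : ℤ)]) (hg : |g| < (2 ^ b : ℕ)) (h : (t + e) % 2 ^ (b + 1) ≤ 2 * e) :
    |g| ≤ e + 1 := by
  have h1 : (((t + e) % 2 ^ (b + 1) : ℕ) : ℤ) ≡ g - d + e [ZMOD ((2 ^ (b + 1) : ℕ) : ℤ)] := by
    rw [Int.natCast_mod]
    refine (Int.mod_modEq _ _).trans ?_
    rw [Nat.cast_add]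
    exact hm.add_right _
  obtain ⟨z, hz⟩ := h1.dvd
  have h2 : (((t + e) % 2 ^ (b + 1) : ℕ) : ℤ) ≤ 2 * e := by exact_mod_cast h
  have h3 : (0 : ℤ) ≤ (((t + e) % 2 ^ (b + 1) : ℕ) : ℤ) := Int.natCast_nonneg _
  have h4 : ((2 ^ (b + 1) : ℕ) : ℤ) = 2 * ((2 ^ b : ℕ) : ℤ) := by push_cast; ring
  have h5 : (e : ℤ) < ((2 ^ b : ℕ) : ℤ) := by exact_mod_cast he
  rw [h4] at hz
  set r : ℤ := (((t + e) % 2 ^ (b + 1) : ℕ) : ℤ) with hr
  set o : ℤ := ((2 ^ b : ℕ) : ℤ) with ho
  rw [abs_lt] at hg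
  have hz0 : z = 0 := by
    have ho0 : 0 < o := by omega
    by_contra hne
    rcases lt_or_gt_of_ne hne with hlt | hgt
    · have : 2 * o * z ≤ -(2 * o) := by nlinarith
      omega
    · have : 2 * o ≤ 2 * o * z := by nlinarith
      omega
  rw [hz0, mul_zero] at hz
  rw [abs_le]
  omega

/-- the diagonal -/
theorem dia_bound {b T P D t : ℕ} {g d : ℤ} (hd : d = 0 ∨ d = 1)
    (hm : (t : ℤ) ≡ g - d [ZMOD ((2 ^ (b + 1) : ℕ) : ℤ)]) (hg : |g| < (2 ^ b : ℕ)) (h : dia b T P D t = true) :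
    (T : ℤ) + D ≤ g + P := by
  have h2 : T + D + 2 ^ b ≤ (t + 2 ^ b) % 2 ^ (b + 1) + P := Nat.le_of_ble_eq_true h
  have h1 : (((t + 2 ^ b) % 2 ^ (b + 1) : ℕ) : ℤ) ≡ g - d + (2 ^ b : ℕ) [ZMOD ((2 ^ (b + 1) : ℕ) : ℤ)] := by
    rw [Int.natCast_mod]
    refine (Int.mod_modEq _ _).trans ?_
    rw [Nat.cast_add]
    exact hm.add_right _
  obtain ⟨z, hz⟩ := h1.dvd
  have h4 : ((2 ^ (b + 1) : ℕ) : ℤ) = 2 * ((2 ^ b : ℕ) : ℤ) := by push_cast; ring
  have h5 : (((t + 2 ^ b) % 2 ^ (b + 1) : ℕ) : ℤ) < ((2 ^ (b + 1) : ℕ) : ℤ) := by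
    exact_mod_cast Nat.mod_lt _ (by positivity)
  have h3 : (0 : ℤ) ≤ (((t + 2 ^ b) % 2 ^ (b + 1) : ℕ) : ℤ) := Int.natCast_nonneg _
  have h6 : (T : ℤ) + D + (2 ^ b : ℕ) ≤ (((t + 2 ^ b) % 2 ^ (b + 1) : ℕ) : ℤ) + P := by exact_mod_cast h2
  rw [h4] at hz h5
  set o : ℤ := ((2 ^ b : ℕ) : ℤ) with ho
  set r : ℤ := (((t + 2 ^ b) % 2 ^ (b + 1) : ℕ) : ℤ) with hr
  rw [abs_lt] at hg
  have ho0 : 0 < o := by omega
  have hz0 : z = 0 := by
    by_contra hne
    rcases lt_or_gt_of_ne hne with hlt | hgt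
    · have : 2 * o * z ≤ -(2 * o) := by nlinarith
      omega
    · have : 2 * o ≤ 2 * o * z := by nlinarith
      omega
  rw [hz0, mul_zero] at hz
  omega

/-- the form of a symmetric matrix with small entries off the diagonal -/
theorem form_ge {N e T : ℕ} {P D : List ℕ} (g : ℕ → ℕ → ℤ) (hs : ∀ i j, g i j = g j i)
    (ho : ∀ i j, i < j → j < N → |g i j| ≤ e + 1)
    (hd : ∀ i < N, (T : ℤ) + D.getD i 0 ≤ g i i + P.getD i 0) (v : ℕ → ℝ) :
    ((T : ℝ) - N * (e + 1)) * sqv N v ≤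
      (∑ i ∈ Finset.range N, ∑ j ∈ Finset.range N, (g i j : ℝ) * (v i * v j)) + dgv N P D v := by
  have h1 : ∀ i ∈ Finset.range N, ∀ j ∈ Finset.range N,
      (if i = j then ((T : ℝ) - ((P.getD i 0 : ℝ) - (D.getD i 0 : ℝ))) * v i ^ 2 else 0) -
        (e + 1) * ((v i ^ 2 + v j ^ 2) / 2) ≤ (g i j : ℝ) * (v i * v j) := by
    intro i hi j hj
    rw [Finset.mem_range] at hi hj
    by_cases hij : i = j
    · subst hij
      rw [if_pos rfl]
      have h2 : (T : ℝ) + (D.getD i 0 : ℝ) ≤ (g i i : ℝ) + (P.getD i 0 : ℝ) := by exact_mod_cast hd i hi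
      have h3 := sq_nonneg (v i)
      have h4 : (0 : ℝ) ≤ (e + 1) * ((v i ^ 2 + v i ^ 2) / 2) := by positivity
      nlinarith
    · rw [if_neg hij]
      have h2 : |g i j| ≤ e + 1 := by
        rcases lt_or_gt_of_ne hij with h | h
        · exact ho i j h hj
        · rw [hs]; exact ho j i h hi
      have h3 : |(g i j : ℝ)| ≤ e + 1 := by
        rw [← Int.cast_abs]
        exact_mod_cast h2
      have h4 : |v i * v j| ≤ (v i ^ 2 + v j ^ 2) / 2 := by
        rw [abs_le]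
        constructor <;> nlinarith [sq_nonneg (v i + v j), sq_nonneg (v i - v j)]
      have h5 : |(g i j : ℝ) * (v i * v j)| ≤ (e + 1) * ((v i ^ 2 + v j ^ 2) / 2) := by
        rw [abs_mul]
        exact mul_le_mul h3 h4 (abs_nonneg _) (by positivity)
      have h6 := (abs_le.1 h5).1
      linarith
  have h2 : ∑ i ∈ Finset.range N, ∑ j ∈ Finset.range N,
      ((if i = j then ((T : ℝ) - ((P.getD i 0 : ℝ) - (D.getD i 0 : ℝ))) * v i ^ 2 else 0) -
        (e + 1) * ((v i ^ 2 + v j ^ 2) / 2)) ≤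
      ∑ i ∈ Finset.range N, ∑ j ∈ Finset.range N, (g i j : ℝ) * (v i * v j) :=
    Finset.sum_le_sum fun i hi => Finset.sum_le_sum fun j hj => h1 i hi j hj
  have h3 : ∑ i ∈ Finset.range N, ∑ j ∈ Finset.range N,
      ((if i = j then ((T : ℝ) - ((P.getD i 0 : ℝ) - (D.getD i 0 : ℝ))) * v i ^ 2 else 0) -
        (e + 1) * ((v i ^ 2 + v j ^ 2) / 2)) =
      ((T : ℝ) - N * (e + 1)) * sqv N v - dgv N P D v := by
    have e1 : ∀ i ∈ Finset.range N, ∑ j ∈ Finset.range N,
        ((if i = j then ((T : ℝ) - ((P.getD i 0 : ℝ) - (D.getD i 0 : ℝ))) * v i ^ 2 else 0) -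
        (e + 1) * ((v i ^ 2 + v j ^ 2) / 2)) =
        ((T : ℝ) - ((P.getD i 0 : ℝ) - (D.getD i 0 : ℝ))) * v i ^ 2 -
          (e + 1) * ((N * v i ^ 2 + sqv N v) / 2) := by
      intro i hi
      rw [Finset.sum_sub_distrib, Finset.sum_ite_eq, if_pos hi, ← Finset.mul_sum]
      congr 2
      unfold sqv
      rw [← Finset.sum_div, Finset.sum_add_distrib, Finset.sum_const, Finset.card_range, nsmul_eq_mul]
    rw [Finset.sum_congr rfl e1, Finset.sum_sub_distrib, ← Finset.mul_sum, ← Finset.sum_div, Finset.sum_add_distrib,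
      ← Finset.mul_sum, Finset.sum_const, Finset.card_range, nsmul_eq_mul]
    have e2 : ∑ i ∈ Finset.range N, ((T : ℝ) - ((P.getD i 0 : ℝ) - (D.getD i 0 : ℝ))) * v i ^ 2 =
        (T : ℝ) * sqv N v - dgv N P D v := by
      unfold sqv dgv
      rw [Finset.mul_sum, ← Finset.sum_sub_distrib]
      exact Finset.sum_congr rfl fun i _ => by ring
    rw [e2]
    have e3 : ∑ i ∈ Finset.range N, v i ^ 2 = sqv N v := rfl
    rw [e3]
    ring
  linarith


/-- **soundness** -/
theorem sound {b r mm N e T : ℕ} {L : List Blk} {P D : List ℕ} (h : ok b r mm N e T L P D = true) (v : ℕ → ℝ) :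
    ((T : ℝ) - N * (e + 1)) * sqv N v ≤ (L.map (Blk.val b N v)).sum + dgv N P D v := by
  simp only [ok, ok1, Bool.cond_false_right, Bool.and_eq_true] at h
  obtain ⟨h1, h2, h3, h4, h5, h6, h7, h8⟩ := h
  have w1 : wt L * 2 ^ (2 * r) < 2 ^ b := Nat.le_of_ble_eq_true h1
  have w2 : nd L ≤ 2 ^ mm := Nat.le_of_ble_eq_true h2
  have w3 : 1 ≤ nd L := Nat.le_of_ble_eq_true h3
  have w4 : r < b := Nat.le_of_ble_eq_true h4
  have w5 : e < 2 ^ b := Nat.le_of_ble_eq_true h5
  have w7 : (uu b N L).length = N := Nat.eq_of_beq_eq_true h7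
  have hpow : Nat.pow 2 (Nat.mul (Nat.succ b) (nd L)) = (2 ^ (b + 1)) ^ nd L := by
    show 2 ^ ((b + 1) * nd L) = _
    rw [pow_mul]
  rw [hpow] at h8
  obtain ⟨o1, o2, o3⟩ := out_spec h8
  rw [ru_length, rv_length] at o1
  rw [ru_length] at o2 o3
  rw [w7] at o1 o2 o3
  -- bounds of the digits
  have hdig : ∀ i < N, ∀ c ∈ vL b i L, c.natAbs ≤ 2 ^ r := by
    intro i hi c hc
    have hi' : i < (vv b N L).length := by omega
    obtain ⟨l1, l2⟩ := vv_ls b N L i hi'
    obtain ⟨k1, k2⟩ := okd_spec _ _ _ h6 i hi'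
    have hon : on b (nd L) = gs (2 ^ (b + 1)) (nd L) := on_eq _ _
    rw [hon] at k1 k2
    have key := okd_digit b r (nd L) _ w4 l2 k1 k2
    rw [← l1] at hc
    obtain ⟨j, hj, rfl⟩ := List.mem_iff_getElem.1 hc
    have hj' : j < nd L := by rwa [length_ls] at hj
    have h9 := ls_getD b (nd L) ((vv b N L).getD i 0) j hj'
    rw [List.getD_eq_getElem _ _ hj] at h9
    rw [h9]
    have := key j hj'
    rw [Int.abs_eq_natAbs] at this
    exact_mod_cast this
  have hent : ∀ i < N, ∀ j < N, ∃ d : ℤ, (d = 0 ∨ d = 1) ∧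
      ((mid ((b + 1) * (nd L - 1)) (2 ^ (b + 1))
        ((ru ((2 ^ (b + 1)) ^ nd L - kk b L % (2 ^ (b + 1)) ^ nd L) ((2 ^ (b + 1)) ^ nd L) (uu b N L)).getD i 0)
        ((rv (b + 1) mm ((b + 1) * (2 ^ mm - nd L)) (mks (b + 1) mm 1) ((2 ^ (b + 1)) ^ nd L - of b (nd L))
          ((2 ^ (b + 1)) ^ nd L) (vv b N L)).getD j 0) : ℕ) : ℤ) ≡ gL b i j L - d [ZMOD ((2 ^ (b + 1) : ℕ) : ℤ)] ∧
      |gL b i j L| < (2 ^ b : ℕ) := by
    intro i hi j hj
    exact entry w2 w3 w1 (by omega) (by omega) (hdig i hi) (hdig j hj) _ _ (ru_getD _ _ _ _ (by omega))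
      (rv_getD _ _ _ _ _ _ _ _ (by omega))
  rw [← gL_val]
  refine form_ge (fun i j => gL b i j L) (fun i j => gL_symm b i j L) ?_ ?_ v
  · intro i j hij hj
    obtain ⟨d, hd, hm, hg⟩ := hent i (by omega) j hj
    exact off_bound hd w5 hm hg (o3 i j hij hj)
  · intro i hi
    obtain ⟨d, hd, hm, hg⟩ := hent i hi i hi
    exact dia_bound hd hm hg (o2 i hi)

end Helper25.SH.Mat
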