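import Pool.Agent.Helper48.SH.TBN2

/-!
# Project SHARP (MP_b21509_co), link (4): one root cell of the subdivision tree

`cell`: the tree `code` of the root cell (data of a leaf of type 4: 268 bits, type 5: 320 bits, type 6: 328 bits, type 7: 1 bit).
-/

set_option autoImplicit false

namespace Pool.Agent.Helper25.SH

/-- the statement of the root cell `[x, x + u] × [y, y + v]` with the number `F` -/
def Cell (F x u y v : ℕ) : Prop := AllIn 1048576 (PG F) ⟨x, u, y, v, 131072, 5505024, 131072, 2621440⟩

theorem cell (F n code x u y v : ℕ) (h : run (leaf Pool.Agent.Helper48.TBN.leaf6 F) 268 320 328 1 n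
    [⟨x, u, y, v, 131072, 5505024, 131072, 2621440⟩] code = true) : Cell F x u y v :=
  run_good Pool.Agent.Helper48.TBN.leaf6 Pool.Agent.Helper48.TBN.leaf6_sound F 328 n code _ h

end Pool.Agent.Helper25.SH
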