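import Pool.Agent.Helper25.SH.Wid
import Pool.Agent.Helper25.SH.MatU

/-!
# Columns of the Cholesky block from compact numbers

No property of these numbers is needed: the block is subtracted.
-/

set_option autoImplicit false

namespace Helper25.SH.Mat

open Helper54.RC.Fast Helper76.RC.TPoly Helper25.SH.Dot Helper95.SH Helper54.RC

/-- the column `i` has the digits `0, .., i` in base `2 ^ w` with the offset `2 ^ (w - 1)`; they are multiplied by `2 ^ t` -/
def cholL (w b mm : ℕ) (ms : List ℕ) (OF C t : ℕ) : ℕ → List ℕ → List ℕ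
  | _, [] => []
  | i, x :: X =>
    Nat.sub (Nat.add (Nat.shiftLeft (wl w (Nat.succ b) mm ms x) t) OF) (Nat.mul C (on b (Nat.succ i))) ::
      cholL w b mm ms OF C t (Nat.succ i) X
/-- all columns, `N ≤ 2 ^ mm` -/
def chol (w b mm N t : ℕ) (X : List ℕ) : List ℕ :=
  cholL w b mm (msw w (Nat.succ b) mm 1) (of b N) (Nat.shiftLeft (Nat.pow 2 (Nat.pred w)) t) t 0 X

end Helper25.SH.Mat
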