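import Pool.Agent.Helper76.SH.Defs

/-!
# MP_506470_co : set-homogeneous graphs with finite clique number, definitions
-/

namespace SetHom

variable {V : Type}

/-- No vertex of `S` is adjacent to all other vertices of `S`
(`∅` qualifies, singletons do not). -/
def NonDom (G : SimpleGraph V) (S : Finset V) : Prop :=
  ∀ s ∈ S, ∃ t ∈ S, t ≠ s ∧ ¬ G.Adj s t

/-- Weak set-homogeneity: set-homogeneity for non-dominated sets only. -/
def WSH (G : SimpleGraph V) : Prop :=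
  ∀ U W : Finset V, NonDom G U → Nonempty (G.induce (U : Set V) ≃g G.induce (W : Set V)) →
    ∃ φ : G ≃g G, φ '' (U : Set V) = (W : Set V)

/-- The link of a vertex: the graph induced on its neighbourhood. -/
abbrev Link (G : SimpleGraph V) (v : V) : SimpleGraph (G.neighborSet v) :=
  G.induce (G.neighborSet v)

/-- `HH n G`: `G` is weakly set-homogeneous, all its links are isomorphic, and the links satisfy
`HH (n-1)`. -/
def HH : ℕ → ∀ {V : Type}, SimpleGraph V → Prop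
  | 0, _, _ => True
  | n + 1, _, G => WSH G ∧ (∀ v w, Nonempty (Link G v ≃g Link G w)) ∧ ∀ v, HH n (Link G v)

/-- On the set `S` of vertices the graph is a disjoint union of cliques. -/
def P3F (G : SimpleGraph V) (S : Set V) : Prop :=
  ∀ a ∈ S, ∀ b ∈ S, ∀ c ∈ S, G.Adj a b → G.Adj b c → a ≠ c → G.Adj a c

/-- On the set `S` of vertices the graph is complete multipartite. -/
def CMP (G : SimpleGraph V) (S : Set V) : Prop :=
  ∀ a ∈ S, ∀ b ∈ S, ∀ c ∈ S, ¬ G.Adj a b → ¬ G.Adj b c → ¬ G.Adj a c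

/-- The extension property of the generic `K_{n+1}`-free graph, on the set `S` of vertices. -/
def EXT (n : ℕ) (G : SimpleGraph V) (S : Set V) : Prop :=
  ∀ A B : Finset V, (A : Set V) ⊆ S → (B : Set V) ⊆ S → Disjoint A B →
    G.CliqueFreeOn (A : Set V) n →
    ∃ c ∈ S, c ∉ B ∧ (∀ a ∈ A, G.Adj c a) ∧ ∀ b ∈ B, ¬ G.Adj c b

/-- `b` is the middle of the independent triple `a, b, c` in `S`: the traces on `{a, b, c}` of
vertices of `S` are never `{a, c}` or `{b}`, while `{a, b}` and `{b, c}` are traces. -/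
structure Mid (G : SimpleGraph V) (S : Set V) (a b c : V) : Prop where
  ma : a ∈ S
  mb : b ∈ S
  mc : c ∈ S
  ab : a ≠ b
  bc : b ≠ c
  ac : a ≠ c
  nab : ¬ G.Adj a b
  nbc : ¬ G.Adj b c
  nac : ¬ G.Adj a c
  conv : ∀ u ∈ S, G.Adj u a → G.Adj u c → G.Adj u b
  ray : ∀ u ∈ S, G.Adj u b → G.Adj u a ∨ G.Adj u c
  left : ∃ u ∈ S, G.Adj u a ∧ G.Adj u b ∧ ¬ G.Adj u c
  right : ∃ u ∈ S, G.Adj u b ∧ G.Adj u c ∧ ¬ G.Adj u a

/-- The ray type: what we use of the graph `R(3)ᶜ`, on the set `S` of vertices. -/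
structure RayOn (G : SimpleGraph V) (S : Set V) : Prop where
  tf : ∀ a ∈ S, ∀ b ∈ S, ∀ c ∈ S, G.Adj a b → G.Adj b c → G.Adj a c → False
  inter : ∀ u ∈ S, ∀ v ∈ S, u ≠ v → ¬ G.Adj u v →
    {x ∈ S | G.Adj u x ∧ G.Adj v x}.Infinite
  diff : ∀ u ∈ S, ∀ v ∈ S, u ≠ v → ¬ G.Adj u v →
    {x ∈ S | G.Adj u x ∧ ¬ G.Adj v x}.Infinite
  common : ∀ I : Finset V, (I : Set V) ⊆ S → Indep G I →
    {v ∈ S | ∀ x ∈ I, G.Adj v x}.Infinite
  mid : ∀ a ∈ S, ∀ b ∈ S, ∀ c ∈ S, a ≠ b → b ≠ c → a ≠ c → ¬ G.Adj a b → ¬ G.Adj b c →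
    ¬ G.Adj a c → Mid G S a b c ∨ Mid G S b a c ∨ Mid G S a c b
  quad : ∀ I : Finset V, (I : Set V) ⊆ S → Indep G I → I.card = 4 →
    ∃ a b c d, (I : Set V) = {a, b, c, d} ∧ Mid G S a b c ∧ Mid G S a b d ∧ Mid G S a c d ∧ Mid G S b c d
  beyond : ∀ c ∈ S, ∀ e ∈ S, c ≠ e → ¬ G.Adj c e → ∃ a ∈ S, Mid G S a c e
  two : ∃ a ∈ S, ∃ b ∈ S, ∃ c ∈ S, ∃ d ∈ S, G.Adj a b ∧ G.Adj c d ∧ ¬ G.Adj a c ∧
    ¬ G.Adj a d ∧ ¬ G.Adj b c ∧ ¬ G.Adj b d

end SetHom
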