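import Pool.Agent.Helper25.SH.Tools

/-!
# MP_506470_co, finite clique number: structures shared by the modules
-/

namespace SetHom

variable {V : Type}

/-- basic facts on a triangle-free weakly set-homogeneous graph of infinite degree without twins -/
structure Base (G : SimpleGraph V) : Prop where
  hW : WSH G
  tf : TF G
  infdeg : ∀ v, (G.neighborSet v).Infinite
  inter : ∀ u v, u ≠ v → ¬ G.Adj u v → {x | G.Adj u x ∧ G.Adj v x}.Infinite
  diff : ∀ u v, u ≠ v → ¬ G.Adj u v → {x | G.Adj u x ∧ ¬ G.Adj v x}.Infinite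
  common : ∀ I : Finset V, Indep G I → {v | ∀ x ∈ I, G.Adj v x}.Infinite
  ne : Nonempty V

/-- basic facts on a weakly set-homogeneous graph whose links are generic -/
structure Gen (n : ℕ) (G : SimpleGraph V) : Prop where
  hn : 3 ≤ n
  hW : WSH G
  hK : G.CliqueFree (n + 1)
  cn : ∀ S : Finset V, G.CliqueFreeOn (S : Set V) n → ∃ v, ∀ s ∈ S, G.Adj v s
  ext : ∀ D t F : Finset V, G.CliqueFreeOn (D : Set V) n → t ⊆ D →
    G.CliqueFreeOn (t : Set V) (n - 1) → ∃ c, c ∉ F ∧ c ∉ D ∧ ∀ x ∈ D, (G.Adj c x ↔ x ∈ t)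

/-- a weakly set-homogeneous graph all whose links are of ray type -/
structure RL (G : SimpleGraph V) : Prop where
  hW : WSH G
  hK : G.CliqueFree 4
  hR : ∀ v, RayOn G (G.neighborSet v)
  ne : Nonempty V

end SetHom
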