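import Pool.Agent.Helper54.RC.Fast4

/-!
# Scalar products of integer vectors by one multiplication

`X ≡ ∑ a c B ^ c`, `Y ≡ ∑ b (n - 1 - c) B ^ c (mod B ^ n)`: the digit `n - 1` of `X Y` is the scalar product of `a` and `b`, or
that minus one, modulo `B`, if all convolutions are small.
-/

set_option autoImplicit false

namespace Helper25.SH.Dot

/-- the convolution -/
def cv (a b : ℕ → ℤ) (k : ℕ) : ℤ := ∑ j ∈ Finset.range (k + 1), a j * b (k - j)

/-- the number -/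
def va (B : ℤ) (n : ℕ) (a : ℕ → ℤ) : ℤ := ∑ c ∈ Finset.range n, a c * B ^ c

theorem va_mul (B : ℤ) (n : ℕ) (a b : ℕ → ℤ) :
    ∃ z : ℤ, va B n a * va B n b = (∑ k ∈ Finset.range n, cv a b k * B ^ k) + B ^ n * z := by
  have h1 : ∀ c ∈ Finset.range n, ∃ z : ℤ, va B n b = va B (n - c) b + B ^ (n - c) * z := by
    intro c hc
    have hc' : c ≤ n := (Finset.mem_range.1 hc).le
    refine ⟨∑ d ∈ Finset.range c, b (n - c + d) * B ^ d, ?_⟩
    unfold va
    have e : n = (n - c) + c := by omega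
    conv_lhs => rw [e, Finset.sum_range_add]
    congr 1
    rw [Finset.mul_sum]
    refine Finset.sum_congr rfl fun d _ => ?_
    rw [pow_add]
    ring
  choose! z hz using h1
  refine ⟨∑ c ∈ Finset.range n, a c * z c, ?_⟩
  have h2 : va B n a * va B n b = ∑ c ∈ Finset.range n, (a c * B ^ c * va B (n - c) b + B ^ n * (a c * z c)) := by
    conv_lhs => rw [va, Finset.sum_mul]
    refine Finset.sum_congr rfl fun c hc => ?_
    rw [hz c hc]
    have e : B ^ n = B ^ c * B ^ (n - c) := by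
      rw [← pow_add]
      congr 1
      have := Finset.mem_range.1 hc
      omega
    rw [e]
    ring
  rw [h2, Finset.sum_add_distrib, ← Finset.mul_sum]
  congr 1
  have h3 := Finset.sum_range_diag_flip n (fun k m => a k * b m * B ^ (k + m))
  have h4 : ∑ c ∈ Finset.range n, a c * B ^ c * va B (n - c) b =
      ∑ m ∈ Finset.range n, ∑ k ∈ Finset.range (n - m), a m * b k * B ^ (m + k) := by
    refine Finset.sum_congr rfl fun c _ => ?_
    unfold va
    rw [Finset.mul_sum]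
    refine Finset.sum_congr rfl fun k _ => ?_
    rw [pow_add]
    ring
  rw [h4, ← h3]
  refine Finset.sum_congr rfl fun m _ => ?_
  unfold cv
  rw [Finset.sum_mul]
  refine Finset.sum_congr rfl fun k hk => ?_
  have : k + (m - k) = m := by
    have := Finset.mem_range.1 hk
    omega
  rw [this]

/-- scalar product -/
def dt (n : ℕ) (a b : ℕ → ℤ) : ℤ := ∑ c ∈ Finset.range n, a c * b c

theorem low_lt (B : ℤ) (hB : 2 ≤ B) (n : ℕ) (w : ℕ → ℤ) (hw : ∀ k < n, 2 * |w k| ≤ B) :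
    |∑ k ∈ Finset.range n, w k * B ^ k| ≤ B ^ n := by
  induction n with
  | zero => simp
  | succ n ih =>
    rw [Finset.sum_range_succ]
    have h1 := ih fun k hk => hw k (by omega)
    have h2 := hw n (by omega)
    have hp : 0 < B ^ n := by positivity
    have h3 : |w n * B ^ n| = |w n| * B ^ n := by rw [abs_mul, abs_of_pos hp]
    have h4 := abs_add_le (∑ k ∈ Finset.range n, w k * B ^ k) (w n * B ^ n)
    rw [h3] at h4
    rw [pow_succ]
    have h5 : 2 * (|w n| * B ^ n) ≤ B * B ^ n := by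
      calc 2 * (|w n| * B ^ n) = (2 * |w n|) * B ^ n := by ring
        _ ≤ B * B ^ n := mul_le_mul_of_nonneg_right h2 hp.le
    nlinarith

theorem low_lt' (B : ℤ) (hB : 2 ≤ B) (n : ℕ) (w : ℕ → ℤ) (hw : ∀ k < n, 2 * |w k| < B) :
    |∑ k ∈ Finset.range n, w k * B ^ k| < B ^ n := by
  cases n with
  | zero => simp
  | succ n =>
    rw [Finset.sum_range_succ]
    have h1 := low_lt B hB n w fun k hk => (hw k (by omega)).le
    have h2 := hw n (by omega)
    have hp : 0 < B ^ n := by positivity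
    have h3 : |w n * B ^ n| = |w n| * B ^ n := by rw [abs_mul, abs_of_pos hp]
    have h4 := abs_add_le (∑ k ∈ Finset.range n, w k * B ^ k) (w n * B ^ n)
    rw [h3] at h4
    rw [pow_succ]
    have h5 : 2 * (|w n| * B ^ n) < B * B ^ n := by
      calc 2 * (|w n| * B ^ n) = (2 * |w n|) * B ^ n := by ring
        _ < B * B ^ n := mul_lt_mul_of_pos_right h2 hp
    nlinarith

/-- the middle digit -/
theorem mid_digit {B n : ℕ} (hB : 2 ≤ B) (a b : ℕ → ℤ) {X Y : ℕ}
    (hX : ((X : ℤ)) ≡ va B (n + 1) a [ZMOD (B : ℤ) ^ (n + 1)])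
    (hY : ((Y : ℤ)) ≡ va B (n + 1) (fun c => b (n - c)) [ZMOD (B : ℤ) ^ (n + 1)])
    (hc : ∀ k < n, 2 * |cv a (fun c => b (n - c)) k| < B) :
    ∃ d : ℤ, (d = 0 ∨ d = 1) ∧ ((((X * Y) / B ^ n % B : ℕ)) : ℤ) ≡ dt (n + 1) a b - d [ZMOD (B : ℤ)] := by
  set b' : ℕ → ℤ := fun c => b (n - c) with hb'
  obtain ⟨z, hz⟩ := va_mul (B : ℤ) (n + 1) a b'
  have hB0 : (0 : ℤ) < B := by exact_mod_cast (by omega : 0 < B)
  have hB2 : (2 : ℤ) ≤ B := by exact_mod_cast hB
  have hBn : (0 : ℤ) < (B : ℤ) ^ n := by positivity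
  have h1 : ((X * Y : ℕ) : ℤ) ≡ va B (n + 1) a * va B (n + 1) b' [ZMOD (B : ℤ) ^ (n + 1)] := by
    push_cast
    exact hX.mul hY
  obtain ⟨y, hy⟩ := h1.symm.dvd
  have htop : cv a b' n = dt (n + 1) a b := by
    unfold cv dt
    refine Finset.sum_congr rfl fun k hk => ?_
    rw [hb']
    simp only
    have := Finset.mem_range.1 hk
    congr 2
    omega
  set lo : ℤ := ∑ k ∈ Finset.range n, cv a b' k * (B : ℤ) ^ k with hlo
  have hl : |lo| < (B : ℤ) ^ n := low_lt' _ hB2 _ _ hc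
  have h2 : ((X * Y : ℕ) : ℤ) = lo + (B : ℤ) ^ n * (dt (n + 1) a b + B * (z + y)) := by
    have e1 : ((X * Y : ℕ) : ℤ) = va B (n + 1) a * va B (n + 1) b' + (B : ℤ) ^ (n + 1) * y := by linarith
    rw [e1, hz, Finset.sum_range_succ, htop, pow_succ]
    ring
  have h3 : (((X * Y) / B ^ n : ℕ) : ℤ) = ((X * Y : ℕ) : ℤ) / (B : ℤ) ^ n := by push_cast; rfl
  have h4 : ((X * Y : ℕ) : ℤ) / (B : ℤ) ^ n = lo / (B : ℤ) ^ n + (dt (n + 1) a b + B * (z + y)) := by
    rw [h2, Int.add_mul_ediv_left _ _ hBn.ne']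
  have h5 : lo / (B : ℤ) ^ n = 0 ∨ lo / (B : ℤ) ^ n = -1 := by
    rw [abs_lt] at hl
    by_cases h0 : 0 ≤ lo
    · left
      exact Int.ediv_eq_zero_of_lt h0 hl.2
    · right
      push Not at h0
      rw [Int.ediv_eq_iff_of_pos hBn]
      constructor <;> nlinarith
  have h6 : ((((X * Y) / B ^ n % B : ℕ)) : ℤ) ≡ (((X * Y) / B ^ n : ℕ) : ℤ) [ZMOD (B : ℤ)] := by
    push_cast
    exact Int.mod_modEq _ _
  rcases h5 with h5 | h5
  · refine ⟨0, Or.inl rfl, h6.trans ?_⟩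
    rw [h3, h4, h5]
    rw [zero_add, sub_zero]
    refine Int.ModEq.symm ((Int.modEq_iff_dvd).2 ⟨z + y, by ring⟩)
  · refine ⟨1, Or.inr rfl, h6.trans ?_⟩
    rw [h3, h4, h5]
    refine Int.ModEq.symm ((Int.modEq_iff_dvd).2 ⟨z + y, by ring⟩)

end Helper25.SH.Dot
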