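import Mathlib

/-!
# Project SHARP (MP_b21509_co), link (4): tree runner for the kernel

A box in four variables is given by natural numbers: `[x, x + u] × [y, y + v] × [a, a + p] × [e, e + q]`.
The whole bisection tree below a list of boxes is one natural number (`code`), read from the low end: `op = code % 8`;
`op = 0, 1, 2, 3`: bisect along the variable `0, 1, 2, 3`; `op ≥ 4`: a leaf of type `op`, with `L` bits of data.
-/

set_option autoImplicit false

namespace Pool.Agent.Helper25.SH

/-- a box -/
structure Bx where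
  x : ℕ
  u : ℕ
  y : ℕ
  v : ℕ
  a : ℕ
  p : ℕ
  e : ℕ
  q : ℕ

/-- one step and continue; `leaf op data x u y v a p e q` -/
def run (leaf : ℕ → ℕ → ℕ → ℕ → ℕ → ℕ → ℕ → ℕ → ℕ → ℕ → Bool) (L4 L5 L6 L7 : ℕ) (n : ℕ) :
    List Bx → ℕ → Bool :=
  Nat.rec (motive := fun _ => List Bx → ℕ → Bool) (fun _ _ => false)
    (fun _ ih st code =>
      match st with
      | [] => true
      | ⟨x, u, y, v, a, p, e, q⟩ :: st =>
        let op := Nat.mod code 8
        let c := Nat.div code 8
        bif Nat.beq op 0 then
          ih (⟨x, Nat.div u 2, y, v, a, p, e, q⟩ ::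
            ⟨Nat.add x (Nat.div u 2), Nat.sub u (Nat.div u 2), y, v, a, p, e, q⟩ :: st) c
        else bif Nat.beq op 1 then
          ih (⟨x, u, y, Nat.div v 2, a, p, e, q⟩ ::
            ⟨x, u, Nat.add y (Nat.div v 2), Nat.sub v (Nat.div v 2), a, p, e, q⟩ :: st) c
        else bif Nat.beq op 2 then
          ih (⟨x, u, y, v, a, Nat.div p 2, e, q⟩ ::
            ⟨x, u, y, v, Nat.add a (Nat.div p 2), Nat.sub p (Nat.div p 2), e, q⟩ :: st) c
        else bif Nat.beq op 3 then
          ih (⟨x, u, y, v, a, p, e, Nat.div q 2⟩ ::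
            ⟨x, u, y, v, a, p, Nat.add e (Nat.div q 2), Nat.sub q (Nat.div q 2)⟩ :: st) c
        else
          let L := bif Nat.beq op 4 then L4 else bif Nat.beq op 5 then L5 else
            bif Nat.beq op 6 then L6 else L7
          bif leaf op (Nat.mod c (Nat.pow 2 L)) x u y v a p e q then ih st (Nat.div c (Nat.pow 2 L))
          else false) n

/-- `P` holds for all points of the box (in units `1 / N`) -/
def AllIn (N : ℝ) (P : ℝ → ℝ → ℝ → ℝ → Prop) (B : Bx) : Prop :=
  ∀ x y a e : ℝ, B.x ≤ N * x → N * x ≤ B.x + B.u → B.y ≤ N * y → N * y ≤ B.y + B.v →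
    B.a ≤ N * a → N * a ≤ B.a + B.p → B.e ≤ N * e → N * e ≤ B.e + B.q → P x y a e

theorem half_cast (u : ℕ) : ((u - u / 2 : ℕ) : ℝ) = u - (u / 2 : ℕ) := by
  rw [Nat.cast_sub (Nat.div_le_self _ _)]

/-- soundness of the runner -/
theorem run_sound (leaf : ℕ → ℕ → ℕ → ℕ → ℕ → ℕ → ℕ → ℕ → ℕ → ℕ → Bool) (L4 L5 L6 L7 : ℕ) (N : ℝ)
    (P : ℝ → ℝ → ℝ → ℝ → Prop)
    (hleaf : ∀ op d x u y v a p e q, leaf op d x u y v a p e q = true →
      AllIn N P ⟨x, u, y, v, a, p, e, q⟩) (n : ℕ) :
    ∀ (st : List Bx) (code : ℕ), run leaf L4 L5 L6 L7 n st code = true → ∀ B ∈ st, AllIn N P B := by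
  induction n with
  | zero =>
    intro st code h
    exact absurd h (by simp [run])
  | succ n ih =>
    intro st code h B hB
    cases st with
    | nil => exact absurd hB (by simp)
    | cons B0 st =>
      obtain ⟨x, u, y, v, a, p, e, q⟩ := B0
      have hstep : run leaf L4 L5 L6 L7 (n + 1) (⟨x, u, y, v, a, p, e, q⟩ :: st) code =
        (let op := code % 8
        let c := code / 8
        bif Nat.beq op 0 then
          run leaf L4 L5 L6 L7 n (⟨x, u / 2, y, v, a, p, e, q⟩ ::
            ⟨x + u / 2, u - u / 2, y, v, a, p, e, q⟩ :: st) c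
        else bif Nat.beq op 1 then
          run leaf L4 L5 L6 L7 n (⟨x, u, y, v / 2, a, p, e, q⟩ ::
            ⟨x, u, y + v / 2, v - v / 2, a, p, e, q⟩ :: st) c
        else bif Nat.beq op 2 then
          run leaf L4 L5 L6 L7 n (⟨x, u, y, v, a, p / 2, e, q⟩ ::
            ⟨x, u, y, v, a + p / 2, p - p / 2, e, q⟩ :: st) c
        else bif Nat.beq op 3 then
          run leaf L4 L5 L6 L7 n (⟨x, u, y, v, a, p, e, q / 2⟩ ::
            ⟨x, u, y, v, a, p, e + q / 2, q - q / 2⟩ :: st) c
        else
          let L := bif Nat.beq op 4 then L4 else bif Nat.beq op 5 then L5 else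
            bif Nat.beq op 6 then L6 else L7
          bif leaf op (c % 2 ^ L) x u y v a p e q then run leaf L4 L5 L6 L7 n st (c / 2 ^ L)
            else false) := rfl
      rw [hstep] at h
      dsimp only at h
      generalize (bif Nat.beq (code % 8) 4 then L4 else bif Nat.beq (code % 8) 5 then L5 else
        bif Nat.beq (code % 8) 6 then L6 else L7) = L at h
      simp only [cond_eq_ite] at h
      rw [List.mem_cons] at hB
      split_ifs at h with h0 h1 h2 h3 h4
      · have h5 := ih _ _ h
        rcases hB with rfl | hB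
        · intro X Y A E g1 g2 g3 g4 g5 g6 g7 g8
          have l1 := h5 _ (List.mem_cons_self) X Y A E
          have l2 := h5 _ (List.mem_cons_of_mem _ List.mem_cons_self) X Y A E
          have e1 := half_cast u
          simp only [Nat.cast_add] at l1 l2 g1 g2 g3 g4 g5 g6 g7 g8
          rw [e1] at l2
          rcases le_total (N * X) (x + (u / 2 : ℕ)) with hc | hc
          · exact l1 g1 hc g3 g4 g5 g6 g7 g8
          · exact l2 hc (by linarith) g3 g4 g5 g6 g7 g8
        · exact h5 _ (List.mem_cons_of_mem _ (List.mem_cons_of_mem _ hB))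
      · have h5 := ih _ _ h
        rcases hB with rfl | hB
        · intro X Y A E g1 g2 g3 g4 g5 g6 g7 g8
          have l1 := h5 _ (List.mem_cons_self) X Y A E
          have l2 := h5 _ (List.mem_cons_of_mem _ List.mem_cons_self) X Y A E
          have e1 := half_cast v
          simp only [Nat.cast_add] at l1 l2 g1 g2 g3 g4 g5 g6 g7 g8
          rw [e1] at l2
          rcases le_total (N * Y) (y + (v / 2 : ℕ)) with hc | hc
          · exact l1 g1 g2 g3 hc g5 g6 g7 g8
          · exact l2 g1 g2 hc (by linarith) g5 g6 g7 g8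
        · exact h5 _ (List.mem_cons_of_mem _ (List.mem_cons_of_mem _ hB))
      · have h5 := ih _ _ h
        rcases hB with rfl | hB
        · intro X Y A E g1 g2 g3 g4 g5 g6 g7 g8
          have l1 := h5 _ (List.mem_cons_self) X Y A E
          have l2 := h5 _ (List.mem_cons_of_mem _ List.mem_cons_self) X Y A E
          have e1 := half_cast p
          simp only [Nat.cast_add] at l1 l2 g1 g2 g3 g4 g5 g6 g7 g8
          rw [e1] at l2
          rcases le_total (N * A) (a + (p / 2 : ℕ)) with hc | hc
          · exact l1 g1 g2 g3 g4 g5 hc g7 g8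
          · exact l2 g1 g2 g3 g4 hc (by linarith) g7 g8
        · exact h5 _ (List.mem_cons_of_mem _ (List.mem_cons_of_mem _ hB))
      · have h5 := ih _ _ h
        rcases hB with rfl | hB
        · intro X Y A E g1 g2 g3 g4 g5 g6 g7 g8
          have l1 := h5 _ (List.mem_cons_self) X Y A E
          have l2 := h5 _ (List.mem_cons_of_mem _ List.mem_cons_self) X Y A E
          have e1 := half_cast q
          simp only [Nat.cast_add] at l1 l2 g1 g2 g3 g4 g5 g6 g7 g8
          rw [e1] at l2
          rcases le_total (N * E) (e + (q / 2 : ℕ)) with hc | hc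
          · exact l1 g1 g2 g3 g4 g5 g6 g7 hc
          · exact l2 g1 g2 g3 g4 g5 g6 hc (by linarith)
        · exact h5 _ (List.mem_cons_of_mem _ (List.mem_cons_of_mem _ hB))
      · rcases hB with rfl | hB
        · exact hleaf _ _ _ _ _ _ _ _ _ _ h4
        · exact ih _ _ h B hB

end Pool.Agent.Helper25.SH
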