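import Pool.Agent.Helper88.SH.TS
import Pool.Agent.Helper25.SH.Run

/-!
# Project SHARP (MP_b21509_co), link (4): test (C) with natural numbers, for the kernel

Signed numbers are differences `p - n` of natural numbers.  The functions here use only `Nat.add, Nat.mul, Nat.sub, Nat.div, Nat.mod,
Nat.ble`.
-/

set_option autoImplicit false

namespace Pool.Agent.Helper25.SH

open Pool.Agent.Helper88.P4

def aff (c0 c1 c2 X Y : ℕ) : ℕ := Nat.add c0 (Nat.add (Nat.mul c1 X) (Nat.mul c2 Y))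

def dif (p n : ℕ) : ℕ := Nat.add (Nat.sub p n) (Nat.sub n p)

def sqr (n : ℕ) : ℕ := Nat.mul n n

/-- the part of the vertex test with `G, H` -/
def qf (K1 K2 c1 c2 c3 p m h : ℕ) : ℕ :=
  Nat.add (Nat.mul K1 (Nat.add (sqr (Nat.add p m)) (Nat.add (Nat.mul c1 p) (Nat.mul c2 m))))
    (Nat.mul K2 (Nat.mul h (Nat.add h c3)))

def qg (K1 K2 c1 c2 c3 GP GN HP HN : ℕ) : ℕ :=
  qf K1 K2 c1 c2 c3 (Nat.sub GP GN) (Nat.sub GN GP) (dif HP HN)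

/-- the vertex test -/
def ck (K3 Q An Ap : ℕ) : Bool := Nat.ble (Nat.add Q (Nat.mul K3 An)) (Nat.mul K3 Ap)

theorem aff_eq (c0 c1 c2 X Y : ℕ) : aff c0 c1 c2 X Y = c0 + (c1 * X + c2 * Y) := rfl

theorem sqr_eq (n : ℕ) : sqr n = n * n := rfl

theorem dif_cast_sq (p n : ℕ) : ((dif p n : ℕ) : ℤ) * (dif p n : ℕ) = ((p : ℤ) - n) * (p - n) := by
  have e : dif p n = (p - n) + (n - p) := rfl
  rcases le_total n p with h | h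
  · rw [e, Nat.sub_eq_zero_of_le h, add_zero, Nat.cast_sub h]
  · rw [e, Nat.sub_eq_zero_of_le h, zero_add, Nat.cast_sub h]
    ring

theorem dif_cast (p n : ℕ) : ((dif p n : ℕ) : ℤ) = if 0 ≤ (p : ℤ) - n then (p : ℤ) - n else -((p : ℤ) - n) := by
  have e : dif p n = (p - n) + (n - p) := rfl
  rcases le_total n p with h | h
  · rw [if_pos (by omega), e, Nat.sub_eq_zero_of_le h, add_zero, Nat.cast_sub h]
  · rw [e, Nat.sub_eq_zero_of_le h, zero_add, Nat.cast_sub h]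
    split_ifs with h1
    · have : p = n := by omega
      rw [this]
    · ring

/-- soundness of the vertex test -/
theorem ck_sound (P2 P3 lo hi be a2 a3 GP GN HP HN An Ap K1 K2 K3 c1 c2 c3 : ℕ)
    (e1 : K1 = 48 * a3) (e2 : K2 = a2) (e3 : K3 = 192 * a2 * a3) (e4 : c1 = 8 * P2 * lo)
    (e5 : c2 = 8 * P2 * hi) (e6 : c3 = 96 * P3 * be)
    (h : ck K3 (qg K1 K2 c1 c2 c3 GP GN HP HN) An Ap = true) :
    vt P2 P3 (-(lo : ℤ)) hi be a2 a3 ((Ap : ℤ) - An) ((GP : ℤ) - GN) ((HP : ℤ) - HN) = true := by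
  have h1 : qg K1 K2 c1 c2 c3 GP GN HP HN + K3 * An ≤ K3 * Ap := Nat.le_of_ble_eq_true h
  have h2 : qg K1 K2 c1 c2 c3 GP GN HP HN =
      K1 * (((GP - GN) + (GN - GP)) * ((GP - GN) + (GN - GP)) + (c1 * (GP - GN) + c2 * (GN - GP))) +
        K2 * (dif HP HN * (dif HP HN + c3)) := rfl
  rw [h2] at h1
  have h3 : ((K1 * (((GP - GN) + (GN - GP)) * ((GP - GN) + (GN - GP)) +
      (c1 * (GP - GN) + c2 * (GN - GP))) + K2 * (dif HP HN * (dif HP HN + c3)) + K3 * An : ℕ) : ℤ) ≤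
      ((K3 * Ap : ℕ) : ℤ) := Nat.cast_le.2 h1
  subst e1 e2 e3 e4 e5 e6
  simp only [vt, decide_eq_true_eq]
  rw [← dif_cast HP HN, ← dif_cast_sq HP HN]
  rcases le_total GN GP with g | g
  · rw [if_pos (by omega : (0 : ℤ) ≤ (GP : ℤ) - GN)]
    rw [Nat.sub_eq_zero_of_le g] at h3
    push_cast [Nat.cast_sub g] at h3
    linarith
  · rw [Nat.sub_eq_zero_of_le g] at h3
    push_cast [Nat.cast_sub g] at h3
    split_ifs with g1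
    · have : GP = GN := by omega
      subst this
      linarith
    · linarith

/-- a vertex -/
theorem vx_of (P : Par) (P2 P3 lo hi be a2 a3 GP GN HP HN An Ap K1 K2 K3 c1 c2 c3 : ℕ)
    (f2 : P.P2 = P2) (f3 : P.P3 = P3) (f4 : P.lo = -(lo : ℤ)) (f5 : P.hi = hi) (f6 : P.be = be)
    (e1 : K1 = 48 * a3) (e2 : K2 = a2) (e3 : K3 = 192 * a2 * a3) (e4 : c1 = 8 * P2 * lo)
    (e5 : c2 = 8 * P2 * hi) (e6 : c3 = 96 * P3 * be)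
    (SU SV k0 kx kX ky kY g0 gx gy h0 hx hy m1 m2 x y X Y w : ℤ)
    (hA : (Ap : ℤ) - An = k0 + kx * x + kX * X + ky * y + kY * Y + 2 * SU * (x * X + 3 * (y * Y)) +
      6 * SV * (x * Y - y * X) - w)
    (hG : (GP : ℤ) - GN = g0 + gx * x + gy * y - 2 * m1 * X + 2 * m2 * Y)
    (hH : (HP : ℤ) - HN = h0 + hx * x + hy * y - 48 * m1 * Y - 4 * m2 * X)
    (h : ck K3 (qg K1 K2 c1 c2 c3 GP GN HP HN) An Ap = true) :
    vx P a2 a3 SU SV k0 kx kX ky kY g0 gx gy h0 hx hy m1 m2 x y X Y w = true := by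
  unfold vx
  rw [← hA, ← hG, ← hH, f2, f3, f4, f5, f6]
  exact ck_sound P2 P3 lo hi be a2 a3 GP GN HP HN An Ap K1 K2 K3 c1 c2 c3 e1 e2 e3 e4 e5 e6 h

/-! ### no multipliers -/

/-- four vertices with the same `z₀` -/
def four0 (K3 Q zp zn Xp Xn Yp Yn X0 X1 Y0 Y1 w00 w01 w10 w11 : ℕ) : Bool :=
  bif ck K3 Q (Nat.add (aff zn Xn Yn X0 Y0) w00) (aff zp Xp Yp X0 Y0) then
  bif ck K3 Q (Nat.add (aff zn Xn Yn X0 Y1) w01) (aff zp Xp Yp X0 Y1) then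
  bif ck K3 Q (Nat.add (aff zn Xn Yn X1 Y0) w10) (aff zp Xp Yp X1 Y0) then
  ck K3 Q (Nat.add (aff zn Xn Yn X1 Y1) w11) (aff zp Xp Yp X1 Y1) else false else false else false

/-- `OA, OE`: the offsets of `ζ` -/
def zd0 (OA OE K3 Q zp zn Xp Xn Yp Yn X0 X1 Y0 Y1 w00 w01 w10 w11 : ℕ) : Bool :=
  four0 K3 Q (aff zp OA OE Xn Yn) (aff zn OA OE Xp Yp) Xp Xn Yp Yn X0 X1 Y0 Y1 w00 w01 w10 w11

def zc0 (OA OE W24 K1 K2 K3 c1 c2 c3 c0n cxp cxn cyp cyn cXp cXn cYp cYn su2 su6 sv6 g0p g0n gxp gxn gyp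
    gyn h0p h0n hxp hxn hyp hyn a0 a1 e0 e1 w00 w01 w10 w11 x y : ℕ) : Bool :=
  zd0 OA OE K3 (qg K1 K2 c1 c2 c3 (aff g0p gxp gyp x y) (aff g0n gxn gyn x y) (aff h0p hxp hyp x y)
      (aff h0n hxn hyn x y))
    (aff 0 cxp cyp x y) (aff c0n cxn cyn x y) (aff cXp 0 W24 x y) (aff cXn su2 sv6 x y)
    (aff cYp sv6 0 x y) (aff cYn W24 su6 x y)
    (Nat.add x a0) (Nat.add x a1) (Nat.add y e0) (Nat.add y e1) w00 w01 w10 w11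

theorem bif_and (a b : Bool) : (bif a then b else false) = true ↔ a = true ∧ b = true := by
  cases a <;> simp

theorem zc0_sound (P : Par) (P2 P3 lo hi be a2 a3 K1 K2 K3 c1 c2 c3 : ℕ)
    (f2 : P.P2 = P2) (f3 : P.P3 = P3) (f4 : P.lo = -(lo : ℤ)) (f5 : P.hi = hi) (f6 : P.be = be)
    (e1 : K1 = 48 * a3) (e2 : K2 = a2) (e3 : K3 = 192 * a2 * a3) (e4 : c1 = 8 * P2 * lo)
    (e5 : c2 = 8 * P2 * hi) (e6 : c3 = 96 * P3 * be)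
    (OA OE W24 c0n cxp cxn cyp cyn cXp cXn cYp cYn su2 su6 sv6 g0p g0n gxp gxn gyp
    gyn h0p h0n hxp hxn hyp hyn a0 a1 e0 e1' w00 w01 w10 w11 x y : ℕ)
    (SU SV k0 kx kX ky kY g0 gx gy h0 hx hy : ℤ)
    (i1 : k0 = -(c0n : ℤ)) (i2 : (cxp : ℤ) - cxn = kx) (i3 : (cyp : ℤ) - cyn = ky)
    (i4 : (cXp : ℤ) - cXn = kX) (i5 : (cYp : ℤ) - cYn = kY)
    (i6 : 2 * SU = -(su2 : ℤ)) (i7 : 6 * SU = -(su6 : ℤ)) (i8 : 6 * SV = (sv6 : ℤ) - W24)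
    (j1 : (g0p : ℤ) - g0n = g0) (j2 : (gxp : ℤ) - gxn = gx) (j3 : (gyp : ℤ) - gyn = gy)
    (j4 : (h0p : ℤ) - h0n = h0) (j5 : (hxp : ℤ) - hxn = hx) (j6 : (hyp : ℤ) - hyn = hy)
    (h : zc0 OA OE W24 K1 K2 K3 c1 c2 c3 c0n cxp cxn cyp cyn cXp cXn cYp cYn su2 su6 sv6 g0p g0n gxp gxn
      gyp gyn h0p h0n hxp hxn hyp hyn a0 a1 e0 e1' w00 w01 w10 w11 x y = true) :
    vy P a2 a3 SU SV k0 kx kX ky kY g0 gx gy h0 hx hy 0 0 x y ((a0 : ℤ) - OA) ((a1 : ℤ) - OA)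
      ((e0 : ℤ) - OE) ((e1' : ℤ) - OE) w00 w01 w10 w11 = true := by
  simp only [zc0, zd0, four0, bif_and] at h
  obtain ⟨h1, h2, h3, h4⟩ := h
  have hG : ((aff g0p gxp gyp x y : ℕ) : ℤ) - (aff g0n gxn gyn x y : ℕ) = g0 + gx * x + gy * y := by
    rw [aff_eq, aff_eq]
    push_cast
    linear_combination j1 + x * j2 + y * j3
  have hH : ((aff h0p hxp hyp x y : ℕ) : ℤ) - (aff h0n hxn hyn x y : ℕ) = h0 + hx * x + hy * y := by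
    rw [aff_eq, aff_eq]
    push_cast
    linear_combination j4 + x * j5 + y * j6
  have key : ∀ a e w : ℕ, ck K3 (qg K1 K2 c1 c2 c3 (aff g0p gxp gyp x y) (aff g0n gxn gyn x y)
      (aff h0p hxp hyp x y) (aff h0n hxn hyn x y))
      (Nat.add (aff (aff (aff c0n cxn cyn x y) OA OE (aff cXp 0 W24 x y) (aff cYp sv6 0 x y))
        (aff cXn su2 sv6 x y) (aff cYn W24 su6 x y) (Nat.add x a) (Nat.add y e)) w)
      (aff (aff (aff 0 cxp cyp x y) OA OE (aff cXn su2 sv6 x y) (aff cYn W24 su6 x y))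
        (aff cXp 0 W24 x y) (aff cYp sv6 0 x y) (Nat.add x a) (Nat.add y e)) = true →
      vx P a2 a3 SU SV k0 kx kX ky kY g0 gx gy h0 hx hy 0 0 x y (x + ((a : ℤ) - OA))
        (y + ((e : ℤ) - OE)) w = true := by
    intro a e w h
    refine vx_of P P2 P3 lo hi be a2 a3 _ _ _ _ _ _ K1 K2 K3 c1 c2 c3 f2 f3 f4 f5 f6 e1 e2 e3 e4 e5 e6
      SU SV k0 kx kX ky kY g0 gx gy h0 hx hy 0 0 x y _ _ w ?_ ?_ ?_ h
    · simp only [aff_eq, Nat.add_eq]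
      push_cast
      linear_combination (-1 : ℤ) * i1 + (x : ℤ) * i2 + (y : ℤ) * i3 + ((x : ℤ) + (a - OA)) * i4 +
        ((y : ℤ) + (e - OE)) * i5 - ((x : ℤ) * (x + (a - OA))) * i6 -
        ((y : ℤ) * (y + (e - OE))) * i7 - ((x : ℤ) * (y + (e - OE)) - y * (x + (a - OA))) * i8
    · rw [hG]
      ring
    · rw [hH]
      ring
  unfold vy
  simp only [Bool.and_eq_true]
  exact ⟨key a0 e0 w00 h1, key a0 e1' w01 h2, key a1 e0 w10 h3, key a1 e1' w11 h4⟩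

/-! ### with multipliers -/

/-- one vertex -/
def cn1 (K1 K2 K3 c1 c2 c3 zp zn Xp Xn Yp Yn GP GN HP HN M2 n2 p2 M4 M48 q4 q48 X Y w : ℕ) : Bool :=
  ck K3 (qg K1 K2 c1 c2 c3 (aff GP M2 p2 X Y) (aff GN n2 M2 X Y) (aff HP M4 M48 X Y)
    (aff HN q4 q48 X Y)) (Nat.add (aff zn Xn Yn X Y) w) (aff zp Xp Yp X Y)

def four1 (K1 K2 K3 c1 c2 c3 zp zn Xp Xn Yp Yn GP GN HP HN M2 n2 p2 M4 M48 q4 q48 X0 X1 Y0 Y1
    w00 w01 w10 w11 : ℕ) : Bool :=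
  bif cn1 K1 K2 K3 c1 c2 c3 zp zn Xp Xn Yp Yn GP GN HP HN M2 n2 p2 M4 M48 q4 q48 X0 Y0 w00 then
  bif cn1 K1 K2 K3 c1 c2 c3 zp zn Xp Xn Yp Yn GP GN HP HN M2 n2 p2 M4 M48 q4 q48 X0 Y1 w01 then
  bif cn1 K1 K2 K3 c1 c2 c3 zp zn Xp Xn Yp Yn GP GN HP HN M2 n2 p2 M4 M48 q4 q48 X1 Y0 w10 then
  cn1 K1 K2 K3 c1 c2 c3 zp zn Xp Xn Yp Yn GP GN HP HN M2 n2 p2 M4 M48 q4 q48 X1 Y1 w11
  else false else false else false

def zd1 (OA OE K1 K2 K3 c1 c2 c3 zp zn Xp Xn Yp Yn GP GN HP HN M2 n2 p2 M4 M48 q4 q48 X0 X1 Y0 Y1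
    w00 w01 w10 w11 : ℕ) : Bool :=
  four1 K1 K2 K3 c1 c2 c3 (aff zp OA OE Xn Yn) (aff zn OA OE Xp Yp) Xp Xn Yp Yn
    (aff GP OA OE n2 M2) (aff GN OA OE M2 p2) (aff HP OA OE q4 q48) (aff HN OA OE M4 M48)
    M2 n2 p2 M4 M48 q4 q48 X0 X1 Y0 Y1 w00 w01 w10 w11

def zc1 (OA OE W24 K1 K2 K3 c1 c2 c3 c0n cxp cxn cyp cyn cXp cXn cYp cYn su2 su6 sv6 g0p g0n gxp gxn gyp
    gyn h0p h0n hxp hxn hyp hyn M2 n2 p2 M4 M48 q4 q48 a0 a1 e0 e1 w00 w01 w10 w11 x y : ℕ) : Bool :=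
  zd1 OA OE K1 K2 K3 c1 c2 c3
    (aff 0 cxp cyp x y) (aff c0n cxn cyn x y) (aff cXp 0 W24 x y) (aff cXn su2 sv6 x y)
    (aff cYp sv6 0 x y) (aff cYn W24 su6 x y)
    (aff g0p gxp gyp x y) (aff g0n gxn gyn x y) (aff h0p hxp hyp x y) (aff h0n hxn hyn x y)
    M2 n2 p2 M4 M48 q4 q48
    (Nat.add x a0) (Nat.add x a1) (Nat.add y e0) (Nat.add y e1) w00 w01 w10 w11

theorem zc1_sound (P : Par) (P2 P3 lo hi be a2 a3 K1 K2 K3 c1 c2 c3 : ℕ)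
    (f2 : P.P2 = P2) (f3 : P.P3 = P3) (f4 : P.lo = -(lo : ℤ)) (f5 : P.hi = hi) (f6 : P.be = be)
    (e1 : K1 = 48 * a3) (e2 : K2 = a2) (e3 : K3 = 192 * a2 * a3) (e4 : c1 = 8 * P2 * lo)
    (e5 : c2 = 8 * P2 * hi) (e6 : c3 = 96 * P3 * be)
    (OA OE W24 c0n cxp cxn cyp cyn cXp cXn cYp cYn su2 su6 sv6 g0p g0n gxp gxn gyp
    gyn h0p h0n hxp hxn hyp hyn M2 n2 p2 M4 M48 q4 q48 a0 a1 e0 e1' w00 w01 w10 w11 x y : ℕ)
    (SU SV k0 kx kX ky kY g0 gx gy h0 hx hy m1 m2 : ℤ)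
    (i1 : k0 = -(c0n : ℤ)) (i2 : (cxp : ℤ) - cxn = kx) (i3 : (cyp : ℤ) - cyn = ky)
    (i4 : (cXp : ℤ) - cXn = kX) (i5 : (cYp : ℤ) - cYn = kY)
    (i6 : 2 * SU = -(su2 : ℤ)) (i7 : 6 * SU = -(su6 : ℤ)) (i8 : 6 * SV = (sv6 : ℤ) - W24)
    (j1 : (g0p : ℤ) - g0n = g0) (j2 : (gxp : ℤ) - gxn = gx) (j3 : (gyp : ℤ) - gyn = gy)
    (j4 : (h0p : ℤ) - h0n = h0) (j5 : (hxp : ℤ) - hxn = hx) (j6 : (hyp : ℤ) - hyn = hy)
    (l1 : 2 * m1 = (n2 : ℤ) - M2) (l2 : 2 * m2 = (p2 : ℤ) - M2) (l3 : 48 * m1 = (q48 : ℤ) - M48)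
    (l4 : 4 * m2 = (q4 : ℤ) - M4)
    (h : zc1 OA OE W24 K1 K2 K3 c1 c2 c3 c0n cxp cxn cyp cyn cXp cXn cYp cYn su2 su6 sv6 g0p g0n gxp gxn
      gyp gyn h0p h0n hxp hxn hyp hyn M2 n2 p2 M4 M48 q4 q48 a0 a1 e0 e1' w00 w01 w10 w11 x y = true) :
    vy P a2 a3 SU SV k0 kx kX ky kY g0 gx gy h0 hx hy m1 m2 x y ((a0 : ℤ) - OA) ((a1 : ℤ) - OA)
      ((e0 : ℤ) - OE) ((e1' : ℤ) - OE) w00 w01 w10 w11 = true := by
  simp only [zc1, zd1, four1, bif_and] at h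
  obtain ⟨h1, h2, h3, h4⟩ := h
  have key : ∀ a e w : ℕ, cn1 K1 K2 K3 c1 c2 c3
      (aff (aff 0 cxp cyp x y) OA OE (aff cXn su2 sv6 x y) (aff cYn W24 su6 x y))
      (aff (aff c0n cxn cyn x y) OA OE (aff cXp 0 W24 x y) (aff cYp sv6 0 x y))
      (aff cXp 0 W24 x y) (aff cXn su2 sv6 x y) (aff cYp sv6 0 x y) (aff cYn W24 su6 x y)
      (aff (aff g0p gxp gyp x y) OA OE n2 M2) (aff (aff g0n gxn gyn x y) OA OE M2 p2)
      (aff (aff h0p hxp hyp x y) OA OE q4 q48) (aff (aff h0n hxn hyn x y) OA OE M4 M48)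
      M2 n2 p2 M4 M48 q4 q48 (Nat.add x a) (Nat.add y e) w = true →
      vx P a2 a3 SU SV k0 kx kX ky kY g0 gx gy h0 hx hy m1 m2 x y (x + ((a : ℤ) - OA))
        (y + ((e : ℤ) - OE)) w = true := by
    intro a e w h
    refine vx_of P P2 P3 lo hi be a2 a3 _ _ _ _ _ _ K1 K2 K3 c1 c2 c3 f2 f3 f4 f5 f6 e1 e2 e3 e4 e5 e6
      SU SV k0 kx kX ky kY g0 gx gy h0 hx hy m1 m2 x y _ _ w ?_ ?_ ?_ h
    · simp only [aff_eq, Nat.add_eq]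
      push_cast
      linear_combination (-1 : ℤ) * i1 + (x : ℤ) * i2 + (y : ℤ) * i3 + ((x : ℤ) + (a - OA)) * i4 +
        ((y : ℤ) + (e - OE)) * i5 - ((x : ℤ) * (x + (a - OA))) * i6 -
        ((y : ℤ) * (y + (e - OE))) * i7 - ((x : ℤ) * (y + (e - OE)) - y * (x + (a - OA))) * i8
    · simp only [aff_eq, Nat.add_eq]
      push_cast
      linear_combination j1 + (x : ℤ) * j2 + (y : ℤ) * j3 + ((x : ℤ) + (a - OA)) * l1 -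
        ((y : ℤ) + (e - OE)) * l2
    · simp only [aff_eq, Nat.add_eq]
      push_cast
      linear_combination j4 + (x : ℤ) * j5 + (y : ℤ) * j6 + ((y : ℤ) + (e - OE)) * l3 +
        ((x : ℤ) + (a - OA)) * l4
  unfold vy
  simp only [Bool.and_eq_true]
  exact ⟨key a0 e0 w00 h1, key a0 e1' w01 h2, key a1 e0 w10 h3, key a1 e1' w11 h4⟩

end Pool.Agent.Helper25.SH
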