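import Pool.Agent.Helper43.SH.LocC
import Pool.Agent.Helper25.SH.T01
import Pool.Agent.Helper25.SH.T02
import Pool.Agent.Helper25.SH.T03
import Pool.Agent.Helper25.SH.T04
import Pool.Agent.Helper25.SH.T05
import Pool.Agent.Helper25.SH.T06
import Pool.Agent.Helper25.SH.T07
import Pool.Agent.Helper25.SH.T08
import Pool.Agent.Helper25.SH.T09
import Pool.Agent.Helper25.SH.T10
import Pool.Agent.Helper25.SH.T11
import Pool.Agent.Helper25.SH.T12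
import Pool.Agent.Helper25.SH.T13
import Pool.Agent.Helper25.SH.T14

/-!
# Project SHARP (MP_b21509_co), link (4): the local lemma

All 280 root cells are proved (files `T01` .. `T14`), so the local lemma `P4F` holds on the whole disc `|z₀| ≤ 1/2`.
-/

set_option autoImplicit false

namespace Pool.Agent.Helper25.SH

open Pool.Agent.Helper43.SH

theorem all_roots : ∀ r ∈ roots, AllIn 1048576 (PG r.1) r.2 := by
  unfold roots
  refine List.forall_mem_cons.2 ⟨c0, ?_⟩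
  refine List.forall_mem_cons.2 ⟨c1, ?_⟩
  refine List.forall_mem_cons.2 ⟨c2, ?_⟩
  refine List.forall_mem_cons.2 ⟨c3, ?_⟩
  refine List.forall_mem_cons.2 ⟨c4, ?_⟩
  refine List.forall_mem_cons.2 ⟨c5, ?_⟩
  refine List.forall_mem_cons.2 ⟨c6, ?_⟩
  refine List.forall_mem_cons.2 ⟨c7, ?_⟩
  refine List.forall_mem_cons.2 ⟨c8, ?_⟩
  refine List.forall_mem_cons.2 ⟨c9, ?_⟩
  refine List.forall_mem_cons.2 ⟨c10, ?_⟩
  refine List.forall_mem_cons.2 ⟨c11, ?_⟩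
  refine List.forall_mem_cons.2 ⟨c12, ?_⟩
  refine List.forall_mem_cons.2 ⟨c13, ?_⟩
  refine List.forall_mem_cons.2 ⟨c14, ?_⟩
  refine List.forall_mem_cons.2 ⟨c15, ?_⟩
  refine List.forall_mem_cons.2 ⟨c16, ?_⟩
  refine List.forall_mem_cons.2 ⟨c17, ?_⟩
  refine List.forall_mem_cons.2 ⟨c18, ?_⟩
  refine List.forall_mem_cons.2 ⟨c19, ?_⟩
  refine List.forall_mem_cons.2 ⟨c20, ?_⟩
  refine List.forall_mem_cons.2 ⟨c21, ?_⟩
  refine List.forall_mem_cons.2 ⟨c22, ?_⟩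
  refine List.forall_mem_cons.2 ⟨c23, ?_⟩
  refine List.forall_mem_cons.2 ⟨c24, ?_⟩
  refine List.forall_mem_cons.2 ⟨c25, ?_⟩
  refine List.forall_mem_cons.2 ⟨c26, ?_⟩
  refine List.forall_mem_cons.2 ⟨c27, ?_⟩
  refine List.forall_mem_cons.2 ⟨c28, ?_⟩
  refine List.forall_mem_cons.2 ⟨c29, ?_⟩
  refine List.forall_mem_cons.2 ⟨c30, ?_⟩
  refine List.forall_mem_cons.2 ⟨c31, ?_⟩
  refine List.forall_mem_cons.2 ⟨c32, ?_⟩
  refine List.forall_mem_cons.2 ⟨c33, ?_⟩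
  refine List.forall_mem_cons.2 ⟨c34, ?_⟩
  refine List.forall_mem_cons.2 ⟨c35, ?_⟩
  refine List.forall_mem_cons.2 ⟨c36, ?_⟩
  refine List.forall_mem_cons.2 ⟨c37, ?_⟩
  refine List.forall_mem_cons.2 ⟨c38, ?_⟩
  refine List.forall_mem_cons.2 ⟨c39, ?_⟩
  refine List.forall_mem_cons.2 ⟨c40, ?_⟩
  refine List.forall_mem_cons.2 ⟨c41, ?_⟩
  refine List.forall_mem_cons.2 ⟨c42, ?_⟩
  refine List.forall_mem_cons.2 ⟨c43, ?_⟩
  refine List.forall_mem_cons.2 ⟨c44, ?_⟩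
  refine List.forall_mem_cons.2 ⟨c45, ?_⟩
  refine List.forall_mem_cons.2 ⟨c46, ?_⟩
  refine List.forall_mem_cons.2 ⟨c47, ?_⟩
  refine List.forall_mem_cons.2 ⟨c48, ?_⟩
  refine List.forall_mem_cons.2 ⟨c49, ?_⟩
  refine List.forall_mem_cons.2 ⟨c50, ?_⟩
  refine List.forall_mem_cons.2 ⟨c51, ?_⟩
  refine List.forall_mem_cons.2 ⟨c52, ?_⟩
  refine List.forall_mem_cons.2 ⟨c53, ?_⟩
  refine List.forall_mem_cons.2 ⟨c54, ?_⟩
  refine List.forall_mem_cons.2 ⟨c55, ?_⟩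
  refine List.forall_mem_cons.2 ⟨c56, ?_⟩
  refine List.forall_mem_cons.2 ⟨c57, ?_⟩
  refine List.forall_mem_cons.2 ⟨c58, ?_⟩
  refine List.forall_mem_cons.2 ⟨c59, ?_⟩
  refine List.forall_mem_cons.2 ⟨c60, ?_⟩
  refine List.forall_mem_cons.2 ⟨c61, ?_⟩
  refine List.forall_mem_cons.2 ⟨c62, ?_⟩
  refine List.forall_mem_cons.2 ⟨c63, ?_⟩
  refine List.forall_mem_cons.2 ⟨c64, ?_⟩
  refine List.forall_mem_cons.2 ⟨c65, ?_⟩
  refine List.forall_mem_cons.2 ⟨c66, ?_⟩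
  refine List.forall_mem_cons.2 ⟨c67, ?_⟩
  refine List.forall_mem_cons.2 ⟨c68, ?_⟩
  refine List.forall_mem_cons.2 ⟨c69, ?_⟩
  refine List.forall_mem_cons.2 ⟨c70, ?_⟩
  refine List.forall_mem_cons.2 ⟨c71, ?_⟩
  refine List.forall_mem_cons.2 ⟨c72, ?_⟩
  refine List.forall_mem_cons.2 ⟨c73, ?_⟩
  refine List.forall_mem_cons.2 ⟨c74, ?_⟩
  refine List.forall_mem_cons.2 ⟨c75, ?_⟩
  refine List.forall_mem_cons.2 ⟨c76, ?_⟩
  refine List.forall_mem_cons.2 ⟨c77, ?_⟩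
  refine List.forall_mem_cons.2 ⟨c78, ?_⟩
  refine List.forall_mem_cons.2 ⟨c79, ?_⟩
  refine List.forall_mem_cons.2 ⟨c80, ?_⟩
  refine List.forall_mem_cons.2 ⟨c81, ?_⟩
  refine List.forall_mem_cons.2 ⟨c82, ?_⟩
  refine List.forall_mem_cons.2 ⟨c83, ?_⟩
  refine List.forall_mem_cons.2 ⟨c84, ?_⟩
  refine List.forall_mem_cons.2 ⟨c85, ?_⟩
  refine List.forall_mem_cons.2 ⟨c86, ?_⟩
  refine List.forall_mem_cons.2 ⟨c87, ?_⟩
  refine List.forall_mem_cons.2 ⟨c88, ?_⟩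
  refine List.forall_mem_cons.2 ⟨c89, ?_⟩
  refine List.forall_mem_cons.2 ⟨c90, ?_⟩
  refine List.forall_mem_cons.2 ⟨c91, ?_⟩
  refine List.forall_mem_cons.2 ⟨c92, ?_⟩
  refine List.forall_mem_cons.2 ⟨c93, ?_⟩
  refine List.forall_mem_cons.2 ⟨c94, ?_⟩
  refine List.forall_mem_cons.2 ⟨c95, ?_⟩
  refine List.forall_mem_cons.2 ⟨c96, ?_⟩
  refine List.forall_mem_cons.2 ⟨c97, ?_⟩
  refine List.forall_mem_cons.2 ⟨c98, ?_⟩
  refine List.forall_mem_cons.2 ⟨c99, ?_⟩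
  refine List.forall_mem_cons.2 ⟨c100, ?_⟩
  refine List.forall_mem_cons.2 ⟨c101, ?_⟩
  refine List.forall_mem_cons.2 ⟨c102, ?_⟩
  refine List.forall_mem_cons.2 ⟨c103, ?_⟩
  refine List.forall_mem_cons.2 ⟨c104, ?_⟩
  refine List.forall_mem_cons.2 ⟨c105, ?_⟩
  refine List.forall_mem_cons.2 ⟨c106, ?_⟩
  refine List.forall_mem_cons.2 ⟨c107, ?_⟩
  refine List.forall_mem_cons.2 ⟨c108, ?_⟩
  refine List.forall_mem_cons.2 ⟨c109, ?_⟩
  refine List.forall_mem_cons.2 ⟨c110, ?_⟩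
  refine List.forall_mem_cons.2 ⟨c111, ?_⟩
  refine List.forall_mem_cons.2 ⟨c112, ?_⟩
  refine List.forall_mem_cons.2 ⟨c113, ?_⟩
  refine List.forall_mem_cons.2 ⟨c114, ?_⟩
  refine List.forall_mem_cons.2 ⟨c115, ?_⟩
  refine List.forall_mem_cons.2 ⟨c116, ?_⟩
  refine List.forall_mem_cons.2 ⟨c117, ?_⟩
  refine List.forall_mem_cons.2 ⟨c118, ?_⟩
  refine List.forall_mem_cons.2 ⟨c119, ?_⟩
  refine List.forall_mem_cons.2 ⟨c120, ?_⟩
  refine List.forall_mem_cons.2 ⟨c121, ?_⟩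
  refine List.forall_mem_cons.2 ⟨c122, ?_⟩
  refine List.forall_mem_cons.2 ⟨c123, ?_⟩
  refine List.forall_mem_cons.2 ⟨c124, ?_⟩
  refine List.forall_mem_cons.2 ⟨c125, ?_⟩
  refine List.forall_mem_cons.2 ⟨c126, ?_⟩
  refine List.forall_mem_cons.2 ⟨c127, ?_⟩
  refine List.forall_mem_cons.2 ⟨c128, ?_⟩
  refine List.forall_mem_cons.2 ⟨c129, ?_⟩
  refine List.forall_mem_cons.2 ⟨c130, ?_⟩
  refine List.forall_mem_cons.2 ⟨c131, ?_⟩
  refine List.forall_mem_cons.2 ⟨c132, ?_⟩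
  refine List.forall_mem_cons.2 ⟨c133, ?_⟩
  refine List.forall_mem_cons.2 ⟨c134, ?_⟩
  refine List.forall_mem_cons.2 ⟨c135, ?_⟩
  refine List.forall_mem_cons.2 ⟨c136, ?_⟩
  refine List.forall_mem_cons.2 ⟨c137, ?_⟩
  refine List.forall_mem_cons.2 ⟨c138, ?_⟩
  refine List.forall_mem_cons.2 ⟨c139, ?_⟩
  refine List.forall_mem_cons.2 ⟨c140, ?_⟩
  refine List.forall_mem_cons.2 ⟨c141, ?_⟩
  refine List.forall_mem_cons.2 ⟨c142, ?_⟩
  refine List.forall_mem_cons.2 ⟨c143, ?_⟩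
  refine List.forall_mem_cons.2 ⟨c144, ?_⟩
  refine List.forall_mem_cons.2 ⟨c145, ?_⟩
  refine List.forall_mem_cons.2 ⟨c146, ?_⟩
  refine List.forall_mem_cons.2 ⟨c147, ?_⟩
  refine List.forall_mem_cons.2 ⟨c148, ?_⟩
  refine List.forall_mem_cons.2 ⟨c149, ?_⟩
  refine List.forall_mem_cons.2 ⟨c150, ?_⟩
  refine List.forall_mem_cons.2 ⟨c151, ?_⟩
  refine List.forall_mem_cons.2 ⟨c152, ?_⟩
  refine List.forall_mem_cons.2 ⟨c153, ?_⟩
  refine List.forall_mem_cons.2 ⟨c154, ?_⟩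
  refine List.forall_mem_cons.2 ⟨c155, ?_⟩
  refine List.forall_mem_cons.2 ⟨c156, ?_⟩
  refine List.forall_mem_cons.2 ⟨c157, ?_⟩
  refine List.forall_mem_cons.2 ⟨c158, ?_⟩
  refine List.forall_mem_cons.2 ⟨c159, ?_⟩
  refine List.forall_mem_cons.2 ⟨c160, ?_⟩
  refine List.forall_mem_cons.2 ⟨c161, ?_⟩
  refine List.forall_mem_cons.2 ⟨c162, ?_⟩
  refine List.forall_mem_cons.2 ⟨c163, ?_⟩
  refine List.forall_mem_cons.2 ⟨c164, ?_⟩
  refine List.forall_mem_cons.2 ⟨c165, ?_⟩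
  refine List.forall_mem_cons.2 ⟨c166, ?_⟩
  refine List.forall_mem_cons.2 ⟨c167, ?_⟩
  refine List.forall_mem_cons.2 ⟨c168, ?_⟩
  refine List.forall_mem_cons.2 ⟨c169, ?_⟩
  refine List.forall_mem_cons.2 ⟨c170, ?_⟩
  refine List.forall_mem_cons.2 ⟨c171, ?_⟩
  refine List.forall_mem_cons.2 ⟨c172, ?_⟩
  refine List.forall_mem_cons.2 ⟨c173, ?_⟩
  refine List.forall_mem_cons.2 ⟨c174, ?_⟩
  refine List.forall_mem_cons.2 ⟨c175, ?_⟩
  refine List.forall_mem_cons.2 ⟨c176, ?_⟩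
  refine List.forall_mem_cons.2 ⟨c177, ?_⟩
  refine List.forall_mem_cons.2 ⟨c178, ?_⟩
  refine List.forall_mem_cons.2 ⟨c179, ?_⟩
  refine List.forall_mem_cons.2 ⟨c180, ?_⟩
  refine List.forall_mem_cons.2 ⟨c181, ?_⟩
  refine List.forall_mem_cons.2 ⟨c182, ?_⟩
  refine List.forall_mem_cons.2 ⟨c183, ?_⟩
  refine List.forall_mem_cons.2 ⟨c184, ?_⟩
  refine List.forall_mem_cons.2 ⟨c185, ?_⟩
  refine List.forall_mem_cons.2 ⟨c186, ?_⟩
  refine List.forall_mem_cons.2 ⟨c187, ?_⟩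
  refine List.forall_mem_cons.2 ⟨c188, ?_⟩
  refine List.forall_mem_cons.2 ⟨c189, ?_⟩
  refine List.forall_mem_cons.2 ⟨c190, ?_⟩
  refine List.forall_mem_cons.2 ⟨c191, ?_⟩
  refine List.forall_mem_cons.2 ⟨c192, ?_⟩
  refine List.forall_mem_cons.2 ⟨c193, ?_⟩
  refine List.forall_mem_cons.2 ⟨c194, ?_⟩
  refine List.forall_mem_cons.2 ⟨c195, ?_⟩
  refine List.forall_mem_cons.2 ⟨c196, ?_⟩
  refine List.forall_mem_cons.2 ⟨c197, ?_⟩
  refine List.forall_mem_cons.2 ⟨c198, ?_⟩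
  refine List.forall_mem_cons.2 ⟨c199, ?_⟩
  refine List.forall_mem_cons.2 ⟨c200, ?_⟩
  refine List.forall_mem_cons.2 ⟨c201, ?_⟩
  refine List.forall_mem_cons.2 ⟨c202, ?_⟩
  refine List.forall_mem_cons.2 ⟨c203, ?_⟩
  refine List.forall_mem_cons.2 ⟨c204, ?_⟩
  refine List.forall_mem_cons.2 ⟨c205, ?_⟩
  refine List.forall_mem_cons.2 ⟨c206, ?_⟩
  refine List.forall_mem_cons.2 ⟨c207, ?_⟩
  refine List.forall_mem_cons.2 ⟨c208, ?_⟩
  refine List.forall_mem_cons.2 ⟨c209, ?_⟩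
  refine List.forall_mem_cons.2 ⟨c210, ?_⟩
  refine List.forall_mem_cons.2 ⟨c211, ?_⟩
  refine List.forall_mem_cons.2 ⟨c212, ?_⟩
  refine List.forall_mem_cons.2 ⟨c213, ?_⟩
  refine List.forall_mem_cons.2 ⟨c214, ?_⟩
  refine List.forall_mem_cons.2 ⟨c215, ?_⟩
  refine List.forall_mem_cons.2 ⟨c216, ?_⟩
  refine List.forall_mem_cons.2 ⟨c217, ?_⟩
  refine List.forall_mem_cons.2 ⟨c218, ?_⟩
  refine List.forall_mem_cons.2 ⟨c219, ?_⟩
  refine List.forall_mem_cons.2 ⟨c220, ?_⟩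
  refine List.forall_mem_cons.2 ⟨c221, ?_⟩
  refine List.forall_mem_cons.2 ⟨c222, ?_⟩
  refine List.forall_mem_cons.2 ⟨c223, ?_⟩
  refine List.forall_mem_cons.2 ⟨c224, ?_⟩
  refine List.forall_mem_cons.2 ⟨c225, ?_⟩
  refine List.forall_mem_cons.2 ⟨c226, ?_⟩
  refine List.forall_mem_cons.2 ⟨c227, ?_⟩
  refine List.forall_mem_cons.2 ⟨c228, ?_⟩
  refine List.forall_mem_cons.2 ⟨c229, ?_⟩
  refine List.forall_mem_cons.2 ⟨c230, ?_⟩
  refine List.forall_mem_cons.2 ⟨c231, ?_⟩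
  refine List.forall_mem_cons.2 ⟨c232, ?_⟩
  refine List.forall_mem_cons.2 ⟨c233, ?_⟩
  refine List.forall_mem_cons.2 ⟨c234, ?_⟩
  refine List.forall_mem_cons.2 ⟨c235, ?_⟩
  refine List.forall_mem_cons.2 ⟨c236, ?_⟩
  refine List.forall_mem_cons.2 ⟨c237, ?_⟩
  refine List.forall_mem_cons.2 ⟨c238, ?_⟩
  refine List.forall_mem_cons.2 ⟨c239, ?_⟩
  refine List.forall_mem_cons.2 ⟨c240, ?_⟩
  refine List.forall_mem_cons.2 ⟨c241, ?_⟩
  refine List.forall_mem_cons.2 ⟨c242, ?_⟩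
  refine List.forall_mem_cons.2 ⟨c243, ?_⟩
  refine List.forall_mem_cons.2 ⟨c244, ?_⟩
  refine List.forall_mem_cons.2 ⟨c245, ?_⟩
  refine List.forall_mem_cons.2 ⟨c246, ?_⟩
  refine List.forall_mem_cons.2 ⟨c247, ?_⟩
  refine List.forall_mem_cons.2 ⟨c248, ?_⟩
  refine List.forall_mem_cons.2 ⟨c249, ?_⟩
  refine List.forall_mem_cons.2 ⟨c250, ?_⟩
  refine List.forall_mem_cons.2 ⟨c251, ?_⟩
  refine List.forall_mem_cons.2 ⟨c252, ?_⟩
  refine List.forall_mem_cons.2 ⟨c253, ?_⟩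
  refine List.forall_mem_cons.2 ⟨c254, ?_⟩
  refine List.forall_mem_cons.2 ⟨c255, ?_⟩
  refine List.forall_mem_cons.2 ⟨c256, ?_⟩
  refine List.forall_mem_cons.2 ⟨c257, ?_⟩
  refine List.forall_mem_cons.2 ⟨c258, ?_⟩
  refine List.forall_mem_cons.2 ⟨c259, ?_⟩
  refine List.forall_mem_cons.2 ⟨c260, ?_⟩
  refine List.forall_mem_cons.2 ⟨c261, ?_⟩
  refine List.forall_mem_cons.2 ⟨c262, ?_⟩
  refine List.forall_mem_cons.2 ⟨c263, ?_⟩
  refine List.forall_mem_cons.2 ⟨c264, ?_⟩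
  refine List.forall_mem_cons.2 ⟨c265, ?_⟩
  refine List.forall_mem_cons.2 ⟨c266, ?_⟩
  refine List.forall_mem_cons.2 ⟨c267, ?_⟩
  refine List.forall_mem_cons.2 ⟨c268, ?_⟩
  refine List.forall_mem_cons.2 ⟨c269, ?_⟩
  refine List.forall_mem_cons.2 ⟨c270, ?_⟩
  refine List.forall_mem_cons.2 ⟨c271, ?_⟩
  refine List.forall_mem_cons.2 ⟨c272, ?_⟩
  refine List.forall_mem_cons.2 ⟨c273, ?_⟩
  refine List.forall_mem_cons.2 ⟨c274, ?_⟩
  refine List.forall_mem_cons.2 ⟨c275, ?_⟩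
  refine List.forall_mem_cons.2 ⟨c276, ?_⟩
  refine List.forall_mem_cons.2 ⟨c277, ?_⟩
  refine List.forall_mem_cons.2 ⟨c278, ?_⟩
  refine List.forall_mem_cons.2 ⟨c279, ?_⟩
  exact List.forall_mem_nil _

/-- LINK (4), `f = 17/20 - 4/5 |z₀|²` on `|z₀| ≤ 1/2` -/
theorem loc_main : Helper50.SH.P4F (17 / 20) (4 / 5) 1 (3 / 2) (-(18875 / 1048576)) (37749 / 1048576)
    (33903 / 1048576) (1 / 2) := loc_roots all_roots

/-- LINK (4), `f = 21/25 - 4/5 |z₀|²` on `|z₀| ≤ 1/2`, price box `[-18/1000, 36/1000]` -/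
theorem loc_main' : Helper50.SH.P4F (21 / 25) (4 / 5) 1 (3 / 2) (-(18 / 1000)) (36 / 1000)
    (33903 / 1048576) (1 / 2) := loc_roots' all_roots

end Pool.Agent.Helper25.SH
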