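import Pool.Agent.Helper25.SH.Defs2

/-!
# MP_506470_co, finite clique number: transport of the outcomes
-/

namespace SetHom

variable {V W : Type}

/-- Finite subsets of the image of an injective map. -/
theorem pull_finset {f : V → W} (hf : Function.Injective f) {S : Set V} (I : Finset W)
    (hI : (I : Set W) ⊆ f '' S) :
    ∃ J : Finset V, (J : Set V) ⊆ S ∧ J.card = I.card ∧ (J : Set V).image f = (I : Set W) := by
  classical
  refine ⟨I.preimage f hf.injOn, ?_, ?_, ?_⟩
  · intro x hx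
    have : f x ∈ I := by simpa using hx
    obtain ⟨y, hy, hxy⟩ := hI this
    rwa [← hf hxy]
  · rw [← Finset.card_image_of_injective _ hf]
    congr 1
    ext y
    constructor
    · intro hy
      obtain ⟨x, hx, rfl⟩ := Finset.mem_image.1 hy
      simpa using hx
    · intro hy
      obtain ⟨x, -, rfl⟩ := hI hy
      exact Finset.mem_image_of_mem f (by simpa using hy)
  · ext y
    constructor
    · rintro ⟨x, hx, rfl⟩
      simpa using hx
    · intro hy
      obtain ⟨x, -, rfl⟩ := hI hy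
      exact Set.mem_image_of_mem f (by simpa using hy)

theorem P3F.map {G : SimpleGraph V} {H : SimpleGraph W} (f : V → W) (hf : Function.Injective f)
    (hadj : ∀ x y, H.Adj (f x) (f y) ↔ G.Adj x y) {S : Set V} (h : P3F G S) :
    P3F H (f '' S) := by
  rintro _ ⟨a, ha, rfl⟩ _ ⟨b, hb, rfl⟩ _ ⟨c, hc, rfl⟩
  rw [hadj, hadj, hadj]
  intro h1 h2 h3
  exact h a ha b hb c hc h1 h2 (fun e => h3 (by rw [e]))

theorem CMP.map {G : SimpleGraph V} {H : SimpleGraph W} (f : V → W)
    (hadj : ∀ x y, H.Adj (f x) (f y) ↔ G.Adj x y) {S : Set V} (h : CMP G S) :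
    CMP H (f '' S) := by
  rintro _ ⟨a, ha, rfl⟩ _ ⟨b, hb, rfl⟩ _ ⟨c, hc, rfl⟩
  rw [hadj, hadj, hadj]
  exact h a ha b hb c hc

theorem cliqueFreeOn_map {G : SimpleGraph V} {H : SimpleGraph W} (f : V → W)
    (hf : Function.Injective f) (hadj : ∀ x y, H.Adj (f x) (f y) ↔ G.Adj x y) {n : ℕ} (A : Set V) :
    H.CliqueFreeOn (f '' A) n ↔ G.CliqueFreeOn A n := by
  classical
  constructor
  · intro h t ht hc
    refine h (t := t.image f) ?_ ?_
    · rw [Finset.coe_image]
      exact Set.image_mono ht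
    · rw [SimpleGraph.isNClique_iff] at hc ⊢
      refine ⟨?_, by rw [Finset.card_image_of_injective _ hf, hc.2]⟩
      intro x hx y hy hxy
      simp only [Finset.coe_image] at hx hy
      obtain ⟨a, ha, rfl⟩ := hx
      obtain ⟨b, hb, rfl⟩ := hy
      rw [hadj]
      exact hc.1 ha hb (fun e => hxy (by rw [e]))
  · intro h t ht hc
    obtain ⟨J, hJ, hJc, hJt⟩ := pull_finset hf t ht
    refine h hJ ?_
    rw [SimpleGraph.isNClique_iff] at hc ⊢
    refine ⟨?_, by rw [hJc, hc.2]⟩
    intro x hx y hy hxy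
    rw [← hadj]
    refine hc.1 ?_ ?_ (hf.ne hxy)
    · rw [← hJt]
      exact Set.mem_image_of_mem f hx
    · rw [← hJt]
      exact Set.mem_image_of_mem f hy

theorem EXT.map {G : SimpleGraph V} {H : SimpleGraph W} {n : ℕ} (f : V → W)
    (hf : Function.Injective f) (hadj : ∀ x y, H.Adj (f x) (f y) ↔ G.Adj x y) {S : Set V}
    (h : EXT n G S) : EXT n H (f '' S) := by
  classical
  intro A B hA hB hAB hK
  obtain ⟨A', hA', -, hAA⟩ := pull_finset hf A hA
  obtain ⟨B', hB', -, hBB⟩ := pull_finset hf B hB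
  have hmA : ∀ x, x ∈ A' → f x ∈ A := fun x hx => by
    have : f x ∈ (A : Set W) := hAA ▸ Set.mem_image_of_mem f hx
    exact this
  have hmB : ∀ x, x ∈ B' → f x ∈ B := fun x hx => by
    have : f x ∈ (B : Set W) := hBB ▸ Set.mem_image_of_mem f hx
    exact this
  have hd : Disjoint A' B' := by
    rw [Finset.disjoint_left] at hAB ⊢
    intro x hx hx'
    exact hAB (hmA x hx) (hmB x hx')
  have hK' : G.CliqueFreeOn (A' : Set V) n := by
    rw [← cliqueFreeOn_map f hf hadj, hAA]
    exact hK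
  obtain ⟨c, hcS, hcB, h1, h2⟩ := h A' B' hA' hB' hd hK'
  refine ⟨f c, Set.mem_image_of_mem f hcS, ?_, ?_, ?_⟩
  · intro hc
    have : f c ∈ (B : Set W) := hc
    rw [← hBB] at this
    obtain ⟨x, hx, hxc⟩ := this
    rw [hf hxc] at hx
    exact hcB hx
  · intro a ha
    have : a ∈ (A : Set W) := ha
    rw [← hAA] at this
    obtain ⟨x, hx, rfl⟩ := this
    exact (hadj _ _).2 (h1 x hx)
  · intro b hb
    have : b ∈ (B : Set W) := hb
    rw [← hBB] at this
    obtain ⟨x, hx, rfl⟩ := this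
    exact fun e => h2 x hx ((hadj _ _).1 e)

end SetHom
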