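import Pool.Agent.Helper80.SH.F1
import Pool.Agent.Helper45.SH.F3
import Pool.Agent.Helper30.SH.F4
import Pool.Agent.Helper30.SH.L2
import Pool.Agent.Helper37.SH.G1
import Pool.Agent.Helper76.SH.G2
import Pool.Agent.Helper37.SH.H1
import Pool.Agent.Helper52.SH.H4
import Pool.Agent.Helper12.SH.K3
import Pool.Agent.Helper42.SH.L1
import Pool.Agent.Helper30.SH.BackForth
import Pool.Agent.Helper76.SH.Main
import Pool.Agent.Helper25.SH.Maps

/-!
# MP_506470_co, finite clique number: the main induction
-/

namespace SetHom

variable {V : Type}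

/-- the possible outcomes of the induction -/
def Out (n : ℕ) (G : SimpleGraph V) (S : Set V) : Prop :=
  P3F G S ∨ CMP G S ∨ EXT n G S ∨ (n = 2 ∧ RayOn G S)

theorem Out.map {W : Type} {G : SimpleGraph V} {H : SimpleGraph W} {n : ℕ} (f : V → W)
    (hf : Function.Injective f) (hadj : ∀ x y, H.Adj (f x) (f y) ↔ G.Adj x y) {S : Set V}
    (h : Out n G S) : Out n H (f '' S) := by
  rcases h with h | h | h | ⟨h1, h2⟩
  · exact Or.inl (h.map f hf hadj)
  · exact Or.inr (Or.inl (h.map f hadj))
  · exact Or.inr (Or.inr (Or.inl (h.map f hf hadj)))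
  · exact Or.inr (Or.inr (Or.inr ⟨h1, h2.map f hf hadj⟩))

/-- The image of a link isomorphic to the link of `v` is the neighbourhood of `v`. -/
theorem link_image {G : SimpleGraph V} {v w : V} (e : Link G v ≃g Link G w) :
    (fun x : G.neighborSet v => (e x).1) '' Set.univ = G.neighborSet w := by
  ext y
  constructor
  · rintro ⟨x, -, rfl⟩
    exact (e x).2
  · intro hy
    exact ⟨e.symm ⟨y, hy⟩, Set.mem_univ _, by simp⟩

theorem link_inj {G : SimpleGraph V} {v w : V} (e : Link G v ≃g Link G w) :
    Function.Injective (fun x : G.neighborSet v => (e x).1) := by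
  intro x y h
  exact e.injective (Subtype.ext h)

theorem link_adj {G : SimpleGraph V} {v w : V} (e : Link G v ≃g Link G w)
    (x y : G.neighborSet v) : G.Adj (e x).1 (e y).1 ↔ (Link G v).Adj x y := by
  have := e.map_adj_iff (v := x) (w := y)
  rw [← this]
  rfl

/-- A clique of the link of `v` together with `v`. -/
theorem link_cliqueFree {G : SimpleGraph V} {n : ℕ} (hK : G.CliqueFree (n + 1)) (v : V) :
    (Link G v).CliqueFree n := by
  classical
  intro t ht
  rw [SimpleGraph.isNClique_iff] at ht
  refine hK (insert v (t.image Subtype.val)) ?_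
  rw [SimpleGraph.isNClique_iff]
  constructor
  · intro x hx y hy hxy
    simp only [Finset.coe_insert, Finset.coe_image, Set.mem_insert_iff, Set.mem_image,
      Finset.mem_coe] at hx hy
    rcases hx with rfl | ⟨x', hx', rfl⟩ <;> rcases hy with rfl | ⟨y', hy', rfl⟩
    · exact absurd rfl hxy
    · exact y'.2
    · exact (x'.2 : G.Adj _ _).symm
    · exact ht.1 hx' hy' (fun e => hxy (by rw [e]))
  · rw [Finset.card_insert_of_notMem, Finset.card_image_of_injective _ Subtype.val_injective, ht.2]
    intro h
    obtain ⟨x, -, hx⟩ := Finset.mem_image.1 h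
    have := x.2
    rw [hx] at this
    exact G.loopless.irrefl v this

/-- A clique through `v` gives a clique of its link. -/
theorem link_not_cliqueFree {G : SimpleGraph V} {n : ℕ} (hn : ¬ G.CliqueFree (n + 1)) :
    ∃ v, ¬ (Link G v).CliqueFree n := by
  classical
  rw [SimpleGraph.CliqueFree] at hn
  push Not at hn
  obtain ⟨t, ht⟩ := hn
  rw [SimpleGraph.isNClique_iff] at ht
  have hne : t.Nonempty := by
    rw [← Finset.card_pos, ht.2]
    omega
  obtain ⟨v, hv⟩ := hne
  refine ⟨v, fun h => ?_⟩
  have hsub : ∀ x ∈ t.erase v, G.Adj v x := fun x hx => by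
    have := Finset.mem_erase.1 hx
    exact ht.1 hv this.2 (Ne.symm this.1)
  refine h ((t.erase v).attach.image (fun x => (⟨x.1, hsub x.1 x.2⟩ : G.neighborSet v))) ?_
  rw [SimpleGraph.isNClique_iff]
  constructor
  · intro x hx y hy hxy
    simp only [Finset.coe_image, Set.mem_image, Finset.mem_coe] at hx hy
    obtain ⟨x', -, rfl⟩ := hx
    obtain ⟨y', -, rfl⟩ := hy
    have hx' := Finset.mem_erase.1 x'.2
    have hy' := Finset.mem_erase.1 y'.2
    exact ht.1 hx'.2 hy'.2 (fun e => hxy (Subtype.ext e))
  · rw [Finset.card_image_of_injective]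
    · rw [Finset.card_attach, Finset.card_erase_of_mem hv, ht.2]
      rfl
    · intro x y hxy
      have := congrArg Subtype.val hxy
      exact Subtype.ext this

theorem cliqueFree_of_iso {W : Type} {G : SimpleGraph V} {H : SimpleGraph W} (e : G ≃g H) {n : ℕ}
    (h : G.CliqueFree n) : H.CliqueFree n := h.comap ⟨e.symm.toHom, e.symm.injective⟩

/-- In an infinite graph without `n`-cliques there are distinct non-adjacent vertices. -/
theorem exists_nonadj {G : SimpleGraph V} [Infinite V] {n : ℕ} (hK : G.CliqueFree n) :
    ∃ a b, a ≠ b ∧ ¬ G.Adj a b := by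
  by_contra hcon
  push Not at hcon
  obtain ⟨t, ht⟩ := Infinite.exists_subset_card_eq V n
  refine hK t ?_
  rw [SimpleGraph.isNClique_iff]
  exact ⟨fun x _ y _ hxy => hcon x y hxy, ht⟩

theorem ncard_nbr_iso {W : Type} {G : SimpleGraph V} {H : SimpleGraph W} (e : G ≃g H) (a : V) :
    (H.neighborSet (e a)).ncard = (G.neighborSet a).ncard := by
  have : H.neighborSet (e a) = e '' (G.neighborSet a) := by
    ext y
    constructor
    · intro hy
      refine ⟨e.symm y, ?_, by simp⟩
      have h1 : H.Adj (e a) (e (e.symm y)) := by simpa using hy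
      exact e.map_adj_iff.1 h1
    · rintro ⟨x, hx, rfl⟩
      exact e.map_adj_iff.2 hx
  rw [this, Set.ncard_image_of_injective _ e.injective]

theorem ncard_common {G : SimpleGraph V} {u v : V} (h : G.Adj u v) :
    {x | G.Adj u x ∧ G.Adj v x}.ncard =
      ((Link G u).neighborSet ⟨v, h⟩).ncard := by
  rw [← Set.ncard_image_of_injective _ (Subtype.val_injective (p := (· ∈ G.neighborSet u)))]
  congr 1
  ext x
  constructor
  · rintro ⟨h1, h2⟩
    exact ⟨⟨x, h1⟩, h2, rfl⟩
  · rintro ⟨y, hy, rfl⟩
    exact ⟨y.2, hy⟩

/-- The main induction. -/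
theorem fc_induct : ∀ (n : ℕ) {V : Type} (G : SimpleGraph V), Infinite V → HH n G →
    G.CliqueFree (n + 1) → ¬ G.CliqueFree n → Out n G Set.univ
  | 0, V, G, hV, _, hK, _ => by
    exfalso
    obtain ⟨v⟩ : Nonempty V := inferInstance
    exact hK {v} (by simp [SimpleGraph.isNClique_iff])
  | 1, V, G, hV, _, hK, _ => by
    left
    intro a _ b _ c _ hab
    exfalso
    rw [SimpleGraph.cliqueFree_two.1 hK] at hab
    exact hab
  | n + 2, V, G, hV, hH, hK, hnK => by
    classical
    obtain ⟨hW, hiso, hlink⟩ := hH
    by_cases hfin : ∃ v, (G.neighborSet v).Finite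
    · left
      obtain ⟨v, hv⟩ := hfin
      refine p3f_of_finite hW (fun w => ?_)
      obtain ⟨e⟩ := hiso v w
      have : Finite (G.neighborSet v) := hv
      exact (Finite.of_equiv _ e.toEquiv : Finite (G.neighborSet w))
    push Not at hfin
    have hinf : ∀ v, (G.neighborSet v).Infinite := hfin
    rcases Nat.eq_zero_or_pos n with rfl | hn
    · -- clique number two
      have tf : TF G := by
        intro a b c hab hbc hac
        refine hK {a, b, c} ?_
        rw [SimpleGraph.is3Clique_triple_iff]
        exact ⟨hab, hac, hbc⟩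
      rcases base_of hW tf hinf with h | h
      · exact Or.inr (Or.inl h)
      · rcases ray_or_traces h with h' | h'
        · exact Or.inr (Or.inr (Or.inr ⟨rfl, h'⟩))
        · exact Or.inr (Or.inr (Or.inl (ext_of_traces h h')))
    -- clique number at least three
    have hlK : ∀ v, (Link G v).CliqueFree (n + 1 + 1) := fun v => link_cliqueFree hK v
    have hlnK : ∀ v, ¬ (Link G v).CliqueFree (n + 1) := by
      obtain ⟨v0, hv0⟩ := link_not_cliqueFree hnK
      intro v h
      obtain ⟨e⟩ := hiso v v0
      exact hv0 (cliqueFree_of_iso e h)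
    have hout : ∀ v, Out (n + 1) (Link G v) Set.univ := fun v => by
      have : Infinite (G.neighborSet v) := (hinf v).to_subtype
      exact fc_induct (n + 1) (Link G v) this (hlink v) (hlK v) (hlnK v)
    obtain ⟨v0⟩ : Nonempty V := inferInstance
    have key : P3F (Link G v0) Set.univ ∨ CMP (Link G v0) Set.univ ∨
        EXT (n + 1) (Link G v0) Set.univ ∨ (n + 1 = 2 ∧ RayOn (Link G v0) Set.univ) := hout v0
    rcases key with h | h | h | ⟨h2, h⟩
    · -- links are unions of cliques
      exfalso
      have hP : ∀ v, P3F G (G.neighborSet v) := fun v => by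
        obtain ⟨e⟩ := hiso v0 v
        have := h.map (fun x => (e x).1) (link_inj e) (link_adj e)
        rwa [link_image] at this
      -- all edges have the same number of common neighbours
      have hinfl : ∀ v, Infinite (G.neighborSet v) := fun v => (hinf v).to_subtype
      obtain ⟨v1⟩ : Nonempty (G.neighborSet v0) := inferInstance
      have hHl : ∀ u, ∀ a b : G.neighborSet u,
          ((Link G u).neighborSet a).ncard = ((Link G u).neighborSet b).ncard := by
        intro u a b
        obtain ⟨e⟩ := (hlink u).2.1 a b
        exact Nat.card_congr e.toEquiv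
      have hμ : ∀ u v, G.Adj u v → {x | G.Adj u x ∧ G.Adj v x}.ncard =
          ((Link G v0).neighborSet v1).ncard := by
        intro u v huv
        rw [ncard_common huv]
        obtain ⟨e⟩ := hiso v0 u
        rw [← ncard_nbr_iso e v1]
        exact hHl u _ _
      refine gq_false hW hinf hP ((Link G v0).neighborSet v1).ncard ?_ hμ
      -- some edge has a common neighbour
      have hedge : ∃ a b : G.neighborSet v0, (Link G v0).Adj a b := by
        by_contra hcon
        push Not at hcon
        apply hlnK v0
        have : (Link G v0).CliqueFree 2 := by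
          rw [SimpleGraph.cliqueFree_two]
          ext a b
          simpa using hcon a b
        exact this.mono (by omega)
      obtain ⟨a, b, hab⟩ := hedge
      rw [hHl v0 v1 a]
      have hfinl : ((Link G v0).neighborSet a).Finite := by
        by_contra hinf'
        obtain ⟨t, ht, htc⟩ := Set.Infinite.exists_subset_card_eq hinf' (n + 1 + 1)
        refine hlK v0 t ?_
        rw [SimpleGraph.isNClique_iff]
        refine ⟨?_, htc⟩
        intro x hx y hy hxy
        have h1 : (Link G v0).Adj a x := ht hx
        have h2 : (Link G v0).Adj a y := ht hy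
        exact h x (Set.mem_univ _) a (Set.mem_univ _) y (Set.mem_univ _) h1.symm h2 hxy
      have : 0 < ((Link G v0).neighborSet a).ncard := by
        rw [Set.ncard_pos hfinl]
        exact ⟨b, hab⟩
      exact this
    · -- links are complete multipartite
      right; left
      have hC : ∀ v, CMP G (G.neighborSet v) := fun v => by
        obtain ⟨e⟩ := hiso v0 v
        have := h.map (fun x => (e x).1) (link_adj e)
        rwa [link_image] at this
      refine cmp_of_links hW hC ?_ ?_
      · intro v
        by_contra hcon
        push Not at hcon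
        apply hlnK v
        have : (Link G v).CliqueFree 2 := by
          rw [SimpleGraph.cliqueFree_two]
          ext a b
          simpa using hcon a.1 b.1 a.2 b.2
        exact this.mono (by omega)
      · have : Infinite (G.neighborSet v0) := (hinf v0).to_subtype
        obtain ⟨a, b, hab, hn⟩ := exists_nonadj (hlK v0)
        exact ⟨v0, a.1, b.1, a.2, b.2, fun e => hab (Subtype.ext e), hn⟩
    · -- generic links
      right; right; left
      have hE : ∀ v, EXT (n + 1) G (G.neighborSet v) := fun v => by
        obtain ⟨e⟩ := hiso v0 v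
        have := h.map (fun x => (e x).1) (link_inj e) (link_adj e)
        rwa [link_image] at this
      exact (gen_of (n := n + 2) (by omega) hW hK (by simpa using hE)).ext_univ
    · -- links of ray type
      exfalso
      have hR : ∀ v, RayOn G (G.neighborSet v) := fun v => by
        obtain ⟨e⟩ := hiso v0 v
        have := h.map (fun x => (e x).1) (link_inj e) (link_adj e)
        rwa [link_image] at this
      have h3 : n = 1 := by omega
      subst h3
      exact ray_false ⟨hW, hK, hR, ⟨v0⟩⟩

/-- Countably infinite set-homogeneous graphs with finite clique number. -/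
theorem fc_main [Countable V] [Infinite V] (G : SimpleGraph V) (hs : SetHomogeneous G) (N : ℕ)
    (hN : G.CliqueFree N) : Homogeneous G ∨ Nonempty (G ≃g R3ᶜ) := by
  classical
  have hex : ∃ n, G.CliqueFree n := ⟨N, hN⟩
  have h0 : ¬ G.CliqueFree 0 := by
    intro h
    exact h ∅ (by simp [SimpleGraph.isNClique_iff])
  obtain ⟨n, hn⟩ : ∃ n, Nat.find hex = n + 1 := by
    refine ⟨Nat.find hex - 1, ?_⟩
    have : Nat.find hex ≠ 0 := by
      intro h
      have h1 := Nat.find_spec hex
      rw [h] at h1
      exact h0 h1
    omega
  have hK : G.CliqueFree (n + 1) := by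
    have := Nat.find_spec hex
    rwa [hn] at this
  have hnK : ¬ G.CliqueFree n := Nat.find_min hex (by omega)
  have ht := trans_of_sh hs
  have key : P3F G Set.univ ∨ CMP G Set.univ ∨
        EXT n G Set.univ ∨ (n = 2 ∧ RayOn G Set.univ) :=
    fc_induct n G inferInstance (hh_of_sh n hs) hK hnK
  rcases key with h | h | h | ⟨h2, h⟩
  · exact Or.inl (homogeneous_of_ope (ope_of_p3f hK ht h))
  · exact Or.inl (homogeneous_of_ope (ope_of_cmp hK ht h))
  · exact Or.inl (homogeneous_of_ope (ope_of_ext hK h))
  · subst h2
    refine main G hs ?_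
    intro a b c hab hbc hac
    refine hK {a, b, c} ?_
    rw [SimpleGraph.is3Clique_triple_iff]
    exact ⟨hab, hac, hbc⟩

end SetHom
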