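import Pool.Agent.Helper25.SH.Fast
import Pool.Agent.Helper88.SH.OutDom

/-!
# Project SHARP (MP_b21509_co), link (4): the leaves of type (C) with natural numbers

Scale `N = 2^20`; prices `(P2, P3) = (1, 3/2)`, price box `c ∈ [-18875/N, 37749/N]`, `|h| ≤ 33903/N`.  Offsets: `a` stands for `ζ_x + 3`,
`e` for `ζ_y + 3/2`; `v_k` for `V_k + 2` (`W = 2 N`), `m_i` for `m_i + 32`.  Data of a leaf of type 4: `r_k` (22 bits), `u_k = -U_k` (23 bits),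
`v_k` (22 bits), `268` bits; type 5: the same and `m_1, m_2` (26 bits each), `320` bits.
-/

set_option autoImplicit false

namespace Pool.Agent.Helper25.SH

open Pool.Agent.Helper88.P4

/-- the parameters -/
def par (F : ℕ) : Par := ⟨1048576, F, 1048576, 1572864, -18875, 37749, 33903, 0, 274877906944⟩

/-- `w` bits of `d`, from position `i` -/
def bt (d i w : ℕ) : ℕ := Nat.mod (Nat.div d (Nat.pow 2 i)) (Nat.pow 2 w)

def ed1 (r u v p q : ℕ) : Bool :=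
  bif Nat.ble (Nat.add (sqr u) (Nat.mul 3 (sqr (dif v 2097152)))) (Nat.mul 2 (Nat.mul r u)) then
    Nat.ble (Nat.mul (sqr r) (Nat.add p (Nat.mul 3 q))) 4835703278458516698824704 else false

/-- `p1 = (N + 2 x1)²`, `p0 = (N - 2 x0)²`, `q1 = (N + 2 y1)²`, `q0 = (N - 2 y0)²` -/
def eds (p1 p0 q1 q0 r1 r2 r3 r4 u1 u2 u3 u4 v1 v2 v3 v4 : ℕ) : Bool :=
  bif ed1 r1 u1 v1 p1 q1 then bif ed1 r2 u2 v2 p0 q0 then bif ed1 r3 u3 v3 p0 q1 then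
    ed1 r4 u4 v4 p1 q0 else false else false else false

def edx (x0 x1 y0 y1 r1 r2 r3 r4 u1 u2 u3 u4 v1 v2 v3 v4 : ℕ) : Bool :=
  eds (sqr (Nat.add 1048576 (Nat.mul 2 x1))) (sqr (dif 1048576 (Nat.mul 2 x0)))
    (sqr (Nat.add 1048576 (Nat.mul 2 y1))) (sqr (dif 1048576 (Nat.mul 2 y0)))
    r1 r2 r3 r4 u1 u2 u3 u4 v1 v2 v3 v4

theorem ed1_sound (r u v p q : ℕ) (x y : ℤ) (hp : (p : ℤ) = x * x) (hq : (q : ℤ) = y * y)
    (h : ed1 r u v p q = true) : ed 1048576 r (-(u : ℤ)) ((v : ℤ) - 2097152) x y = true := by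
  simp only [ed1, bif_and] at h
  have h1 : u * u + 3 * (dif v 2097152 * dif v 2097152) ≤ 2 * (r * u) := Nat.le_of_ble_eq_true h.1
  have h2 : r * r * (p + 3 * q) ≤ 4835703278458516698824704 := Nat.le_of_ble_eq_true h.2
  have h3 : ((u * u + 3 * (dif v 2097152 * dif v 2097152) : ℕ) : ℤ) ≤ ((2 * (r * u) : ℕ) : ℤ) := Nat.cast_le.2 h1
  have h4 : ((r * r * (p + 3 * q) : ℕ) : ℤ) ≤ ((4835703278458516698824704 : ℕ) : ℤ) := Nat.cast_le.2 h2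
  push_cast at h3 h4
  rw [dif_cast_sq] at h3
  push_cast at h3
  rw [hp, hq] at h4
  simp only [ed, Bool.and_eq_true, decide_eq_true_eq]
  refine ⟨Nat.cast_nonneg r, ?_, ?_⟩
  · linarith
  · refine h4.trans (by norm_num)

theorem edx_sound (x0 x1 y0 y1 r1 r2 r3 r4 u1 u2 u3 u4 v1 v2 v3 v4 : ℕ)
    (h : edx x0 x1 y0 y1 r1 r2 r3 r4 u1 u2 u3 u4 v1 v2 v3 v4 = true) :
    ed 1048576 r1 (-(u1 : ℤ)) ((v1 : ℤ) - 2097152) (1048576 + 2 * (x1 : ℤ)) (1048576 + 2 * (y1 : ℤ)) = true ∧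
    ed 1048576 r2 (-(u2 : ℤ)) ((v2 : ℤ) - 2097152) (1048576 - 2 * (x0 : ℤ)) (1048576 - 2 * (y0 : ℤ)) = true ∧
    ed 1048576 r3 (-(u3 : ℤ)) ((v3 : ℤ) - 2097152) (1048576 - 2 * (x0 : ℤ)) (1048576 + 2 * (y1 : ℤ)) = true ∧
    ed 1048576 r4 (-(u4 : ℤ)) ((v4 : ℤ) - 2097152) (1048576 + 2 * (x1 : ℤ)) (1048576 - 2 * (y0 : ℤ)) = true := by
  simp only [edx, eds, bif_and] at h
  obtain ⟨h1, h2, h3, h4⟩ := h
  have a1 : ∀ x : ℕ, ((sqr (Nat.add 1048576 (Nat.mul 2 x)) : ℕ) : ℤ) =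
      (1048576 + 2 * (x : ℤ)) * (1048576 + 2 * (x : ℤ)) := by
    intro x
    rw [sqr_eq]
    simp only [Nat.add_eq, Nat.mul_eq]
    push_cast
    ring
  have a0 : ∀ x : ℕ, ((sqr (dif 1048576 (Nat.mul 2 x)) : ℕ) : ℤ) =
      (1048576 - 2 * (x : ℤ)) * (1048576 - 2 * (x : ℤ)) := by
    intro x
    rw [sqr_eq, Nat.cast_mul, dif_cast_sq]
    simp only [Nat.mul_eq]
    push_cast
    ring
  exact ⟨ed1_sound _ _ _ _ _ _ _ (a1 _) (a1 _) h1, ed1_sound _ _ _ _ _ _ _ (a0 _) (a0 _) h2,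
    ed1_sound _ _ _ _ _ _ _ (a0 _) (a1 _) h3, ed1_sound _ _ _ _ _ _ _ (a1 _) (a0 _) h4⟩

/-! ### type 4 -/

/-- sixteen vertices; `dp = u2 + u3`, `dn = u1 + u4`, `tp = u2 + u4`, `tn = u1 + u3`, `ep = v1 + v3`, `en = v2 + v4`, `kp = v1 + v4`,
`kn = v2 + v3` -/
def z16 (c0n cxp cxn cyp cyn cXp cXn cYp cYn su2 su6 sv6 g0p g0n gxp gxn gyp gyn h0p h0n hxp hxn hyp hyn
    x0 x1 y0 y1 a0 a1 e0 e1 w00 w01 w10 w11 : ℕ) : Bool :=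
  bif zc0 3145728 1572864 50331648 150994944 2097152 1266637395197952 158334976000 316661563392 5119181586432 c0n cxp cxn cyp cyn cXp cXn cYp cYn su2 su6 sv6
    g0p g0n gxp gxn gyp gyn h0p h0n hxp hxn hyp hyn a0 a1 e0 e1 w00 w01 w10 w11 x0 y0 then
  bif zc0 3145728 1572864 50331648 150994944 2097152 1266637395197952 158334976000 316661563392 5119181586432 c0n cxp cxn cyp cyn cXp cXn cYp cYn su2 su6 sv6
    g0p g0n gxp gxn gyp gyn h0p h0n hxp hxn hyp hyn a0 a1 e0 e1 w00 w01 w10 w11 x0 y1 then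
  bif zc0 3145728 1572864 50331648 150994944 2097152 1266637395197952 158334976000 316661563392 5119181586432 c0n cxp cxn cyp cyn cXp cXn cYp cYn su2 su6 sv6
    g0p g0n gxp gxn gyp gyn h0p h0n hxp hxn hyp hyn a0 a1 e0 e1 w00 w01 w10 w11 x1 y0 then
  zc0 3145728 1572864 50331648 150994944 2097152 1266637395197952 158334976000 316661563392 5119181586432 c0n cxp cxn cyp cyn cXp cXn cYp cYn su2 su6 sv6
    g0p g0n gxp gxn gyp gyn h0p h0n hxp hxn hyp hyn a0 a1 e0 e1 w00 w01 w10 w11 x1 y1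
  else false else false else false

def zco (su sv u12 u34 v12 v34 dp dn tp tn ep en kp kn gxp gxn x0 x1 y0 y1 a0 a1 e0 e1
    w00 w01 w10 w11 : ℕ) : Bool :=
  z16 (Nat.mul 1099511627776 (Nat.mul 2 su)) (Nat.mul 1048576 (Nat.add dp (Nat.mul 3 ep)))
    (Nat.mul 1048576 (Nat.add dn (Nat.mul 3 en))) (Nat.mul 3145728 (Nat.add tp kn)) (Nat.mul 3145728 (Nat.add tn kp))
    (Nat.mul 1048576 gxp) (Nat.mul 1048576 gxn) (Nat.mul 3145728 (Nat.add tp kp)) (Nat.mul 3145728 (Nat.add tn kn))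
    (Nat.mul 2 su) (Nat.mul 6 su) (Nat.mul 6 sv)
    (Nat.mul 1048576 (Nat.add su (Nat.mul 3 v34))) (Nat.mul 3145728 v12) gxp gxn
    (Nat.mul 3 (Nat.add kn tn)) (Nat.mul 3 (Nat.add kp tp))
    (Nat.mul 1048576 (Nat.add (Nat.mul 15 u34) 276824064)) (Nat.mul 1048576 (Nat.add (Nat.mul 15 u12) (Nat.mul 33 sv)))
    (Nat.add (Nat.mul 24 tp) (Nat.mul 6 kp)) (Nat.add (Nat.mul 24 tn) (Nat.mul 6 kn))
    (Nat.add (Nat.mul 6 dp) (Nat.mul 72 en)) (Nat.add (Nat.mul 6 dn) (Nat.mul 72 ep))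
    x0 x1 y0 y1 a0 a1 e0 e1 w00 w01 w10 w11

def zcp (F3 u1 u2 u3 u4 v1 v2 v3 v4 dp dn ep en x0 x1 y0 y1 a0 a1 e0 e1 sa0 sa1 se0 se1 : ℕ) : Bool :=
  zco (Nat.add (Nat.add u1 u2) (Nat.add u3 u4)) (Nat.add (Nat.add v1 v2) (Nat.add v3 v4))
    (Nat.add u1 u2) (Nat.add u3 u4) (Nat.add v1 v2) (Nat.add v3 v4) dp dn (Nat.add u2 u4) (Nat.add u1 u3)
    ep en (Nat.add v1 v4) (Nat.add v2 v3) (Nat.add dp (Nat.mul 3 en)) (Nat.add dn (Nat.mul 3 ep))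
    x0 x1 y0 y1 a0 a1 e0 e1
    (Nat.mul F3 (Nat.add sa0 se0)) (Nat.mul F3 (Nat.add sa0 se1)) (Nat.mul F3 (Nat.add sa1 se0))
    (Nat.mul F3 (Nat.add sa1 se1))

/-- type 4, with the numbers -/
def lf4 (F x0 x1 y0 y1 a0 a1 e0 e1 r1 r2 r3 r4 u1 u2 u3 u4 v1 v2 v3 v4 : ℕ) : Bool :=
  bif edx x0 x1 y0 y1 r1 r2 r3 r4 u1 u2 u3 u4 v1 v2 v3 v4 then
  zcp (Nat.mul 3 F) u1 u2 u3 u4 v1 v2 v3 v4 (Nat.add u2 u3) (Nat.add u1 u4) (Nat.add v1 v3) (Nat.add v2 v4)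
    x0 x1 y0 y1 a0 a1 e0 e1 (sqr (dif a0 3145728)) (sqr (dif a1 3145728)) (sqr (dif e0 1572864))
    (sqr (dif e1 1572864))
  else false

def leaf4 (F d x0 x1 y0 y1 a0 a1 e0 e1 : ℕ) : Bool :=
  lf4 F x0 x1 y0 y1 a0 a1 e0 e1 (bt d 0 22) (bt d 22 22) (bt d 44 22) (bt d 66 22)
    (bt d 88 23) (bt d 111 23) (bt d 134 23) (bt d 157 23)
    (bt d 180 22) (bt d 202 22) (bt d 224 22) (bt d 246 22)

theorem sq_dif (a o : ℕ) : ((sqr (dif a o) : ℕ) : ℤ) = ((a : ℤ) - o) * (a - o) := by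
  rw [sqr_eq, Nat.cast_mul, dif_cast_sq]

theorem zc0_vy (F u1 u2 u3 u4 v1 v2 v3 v4 a0 a1 e0 e1 x y : ℕ)
    (h : zc0 3145728 1572864 50331648 150994944 2097152 1266637395197952 158334976000 316661563392 5119181586432
      (Nat.mul 1099511627776 (Nat.mul 2 (Nat.add (Nat.add u1 u2) (Nat.add u3 u4))))
      (Nat.mul 1048576 (Nat.add (Nat.add u2 u3) (Nat.mul 3 (Nat.add v1 v3))))
      (Nat.mul 1048576 (Nat.add (Nat.add u1 u4) (Nat.mul 3 (Nat.add v2 v4))))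
      (Nat.mul 3145728 (Nat.add (Nat.add u2 u4) (Nat.add v2 v3)))
      (Nat.mul 3145728 (Nat.add (Nat.add u1 u3) (Nat.add v1 v4)))
      (Nat.mul 1048576 (Nat.add (Nat.add u2 u3) (Nat.mul 3 (Nat.add v2 v4))))
      (Nat.mul 1048576 (Nat.add (Nat.add u1 u4) (Nat.mul 3 (Nat.add v1 v3))))
      (Nat.mul 3145728 (Nat.add (Nat.add u2 u4) (Nat.add v1 v4)))
      (Nat.mul 3145728 (Nat.add (Nat.add u1 u3) (Nat.add v2 v3)))
      (Nat.mul 2 (Nat.add (Nat.add u1 u2) (Nat.add u3 u4)))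
      (Nat.mul 6 (Nat.add (Nat.add u1 u2) (Nat.add u3 u4)))
      (Nat.mul 6 (Nat.add (Nat.add v1 v2) (Nat.add v3 v4)))
      (Nat.mul 1048576 (Nat.add (Nat.add (Nat.add u1 u2) (Nat.add u3 u4)) (Nat.mul 3 (Nat.add v3 v4))))
      (Nat.mul 3145728 (Nat.add v1 v2))
      (Nat.add (Nat.add u2 u3) (Nat.mul 3 (Nat.add v2 v4)))
      (Nat.add (Nat.add u1 u4) (Nat.mul 3 (Nat.add v1 v3)))
      (Nat.mul 3 (Nat.add (Nat.add v2 v3) (Nat.add u1 u3)))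
      (Nat.mul 3 (Nat.add (Nat.add v1 v4) (Nat.add u2 u4)))
      (Nat.mul 1048576 (Nat.add (Nat.mul 15 (Nat.add u3 u4)) 276824064))
      (Nat.mul 1048576 (Nat.add (Nat.mul 15 (Nat.add u1 u2))
        (Nat.mul 33 (Nat.add (Nat.add v1 v2) (Nat.add v3 v4)))))
      (Nat.add (Nat.mul 24 (Nat.add u2 u4)) (Nat.mul 6 (Nat.add v1 v4)))
      (Nat.add (Nat.mul 24 (Nat.add u1 u3)) (Nat.mul 6 (Nat.add v2 v3)))
      (Nat.add (Nat.mul 6 (Nat.add u2 u3)) (Nat.mul 72 (Nat.add v2 v4)))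
      (Nat.add (Nat.mul 6 (Nat.add u1 u4)) (Nat.mul 72 (Nat.add v1 v3)))
      a0 a1 e0 e1
      (Nat.mul (Nat.mul 3 F) (Nat.add (sqr (dif a0 3145728)) (sqr (dif e0 1572864))))
      (Nat.mul (Nat.mul 3 F) (Nat.add (sqr (dif a0 3145728)) (sqr (dif e1 1572864))))
      (Nat.mul (Nat.mul 3 F) (Nat.add (sqr (dif a1 3145728)) (sqr (dif e0 1572864))))
      (Nat.mul (Nat.mul 3 F) (Nat.add (sqr (dif a1 3145728)) (sqr (dif e1 1572864)))) x y = true) :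
    vy (par F) (2 * (par F).P2 + (iabs 0 + iabs 0)) (2 * (par F).P3 + (iabs 0 + iabs 0)) ((-(u1 : ℤ) + -(u2 : ℤ)) + (-(u3 : ℤ) + -(u4 : ℤ))) ((((v1 : ℤ) - 2097152) + ((v2 : ℤ) - 2097152)) + (((v3 : ℤ) - 2097152) + ((v4 : ℤ) - 2097152)))
      ((par F).N * (par F).N * (2 * ((-(u1 : ℤ) + -(u2 : ℤ)) + (-(u3 : ℤ) + -(u4 : ℤ))) - (iabs 0 + iabs 0)))
      ((par F).N * ((-(u1 : ℤ) - -(u2 : ℤ)) - (-(u3 : ℤ) - -(u4 : ℤ)) + 3 * ((((v1 : ℤ) - 2097152) - ((v2 : ℤ) - 2097152)) + (((v3 : ℤ) - 2097152) - ((v4 : ℤ) - 2097152)))))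
      ((par F).N * ((-(u1 : ℤ) - -(u2 : ℤ)) - (-(u3 : ℤ) - -(u4 : ℤ)) - 3 * ((((v1 : ℤ) - 2097152) - ((v2 : ℤ) - 2097152)) + (((v3 : ℤ) - 2097152) - ((v4 : ℤ) - 2097152))) + 2 * 0))
      ((par F).N * (3 * ((-(u1 : ℤ) - -(u2 : ℤ)) + (-(u3 : ℤ) - -(u4 : ℤ))) - 3 * ((((v1 : ℤ) - 2097152) - ((v2 : ℤ) - 2097152)) - (((v3 : ℤ) - 2097152) - ((v4 : ℤ) - 2097152)))))
      ((par F).N * (3 * ((-(u1 : ℤ) - -(u2 : ℤ)) + (-(u3 : ℤ) - -(u4 : ℤ))) + 3 * ((((v1 : ℤ) - 2097152) - ((v2 : ℤ) - 2097152)) - (((v3 : ℤ) - 2097152) - ((v4 : ℤ) - 2097152))) + 2 * 0))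
      ((par F).N * (3 * ((((v3 : ℤ) - 2097152) + ((v4 : ℤ) - 2097152)) - (((v1 : ℤ) - 2097152) + ((v2 : ℤ) - 2097152))) - ((-(u1 : ℤ) + -(u2 : ℤ)) + (-(u3 : ℤ) + -(u4 : ℤ)))))
      ((-(u1 : ℤ) - -(u2 : ℤ)) - (-(u3 : ℤ) - -(u4 : ℤ)) - 3 * ((((v1 : ℤ) - 2097152) - ((v2 : ℤ) - 2097152)) + (((v3 : ℤ) - 2097152) - ((v4 : ℤ) - 2097152))))
      (3 * ((((v3 : ℤ) - 2097152) - ((v4 : ℤ) - 2097152)) - (((v1 : ℤ) - 2097152) - ((v2 : ℤ) - 2097152))) - 3 * ((-(u1 : ℤ) - -(u2 : ℤ)) + (-(u3 : ℤ) - -(u4 : ℤ))))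
      ((par F).N * (15 * ((-(u1 : ℤ) + -(u2 : ℤ)) - (-(u3 : ℤ) + -(u4 : ℤ))) - 33 * ((((v1 : ℤ) - 2097152) + ((v2 : ℤ) - 2097152)) + (((v3 : ℤ) - 2097152) + ((v4 : ℤ) - 2097152)))))
      (24 * ((-(u1 : ℤ) - -(u2 : ℤ)) + (-(u3 : ℤ) - -(u4 : ℤ))) + 6 * ((((v1 : ℤ) - 2097152) - ((v2 : ℤ) - 2097152)) - (((v3 : ℤ) - 2097152) - ((v4 : ℤ) - 2097152))))
      (6 * ((-(u1 : ℤ) - -(u2 : ℤ)) - (-(u3 : ℤ) - -(u4 : ℤ))) - 72 * ((((v1 : ℤ) - 2097152) - ((v2 : ℤ) - 2097152)) + (((v3 : ℤ) - 2097152) - ((v4 : ℤ) - 2097152))))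
      0 0 x y ((a0 : ℤ) - 3145728) ((a1 : ℤ) - 3145728) ((e0 : ℤ) - 1572864) ((e1 : ℤ) - 1572864)
      (3 * (par F).F * (((a0 : ℤ) - 3145728) * ((a0 : ℤ) - 3145728) + ((e0 : ℤ) - 1572864) * ((e0 : ℤ) - 1572864))) (3 * (par F).F * (((a0 : ℤ) - 3145728) * ((a0 : ℤ) - 3145728) + ((e1 : ℤ) - 1572864) * ((e1 : ℤ) - 1572864)))
      (3 * (par F).F * (((a1 : ℤ) - 3145728) * ((a1 : ℤ) - 3145728) + ((e0 : ℤ) - 1572864) * ((e0 : ℤ) - 1572864))) (3 * (par F).F * (((a1 : ℤ) - 3145728) * ((a1 : ℤ) - 3145728) + ((e1 : ℤ) - 1572864) * ((e1 : ℤ) - 1572864))) = true := by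
  have k2 : 2 * (par F).P2 + (iabs 0 + iabs 0) = ((2097152 : ℕ) : ℤ) := by norm_num [par, iabs]
  have k3 : 2 * (par F).P3 + (iabs 0 + iabs 0) = ((3145728 : ℕ) : ℤ) := by norm_num [par, iabs]
  have w : ∀ a e : ℕ, ((Nat.mul (Nat.mul 3 F) (Nat.add (sqr (dif a 3145728)) (sqr (dif e 1572864))) : ℕ) : ℤ) =
      3 * (par F).F * (((a : ℤ) - 3145728) * ((a : ℤ) - 3145728) + ((e : ℤ) - 1572864) * ((e : ℤ) - 1572864)) := by
    intro a e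
    simp only [Nat.add_eq, Nat.mul_eq, par]
    push_cast
    rw [sq_dif, sq_dif]
    push_cast
    ring
  have hN : (par F).N = 1048576 := rfl
  have h' := zc0_sound (par F) 1048576 1572864 18875 37749 33903 2097152 3145728 150994944 2097152 1266637395197952 158334976000 316661563392 5119181586432
      rfl rfl rfl rfl rfl (by norm_num) (by norm_num) (by norm_num) (by norm_num) (by norm_num)
      (by norm_num) 3145728 1572864 50331648 _ _ _ _ _ _ _ _ _ _ _ _ _ _ _ _ _ _ _ _ _ _ _ _ a0 a1 e0 e1 _ _ _ _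
      x y ((-(u1 : ℤ) + -(u2 : ℤ)) + (-(u3 : ℤ) + -(u4 : ℤ))) ((((v1 : ℤ) - 2097152) + ((v2 : ℤ) - 2097152)) + (((v3 : ℤ) - 2097152) + ((v4 : ℤ) - 2097152)))
            ((par F).N * (par F).N * (2 * ((-(u1 : ℤ) + -(u2 : ℤ)) + (-(u3 : ℤ) + -(u4 : ℤ))) - (iabs 0 + iabs 0)))
      ((par F).N * ((-(u1 : ℤ) - -(u2 : ℤ)) - (-(u3 : ℤ) - -(u4 : ℤ)) + 3 * ((((v1 : ℤ) - 2097152) - ((v2 : ℤ) - 2097152)) + (((v3 : ℤ) - 2097152) - ((v4 : ℤ) - 2097152)))))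
      ((par F).N * ((-(u1 : ℤ) - -(u2 : ℤ)) - (-(u3 : ℤ) - -(u4 : ℤ)) - 3 * ((((v1 : ℤ) - 2097152) - ((v2 : ℤ) - 2097152)) + (((v3 : ℤ) - 2097152) - ((v4 : ℤ) - 2097152))) + 2 * 0))
      ((par F).N * (3 * ((-(u1 : ℤ) - -(u2 : ℤ)) + (-(u3 : ℤ) - -(u4 : ℤ))) - 3 * ((((v1 : ℤ) - 2097152) - ((v2 : ℤ) - 2097152)) - (((v3 : ℤ) - 2097152) - ((v4 : ℤ) - 2097152)))))
      ((par F).N * (3 * ((-(u1 : ℤ) - -(u2 : ℤ)) + (-(u3 : ℤ) - -(u4 : ℤ))) + 3 * ((((v1 : ℤ) - 2097152) - ((v2 : ℤ) - 2097152)) - (((v3 : ℤ) - 2097152) - ((v4 : ℤ) - 2097152))) + 2 * 0))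
      ((par F).N * (3 * ((((v3 : ℤ) - 2097152) + ((v4 : ℤ) - 2097152)) - (((v1 : ℤ) - 2097152) + ((v2 : ℤ) - 2097152))) - ((-(u1 : ℤ) + -(u2 : ℤ)) + (-(u3 : ℤ) + -(u4 : ℤ)))))
      ((-(u1 : ℤ) - -(u2 : ℤ)) - (-(u3 : ℤ) - -(u4 : ℤ)) - 3 * ((((v1 : ℤ) - 2097152) - ((v2 : ℤ) - 2097152)) + (((v3 : ℤ) - 2097152) - ((v4 : ℤ) - 2097152))))
      (3 * ((((v3 : ℤ) - 2097152) - ((v4 : ℤ) - 2097152)) - (((v1 : ℤ) - 2097152) - ((v2 : ℤ) - 2097152))) - 3 * ((-(u1 : ℤ) - -(u2 : ℤ)) + (-(u3 : ℤ) - -(u4 : ℤ))))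
      ((par F).N * (15 * ((-(u1 : ℤ) + -(u2 : ℤ)) - (-(u3 : ℤ) + -(u4 : ℤ))) - 33 * ((((v1 : ℤ) - 2097152) + ((v2 : ℤ) - 2097152)) + (((v3 : ℤ) - 2097152) + ((v4 : ℤ) - 2097152)))))
      (24 * ((-(u1 : ℤ) - -(u2 : ℤ)) + (-(u3 : ℤ) - -(u4 : ℤ))) + 6 * ((((v1 : ℤ) - 2097152) - ((v2 : ℤ) - 2097152)) - (((v3 : ℤ) - 2097152) - ((v4 : ℤ) - 2097152))))
      (6 * ((-(u1 : ℤ) - -(u2 : ℤ)) - (-(u3 : ℤ) - -(u4 : ℤ))) - 72 * ((((v1 : ℤ) - 2097152) - ((v2 : ℤ) - 2097152)) + (((v3 : ℤ) - 2097152) - ((v4 : ℤ) - 2097152))))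
      (by simp only [Nat.add_eq, Nat.mul_eq, hN, iabs]; push_cast; ring)
      (by simp only [Nat.add_eq, Nat.mul_eq, hN]; push_cast; ring)
      (by simp only [Nat.add_eq, Nat.mul_eq, hN]; push_cast; ring)
      (by simp only [Nat.add_eq, Nat.mul_eq, hN]; push_cast; ring)
      (by simp only [Nat.add_eq, Nat.mul_eq, hN]; push_cast; ring)
      (by simp only [Nat.add_eq, Nat.mul_eq]; push_cast; ring)
      (by simp only [Nat.add_eq, Nat.mul_eq]; push_cast; ring)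
      (by simp only [Nat.add_eq, Nat.mul_eq]; push_cast; ring)
      (by simp only [Nat.add_eq, Nat.mul_eq, hN]; push_cast; ring)
      (by simp only [Nat.add_eq, Nat.mul_eq]; push_cast; ring)
      (by simp only [Nat.add_eq, Nat.mul_eq]; push_cast; ring)
      (by simp only [Nat.add_eq, Nat.mul_eq, hN]; push_cast; ring)
      (by simp only [Nat.add_eq, Nat.mul_eq]; push_cast; ring)
      (by simp only [Nat.add_eq, Nat.mul_eq]; push_cast; ring) h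
  rw [w, w, w, w] at h'
  rw [k2, k3]
  exact h'

theorem lf4_sound (F x0 x1 y0 y1 a0 a1 e0 e1 r1 r2 r3 r4 u1 u2 u3 u4 v1 v2 v3 v4 : ℕ)
    (h : lf4 F x0 x1 y0 y1 a0 a1 e0 e1 r1 r2 r3 r4 u1 u2 u3 u4 v1 v2 v3 v4 = true) :
    leafC (par F) ⟨r1, r2, r3, r4, -(u1 : ℤ), -(u2 : ℤ), -(u3 : ℤ), -(u4 : ℤ), (v1 : ℤ) - 2097152,
      (v2 : ℤ) - 2097152, (v3 : ℤ) - 2097152, (v4 : ℤ) - 2097152, 0, 0⟩ x0 x1 y0 y1 ((a0 : ℤ) - 3145728)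
      ((a1 : ℤ) - 3145728) ((e0 : ℤ) - 1572864) ((e1 : ℤ) - 1572864) = true := by
  simp only [lf4, bif_and] at h
  obtain ⟨h0, h⟩ := h
  obtain ⟨t1, t2, t3, t4⟩ := edx_sound _ _ _ _ _ _ _ _ _ _ _ _ _ _ _ _ h0
  simp only [zcp, zco, z16, bif_and] at h
  obtain ⟨h1, h2, h3, h4⟩ := h
  unfold leafC
  simp only [Bool.and_eq_true]
  refine ⟨t1, t2, t3, t4, ?_⟩
  unfold vw vz
  simp only [Bool.and_eq_true]
  exact ⟨zc0_vy F u1 u2 u3 u4 v1 v2 v3 v4 a0 a1 e0 e1 x0 y0 h1,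
    zc0_vy F u1 u2 u3 u4 v1 v2 v3 v4 a0 a1 e0 e1 x0 y1 h2,
    zc0_vy F u1 u2 u3 u4 v1 v2 v3 v4 a0 a1 e0 e1 x1 y0 h3,
    zc0_vy F u1 u2 u3 u4 v1 v2 v3 v4 a0 a1 e0 e1 x1 y1 h4⟩

/-! ### type 5 -/

def y16 (K1 K2 K3 c0n cxp cxn cyp cyn cXp cXn cYp cYn su2 su6 sv6 g0p g0n gxp gxn gyp gyn h0p h0n hxp
    hxn hyp hyn n2 p2 q4 q48 x0 x1 y0 y1 a0 a1 e0 e1 w00 w01 w10 w11 : ℕ) : Bool :=
  bif zc1 3145728 1572864 50331648 K1 K2 K3 158334976000 316661563392 5119181586432 c0n cxp cxn cyp cyn cXp cXn cYp cYn su2 su6 sv6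
    g0p g0n gxp gxn gyp gyn h0p h0n hxp hxn hyp hyn 67108864 n2 p2 134217728 1610612736 q4 q48 a0 a1 e0 e1
    w00 w01 w10 w11 x0 y0 then
  bif zc1 3145728 1572864 50331648 K1 K2 K3 158334976000 316661563392 5119181586432 c0n cxp cxn cyp cyn cXp cXn cYp cYn su2 su6 sv6
    g0p g0n gxp gxn gyp gyn h0p h0n hxp hxn hyp hyn 67108864 n2 p2 134217728 1610612736 q4 q48 a0 a1 e0 e1
    w00 w01 w10 w11 x0 y1 then
  bif zc1 3145728 1572864 50331648 K1 K2 K3 158334976000 316661563392 5119181586432 c0n cxp cxn cyp cyn cXp cXn cYp cYn su2 su6 sv6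
    g0p g0n gxp gxn gyp gyn h0p h0n hxp hxn hyp hyn 67108864 n2 p2 134217728 1610612736 q4 q48 a0 a1 e0 e1
    w00 w01 w10 w11 x1 y0 then
  zc1 3145728 1572864 50331648 K1 K2 K3 158334976000 316661563392 5119181586432 c0n cxp cxn cyp cyn cXp cXn cYp cYn su2 su6 sv6
    g0p g0n gxp gxn gyp gyn h0p h0n hxp hxn hyp hyn 67108864 n2 p2 134217728 1610612736 q4 q48 a0 a1 e0 e1
    w00 w01 w10 w11 x1 y1
  else false else false else false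

def yco (L a2 a3 su sv u12 u34 v12 v34 dp dn tp tn ep en kp kn gxp gxn m1 m2 x0 x1 y0 y1 a0 a1 e0 e1
    w00 w01 w10 w11 : ℕ) : Bool :=
  y16 (Nat.mul 48 a3) a2 (Nat.mul 192 (Nat.mul a2 a3))
    (Nat.mul 1099511627776 (Nat.add (Nat.mul 2 su) L)) (Nat.mul 1048576 (Nat.add dp (Nat.mul 3 ep)))
    (Nat.mul 1048576 (Nat.add dn (Nat.mul 3 en))) (Nat.mul 3145728 (Nat.add tp kn)) (Nat.mul 3145728 (Nat.add tn kp))
    (Nat.mul 1048576 (Nat.add gxp (Nat.mul 2 m1))) (Nat.mul 1048576 (Nat.add gxn 67108864))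
    (Nat.mul 1048576 (Nat.add (Nat.mul 3 (Nat.add tp kp)) (Nat.mul 2 m2)))
    (Nat.mul 1048576 (Nat.add (Nat.mul 3 (Nat.add tn kn)) 67108864))
    (Nat.mul 2 su) (Nat.mul 6 su) (Nat.mul 6 sv)
    (Nat.mul 1048576 (Nat.add su (Nat.mul 3 v34))) (Nat.mul 3145728 v12) gxp gxn
    (Nat.mul 3 (Nat.add kn tn)) (Nat.mul 3 (Nat.add kp tp))
    (Nat.mul 1048576 (Nat.add (Nat.mul 15 u34) 276824064)) (Nat.mul 1048576 (Nat.add (Nat.mul 15 u12) (Nat.mul 33 sv)))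
    (Nat.add (Nat.mul 24 tp) (Nat.mul 6 kp)) (Nat.add (Nat.mul 24 tn) (Nat.mul 6 kn))
    (Nat.add (Nat.mul 6 dp) (Nat.mul 72 en)) (Nat.add (Nat.mul 6 dn) (Nat.mul 72 ep))
    (Nat.mul 2 m1) (Nat.mul 2 m2) (Nat.mul 4 m2) (Nat.mul 48 m1)
    x0 x1 y0 y1 a0 a1 e0 e1 w00 w01 w10 w11

def ycp (F3 L u1 u2 u3 u4 v1 v2 v3 v4 m1 m2 dp dn ep en x0 x1 y0 y1 a0 a1 e0 e1 sa0 sa1 se0 se1 : ℕ) :
    Bool :=
  yco L (Nat.add 2097152 L) (Nat.add 3145728 L)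
    (Nat.add (Nat.add u1 u2) (Nat.add u3 u4)) (Nat.add (Nat.add v1 v2) (Nat.add v3 v4))
    (Nat.add u1 u2) (Nat.add u3 u4) (Nat.add v1 v2) (Nat.add v3 v4) dp dn (Nat.add u2 u4) (Nat.add u1 u3)
    ep en (Nat.add v1 v4) (Nat.add v2 v3) (Nat.add dp (Nat.mul 3 en)) (Nat.add dn (Nat.mul 3 ep)) m1 m2
    x0 x1 y0 y1 a0 a1 e0 e1
    (Nat.mul F3 (Nat.add sa0 se0)) (Nat.mul F3 (Nat.add sa0 se1)) (Nat.mul F3 (Nat.add sa1 se0))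
    (Nat.mul F3 (Nat.add sa1 se1))

/-- type 5, with the numbers -/
def lf5 (F x0 x1 y0 y1 a0 a1 e0 e1 r1 r2 r3 r4 u1 u2 u3 u4 v1 v2 v3 v4 m1 m2 : ℕ) : Bool :=
  bif edx x0 x1 y0 y1 r1 r2 r3 r4 u1 u2 u3 u4 v1 v2 v3 v4 then
  ycp (Nat.mul 3 F) (Nat.add (dif m1 33554432) (dif m2 33554432)) u1 u2 u3 u4 v1 v2 v3 v4 m1 m2
    (Nat.add u2 u3) (Nat.add u1 u4) (Nat.add v1 v3) (Nat.add v2 v4)
    x0 x1 y0 y1 a0 a1 e0 e1 (sqr (dif a0 3145728)) (sqr (dif a1 3145728)) (sqr (dif e0 1572864))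
    (sqr (dif e1 1572864))
  else false

def leaf5 (F d x0 x1 y0 y1 a0 a1 e0 e1 : ℕ) : Bool :=
  lf5 F x0 x1 y0 y1 a0 a1 e0 e1 (bt d 0 22) (bt d 22 22) (bt d 44 22) (bt d 66 22)
    (bt d 88 23) (bt d 111 23) (bt d 134 23) (bt d 157 23)
    (bt d 180 22) (bt d 202 22) (bt d 224 22) (bt d 246 22) (bt d 268 26) (bt d 294 26)

theorem dif_iabs (m o : ℕ) : ((dif m o : ℕ) : ℤ) = iabs ((m : ℤ) - o) := by
  rw [dif_cast]
  rfl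

theorem zc1_vy (F u1 u2 u3 u4 v1 v2 v3 v4 m1 m2 a0 a1 e0 e1 x y : ℕ)
    (h : zc1 3145728 1572864 50331648 (Nat.mul 48 (Nat.add 3145728 (Nat.add (dif m1 33554432) (dif m2 33554432))))
      (Nat.add 2097152 (Nat.add (dif m1 33554432) (dif m2 33554432)))
      (Nat.mul 192 (Nat.mul (Nat.add 2097152 (Nat.add (dif m1 33554432) (dif m2 33554432))) (Nat.add 3145728 (Nat.add (dif m1 33554432) (dif m2 33554432)))))
      158334976000 316661563392 5119181586432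
      (Nat.mul 1099511627776 (Nat.add (Nat.mul 2 (Nat.add (Nat.add u1 u2) (Nat.add u3 u4))) (Nat.add (dif m1 33554432) (dif m2 33554432))))
      (Nat.mul 1048576 (Nat.add (Nat.add u2 u3) (Nat.mul 3 (Nat.add v1 v3))))
      (Nat.mul 1048576 (Nat.add (Nat.add u1 u4) (Nat.mul 3 (Nat.add v2 v4))))
      (Nat.mul 3145728 (Nat.add (Nat.add u2 u4) (Nat.add v2 v3)))
      (Nat.mul 3145728 (Nat.add (Nat.add u1 u3) (Nat.add v1 v4)))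
      (Nat.mul 1048576 (Nat.add (Nat.add (Nat.add u2 u3) (Nat.mul 3 (Nat.add v2 v4))) (Nat.mul 2 m1)))
      (Nat.mul 1048576 (Nat.add (Nat.add (Nat.add u1 u4) (Nat.mul 3 (Nat.add v1 v3))) 67108864))
      (Nat.mul 1048576 (Nat.add (Nat.mul 3 (Nat.add (Nat.add u2 u4) (Nat.add v1 v4))) (Nat.mul 2 m2)))
      (Nat.mul 1048576 (Nat.add (Nat.mul 3 (Nat.add (Nat.add u1 u3) (Nat.add v2 v3))) 67108864))
      (Nat.mul 2 (Nat.add (Nat.add u1 u2) (Nat.add u3 u4)))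
      (Nat.mul 6 (Nat.add (Nat.add u1 u2) (Nat.add u3 u4)))
      (Nat.mul 6 (Nat.add (Nat.add v1 v2) (Nat.add v3 v4)))
      (Nat.mul 1048576 (Nat.add (Nat.add (Nat.add u1 u2) (Nat.add u3 u4)) (Nat.mul 3 (Nat.add v3 v4))))
      (Nat.mul 3145728 (Nat.add v1 v2))
      (Nat.add (Nat.add u2 u3) (Nat.mul 3 (Nat.add v2 v4)))
      (Nat.add (Nat.add u1 u4) (Nat.mul 3 (Nat.add v1 v3)))
      (Nat.mul 3 (Nat.add (Nat.add v2 v3) (Nat.add u1 u3)))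
      (Nat.mul 3 (Nat.add (Nat.add v1 v4) (Nat.add u2 u4)))
      (Nat.mul 1048576 (Nat.add (Nat.mul 15 (Nat.add u3 u4)) 276824064))
      (Nat.mul 1048576 (Nat.add (Nat.mul 15 (Nat.add u1 u2))
        (Nat.mul 33 (Nat.add (Nat.add v1 v2) (Nat.add v3 v4)))))
      (Nat.add (Nat.mul 24 (Nat.add u2 u4)) (Nat.mul 6 (Nat.add v1 v4)))
      (Nat.add (Nat.mul 24 (Nat.add u1 u3)) (Nat.mul 6 (Nat.add v2 v3)))
      (Nat.add (Nat.mul 6 (Nat.add u2 u3)) (Nat.mul 72 (Nat.add v2 v4)))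
      (Nat.add (Nat.mul 6 (Nat.add u1 u4)) (Nat.mul 72 (Nat.add v1 v3)))
      67108864 (Nat.mul 2 m1) (Nat.mul 2 m2) 134217728 1610612736 (Nat.mul 4 m2) (Nat.mul 48 m1)
      a0 a1 e0 e1
      (Nat.mul (Nat.mul 3 F) (Nat.add (sqr (dif a0 3145728)) (sqr (dif e0 1572864))))
      (Nat.mul (Nat.mul 3 F) (Nat.add (sqr (dif a0 3145728)) (sqr (dif e1 1572864))))
      (Nat.mul (Nat.mul 3 F) (Nat.add (sqr (dif a1 3145728)) (sqr (dif e0 1572864))))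
      (Nat.mul (Nat.mul 3 F) (Nat.add (sqr (dif a1 3145728)) (sqr (dif e1 1572864)))) x y = true) :
    vy (par F) (2 * (par F).P2 + (iabs ((m1 : ℤ) - 33554432) + iabs ((m2 : ℤ) - 33554432))) (2 * (par F).P3 + (iabs ((m1 : ℤ) - 33554432) + iabs ((m2 : ℤ) - 33554432))) ((-(u1 : ℤ) + -(u2 : ℤ)) + (-(u3 : ℤ) + -(u4 : ℤ))) ((((v1 : ℤ) - 2097152) + ((v2 : ℤ) - 2097152)) + (((v3 : ℤ) - 2097152) + ((v4 : ℤ) - 2097152)))
      ((par F).N * (par F).N * (2 * ((-(u1 : ℤ) + -(u2 : ℤ)) + (-(u3 : ℤ) + -(u4 : ℤ))) - (iabs ((m1 : ℤ) - 33554432) + iabs ((m2 : ℤ) - 33554432))))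
      ((par F).N * ((-(u1 : ℤ) - -(u2 : ℤ)) - (-(u3 : ℤ) - -(u4 : ℤ)) + 3 * ((((v1 : ℤ) - 2097152) - ((v2 : ℤ) - 2097152)) + (((v3 : ℤ) - 2097152) - ((v4 : ℤ) - 2097152)))))
      ((par F).N * ((-(u1 : ℤ) - -(u2 : ℤ)) - (-(u3 : ℤ) - -(u4 : ℤ)) - 3 * ((((v1 : ℤ) - 2097152) - ((v2 : ℤ) - 2097152)) + (((v3 : ℤ) - 2097152) - ((v4 : ℤ) - 2097152))) + 2 * ((m1 : ℤ) - 33554432)))
      ((par F).N * (3 * ((-(u1 : ℤ) - -(u2 : ℤ)) + (-(u3 : ℤ) - -(u4 : ℤ))) - 3 * ((((v1 : ℤ) - 2097152) - ((v2 : ℤ) - 2097152)) - (((v3 : ℤ) - 2097152) - ((v4 : ℤ) - 2097152)))))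
      ((par F).N * (3 * ((-(u1 : ℤ) - -(u2 : ℤ)) + (-(u3 : ℤ) - -(u4 : ℤ))) + 3 * ((((v1 : ℤ) - 2097152) - ((v2 : ℤ) - 2097152)) - (((v3 : ℤ) - 2097152) - ((v4 : ℤ) - 2097152))) + 2 * ((m2 : ℤ) - 33554432)))
      ((par F).N * (3 * ((((v3 : ℤ) - 2097152) + ((v4 : ℤ) - 2097152)) - (((v1 : ℤ) - 2097152) + ((v2 : ℤ) - 2097152))) - ((-(u1 : ℤ) + -(u2 : ℤ)) + (-(u3 : ℤ) + -(u4 : ℤ)))))
      ((-(u1 : ℤ) - -(u2 : ℤ)) - (-(u3 : ℤ) - -(u4 : ℤ)) - 3 * ((((v1 : ℤ) - 2097152) - ((v2 : ℤ) - 2097152)) + (((v3 : ℤ) - 2097152) - ((v4 : ℤ) - 2097152))))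
      (3 * ((((v3 : ℤ) - 2097152) - ((v4 : ℤ) - 2097152)) - (((v1 : ℤ) - 2097152) - ((v2 : ℤ) - 2097152))) - 3 * ((-(u1 : ℤ) - -(u2 : ℤ)) + (-(u3 : ℤ) - -(u4 : ℤ))))
      ((par F).N * (15 * ((-(u1 : ℤ) + -(u2 : ℤ)) - (-(u3 : ℤ) + -(u4 : ℤ))) - 33 * ((((v1 : ℤ) - 2097152) + ((v2 : ℤ) - 2097152)) + (((v3 : ℤ) - 2097152) + ((v4 : ℤ) - 2097152)))))
      (24 * ((-(u1 : ℤ) - -(u2 : ℤ)) + (-(u3 : ℤ) - -(u4 : ℤ))) + 6 * ((((v1 : ℤ) - 2097152) - ((v2 : ℤ) - 2097152)) - (((v3 : ℤ) - 2097152) - ((v4 : ℤ) - 2097152))))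
      (6 * ((-(u1 : ℤ) - -(u2 : ℤ)) - (-(u3 : ℤ) - -(u4 : ℤ))) - 72 * ((((v1 : ℤ) - 2097152) - ((v2 : ℤ) - 2097152)) + (((v3 : ℤ) - 2097152) - ((v4 : ℤ) - 2097152))))
      ((m1 : ℤ) - 33554432) ((m2 : ℤ) - 33554432) x y ((a0 : ℤ) - 3145728) ((a1 : ℤ) - 3145728) ((e0 : ℤ) - 1572864) ((e1 : ℤ) - 1572864)
      (3 * (par F).F * (((a0 : ℤ) - 3145728) * ((a0 : ℤ) - 3145728) + ((e0 : ℤ) - 1572864) * ((e0 : ℤ) - 1572864))) (3 * (par F).F * (((a0 : ℤ) - 3145728) * ((a0 : ℤ) - 3145728) + ((e1 : ℤ) - 1572864) * ((e1 : ℤ) - 1572864)))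
      (3 * (par F).F * (((a1 : ℤ) - 3145728) * ((a1 : ℤ) - 3145728) + ((e0 : ℤ) - 1572864) * ((e0 : ℤ) - 1572864))) (3 * (par F).F * (((a1 : ℤ) - 3145728) * ((a1 : ℤ) - 3145728) + ((e1 : ℤ) - 1572864) * ((e1 : ℤ) - 1572864))) = true := by
  have q1 := dif_iabs m1 33554432
  have q2 := dif_iabs m2 33554432
  have kL : (iabs ((m1 : ℤ) - 33554432) + iabs ((m2 : ℤ) - 33554432)) = (((Nat.add (dif m1 33554432) (dif m2 33554432)) : ℕ) : ℤ) := by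
    rw [Nat.add_eq, Nat.cast_add, q1, q2]
    rfl
  generalize hL : (Nat.add (dif m1 33554432) (dif m2 33554432)) = Lm at h kL
  have k2 : 2 * (par F).P2 + (iabs ((m1 : ℤ) - 33554432) + iabs ((m2 : ℤ) - 33554432)) = ((Nat.add 2097152 Lm : ℕ) : ℤ) := by
    rw [kL]
    simp only [Nat.add_eq, par]
    push_cast
    ring
  have k3 : 2 * (par F).P3 + (iabs ((m1 : ℤ) - 33554432) + iabs ((m2 : ℤ) - 33554432)) = ((Nat.add 3145728 Lm : ℕ) : ℤ) := by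
    rw [kL]
    simp only [Nat.add_eq, par]
    push_cast
    ring
  have w : ∀ a e : ℕ, ((Nat.mul (Nat.mul 3 F) (Nat.add (sqr (dif a 3145728)) (sqr (dif e 1572864))) : ℕ) : ℤ) =
      3 * (par F).F * (((a : ℤ) - 3145728) * ((a : ℤ) - 3145728) + ((e : ℤ) - 1572864) * ((e : ℤ) - 1572864)) := by
    intro a e
    simp only [Nat.add_eq, Nat.mul_eq, par]
    push_cast
    rw [sq_dif, sq_dif]
    push_cast
    ring
  have hN : (par F).N = 1048576 := rfl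
  rw [k2, k3, kL]
  have h' := zc1_sound (par F) 1048576 1572864 18875 37749 33903 (Nat.add 2097152 Lm) (Nat.add 3145728 Lm)
      (Nat.mul 48 (Nat.add 3145728 Lm)) (Nat.add 2097152 Lm)
      (Nat.mul 192 (Nat.mul (Nat.add 2097152 Lm) (Nat.add 3145728 Lm))) 158334976000 316661563392 5119181586432
      rfl rfl rfl rfl rfl (by simp only [Nat.mul_eq]) rfl (by simp only [Nat.mul_eq, mul_assoc])
      (by norm_num) (by norm_num)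
      (by norm_num) 3145728 1572864 50331648 _ _ _ _ _ _ _ _ _ _ _ _ _ _ _ _ _ _ _ _ _ _ _ _ _ _ _ _ _ _ _
      a0 a1 e0 e1 _ _ _ _
      x y ((-(u1 : ℤ) + -(u2 : ℤ)) + (-(u3 : ℤ) + -(u4 : ℤ))) ((((v1 : ℤ) - 2097152) + ((v2 : ℤ) - 2097152)) + (((v3 : ℤ) - 2097152) + ((v4 : ℤ) - 2097152)))
            ((par F).N * (par F).N * (2 * ((-(u1 : ℤ) + -(u2 : ℤ)) + (-(u3 : ℤ) + -(u4 : ℤ))) - (Lm : ℤ)))
      ((par F).N * ((-(u1 : ℤ) - -(u2 : ℤ)) - (-(u3 : ℤ) - -(u4 : ℤ)) + 3 * ((((v1 : ℤ) - 2097152) - ((v2 : ℤ) - 2097152)) + (((v3 : ℤ) - 2097152) - ((v4 : ℤ) - 2097152)))))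
      ((par F).N * ((-(u1 : ℤ) - -(u2 : ℤ)) - (-(u3 : ℤ) - -(u4 : ℤ)) - 3 * ((((v1 : ℤ) - 2097152) - ((v2 : ℤ) - 2097152)) + (((v3 : ℤ) - 2097152) - ((v4 : ℤ) - 2097152))) + 2 * ((m1 : ℤ) - 33554432)))
      ((par F).N * (3 * ((-(u1 : ℤ) - -(u2 : ℤ)) + (-(u3 : ℤ) - -(u4 : ℤ))) - 3 * ((((v1 : ℤ) - 2097152) - ((v2 : ℤ) - 2097152)) - (((v3 : ℤ) - 2097152) - ((v4 : ℤ) - 2097152)))))
      ((par F).N * (3 * ((-(u1 : ℤ) - -(u2 : ℤ)) + (-(u3 : ℤ) - -(u4 : ℤ))) + 3 * ((((v1 : ℤ) - 2097152) - ((v2 : ℤ) - 2097152)) - (((v3 : ℤ) - 2097152) - ((v4 : ℤ) - 2097152))) + 2 * ((m2 : ℤ) - 33554432)))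
      ((par F).N * (3 * ((((v3 : ℤ) - 2097152) + ((v4 : ℤ) - 2097152)) - (((v1 : ℤ) - 2097152) + ((v2 : ℤ) - 2097152))) - ((-(u1 : ℤ) + -(u2 : ℤ)) + (-(u3 : ℤ) + -(u4 : ℤ)))))
      ((-(u1 : ℤ) - -(u2 : ℤ)) - (-(u3 : ℤ) - -(u4 : ℤ)) - 3 * ((((v1 : ℤ) - 2097152) - ((v2 : ℤ) - 2097152)) + (((v3 : ℤ) - 2097152) - ((v4 : ℤ) - 2097152))))
      (3 * ((((v3 : ℤ) - 2097152) - ((v4 : ℤ) - 2097152)) - (((v1 : ℤ) - 2097152) - ((v2 : ℤ) - 2097152))) - 3 * ((-(u1 : ℤ) - -(u2 : ℤ)) + (-(u3 : ℤ) - -(u4 : ℤ))))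
      ((par F).N * (15 * ((-(u1 : ℤ) + -(u2 : ℤ)) - (-(u3 : ℤ) + -(u4 : ℤ))) - 33 * ((((v1 : ℤ) - 2097152) + ((v2 : ℤ) - 2097152)) + (((v3 : ℤ) - 2097152) + ((v4 : ℤ) - 2097152)))))
      (24 * ((-(u1 : ℤ) - -(u2 : ℤ)) + (-(u3 : ℤ) - -(u4 : ℤ))) + 6 * ((((v1 : ℤ) - 2097152) - ((v2 : ℤ) - 2097152)) - (((v3 : ℤ) - 2097152) - ((v4 : ℤ) - 2097152))))
      (6 * ((-(u1 : ℤ) - -(u2 : ℤ)) - (-(u3 : ℤ) - -(u4 : ℤ))) - 72 * ((((v1 : ℤ) - 2097152) - ((v2 : ℤ) - 2097152)) + (((v3 : ℤ) - 2097152) - ((v4 : ℤ) - 2097152))))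
      ((m1 : ℤ) - 33554432) ((m2 : ℤ) - 33554432)
      (by simp only [Nat.add_eq, Nat.mul_eq, hN]; push_cast; ring)
      (by simp only [Nat.add_eq, Nat.mul_eq, hN]; push_cast; ring)
      (by simp only [Nat.add_eq, Nat.mul_eq, hN]; push_cast; ring)
      (by simp only [Nat.add_eq, Nat.mul_eq, hN]; push_cast; ring)
      (by simp only [Nat.add_eq, Nat.mul_eq, hN]; push_cast; ring)
      (by simp only [Nat.add_eq, Nat.mul_eq]; push_cast; ring)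
      (by simp only [Nat.add_eq, Nat.mul_eq]; push_cast; ring)
      (by simp only [Nat.add_eq, Nat.mul_eq]; push_cast; ring)
      (by simp only [Nat.add_eq, Nat.mul_eq, hN]; push_cast; ring)
      (by simp only [Nat.add_eq, Nat.mul_eq]; push_cast; ring)
      (by simp only [Nat.add_eq, Nat.mul_eq]; push_cast; ring)
      (by simp only [Nat.add_eq, Nat.mul_eq, hN]; push_cast; ring)
      (by simp only [Nat.add_eq, Nat.mul_eq]; push_cast; ring)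
      (by simp only [Nat.add_eq, Nat.mul_eq]; push_cast; ring)
      (by simp only [Nat.mul_eq]; push_cast; ring)
      (by simp only [Nat.mul_eq]; push_cast; ring)
      (by simp only [Nat.mul_eq]; push_cast; ring)
      (by simp only [Nat.mul_eq]; push_cast; ring) h
  rw [w, w, w, w] at h'
  exact h'

theorem lf5_sound (F x0 x1 y0 y1 a0 a1 e0 e1 r1 r2 r3 r4 u1 u2 u3 u4 v1 v2 v3 v4 m1 m2 : ℕ)
    (h : lf5 F x0 x1 y0 y1 a0 a1 e0 e1 r1 r2 r3 r4 u1 u2 u3 u4 v1 v2 v3 v4 m1 m2 = true) :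
    leafC (par F) ⟨r1, r2, r3, r4, -(u1 : ℤ), -(u2 : ℤ), -(u3 : ℤ), -(u4 : ℤ), (v1 : ℤ) - 2097152,
      (v2 : ℤ) - 2097152, (v3 : ℤ) - 2097152, (v4 : ℤ) - 2097152, (m1 : ℤ) - 33554432, (m2 : ℤ) - 33554432⟩ x0 x1 y0 y1
      ((a0 : ℤ) - 3145728) ((a1 : ℤ) - 3145728) ((e0 : ℤ) - 1572864) ((e1 : ℤ) - 1572864) = true := by
  simp only [lf5, bif_and] at h
  obtain ⟨h0, h⟩ := h
  obtain ⟨t1, t2, t3, t4⟩ := edx_sound _ _ _ _ _ _ _ _ _ _ _ _ _ _ _ _ h0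
  simp only [ycp, yco, y16, bif_and] at h
  obtain ⟨h1, h2, h3, h4⟩ := h
  unfold leafC
  simp only [Bool.and_eq_true]
  refine ⟨t1, t2, t3, t4, ?_⟩
  unfold vw vz
  simp only [Bool.and_eq_true]
  exact ⟨zc1_vy F u1 u2 u3 u4 v1 v2 v3 v4 m1 m2 a0 a1 e0 e1 x0 y0 h1,
    zc1_vy F u1 u2 u3 u4 v1 v2 v3 v4 m1 m2 a0 a1 e0 e1 x0 y1 h2,
    zc1_vy F u1 u2 u3 u4 v1 v2 v3 v4 m1 m2 a0 a1 e0 e1 x1 y0 h3,
    zc1_vy F u1 u2 u3 u4 v1 v2 v3 v4 m1 m2 a0 a1 e0 e1 x1 y1 h4⟩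

/-! ### all leaves, and the conclusion -/

/-- outside of the domain, `sx = N min |z_x|`, `sy = N min |z_y|` -/
def outD (sx sy : ℕ) : Bool :=
  bif Nat.blt 242221056 (Nat.mul 100 sx) then true else
  bif Nat.blt 108003328 (Nat.mul 100 sy) then true else
  bif Nat.blt 1276116992 (Nat.mul 100 (Nat.add (Nat.mul 4 sx) (Nat.mul 5 sy))) then true else
  bif Nat.blt 540016640 (Nat.mul 100 (Nat.add (Nat.mul 2 sx) sy)) then true else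
  bif Nat.blt 376438784 (Nat.mul 100 (Nat.add sx (Nat.mul 2 sy))) then true else
  bif Nat.blt 1140850688 (Nat.mul 100 (Nat.add (Nat.mul 4 sx) (Nat.mul 3 sy))) then true else
  Nat.blt 1319108608 (Nat.mul 100 (Nat.add (Nat.mul 5 sx) (Nat.mul 2 sy)))

/-- type 7: `d = 0`: outside of the disc `|z₀| ≤ 1/2`; `d = 1`: outside of the domain -/
def leaf7 (d x0 x1 y0 y1 a0 a1 e0 e1 : ℕ) : Bool :=
  bif Nat.beq d 0 then Nat.blt 274877906944 (Nat.add (sqr x0) (Nat.mul 3 (sqr y0)))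
  else outD (Nat.add (Nat.sub (Nat.add x0 a0) 3145728) (Nat.sub 3145728 (Nat.add x1 a1)))
    (Nat.add (Nat.sub (Nat.add y0 e0) 1572864) (Nat.sub 1572864 (Nat.add y1 e1)))

/-- the seven inequalities for the domain -/
def OD : Prop := ∀ b g x y : ℝ, Dom b g x y → |x| ≤ 231 / 100 ∧ |y| ≤ 103 / 100 ∧
  4 * |x| + 5 * |y| ≤ 1217 / 100 ∧ 2 * |x| + |y| ≤ 515 / 100 ∧ |x| + 2 * |y| ≤ 359 / 100 ∧
  4 * |x| + 3 * |y| ≤ 1088 / 100 ∧ 5 * |x| + 2 * |y| ≤ 1258 / 100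

theorem outD_sound (hOD : OD) (sx sy : ℕ) (h : outD sx sy = true) (b g x y : ℝ)
    (hx : (sx : ℝ) ≤ 1048576 * |x|) (hy : (sy : ℝ) ≤ 1048576 * |y|) : ¬ Dom b g x y := by
  intro hD
  obtain ⟨d1, d2, d3, d4, d5, d6, d7⟩ := hOD b g x y hD
  simp only [outD, cond_eq_ite] at h
  have key : ∀ m n : ℕ, Nat.blt m n = true → (m : ℝ) < n := by
    intro m n hh
    exact Nat.cast_lt.2 (Nat.le_of_ble_eq_true hh)
  split_ifs at h with h1 h2 h3 h4 h5 h6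
  · have h8 := key _ _ h1
    simp only [Nat.mul_eq] at h8
    push_cast at h8
    linarith
  · have h8 := key _ _ h2
    simp only [Nat.mul_eq] at h8
    push_cast at h8
    linarith
  · have h8 := key _ _ h3
    simp only [Nat.mul_eq, Nat.add_eq] at h8
    push_cast at h8
    linarith
  · have h8 := key _ _ h4
    simp only [Nat.mul_eq, Nat.add_eq] at h8
    push_cast at h8
    linarith
  · have h8 := key _ _ h5
    simp only [Nat.mul_eq, Nat.add_eq] at h8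
    push_cast at h8
    linarith
  · have h8 := key _ _ h6
    simp only [Nat.mul_eq, Nat.add_eq] at h8
    push_cast at h8
    linarith
  · have h8 := key _ _ h
    simp only [Nat.mul_eq, Nat.add_eq] at h8
    push_cast at h8
    linarith

/-- the distance of a box from zero -/
theorem dist_ok (l u o : ℕ) (t : ℝ) (h1 : (l : ℝ) - o ≤ t) (h2 : t ≤ (u : ℝ) - o) :
    (((l - o) + (o - u) : ℕ) : ℝ) ≤ |t| := by
  rcases le_total o l with h | h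
  · rw [Nat.cast_add, Nat.cast_sub h]
    have h3 : (o : ℝ) ≤ u := by
      have : (l : ℝ) ≤ u := by linarith
      have h4 : (o : ℝ) ≤ l := Nat.cast_le.2 h
      linarith
    rw [Nat.sub_eq_zero_of_le (Nat.cast_le.1 h3), Nat.cast_zero, add_zero]
    exact h1.trans (le_abs_self _)
  · rw [Nat.sub_eq_zero_of_le h, Nat.zero_add]
    rcases le_total u o with h3 | h3
    · rw [Nat.cast_sub h3]
      have := neg_abs_le t
      linarith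
    · rw [Nat.sub_eq_zero_of_le h3, Nat.cast_zero]
      exact abs_nonneg _

/-- a leaf; `LB F data x0 x1 y0 y1 a0 a1 e0 e1` is test (B) (type 6) -/
def lfa (LB : ℕ → ℕ → ℕ → ℕ → ℕ → ℕ → ℕ → ℕ → ℕ → ℕ → Bool) (F op d x0 x1 y0 y1 a0 a1 e0 e1 : ℕ) :
    Bool :=
  bif Nat.beq op 4 then leaf4 F d x0 x1 y0 y1 a0 a1 e0 e1 else
  bif Nat.beq op 5 then leaf5 F d x0 x1 y0 y1 a0 a1 e0 e1 else
  bif Nat.beq op 6 then LB F d x0 x1 y0 y1 a0 a1 e0 e1 else leaf7 d x0 x1 y0 y1 a0 a1 e0 e1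

def leaf (LB : ℕ → ℕ → ℕ → ℕ → ℕ → ℕ → ℕ → ℕ → ℕ → ℕ → Bool) (F op d x u y v a p e q : ℕ) : Bool :=
  lfa LB F op d x (Nat.add x u) y (Nat.add y v) a (Nat.add a p) e (Nat.add e q)

/-- helper88's `Good` with the parameters of this file -/
def GoodF (F : ℕ) (X0 X1 Y0 Y1 A0 A1 E0 E1 : ℤ) : Prop :=
  Good 1048576 ((F : ℝ) / 1048576) 1 (3 / 2) (-(18875 / 1048576)) (37749 / 1048576) (33903 / 1048576) 0 274877906944 X0 X1 Y0 Y1 A0 A1 E0 E1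

/-- the inequality at the point `(x0, y0, ζ)`, `a = ζ_x + 3`, `e = ζ_y + 3/2` -/
def PG (F : ℕ) (x0 y0 a e : ℝ) : Prop :=
  0 ≤ x0 → x0 ≤ 1 / 2 → 0 ≤ y0 → y0 < 1 / 2 → x0 ^ 2 + 3 * y0 ^ 2 ≤ 1 / 4 →
    ∀ c h : ℝ, -(18875 / 1048576) ≤ c → c ≤ 37749 / 1048576 → |h| ≤ 33903 / 1048576 → ∀ b g : ℝ,
    Dom b g (x0 + (a - 3)) (y0 + (e - 3 / 2)) →
      Ineq ((F : ℝ) / 1048576) 1 (3 / 2) c h x0 y0 b g (x0 + (a - 3)) (y0 + (e - 3 / 2))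

theorem goodF_of (F : ℕ) (D : DC) (X0 X1 Y0 Y1 A0 A1 E0 E1 : ℤ)
    (h : leafC (par F) D X0 X1 Y0 Y1 A0 A1 E0 E1 = true) : GoodF F X0 X1 Y0 Y1 A0 A1 E0 E1 := by
  refine leafC_sound (par F) 1048576 ((F : ℝ) / 1048576) 1 (3 / 2) (-(18875 / 1048576)) (37749 / 1048576) (33903 / 1048576) 0 274877906944
    (by norm_num) (by positivity) (by norm_num) (by norm_num) ?_ ?_ ?_ ?_ ?_ ?_ ?_ D X0 X1 Y0 Y1 A0 A1 E0
    E1 h
  · norm_num [par]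
  · simp only [par]
    push_cast
    field_simp
  · norm_num [par]
  · norm_num [par]
  · norm_num [par]
  · norm_num [par]
  · norm_num [par]

theorem allIn_of (F x u y v a p e q : ℕ)
    (h : GoodF F x ((x + u : ℕ) : ℤ) y ((y + v : ℕ) : ℤ) ((a : ℤ) - 3145728) (((a + p : ℕ) : ℤ) - 3145728)
      ((e : ℤ) - 1572864) (((e + q : ℕ) : ℤ) - 1572864)) :
    AllIn 1048576 (PG F) ⟨x, u, y, v, a, p, e, q⟩ := by
  intro X Y A E h1 h2 h3 h4 h5 h6 h7 h8 g1 g2 g3 g4 g5 c hh c1 c2 c3 b g hD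
  simp only at h1 h2 h3 h4 h5 h6 h7 h8
  refine h X Y (A - 3) (E - 3 / 2) ?_ ?_ ?_ ?_ ?_ ?_ ?_ ?_ g1 g2 g3 g4 ?_ ?_ c hh c1 c2 c3 b g hD
  · push_cast; linarith
  · push_cast; linarith
  · push_cast; linarith
  · push_cast; linarith
  · push_cast; linarith
  · push_cast; linarith
  · push_cast; linarith
  · push_cast; linarith
  · positivity
  · nlinarith

theorem leaf_sound (hOD : OD) (LB : ℕ → ℕ → ℕ → ℕ → ℕ → ℕ → ℕ → ℕ → ℕ → ℕ → Bool)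
    (hLB : ∀ F d x0 x1 y0 y1 a0 a1 e0 e1 : ℕ, LB F d x0 x1 y0 y1 a0 a1 e0 e1 = true →
      GoodF F x0 x1 y0 y1 ((a0 : ℤ) - 3145728) ((a1 : ℤ) - 3145728) ((e0 : ℤ) - 1572864) ((e1 : ℤ) - 1572864))
    (F op d x u y v a p e q : ℕ) (h : leaf LB F op d x u y v a p e q = true) :
    AllIn 1048576 (PG F) ⟨x, u, y, v, a, p, e, q⟩ := by
  simp only [leaf, lfa, cond_eq_ite] at h
  split_ifs at h with h1 h2 h3
  · exact allIn_of F x u y v a p e q (goodF_of F _ _ _ _ _ _ _ _ _ (lf4_sound _ _ _ _ _ _ _ _ _ _ _ _ _ _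
      _ _ _ _ _ _ _ h))
  · exact allIn_of F x u y v a p e q (goodF_of F _ _ _ _ _ _ _ _ _ (lf5_sound _ _ _ _ _ _ _ _ _ _ _ _ _ _
      _ _ _ _ _ _ _ _ _ h))
  · exact allIn_of F x u y v a p e q (hLB _ _ _ _ _ _ _ _ _ _ h)
  · simp only [leaf7, cond_eq_ite] at h
    split_ifs at h with h4
    · intro X Y A E i1 i2 i3 i4 i5 i6 i7 i8 g1 g2 g3 g4 g5
      exfalso
      simp only at i1 i3
      have h5 : 274877906944 < x * x + 3 * (y * y) := Nat.le_of_ble_eq_true h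
      have h6 : ((274877906944 : ℕ) : ℝ) < ((x * x + 3 * (y * y) : ℕ) : ℝ) := Nat.cast_lt.2 h5
      push_cast at h6
      have k1 : (x : ℝ) * x ≤ (1048576 * X) * (1048576 * X) := mul_le_mul i1 i1 (Nat.cast_nonneg x) (by positivity)
      have k2 : (y : ℝ) * y ≤ (1048576 * Y) * (1048576 * Y) := mul_le_mul i3 i3 (Nat.cast_nonneg y) (by positivity)
      nlinarith
    · intro X Y A E i1 i2 i3 i4 i5 i6 i7 i8 g1 g2 g3 g4 g5 c hh c1 c2 c3 b g hD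
      exfalso
      simp only at i1 i2 i3 i4 i5 i6 i7 i8
      refine outD_sound hOD _ _ h b g _ _ ?_ ?_ hD
      · have := dist_ok (x + a) (x + u + (a + p)) 3145728 (1048576 * (X + (A - 3))) (by push_cast; linarith)
          (by push_cast; linarith)
        rw [abs_mul, abs_of_pos (by norm_num : (0 : ℝ) < 1048576)] at this
        exact this
      · have := dist_ok (y + e) (y + v + (e + q)) 1572864 (1048576 * (Y + (E - 3 / 2))) (by push_cast; linarith)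
          (by push_cast; linarith)
        rw [abs_mul, abs_of_pos (by norm_num : (0 : ℝ) < 1048576)] at this
        exact this

theorem od : OD := by
  intro b g x y h
  obtain ⟨h1, h2, h3, h4, h5, h6, h7⟩ := dom_seven b g x y h
  exact ⟨by linarith, by linarith, by linarith, by linarith, by linarith, by linarith, by linarith⟩

/-- soundness: the whole tree of a box -/
theorem run_good (LB : ℕ → ℕ → ℕ → ℕ → ℕ → ℕ → ℕ → ℕ → ℕ → ℕ → Bool)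
    (hLB : ∀ F d x0 x1 y0 y1 a0 a1 e0 e1 : ℕ, LB F d x0 x1 y0 y1 a0 a1 e0 e1 = true →
      GoodF F x0 x1 y0 y1 ((a0 : ℤ) - 3145728) ((a1 : ℤ) - 3145728) ((e0 : ℤ) - 1572864) ((e1 : ℤ) - 1572864))
    (F L6 n code : ℕ) (B : Bx) (h : run (leaf LB F) 268 320 L6 1 n [B] code = true) :
    AllIn 1048576 (PG F) B :=
  run_sound (leaf LB F) 268 320 L6 1 1048576 (PG F) (fun op d x u y v a p e q hl =>
    leaf_sound od LB hLB F op d x u y v a p e q hl) n [B] code h B List.mem_cons_self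

end Pool.Agent.Helper25.SH
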