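import Pool.Agent.Helper25.SH.Rev
import Pool.Agent.Helper95.SH.Err

/-!
# Kernel check of a quadratic form given by packed columns

`N` real coordinates. A block of `m` functionals is a list of `N` packed numbers (one per coordinate): digit `k` of the number of
the coordinate `i` (base `2 ^ (b + 1)`, offset `2 ^ b`) is the coefficient of `v i` in the functional `k`.
-/

set_option autoImplicit false

namespace Helper25.SH.Mat

open Helper54.RC.Fast Helper76.RC.TPoly Helper25.SH.Dot Helper95.SH Helper54.RC

/-- digit `c` of a packed number -/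
def dg (b X c : ℕ) : ℤ := ((X / (2 ^ (b + 1)) ^ c % 2 ^ (b + 1) : ℕ) : ℤ) - ((2 ^ b : ℕ) : ℤ)
/-- the integer row of the functional `k` -/
def row (b : ℕ) (A : List ℕ) (k i : ℕ) : ℤ := dg b (A.getD i 0) k

/-- blocks: `sq s c m A` = `± c ∑_{k < m} A_k ^ 2`, `bl s c m A B` = `± 2 c ∑_{k < m} A_k B_k` (minus for `s = true`) -/
inductive Blk
  | sq (s : Bool) (c m : ℕ) (A : List ℕ)
  | bl (s : Bool) (c m : ℕ) (A B : List ℕ)

/-- the sign -/
def sgr (s : Bool) : ℝ := bif s then -1 else 1

/-- the value of a block -/
noncomputable def Blk.val (b N : ℕ) (v : ℕ → ℝ) : Blk → ℝ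
  | .sq s c m A => sgr s * (c * ∑ k ∈ Finset.range m, iv N (row b A k) v ^ 2)
  | .bl s c m A B => sgr s * (2 * c * ∑ k ∈ Finset.range m, iv N (row b A k) v * iv N (row b B k) v)

/-- number of digits -/
def nd : List Blk → ℕ
  | [] => 0
  | .sq _ _ m _ :: L => Nat.add m (nd L)
  | .bl _ _ m _ _ :: L => Nat.add m (Nat.add m (nd L))
/-- total weight -/
def wt : List Blk → ℕ
  | [] => 0
  | .sq _ c m _ :: L => Nat.add (Nat.mul c m) (wt L)
  | .bl _ c m _ _ :: L => Nat.add (Nat.mul (Nat.mul 2 c) m) (wt L)

/-- one more block of `m` digits in front, weight `c`; `W = (b + 1) m`, `M = 2 ^ W`, `O = of b m` -/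
def pu (s : Bool) (c W M O : ℕ) : List ℕ → List ℕ → List ℕ
  | a :: A, x :: X =>
    Nat.add (Nat.mul c (bif s then Nat.sub (Nat.mul 2 O) (Nat.mod a M) else Nat.mod a M)) (Nat.shiftLeft x W) ::
      pu s c W M O A X
  | _, _ => []
def pub (b : ℕ) (s : Bool) (c m : ℕ) (A X : List ℕ) : List ℕ :=
  pu s c (Nat.mul (Nat.succ b) m) (Nat.pow 2 (Nat.mul (Nat.succ b) m)) (of b m) A X

/-- first factors, with weights -/
def uu (b N : ℕ) : List Blk → List ℕ
  | [] => List.replicate N 0
  | .sq s c m A :: L => pub b s c m A (uu b N L)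
  | .bl s c m A B :: L => pub b s c m A (pub b s c m B (uu b N L))
/-- second factors -/
def vv (b N : ℕ) : List Blk → List ℕ
  | [] => List.replicate N 0
  | .sq _ _ m A :: L => pub b false 1 m A (vv b N L)
  | .bl _ _ m A B :: L => pub b false 1 m B (pub b false 1 m A (vv b N L))
/-- the constant in the first factors -/
def kk (b : ℕ) : List Blk → ℕ
  | [] => 0
  | .sq _ c m _ :: L => Nat.add (Nat.mul c (of b m)) (Nat.shiftLeft (kk b L) (Nat.mul (Nat.succ b) m))
  | .bl _ c m _ _ :: L =>
    Nat.add (Nat.mul c (of b m)) (Nat.shiftLeft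
      (Nat.add (Nat.mul c (of b m)) (Nat.shiftLeft (kk b L) (Nat.mul (Nat.succ b) m))) (Nat.mul (Nat.succ b) m))

/-- residues of the first factors: `K = B ^ n - kk mod B ^ n`, `M = B ^ n` -/
def ru (K M : ℕ) : List ℕ → List ℕ
  | [] => []
  | x :: X => Nat.mod (Nat.add x K) M :: ru K M X

/-- bound of the digits: `O = on b n`, `C = (2 ^ b - 2 ^ r) O`, `H = (2 ^ (b + 1) - 2 ^ (r + 1)) O` -/
def okd (C H : ℕ) : List ℕ → Bool
  | [] => true
  | x :: X => bif Nat.ble C x then (bif Nat.beq (Nat.land (Nat.sub x C) H) 0 then okd C H X else false) else false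

/-- residues of the reversed second factors -/
def rv (w mm sh : ℕ) (ms : List ℕ) (K M : ℕ) : List ℕ → List ℕ
  | [] => []
  | x :: X => Nat.mod (Nat.add (Nat.shiftRight (rl w mm ms x) sh) K) M :: rv w mm sh ms K M X

/-- the digit -/
def mid (s M X Y : ℕ) : ℕ := Nat.mod (Nat.shiftRight (Nat.mul X Y) s) M

/-- entries `(i, j)`, `j > i` -/
def inn (s M e X : ℕ) : List ℕ → Bool
  | [] => true
  | Y :: l => bif Nat.ble (Nat.mod (Nat.add (mid s M X Y) e) M) (Nat.mul 2 e) then inn s M e X l else false

/-- diagonal entry: `T + D ≤ G + P` -/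
def dia (b T P D t : ℕ) : Bool :=
  Nat.ble (Nat.add (Nat.add T D) (Nat.pow 2 b)) (Nat.add (Nat.mod (Nat.add t (Nat.pow 2 b)) (Nat.pow 2 (Nat.succ b))) P)

/-- all entries -/
def out (b s M e T : ℕ) : List ℕ → List ℕ → List ℕ → List ℕ → Bool
  | [], [], [], [] => true
  | X :: U, Y :: V, P :: Ps, D :: Ds =>
    bif dia b T P D (mid s M X Y) then (bif inn s M e X V then out b s M e T U V Ps Ds else false) else false
  | _, _, _, _ => false

/-- **the check** -/
def ok1 (b r mm N e T n : ℕ) (P D : List ℕ) (U V : List ℕ) (K : ℕ) : Bool :=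
  bif okd (Nat.mul (Nat.sub (Nat.pow 2 b) (Nat.pow 2 r)) (on b n))
      (Nat.mul (Nat.sub (Nat.pow 2 (Nat.succ b)) (Nat.pow 2 (Nat.succ r))) (on b n)) V then
    bif Nat.beq U.length N then
      out b (Nat.mul (Nat.succ b) (Nat.pred n)) (Nat.pow 2 (Nat.succ b)) e T
        (ru (Nat.sub (Nat.pow 2 (Nat.mul (Nat.succ b) n)) (Nat.mod K (Nat.pow 2 (Nat.mul (Nat.succ b) n))))
          (Nat.pow 2 (Nat.mul (Nat.succ b) n)) U)
        (rv (Nat.succ b) mm (Nat.mul (Nat.succ b) (Nat.sub (Nat.pow 2 mm) n)) (mks (Nat.succ b) mm 1)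
          (Nat.sub (Nat.pow 2 (Nat.mul (Nat.succ b) n)) (of b n)) (Nat.pow 2 (Nat.mul (Nat.succ b) n)) V) P D
    else false
  else false
def ok (b r mm N e T : ℕ) (L : List Blk) (P D : List ℕ) : Bool :=
  bif Nat.ble (Nat.succ (Nat.mul (wt L) (Nat.pow 2 (Nat.mul 2 r)))) (Nat.pow 2 b) then
    bif Nat.ble (nd L) (Nat.pow 2 mm) then
      bif Nat.ble 1 (nd L) then
        bif Nat.ble (Nat.succ r) b then
          bif Nat.ble (Nat.succ e) (Nat.pow 2 b) then ok1 b r mm N e T (nd L) P D (uu b N L) (vv b N L) (kk b L)
          else false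
        else false
      else false
    else false
  else false

/-- the diagonal part -/
noncomputable def dgv (N : ℕ) (P D : List ℕ) (v : ℕ → ℝ) : ℝ :=
  ∑ i ∈ Finset.range N, ((P.getD i 0 : ℝ) - (D.getD i 0 : ℝ)) * v i ^ 2


/-! ## Digits and lists -/

theorem ls_getD (b n X c : ℕ) (hc : c < n) : (ls b n X).getD c 0 = dg b X c := by
  induction n generalizing X c with
  | zero => omega
  | succ n ih =>
    cases c with
    | zero => show _ = dg b X 0; simp [lst, dg]
    | succ c =>
      show (ls b n (X / 2 ^ (b + 1))).getD c 0 = _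
      rw [ih _ _ (by omega)]
      unfold dg
      rw [Nat.div_div_eq_div_mul, ← pow_succ']

theorem va_eq (B : ℤ) (l : List ℤ) : va B l.length (fun c => l.getD c 0) = evz B l := by
  induction l with
  | nil => simp [va, evz]
  | cons a l ih =>
    unfold va at ih ⊢
    rw [List.length_cons, Finset.sum_range_succ']
    simp only [evz, List.getD_cons_succ, List.getD_cons_zero, pow_zero, mul_one]
    rw [← ih, Finset.mul_sum, add_comm]
    congr 1
    refine Finset.sum_congr rfl fun c _ => ?_
    rw [pow_succ]
    ring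

/-- scalar product of lists -/
def dL : List ℤ → List ℤ → ℤ
  | a :: l, b :: m => a * b + dL l m
  | _, _ => 0

theorem dt_eq (l m : List ℤ) (h : l.length = m.length) :
    dt l.length (fun c => l.getD c 0) (fun c => m.getD c 0) = dL l m := by
  induction l generalizing m with
  | nil => simp [dt, dL]
  | cons a l ih =>
    cases m with
    | nil => simp at h
    | cons b m =>
      have h' : l.length = m.length := by simpa using h
      have i := ih m h'
      unfold dt at i ⊢
      rw [List.length_cons, Finset.sum_range_succ']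
      simp only [List.getD_cons_succ, List.getD_cons_zero, dL]
      rw [i, add_comm]

theorem dL_append (l l' m m' : List ℤ) (h : l.length = m.length) : dL (l ++ l') (m ++ m') = dL l m + dL l' m' := by
  induction l generalizing m with
  | nil =>
    cases m with
    | nil => simp [dL]
    | cons b m => simp at h
  | cons a l ih =>
    cases m with
    | nil => simp at h
    | cons b m =>
      simp only [List.cons_append, dL]
      rw [ih m (by simpa using h)]
      ring

theorem dL_sm (c : ℤ) (l m : List ℤ) : dL (smL c l) m = c * dL l m := by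
  unfold smL
  induction l generalizing m with
  | nil => simp [dL]
  | cons a l ih =>
    cases m with
    | nil => simp [dL]
    | cons b m =>
      simp only [List.map_cons, dL]
      rw [ih]
      ring

theorem dL_ls (b m X Y : ℕ) : dL (ls b m X) (ls b m Y) = ∑ k ∈ Finset.range m, dg b X k * dg b Y k := by
  have h := dt_eq (ls b m X) (ls b m Y) (by rw [length_ls, length_ls])
  rw [length_ls] at h
  rw [← h]
  unfold dt
  refine Finset.sum_congr rfl fun k hk => ?_
  simp only
  rw [ls_getD _ _ _ _ (Finset.mem_range.1 hk), ls_getD _ _ _ _ (Finset.mem_range.1 hk)]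

theorem length_smL (c : ℤ) (l : List ℤ) : (smL c l).length = l.length := by unfold smL; rw [List.length_map]

/-- the sign -/
def sgz (s : Bool) : ℤ := bif s then -1 else 1

/-- the digits of the first factors -/
def uL (b i : ℕ) : List Blk → List ℤ
  | [] => []
  | .sq s c m A :: L => smL (sgz s * c) (ls b m (A.getD i 0)) ++ uL b i L
  | .bl s c m A B :: L =>
    smL (sgz s * c) (ls b m (A.getD i 0)) ++ (smL (sgz s * c) (ls b m (B.getD i 0)) ++ uL b i L)
/-- the digits of the second factors -/
def vL (b i : ℕ) : List Blk → List ℤ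
  | [] => []
  | .sq _ _ m A :: L => ls b m (A.getD i 0) ++ vL b i L
  | .bl _ _ m A B :: L => ls b m (B.getD i 0) ++ (ls b m (A.getD i 0) ++ vL b i L)

theorem length_uL (b i : ℕ) (L : List Blk) : (uL b i L).length = nd L := by
  induction L with
  | nil => rfl
  | cons k L ih =>
    cases k with
    | sq s c m A =>
      show (_ ++ uL b i L).length = m + nd L
      rw [List.length_append, length_smL, length_ls, ih]
    | bl s c m A B =>
      show (_ ++ (_ ++ uL b i L)).length = m + (m + nd L)
      rw [List.length_append, List.length_append, length_smL, length_ls, length_smL, length_ls, ih]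

theorem length_vL (b i : ℕ) (L : List Blk) : (vL b i L).length = nd L := by
  induction L with
  | nil => rfl
  | cons k L ih =>
    cases k with
    | sq s c m A =>
      show (_ ++ vL b i L).length = m + nd L
      rw [List.length_append, length_ls, ih]
    | bl s c m A B =>
      show (_ ++ (_ ++ vL b i L)).length = m + (m + nd L)
      rw [List.length_append, List.length_append, length_ls, length_ls, ih]

/-- the matrix -/
def gL (b i j : ℕ) : List Blk → ℤ
  | [] => 0
  | .sq s c m A :: L => sgz s * c * (∑ k ∈ Finset.range m, row b A k i * row b A k j) + gL b i j L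
  | .bl s c m A B :: L =>
    sgz s * c * (∑ k ∈ Finset.range m, (row b A k i * row b B k j + row b B k i * row b A k j)) + gL b i j L

theorem gL_eq (b i j : ℕ) (L : List Blk) : dL (uL b i L) (vL b j L) = gL b i j L := by
  induction L with
  | nil => rfl
  | cons k L ih =>
    cases k with
    | sq s c m A =>
      show dL (_ ++ uL b i L) (_ ++ vL b j L) = _ + gL b i j L
      rw [dL_append _ _ _ _ (by rw [length_smL, length_ls, length_ls]), ih, dL_sm, dL_ls]
      rfl
    | bl s c m A B =>
      show dL (_ ++ (_ ++ uL b i L)) (_ ++ (_ ++ vL b j L)) = _ + gL b i j L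
      rw [dL_append _ _ _ _ (by rw [length_smL, length_ls, length_ls]),
        dL_append _ _ _ _ (by rw [length_smL, length_ls, length_ls]), ih, dL_sm, dL_ls, dL_sm, dL_ls,
        Finset.sum_add_distrib]
      unfold row
      ring

theorem gL_symm (b i j : ℕ) (L : List Blk) : gL b i j L = gL b j i L := by
  induction L with
  | nil => rfl
  | cons k L ih =>
    cases k with
    | sq s c m A =>
      show _ + gL b i j L = _ + gL b j i L
      rw [ih]
      congr 2
      exact Finset.sum_congr rfl fun k _ => mul_comm _ _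
    | bl s c m A B =>
      show _ + gL b i j L = _ + gL b j i L
      rw [ih]
      congr 2
      exact Finset.sum_congr rfl fun k _ => by ring

theorem sgr_eq (s : Bool) : ((sgz s : ℤ) : ℝ) = sgr s := by cases s <;> simp [sgz, sgr]

theorem dbl_sum (N m : ℕ) (v : ℕ → ℝ) (R T : ℕ → ℕ → ℤ) :
    ∑ i ∈ Finset.range N, ∑ j ∈ Finset.range N, ((∑ k ∈ Finset.range m, R k i * T k j : ℤ) : ℝ) * (v i * v j) =
      ∑ k ∈ Finset.range m, iv N (R k) v * iv N (T k) v := by
  have h1 : ∀ k ∈ Finset.range m, iv N (R k) v * iv N (T k) v =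
      ∑ i ∈ Finset.range N, ∑ j ∈ Finset.range N, ((R k i : ℝ) * (T k j : ℝ)) * (v i * v j) := by
    intro k _
    unfold iv
    rw [Finset.sum_mul_sum]
    refine Finset.sum_congr rfl fun i _ => Finset.sum_congr rfl fun j _ => by ring
  rw [Finset.sum_congr rfl h1]
  symm
  rw [Finset.sum_comm]
  refine Finset.sum_congr rfl fun i _ => ?_
  rw [Finset.sum_comm]
  refine Finset.sum_congr rfl fun j _ => ?_
  push_cast
  rw [Finset.sum_mul]

/-- the matrix and the blocks -/
theorem gL_val (b N : ℕ) (v : ℕ → ℝ) (L : List Blk) :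
    ∑ i ∈ Finset.range N, ∑ j ∈ Finset.range N, (gL b i j L : ℝ) * (v i * v j) = (L.map (Blk.val b N v)).sum := by
  induction L with
  | nil => simp [gL]
  | cons k L ih =>
    rw [List.map_cons, List.sum_cons, ← ih]
    cases k with
    | sq s c m A =>
      have h := dbl_sum N m v (row b A) (row b A)
      have e : ∀ i j, (gL b i j (.sq s c m A :: L) : ℝ) * (v i * v j) =
          sgr s * c * (((∑ k ∈ Finset.range m, row b A k i * row b A k j : ℤ) : ℝ) * (v i * v j)) +
            (gL b i j L : ℝ) * (v i * v j) := by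
        intro i j
        show ((sgz s * c * (∑ k ∈ Finset.range m, row b A k i * row b A k j) + gL b i j L : ℤ) : ℝ) * _ = _
        rw [← sgr_eq]
        push_cast
        ring
      simp only [e, Finset.sum_add_distrib, ← Finset.mul_sum]
      rw [h]
      congr 1
      show _ = sgr s * (c * ∑ k ∈ Finset.range m, iv N (row b A k) v ^ 2)
      have h2 : ∑ k ∈ Finset.range m, iv N (row b A k) v * iv N (row b A k) v =
          ∑ k ∈ Finset.range m, iv N (row b A k) v ^ 2 := Finset.sum_congr rfl fun k _ => (sq _).symm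
      rw [h2, mul_assoc]
    | bl s c m A B =>
      have h := dbl_sum N m v (row b A) (row b B)
      have h' := dbl_sum N m v (row b B) (row b A)
      have e : ∀ i j, (gL b i j (.bl s c m A B :: L) : ℝ) * (v i * v j) =
          (sgr s * c * (((∑ k ∈ Finset.range m, row b A k i * row b B k j : ℤ) : ℝ) * (v i * v j)) +
          sgr s * c * (((∑ k ∈ Finset.range m, row b B k i * row b A k j : ℤ) : ℝ) * (v i * v j))) +
            (gL b i j L : ℝ) * (v i * v j) := by
        intro i j
        show ((sgz s * c * (∑ k ∈ Finset.range m, (row b A k i * row b B k j + row b B k i * row b A k j)) +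
          gL b i j L : ℤ) : ℝ) * _ = _
        rw [← sgr_eq, Finset.sum_add_distrib]
        push_cast
        ring
      simp only [e, Finset.sum_add_distrib, ← Finset.mul_sum]
      rw [h, h']
      congr 1
      show _ = sgr s * (2 * c * ∑ k ∈ Finset.range m, iv N (row b A k) v * iv N (row b B k) v)
      have h2 : ∑ k ∈ Finset.range m, iv N (row b B k) v * iv N (row b A k) v =
          ∑ k ∈ Finset.range m, iv N (row b A k) v * iv N (row b B k) v :=
        Finset.sum_congr rfl fun k _ => mul_comm _ _
      rw [h2]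
      ring

end Helper25.SH.Mat
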