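import Pool.Agent.Helper25.SH.Mat

/-!
# Soundness of the matrix check, part 1: packed numbers and lists of digits
-/

set_option autoImplicit false

namespace Helper25.SH.Mat

open Helper54.RC.Fast Helper76.RC.TPoly Helper25.SH.Dot Helper95.SH Helper54.RC

theorem gs_add (B m n : ℕ) : gs B (m + n) = gs B m + B ^ m * gs B n := by
  induction m with
  | zero => simp [gs]
  | succ m ih =>
    have : m + 1 + n = (m + n) + 1 := by ring
    rw [this, gs, gs, ih, pow_succ]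
    ring

theorem of_gs (b n : ℕ) : of b n = 2 ^ b * gs (2 ^ (b + 1)) n := by
  rw [← on_eq]; rfl

theorem gs_lt (b n : ℕ) : gs (2 ^ (b + 1)) n * (2 ^ (b + 1) - 1) = (2 ^ (b + 1)) ^ n - 1 := by
  rw [mul_comm]
  exact gs_mul _ n Nat.one_le_two_pow

/-- a number with `n` digits is less than `2 of` + 1 -/
theorem le_two_of (b n X : ℕ) (h : X < (2 ^ (b + 1)) ^ n) : X ≤ 2 * of b n := by
  have h1 := gs_lt b n
  rw [of_gs]
  have h2 : 2 * (2 ^ b * gs (2 ^ (b + 1)) n) = 2 ^ (b + 1) * gs (2 ^ (b + 1)) n := by rw [pow_succ]; ring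
  rw [h2]
  have h3 : gs (2 ^ (b + 1)) n * (2 ^ (b + 1) - 1) ≤ 2 ^ (b + 1) * gs (2 ^ (b + 1)) n := by
    rw [mul_comm]
    exact Nat.mul_le_mul_right _ (Nat.sub_le _ _)
  omega

/-- the digit number of one block -/
def bn (b : ℕ) (s : Bool) (m a : ℕ) : ℕ :=
  bif s then 2 * of b m - a % (2 ^ (b + 1)) ^ m else a % (2 ^ (b + 1)) ^ m

theorem bn_eq (b : ℕ) (s : Bool) (m a : ℕ) :
    ((bn b s m a : ℕ) : ℤ) = sgz s * evz ((2 ^ (b + 1) : ℕ) : ℤ) (ls b m a) + (of b m : ℕ) := by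
  have h1 := evz_lst b m a
  have h2 : ((2 ^ b : ℕ) : ℤ) * (gs (2 ^ (b + 1)) m : ℕ) = (of b m : ℕ) := by rw [of_gs]; push_cast; ring
  rw [h2] at h1
  have h3 : a % (2 ^ (b + 1)) ^ m < (2 ^ (b + 1)) ^ m := Nat.mod_lt _ (by positivity)
  have h4 := le_two_of b m _ h3
  rw [h1]
  cases s
  · show ((a % (2 ^ (b + 1)) ^ m : ℕ) : ℤ) = 1 * _ + _
    ring
  · show ((2 * of b m - a % (2 ^ (b + 1)) ^ m : ℕ) : ℤ) = -1 * _ + _
    rw [Nat.cast_sub h4]
    push_cast
    ring

theorem pub_getD (b : ℕ) (s : Bool) (c m : ℕ) (A X : List ℕ) (i : ℕ) (h : i < (pub b s c m A X).length) :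
    i < X.length ∧ (pub b s c m A X).getD i 0 =
      c * bn b s m (A.getD i 0) + (2 ^ (b + 1)) ^ m * X.getD i 0 := by
  have hM : Nat.pow 2 (Nat.mul (Nat.succ b) m) = (2 ^ (b + 1)) ^ m := by
    show 2 ^ ((b + 1) * m) = _
    rw [pow_mul]
  unfold pub at h ⊢
  rw [hM] at h ⊢
  induction A generalizing X i with
  | nil => simp [pu] at h
  | cons a A ih =>
    cases X with
    | nil => simp [pu] at h
    | cons x X =>
      cases i with
      | zero =>
        refine ⟨by simp, ?_⟩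
        show Nat.add (Nat.mul c (bif s then Nat.sub (Nat.mul 2 (of b m)) (Nat.mod a ((2 ^ (b + 1)) ^ m))
          else Nat.mod a ((2 ^ (b + 1)) ^ m))) (Nat.shiftLeft x (Nat.mul (Nat.succ b) m)) = c * bn b s m a + _ * x
        show c * bn b s m a + x <<< ((b + 1) * m) = _
        rw [Nat.shiftLeft_eq, pow_mul]
        ring
      | succ i =>
        have h' : i < (pu s c (Nat.mul (Nat.succ b) m) ((2 ^ (b + 1)) ^ m) (of b m) A X).length := by
          simpa [pu] using h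
        obtain ⟨i1, i2⟩ := ih X i h'
        refine ⟨by simpa using i1, ?_⟩
        show (pu s c (Nat.mul (Nat.succ b) m) ((2 ^ (b + 1)) ^ m) (of b m) A X).getD i 0 = _
        rw [i2]
        rfl

/-- the first factors -/
theorem uu_eq (b N : ℕ) (L : List Blk) (i : ℕ) (h : i < (uu b N L).length) :
    (((uu b N L).getD i 0 : ℕ) : ℤ) = evz ((2 ^ (b + 1) : ℕ) : ℤ) (uL b i L) + (kk b L : ℕ) := by
  induction L with
  | nil =>
    show (((List.replicate N 0).getD i 0 : ℕ) : ℤ) = 0 + 0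
    simp [List.getD_eq_getElem?_getD, List.getElem?_replicate]
    split_ifs <;> rfl
  | cons k L ih =>
    cases k with
    | sq s c m A =>
      obtain ⟨h1, h2⟩ := pub_getD b s c m A (uu b N L) i h
      have h3 := ih h1
      show (((pub b s c m A (uu b N L)).getD i 0 : ℕ) : ℤ) =
        evz _ (smL (sgz s * c) (ls b m (A.getD i 0)) ++ uL b i L) + ((c * of b m + kk b L <<< ((b + 1) * m) : ℕ) : ℤ)
      rw [h2, Helper54.RC.Fast.evz_append, evz_smL, length_smL, length_ls, Nat.shiftLeft_eq, pow_mul]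
      push_cast
      rw [h3, bn_eq]
      push_cast
      ring
    | bl s c m A B =>
      obtain ⟨h1, h2⟩ := pub_getD b s c m A (pub b s c m B (uu b N L)) i h
      obtain ⟨h3, h4⟩ := pub_getD b s c m B (uu b N L) i h1
      have h5 := ih h3
      show (((pub b s c m A (pub b s c m B (uu b N L))).getD i 0 : ℕ) : ℤ) =
        evz _ (smL (sgz s * c) (ls b m (A.getD i 0)) ++ (smL (sgz s * c) (ls b m (B.getD i 0)) ++ uL b i L)) +
          ((c * of b m + (c * of b m + kk b L <<< ((b + 1) * m)) <<< ((b + 1) * m) : ℕ) : ℤ)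
      rw [h2, h4, Helper54.RC.Fast.evz_append, Helper54.RC.Fast.evz_append, evz_smL, evz_smL, length_smL, length_ls,
        length_smL, length_ls, Nat.shiftLeft_eq, Nat.shiftLeft_eq, pow_mul]
      push_cast
      rw [h5, bn_eq, bn_eq]
      push_cast
      ring

theorem of_add (b m n : ℕ) : of b (m + n) = of b m + (2 ^ (b + 1)) ^ m * of b n := by
  rw [of_gs, of_gs, of_gs, gs_add]; ring

/-- the second factors -/
theorem vv_eq (b N : ℕ) (L : List Blk) (i : ℕ) (h : i < (vv b N L).length) :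
    (((vv b N L).getD i 0 : ℕ) : ℤ) = evz ((2 ^ (b + 1) : ℕ) : ℤ) (vL b i L) + (of b (nd L) : ℕ) := by
  induction L with
  | nil =>
    show (((List.replicate N 0).getD i 0 : ℕ) : ℤ) = 0 + ((of b 0 : ℕ) : ℤ)
    have : of b 0 = 0 := by rw [of_gs]; simp [gs]
    rw [this]
    simp [List.getD_eq_getElem?_getD, List.getElem?_replicate]
    split_ifs <;> rfl
  | cons k L ih =>
    cases k with
    | sq s c m A =>
      obtain ⟨h1, h2⟩ := pub_getD b false 1 m A (vv b N L) i h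
      have h3 := ih h1
      show (((pub b false 1 m A (vv b N L)).getD i 0 : ℕ) : ℤ) =
        evz _ (ls b m (A.getD i 0) ++ vL b i L) + ((of b (m + nd L) : ℕ) : ℤ)
      rw [h2, Helper54.RC.Fast.evz_append, length_ls, of_add]
      push_cast
      rw [h3, bn_eq]
      push_cast
      simp only [sgz, cond_false]
      ring
    | bl s c m A B =>
      obtain ⟨h1, h2⟩ := pub_getD b false 1 m B (pub b false 1 m A (vv b N L)) i h
      obtain ⟨h3, h4⟩ := pub_getD b false 1 m A (vv b N L) i h1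
      have h5 := ih h3
      show (((pub b false 1 m B (pub b false 1 m A (vv b N L))).getD i 0 : ℕ) : ℤ) =
        evz _ (ls b m (B.getD i 0) ++ (ls b m (A.getD i 0) ++ vL b i L)) + ((of b (m + (m + nd L)) : ℕ) : ℤ)
      rw [h2, h4, Helper54.RC.Fast.evz_append, Helper54.RC.Fast.evz_append, length_ls, length_ls, of_add, of_add]
      push_cast
      rw [h5, bn_eq, bn_eq]
      push_cast
      simp only [sgz, cond_false]
      ring

theorem dg_range (b X c : ℕ) : -((2 ^ b : ℕ) : ℤ) ≤ dg b X c ∧ dg b X c < (2 ^ b : ℕ) := by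
  unfold dg
  have h : X / (2 ^ (b + 1)) ^ c % 2 ^ (b + 1) < 2 ^ (b + 1) := Nat.mod_lt _ (by positivity)
  rw [pow_succ] at h
  constructor
  · have : (0 : ℤ) ≤ ((X / (2 ^ (b + 1)) ^ c % 2 ^ (b + 1) : ℕ) : ℤ) := Int.natCast_nonneg _
    linarith
  · have h2 : ((X / (2 ^ (b + 1)) ^ c % 2 ^ (b + 1) : ℕ) : ℤ) < ((2 ^ b * 2 : ℕ) : ℤ) := by exact_mod_cast h
    push_cast at h2 ⊢
    linarith

theorem ls_range (b n X : ℕ) : ∀ c ∈ ls b n X, -((2 ^ b : ℕ) : ℤ) ≤ c ∧ c < (2 ^ b : ℕ) := by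
  intro c hc
  obtain ⟨j, hj, rfl⟩ := List.mem_iff_getElem.1 hc
  have hj' : j < n := by rwa [length_ls] at hj
  have h := ls_getD b n X j hj'
  rw [List.getD_eq_getElem _ _ hj] at h
  rw [h]
  exact dg_range b X j

theorem vL_range (b i : ℕ) (L : List Blk) : ∀ c ∈ vL b i L, -((2 ^ b : ℕ) : ℤ) ≤ c ∧ c < (2 ^ b : ℕ) := by
  induction L with
  | nil => intro c hc; simp [vL] at hc
  | cons k L ih =>
    intro c hc
    cases k with
    | sq s d m A =>
      simp only [vL, List.mem_append] at hc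
      rcases hc with hc | hc
      · exact ls_range _ _ _ c hc
      · exact ih c hc
    | bl s d m A B =>
      simp only [vL, List.mem_append] at hc
      rcases hc with hc | hc | hc
      · exact ls_range _ _ _ c hc
      · exact ls_range _ _ _ c hc
      · exact ih c hc

theorem vv_ls (b N : ℕ) (L : List Blk) (i : ℕ) (h : i < (vv b N L).length) :
    ls b (nd L) ((vv b N L).getD i 0) = vL b i L ∧ (vv b N L).getD i 0 < (2 ^ (b + 1)) ^ (nd L) := by
  refine ls_of b (nd L) (vL b i L) (length_vL b i L) (vL_range b i L) _ ?_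
  rw [vv_eq b N L i h, of_gs]
  push_cast
  ring

/-! ## Bounds of the digits -/

theorem mask_digits (b r n : ℕ) (hr : r ≤ b) (y : ℕ) (hy : y < (2 ^ (b + 1)) ^ n)
    (h : y &&& ((2 ^ (b + 1) - 2 ^ (r + 1)) * gs (2 ^ (b + 1)) n) = 0) :
    ∀ c < n, y / (2 ^ (b + 1)) ^ c % 2 ^ (b + 1) < 2 ^ (r + 1) := by
  induction n generalizing y with
  | zero => intro c hc; omega
  | succ n ih =>
    have hB : 0 < 2 ^ (b + 1) := by positivity
    have ey : y = y % 2 ^ (b + 1) + 2 ^ (b + 1) * (y / 2 ^ (b + 1)) := (Nat.mod_add_div y _).symm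
    have hlt : 2 ^ (b + 1) - 2 ^ (r + 1) < 2 ^ (b + 1) := Nat.sub_lt hB (by positivity)
    have em : (2 ^ (b + 1) - 2 ^ (r + 1)) * gs (2 ^ (b + 1)) (n + 1) =
        (2 ^ (b + 1) - 2 ^ (r + 1)) + 2 ^ (b + 1) * ((2 ^ (b + 1) - 2 ^ (r + 1)) * gs (2 ^ (b + 1)) n) := by
      rw [gs]; ring
    have hm : y % 2 ^ (b + 1) < 2 ^ (b + 1) := Nat.mod_lt _ hB
    rw [em] at h
    rw [ey] at h
    rw [land_cons hm hlt] at h
    have h1 : y % 2 ^ (b + 1) &&& (2 ^ (b + 1) - 2 ^ (r + 1)) = 0 := by omega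
    have h2 : 2 ^ (b + 1) * (y / 2 ^ (b + 1) &&& (2 ^ (b + 1) - 2 ^ (r + 1)) * gs (2 ^ (b + 1)) n) = 0 := by omega
    have h3 : y / 2 ^ (b + 1) &&& (2 ^ (b + 1) - 2 ^ (r + 1)) * gs (2 ^ (b + 1)) n = 0 := by
      rcases Nat.mul_eq_zero.1 h2 with h4 | h4
      · exact absurd h4 hB.ne'
      · exact h4
    intro c hc
    cases c with
    | zero =>
      rw [pow_zero, Nat.div_one]
      exact mask_lt b (r + 1) _ (by omega) hm h1
    | succ c =>
      have h5 := ih (y / 2 ^ (b + 1)) (by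
        rw [Nat.div_lt_iff_lt_mul hB]
        rw [pow_succ] at hy
        exact hy) h3 c (by omega)
      rw [Nat.div_div_eq_div_mul, ← pow_succ'] at h5
      exact h5

theorem okd_digit (b r n x : ℕ) (hr : r < b) (hx : x < (2 ^ (b + 1)) ^ n)
    (hC : (2 ^ b - 2 ^ r) * gs (2 ^ (b + 1)) n ≤ x)
    (h : (x - (2 ^ b - 2 ^ r) * gs (2 ^ (b + 1)) n) &&& ((2 ^ (b + 1) - 2 ^ (r + 1)) * gs (2 ^ (b + 1)) n) = 0) :
    ∀ c < n, |dg b x c| ≤ (2 ^ r : ℕ) := by
  set C := (2 ^ b - 2 ^ r) * gs (2 ^ (b + 1)) n with hCd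
  set y := x - C with hyd
  have hy : y < (2 ^ (b + 1)) ^ n := lt_of_le_of_lt (Nat.sub_le _ _) hx
  have hd := mask_digits b r n hr.le y hy h
  -- the list of the digits of `y` minus `2 ^ r`
  set l : List ℤ := (ls b n y).map (fun c => c + (2 ^ b : ℕ) - (2 ^ r : ℕ)) with hl
  have hlen : l.length = n := by rw [hl, List.length_map, length_ls]
  have hr2 : 2 ^ r ≤ 2 ^ b := Nat.pow_le_pow_right (by norm_num) hr.le
  have hmem : ∀ c ∈ l, -((2 ^ r : ℕ) : ℤ) ≤ c ∧ c < (2 ^ r : ℕ) := by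
    intro c hc
    rw [hl] at hc
    obtain ⟨d, hd1, rfl⟩ := List.mem_map.1 hc
    obtain ⟨j, hj, rfl⟩ := List.mem_iff_getElem.1 hd1
    have hj' : j < n := by rwa [length_ls] at hj
    have h5 := ls_getD b n y j hj'
    rw [List.getD_eq_getElem _ _ hj] at h5
    rw [h5]
    have h6 := hd j hj'
    unfold dg
    rw [pow_succ 2 r] at h6
    have h7 : ((y / (2 ^ (b + 1)) ^ j % 2 ^ (b + 1) : ℕ) : ℤ) < ((2 ^ r * 2 : ℕ) : ℤ) := by exact_mod_cast h6
    have h8 : (0 : ℤ) ≤ ((y / (2 ^ (b + 1)) ^ j % 2 ^ (b + 1) : ℕ) : ℤ) := Int.natCast_nonneg _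
    rw [Nat.cast_mul] at h7
    constructor <;> push_cast at * <;> linarith
  have hev : ∀ m : List ℤ, evz ((2 ^ (b + 1) : ℕ) : ℤ) (m.map (fun c => c + (2 ^ b : ℕ) - (2 ^ r : ℕ))) =
      evz ((2 ^ (b + 1) : ℕ) : ℤ) m + ((2 ^ b : ℕ) - (2 ^ r : ℕ)) * (gs (2 ^ (b + 1)) m.length : ℕ) := by
    intro m
    induction m with
    | nil => simp [evz, gs]
    | cons a m ih =>
      simp only [List.map_cons, evz, List.length_cons, gs, ih]
      push_cast
      ring
  have hX : (x : ℤ) = evz ((2 ^ (b + 1) : ℕ) : ℤ) l + (2 ^ b : ℕ) * (gs (2 ^ (b + 1)) n : ℕ) := by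
    rw [hl, hev, length_ls]
    have e1 := evz_lst' b n y hy
    have e2 : (x : ℤ) = y + C := by
      have : x = y + C := by omega
      exact_mod_cast this
    have e3 : (C : ℤ) = ((2 ^ b : ℕ) - (2 ^ r : ℕ)) * (gs (2 ^ (b + 1)) n : ℕ) := by
      rw [hCd, Nat.cast_mul, Nat.cast_sub hr2]
    rw [e2, e3]
    linarith
  have hb2 : ((2 ^ r : ℕ) : ℤ) ≤ ((2 ^ b : ℕ) : ℤ) := by exact_mod_cast hr2
  obtain ⟨k1, _⟩ := ls_of b n l hlen (fun c hc => ⟨by linarith [(hmem c hc).1], by linarith [(hmem c hc).2]⟩) x hX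
  intro c hc
  have h9 := ls_getD b n x c hc
  rw [k1, List.getD_eq_getElem _ _ (by rw [hlen]; exact hc)] at h9
  rw [← h9]
  have h10 := hmem _ (List.getElem_mem (by rw [hlen]; exact hc))
  rw [abs_le]
  exact ⟨h10.1, h10.2.le⟩

theorem okd_spec (C H : ℕ) (X : List ℕ) (h : okd C H X = true) (i : ℕ) (hi : i < X.length) :
    C ≤ X.getD i 0 ∧ (X.getD i 0 - C) &&& H = 0 := by
  induction X generalizing i with
  | nil => simp at hi
  | cons x X ih =>
    simp only [okd, Bool.cond_false_right, Bool.and_eq_true] at h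
    obtain ⟨h1, h2, h3⟩ := h
    cases i with
    | zero =>
      exact ⟨Nat.le_of_ble_eq_true h1, Nat.eq_of_beq_eq_true h2⟩
    | succ i => exact ih h3 i (by simpa using hi)

end Helper25.SH.Mat
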