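import Pool.Agent.Helper25.SH.MatS

/-!
# Soundness of the matrix check, part 2: residues, middle digits
-/

set_option autoImplicit false

namespace Helper25.SH.Mat

open Helper54.RC.Fast Helper76.RC.TPoly Helper25.SH.Dot Helper95.SH Helper54.RC

theorem ru_length (K M : ℕ) (X : List ℕ) : (ru K M X).length = X.length := by
  induction X with
  | nil => rfl
  | cons x X ih => simp [ru, ih]

theorem ru_getD (K M : ℕ) (X : List ℕ) (i : ℕ) (h : i < X.length) : (ru K M X).getD i 0 = (X.getD i 0 + K) % M := by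
  induction X generalizing i with
  | nil => simp at h
  | cons x X ih =>
    cases i with
    | zero => rfl
    | succ i => exact ih i (by simpa using h)

theorem rv_length (w mm sh : ℕ) (ms : List ℕ) (K M : ℕ) (X : List ℕ) : (rv w mm sh ms K M X).length = X.length := by
  induction X with
  | nil => rfl
  | cons x X ih => simp [rv, ih]

theorem rv_getD (w mm sh : ℕ) (ms : List ℕ) (K M : ℕ) (X : List ℕ) (i : ℕ) (h : i < X.length) :
    (rv w mm sh ms K M X).getD i 0 = ((rl w mm ms (X.getD i 0)) >>> sh + K) % M := by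
  induction X generalizing i with
  | nil => simp at h
  | cons x X ih =>
    cases i with
    | zero => rfl
    | succ i => exact ih i (by simpa using h)

theorem of_lt (b n : ℕ) : of b n < (2 ^ (b + 1)) ^ n := by
  have h1 := gs_lt b n
  rw [of_gs]
  have hp : 0 < (2 ^ (b + 1)) ^ n := by positivity
  have h2 : 2 ^ b ≤ 2 ^ (b + 1) - 1 := by
    rw [pow_succ]
    have : 1 ≤ 2 ^ b := Nat.one_le_two_pow
    omega
  have h3 : 2 ^ b * gs (2 ^ (b + 1)) n ≤ gs (2 ^ (b + 1)) n * (2 ^ (b + 1) - 1) := by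
    rw [mul_comm]
    exact Nat.mul_le_mul_left _ h2
  omega

/-- residues of the first factors -/
theorem resU (b N : ℕ) (L : List Blk) (i : ℕ) (h : i < (uu b N L).length) (x : ℕ)
    (hx : x = ((uu b N L).getD i 0 + ((2 ^ (b + 1)) ^ nd L - kk b L % (2 ^ (b + 1)) ^ nd L)) % (2 ^ (b + 1)) ^ nd L) :
    (x : ℤ) ≡ va ((2 ^ (b + 1) : ℕ) : ℤ) (nd L) (fun c => (uL b i L).getD c 0)
      [ZMOD ((2 ^ (b + 1) : ℕ) : ℤ) ^ nd L] := by
  have e0 := va_eq ((2 ^ (b + 1) : ℕ) : ℤ) (uL b i L)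
  rw [length_uL] at e0
  rw [e0]
  have h1 := uu_eq b N L i h
  set M : ℕ := (2 ^ (b + 1)) ^ nd L with hM
  have hMz : ((2 ^ (b + 1) : ℕ) : ℤ) ^ nd L = (M : ℤ) := by rw [hM]; push_cast; rfl
  rw [hMz, hx]
  have hk : kk b L % M ≤ M := (Nat.mod_lt _ (by positivity)).le
  push_cast
  refine (Int.mod_modEq _ _).trans ?_
  rw [Nat.cast_sub hk, h1]
  have h2 : ((kk b L % M : ℕ) : ℤ) ≡ (kk b L : ℤ) [ZMOD (M : ℤ)] := by
    push_cast
    exact Int.mod_modEq _ _
  have h3 : (M : ℤ) ≡ 0 [ZMOD (M : ℤ)] := by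
    exact (Int.modEq_zero_iff_dvd).2 dvd_rfl
  have h4 := ((Int.ModEq.refl (n := (M : ℤ)) (evz ((2 ^ (b + 1) : ℕ) : ℤ) (uL b i L) + (kk b L : ℕ))).add (h3.sub h2))
  have h5 : evz ((2 ^ (b + 1) : ℕ) : ℤ) (uL b i L) + (kk b L : ℕ) + (0 - (kk b L : ℤ)) =
    evz ((2 ^ (b + 1) : ℕ) : ℤ) (uL b i L) := by ring
  rw [h5] at h4
  exact h4

theorem getD_reverse (l : List ℤ) (n c : ℕ) (hl : l.length = n) (hc : c < n) :
    l.reverse.getD c 0 = l.getD (n - 1 - c) 0 := by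
  subst hl
  rw [List.getD_eq_getElem _ _ (by simpa using hc), List.getD_eq_getElem _ _ (by omega), List.getElem_reverse]

/-- residues of the second factors -/
theorem resV (b mm N : ℕ) (L : List Blk) (hn : nd L ≤ 2 ^ mm) (i : ℕ) (h : i < (vv b N L).length) (y : ℕ)
    (hy : y = ((rl (b + 1) mm (mks (b + 1) mm 1) ((vv b N L).getD i 0)) >>> ((b + 1) * (2 ^ mm - nd L)) +
      ((2 ^ (b + 1)) ^ nd L - of b (nd L))) % (2 ^ (b + 1)) ^ nd L) :
    (y : ℤ) ≡ va ((2 ^ (b + 1) : ℕ) : ℤ) (nd L) (fun c => (vL b i L).getD (nd L - 1 - c) 0)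
      [ZMOD ((2 ^ (b + 1) : ℕ) : ℤ) ^ nd L] := by
  obtain ⟨h1, h2⟩ := vv_ls b N L i h
  set x := (vv b N L).getD i 0 with hx
  set n := nd L with hnd
  set k := 2 ^ mm - n with hk
  have hkn : k + n = 2 ^ mm := by omega
  have hx2 : x < 2 ^ ((b + 1) * 2 ^ mm) := by
    rw [pow_mul, ← hkn]
    exact lt_of_lt_of_le h2 (Nat.pow_le_pow_right (by positivity) (by omega))
  rw [rl_eq (b + 1) mm x (by omega) hx2] at hy
  have hr := rr_lt (b + 1) mm x hx2
  have hl := ls_rr b mm x hx2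
  set z := rr (b + 1) mm x with hz
  have hB : 0 < (2 ^ (b + 1)) ^ k := by positivity
  -- the list of `x`
  have e1 : ls b (2 ^ mm) x = vL b i L ++ ls b k (x / (2 ^ (b + 1)) ^ n) := by
    rw [← hkn, add_comm, ls_append, h1]
  have e2 : ls b (2 ^ mm) z = ls b k z ++ ls b n (z / (2 ^ (b + 1)) ^ k) := by
    rw [← hkn, ls_append]
  have e3 : ls b k z = (ls b k (x / (2 ^ (b + 1)) ^ n)).reverse ∧
      ls b n (z / (2 ^ (b + 1)) ^ k) = (vL b i L).reverse := by
    rw [e2, e1, List.reverse_append] at hl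
    exact List.append_inj hl (by rw [List.length_reverse, length_ls, length_ls])
  have e4 : z / (2 ^ (b + 1)) ^ k < (2 ^ (b + 1)) ^ n := by
    rw [Nat.div_lt_iff_lt_mul hB, ← pow_add, add_comm n k, hkn, ← pow_mul]
    exact hr
  have e5 := evz_lst' b n _ e4
  rw [e3.2] at e5
  have e6 : z >>> ((b + 1) * k) = z / (2 ^ (b + 1)) ^ k := by rw [Nat.shiftRight_eq_div_pow, pow_mul]
  rw [e6] at hy
  have e7 : va ((2 ^ (b + 1) : ℕ) : ℤ) n (fun c => (vL b i L).getD (n - 1 - c) 0) =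
      evz ((2 ^ (b + 1) : ℕ) : ℤ) (vL b i L).reverse := by
    rw [← va_eq, List.length_reverse, length_vL]
    unfold va
    refine Finset.sum_congr rfl fun c hc => ?_
    simp only
    rw [getD_reverse _ n c (length_vL b i L) (Finset.mem_range.1 hc)]
  rw [e7]
  set M : ℕ := (2 ^ (b + 1)) ^ n with hM
  have hMz : ((2 ^ (b + 1) : ℕ) : ℤ) ^ n = (M : ℤ) := by rw [hM]; push_cast; rfl
  rw [hMz, hy]
  have hk' : of b n ≤ M := (of_lt b n).le
  have e8 : (2 ^ b : ℕ) * ((gs (2 ^ (b + 1)) n : ℕ) : ℤ) = (of b n : ℕ) := by rw [of_gs]; push_cast; ring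
  rw [e8] at e5
  rw [Int.natCast_mod]
  refine (Int.mod_modEq _ _).trans ?_
  rw [Nat.cast_add, Nat.cast_sub hk', e5]
  have h3 : (M : ℤ) ≡ 0 [ZMOD (M : ℤ)] := (Int.modEq_zero_iff_dvd).2 dvd_rfl
  have h4 := (Int.ModEq.refl (n := (M : ℤ)) (evz ((2 ^ (b + 1) : ℕ) : ℤ) (vL b i L).reverse)).add h3
  rw [add_zero] at h4
  have h5 : evz ((2 ^ (b + 1) : ℕ) : ℤ) (vL b i L).reverse + (of b n : ℕ) + ((M : ℤ) - (of b n : ℕ)) =
    evz ((2 ^ (b + 1) : ℕ) : ℤ) (vL b i L).reverse + M := by ring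
  rw [h5]
  exact h4

/-! ## Sizes -/

theorem l1_le (l : List ℤ) (m : ℕ) (h : ∀ c ∈ l, c.natAbs ≤ m) : l1 l ≤ l.length * m := by
  induction l with
  | nil => simp [l1]
  | cons a l ih =>
    have h1 := h a List.mem_cons_self
    have h2 := ih fun c hc => h c (List.mem_cons_of_mem _ hc)
    simp only [l1, List.length_cons]
    linarith [Nat.succ_mul l.length m]

theorem l1_sm (c : ℤ) (l : List ℤ) : l1 (smL c l) = c.natAbs * l1 l := by
  unfold smL
  induction l with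
  | nil => simp [l1]
  | cons a l ih =>
    simp only [List.map_cons, l1, ih, Int.natAbs_mul]
    ring

theorem natAbs_sgz (s : Bool) (c : ℕ) : (sgz s * c).natAbs = c := by
  cases s <;> simp [sgz]

theorem l1_uL (b r i : ℕ) (L : List Blk) (h : ∀ c ∈ vL b i L, c.natAbs ≤ 2 ^ r) : l1 (uL b i L) ≤ wt L * 2 ^ r := by
  induction L with
  | nil => simp [uL, l1]
  | cons k L ih =>
    cases k with
    | sq s c m A =>
      simp only [vL, List.mem_append] at h
      have h1 := l1_le (ls b m (A.getD i 0)) (2 ^ r) fun d hd => h d (Or.inl hd)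
      have h2 := ih fun d hd => h d (Or.inr hd)
      rw [length_ls] at h1
      show l1 (smL (sgz s * c) (ls b m (A.getD i 0)) ++ uL b i L) ≤ (c * m + wt L) * 2 ^ r
      rw [l1_append, l1_sm, natAbs_sgz]
      have h3 := Nat.mul_le_mul_left c h1
      calc c * l1 (ls b m (A.getD i 0)) + l1 (uL b i L) ≤ c * (m * 2 ^ r) + wt L * 2 ^ r := add_le_add h3 h2
        _ = _ := by ring
    | bl s c m A B =>
      simp only [vL, List.mem_append] at h
      have h1 := l1_le (ls b m (A.getD i 0)) (2 ^ r) fun d hd => h d (Or.inr (Or.inl hd))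
      have h1' := l1_le (ls b m (B.getD i 0)) (2 ^ r) fun d hd => h d (Or.inl hd)
      have h2 := ih fun d hd => h d (Or.inr (Or.inr hd))
      rw [length_ls] at h1 h1'
      show l1 (smL (sgz s * c) (ls b m (A.getD i 0)) ++ (smL (sgz s * c) (ls b m (B.getD i 0)) ++ uL b i L)) ≤
        (2 * c * m + wt L) * 2 ^ r
      rw [l1_append, l1_append, l1_sm, l1_sm, natAbs_sgz]
      have h3 := Nat.mul_le_mul_left c h1
      have h3' := Nat.mul_le_mul_left c h1'
      calc c * l1 (ls b m (A.getD i 0)) + (c * l1 (ls b m (B.getD i 0)) + l1 (uL b i L)) ≤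
          c * (m * 2 ^ r) + (c * (m * 2 ^ r) + wt L * 2 ^ r) := add_le_add h3 (add_le_add h3' h2)
        _ = _ := by ring

theorem sum_abs_l1 (l : List ℤ) : ∑ c ∈ Finset.range l.length, |l.getD c 0| = (l1 l : ℤ) := by
  induction l with
  | nil => simp [l1]
  | cons a l ih =>
    rw [List.length_cons, Finset.sum_range_succ']
    simp only [List.getD_cons_succ, List.getD_cons_zero, ih, l1]
    push_cast
    ring

theorem cv_le (n : ℕ) (u w : ℕ → ℤ) (P : ℤ) (hw : ∀ c, |w c| ≤ P) (k : ℕ) (hk : k < n) :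
    |cv u w k| ≤ (∑ c ∈ Finset.range n, |u c|) * P := by
  unfold cv
  refine (Finset.abs_sum_le_sum_abs _ _).trans ?_
  rw [Finset.sum_mul]
  have h1 : ∑ c ∈ Finset.range (k + 1), |u c * w (k - c)| ≤ ∑ c ∈ Finset.range (k + 1), |u c| * P := by
    refine Finset.sum_le_sum fun c _ => ?_
    rw [abs_mul]
    exact mul_le_mul_of_nonneg_left (hw _) (abs_nonneg _)
  refine h1.trans ?_
  refine Finset.sum_le_sum_of_subset_of_nonneg ?_ fun c _ _ => ?_
  · intro c hc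
    rw [Finset.mem_range] at hc ⊢
    omega
  · exact mul_nonneg (abs_nonneg _) ((abs_nonneg _).trans (hw 0))

theorem dt_le (n : ℕ) (u w : ℕ → ℤ) (P : ℤ) (hw : ∀ c, |w c| ≤ P) : |dt n u w| ≤ (∑ c ∈ Finset.range n, |u c|) * P := by
  unfold dt
  refine (Finset.abs_sum_le_sum_abs _ _).trans ?_
  rw [Finset.sum_mul]
  refine Finset.sum_le_sum fun c _ => ?_
  rw [abs_mul]
  exact mul_le_mul_of_nonneg_left (hw _) (abs_nonneg _)

/-- **one entry** -/
theorem entry {b r mm N : ℕ} {L : List Blk} {i j : ℕ} (hn : nd L ≤ 2 ^ mm) (hn1 : 1 ≤ nd L)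
    (hw : wt L * 2 ^ (2 * r) < 2 ^ b)
    (hi : i < (uu b N L).length) (hj : j < (vv b N L).length)
    (ui : ∀ c ∈ vL b i L, c.natAbs ≤ 2 ^ r) (uj : ∀ c ∈ vL b j L, c.natAbs ≤ 2 ^ r) (x y : ℕ)
    (hx : x = ((uu b N L).getD i 0 + ((2 ^ (b + 1)) ^ nd L - kk b L % (2 ^ (b + 1)) ^ nd L)) % (2 ^ (b + 1)) ^ nd L)
    (hy : y = ((rl (b + 1) mm (mks (b + 1) mm 1) ((vv b N L).getD j 0)) >>> ((b + 1) * (2 ^ mm - nd L)) +
      ((2 ^ (b + 1)) ^ nd L - of b (nd L))) % (2 ^ (b + 1)) ^ nd L) :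
    ∃ d : ℤ, (d = 0 ∨ d = 1) ∧
      ((mid ((b + 1) * (nd L - 1)) (2 ^ (b + 1)) x y : ℕ) : ℤ) ≡ gL b i j L - d [ZMOD ((2 ^ (b + 1) : ℕ) : ℤ)] ∧
      |gL b i j L| < (2 ^ b : ℕ) := by
  obtain ⟨n, hn'⟩ : ∃ n, nd L = n + 1 := ⟨nd L - 1, by omega⟩
  have rU := resU b N L i hi x hx
  have rV := resV b mm N L hn j hj y hy
  rw [hn'] at rU rV
  have hl1 := l1_uL b r i L ui
  have hP : ∀ c, |(vL b j L).getD c 0| ≤ ((2 ^ r : ℕ) : ℤ) := by
    intro c
    by_cases hc : c < (vL b j L).length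
    · rw [List.getD_eq_getElem _ _ hc]
      have := uj _ (List.getElem_mem hc)
      rw [Int.abs_eq_natAbs]
      exact_mod_cast this
    · rw [List.getD_eq_default _ _ (by omega)]
      simp
  have hsum : ∑ c ∈ Finset.range (n + 1), |(uL b i L).getD c 0| = (l1 (uL b i L) : ℤ) := by
    rw [← hn', ← length_uL b i L]
    exact sum_abs_l1 _
  have hbd : (∑ c ∈ Finset.range (n + 1), |(uL b i L).getD c 0|) * ((2 ^ r : ℕ) : ℤ) < ((2 ^ b : ℕ) : ℤ) := by
    rw [hsum]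
    have h1 : l1 (uL b i L) * 2 ^ r ≤ wt L * 2 ^ r * 2 ^ r := Nat.mul_le_mul_right _ hl1
    have h2 : wt L * 2 ^ r * 2 ^ r = wt L * 2 ^ (2 * r) := by rw [two_mul, pow_add]; ring
    have h3 : l1 (uL b i L) * 2 ^ r < 2 ^ b := by omega
    exact_mod_cast h3
  have hdt : dt (n + 1) (fun c => (uL b i L).getD c 0) (fun c => (vL b j L).getD c 0) = gL b i j L := by
    rw [← gL_eq, ← dt_eq _ _ (by rw [length_uL, length_vL]), length_uL, hn']
  have hcv : ∀ k < n, 2 * |cv (fun c => (uL b i L).getD c 0) (fun c => (fun c => (vL b j L).getD c 0) (n - c)) k| <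
      ((2 ^ (b + 1) : ℕ) : ℤ) := by
    intro k hk
    have h1 := cv_le (n + 1) (fun c => (uL b i L).getD c 0) (fun c => (vL b j L).getD (n - c) 0) ((2 ^ r : ℕ) : ℤ)
      (fun c => hP _) k (by omega)
    have h2 : ((2 ^ (b + 1) : ℕ) : ℤ) = 2 * ((2 ^ b : ℕ) : ℤ) := by push_cast; ring
    rw [h2]
    have h3 := lt_of_le_of_lt h1 hbd
    simp only
    linarith
  have hB2 : 2 ≤ 2 ^ (b + 1) := by
    calc 2 = 2 ^ 1 := rfl
      _ ≤ 2 ^ (b + 1) := Nat.pow_le_pow_right (by norm_num) (by omega)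
  obtain ⟨d, hd, hm⟩ := mid_digit hB2 (fun c => (uL b i L).getD c 0) (fun c => (vL b j L).getD c 0) rU
    (by simpa using rV) hcv
  refine ⟨d, hd, ?_, ?_⟩
  · have e1 : mid ((b + 1) * (nd L - 1)) (2 ^ (b + 1)) x y = x * y / (2 ^ (b + 1)) ^ n % 2 ^ (b + 1) := by
      show (x * y) >>> ((b + 1) * (nd L - 1)) % 2 ^ (b + 1) = _
      rw [hn', Nat.add_sub_cancel, Nat.shiftRight_eq_div_pow, pow_mul]
    rw [e1, ← hdt]
    exact hm
  · rw [← hdt]
    exact lt_of_le_of_lt (dt_le _ _ _ _ hP) hbd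

end Helper25.SH.Mat
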