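import Pool.Agent.Helper25.SH.Tree

/-!
# Kernel check of a quadratic form: bilinear blocks with few coefficients

The same statement as `Helper25.SH.Mat.sound` for a check which treats the bilinear blocks by sparse combinations of rows: for the
coordinate `i` the number with the digits `∑_k A_k i (c B_k j)` (`j < N`) is a combination of the packed rows `c B_k` with the
non-zero coefficients `A_k i` only. The squares are treated by products.
-/

set_option autoImplicit false

namespace Helper25.SH.MatX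

open Helper54.RC.Fast Helper76.RC.TPoly Helper25.SH.Dot Helper95.SH Helper54.RC Helper25.SH.Mat Helper25.SH.Tsp

/-! ## The check -/

/-- the squares -/
def sqs : List Blk → List Blk
  | [] => []
  | .sq s c m A :: L => .sq s c m A :: sqs L
  | .bl _ _ _ _ _ :: L => sqs L
/-- the first factors of the bilinear blocks, filled up with `f` zeros -/
def fA (b N f : ℕ) : List Blk → List Blk
  | [] => [.sq false 1 f (List.replicate N (of b f))]
  | .sq _ _ _ _ :: L => fA b N f L
  | .bl s c m A _ :: L => .sq s c m A :: fA b N f L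
/-- the second factors -/
def fB (b N f : ℕ) : List Blk → List Blk
  | [] => [.sq false 1 f (List.replicate N (of b f))]
  | .sq _ _ _ _ :: L => fB b N f L
  | .bl s c m _ B :: L => .sq s c m B :: fB b N f L

/-- sum over the pieces -/
def evs (O OF M P s : ℕ) (lv : List (ℕ × ℕ × ℕ)) : List Tr → ℕ → ℕ
  | [], _ => 0
  | t :: ts, x => Nat.add (evt O OF M t lv (Nat.mod x P)) (evs O OF M P s lv ts (Nat.shiftRight x s))
/-- the trees of the pieces `c`, `c + 1`, ... -/
def trs (w q : ℕ) (lv : List (ℕ × ℕ × ℕ)) (l : List ℕ) : ℕ → ℕ → List Tr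
  | 0, _ => []
  | C + 1, c => mkT (Nat.mul w (Nat.pow 2 q)) q (tpc w q lv l c) :: trs w q lv l C (Nat.succ c)
/-- the rows -/
def rws (O OF M P s : ℕ) (lv : List (ℕ × ℕ × ℕ)) (ts : List Tr) : List ℕ → List ℕ
  | [] => []
  | x :: X => Nat.mod (Nat.add (evs O OF M P s lv ts x) OF) M :: rws O OF M P s lv ts X

/-- entries `(i, j)`, `j > i` -/
def inx (s M w e X F si : ℕ) : ℕ → List ℕ → List ℕ → Bool
  | sj, Y :: V, G :: Fs =>
    bif Nat.ble (Nat.mod (Nat.add (Nat.add (mid s M X Y) (Nat.add (Nat.mod (Nat.shiftRight F sj) M)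
        (Nat.mod (Nat.shiftRight G si) M))) e) M) (Nat.mul 2 e) then
      inx s M w e X F si (Nat.add sj w) V Fs
    else false
  | _, _, _ => true

/-- the rows of `U` (a part) against the columns of `V` -/
def oux (b s M w e T : ℕ) : ℕ → List ℕ → List ℕ → List ℕ → List ℕ → List ℕ → Bool
  | _, [], _, _, _, _ => true
  | si, X :: U, Y :: V, F :: Fs, P :: Ps, D :: Ds =>
    bif dia b T P D (Nat.add (mid s M X Y) (Nat.mul 2 (Nat.mod (Nat.shiftRight F si) M))) then
      (bif inx s M w e X F si (Nat.add si w) V Fs then oux b s M w e T (Nat.add si w) U V Fs Ps Ds else false)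
    else false
  | _, _, _, _, _, _ => false

/-- the rows of the bilinear blocks -/
def bls (b q C n K : ℕ) (A B : List ℕ) : List ℕ :=
  rws (Nat.pow 2 b) (of b (Nat.pow 2 q)) (Nat.pow 2 (Nat.mul (Nat.succ b) (Nat.pow 2 q)))
    (Nat.pow 2 (Nat.mul (Nat.succ b) (Nat.pow 2 q))) (Nat.mul (Nat.succ b) (Nat.pow 2 q)) (lz b q)
    (trs (Nat.succ b) q (lvs (Nat.succ b) q q)
      (ru (Nat.add (Nat.sub (Nat.pow 2 (Nat.mul (Nat.succ b) n)) (Nat.mod K (Nat.pow 2 (Nat.mul (Nat.succ b) n)))) (of b n))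
        (Nat.pow 2 (Nat.mul (Nat.succ b) n)) B) C 0) A

/-- the rows `lo ≤ i < hi` -/
def okY (b mm e T n : ℕ) (P D : List ℕ) (U V : List ℕ) (K : ℕ) (F : List ℕ) (lo hi : ℕ) : Bool :=
  oux b (Nat.mul (Nat.succ b) (Nat.pred n)) (Nat.pow 2 (Nat.succ b)) (Nat.succ b) e T (Nat.mul (Nat.succ b) lo)
    (ru (Nat.sub (Nat.pow 2 (Nat.mul (Nat.succ b) n)) (Nat.mod K (Nat.pow 2 (Nat.mul (Nat.succ b) n))))
      (Nat.pow 2 (Nat.mul (Nat.succ b) n)) (List.take (Nat.sub hi lo) (List.drop lo U)))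
    (rv (Nat.succ b) mm (Nat.mul (Nat.succ b) (Nat.sub (Nat.pow 2 mm) n)) (mks (Nat.succ b) mm 1)
      (Nat.sub (Nat.pow 2 (Nat.mul (Nat.succ b) n)) (of b n)) (Nat.pow 2 (Nat.mul (Nat.succ b) n)) (List.drop lo V))
    (List.drop lo F) (List.drop lo P) (List.drop lo D)
/-- bounds of the digits and the rows `lo ≤ i < hi` -/
def okZ (b r mm e T n nA : ℕ) (P D : List ℕ) (U V : List ℕ) (K : ℕ) (F VA VB : List ℕ) (lo hi : ℕ) : Bool :=
  bif okd (Nat.mul (Nat.sub (Nat.pow 2 b) (Nat.pow 2 r)) (on b n))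
      (Nat.mul (Nat.sub (Nat.pow 2 (Nat.succ b)) (Nat.pow 2 (Nat.succ r))) (on b n))
      (List.take (Nat.sub hi lo) (List.drop lo V)) then
    bif okd (Nat.mul (Nat.sub (Nat.pow 2 b) (Nat.pow 2 r)) (on b nA))
        (Nat.mul (Nat.sub (Nat.pow 2 (Nat.succ b)) (Nat.pow 2 (Nat.succ r))) (on b nA))
        (List.take (Nat.sub hi lo) (List.drop lo VA)) then
      bif okd (Nat.mul (Nat.sub (Nat.pow 2 b) (Nat.pow 2 r)) (on b nA))
          (Nat.mul (Nat.sub (Nat.pow 2 (Nat.succ b)) (Nat.pow 2 (Nat.succ r))) (on b nA))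
          (List.take (Nat.sub hi lo) (List.drop lo VB)) then
        okY b mm e T n P D U V K F lo hi
      else false
    else false
  else false
/-- **the check of the rows** `lo ≤ i < hi` -/
def okX (b r mm q C f N e T : ℕ) (L : List Blk) (P D : List ℕ) (lo hi : ℕ) : Bool :=
  okZ b r mm e T (nd (sqs L)) (nd (fA b N f L)) P D (uu b N (sqs L)) (vv b N (sqs L)) (kk b (sqs L))
    (bls b q C (nd (fA b N f L)) (kk b (fB b N f L)) (vv b N (fA b N f L)) (uu b N (fB b N f L)))
    (vv b N (fA b N f L)) (vv b N (fB b N f L)) lo hi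

/-- **the common part of the check** -/
def okX0 (b r mm q C f N e : ℕ) (L : List Blk) : Bool :=
  bif Nat.ble (Nat.succ (Nat.mul (Nat.add (wt (sqs L)) (Nat.mul 2 (wt (fB b N f L)))) (Nat.pow 2 (Nat.mul 2 r))))
      (Nat.pow 2 b) then
    bif Nat.ble (nd (sqs L)) (Nat.pow 2 mm) then
      bif Nat.ble 1 (nd (sqs L)) then
        bif Nat.ble (Nat.succ r) b then
          bif Nat.ble (Nat.succ e) (Nat.pow 2 b) then
            bif Nat.ble N (Nat.pow 2 q) then
              bif Nat.beq (nd (fA b N f L)) (Nat.mul (Nat.pow 2 q) C) then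
                bif Nat.beq (List.length (uu b N (sqs L))) N then
                  bif Nat.beq (List.length (uu b N (fB b N f L))) N then
                    bif Nat.beq (List.length (vv b N (sqs L))) N then
                      bif Nat.beq (List.length (vv b N (fA b N f L))) N then
                        Nat.beq (List.length (vv b N (fB b N f L))) N
                      else false
                    else false
                  else false
                else false
              else false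
            else false
          else false
        else false
      else false
    else false
  else false

/-- the rows `lo ≤ i < hi` have passed the check -/
def RowsX (b r mm q C f N e T : ℕ) (L : List Blk) (P D : List ℕ) (lo hi : ℕ) : Prop :=
  ∀ i, lo ≤ i → i < hi → ∃ l h, l ≤ i ∧ i < h ∧ okX b r mm q C f N e T L P D l h = true

theorem rowsX {b r mm q C f N e T : ℕ} {L : List Blk} {P D : List ℕ} {lo hi : ℕ}
    (h : okX b r mm q C f N e T L P D lo hi = true) : RowsX b r mm q C f N e T L P D lo hi :=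
  fun _ h1 h2 => ⟨lo, hi, h1, h2, h⟩

theorem RowsX.trans {b r mm q C f N e T : ℕ} {L : List Blk} {P D : List ℕ} {lo mi hi : ℕ}
    (h : RowsX b r mm q C f N e T L P D lo mi) (k : RowsX b r mm q C f N e T L P D mi hi) :
    RowsX b r mm q C f N e T L P D lo hi := by
  intro i h1 h2
  rcases lt_or_ge i mi with h3 | h3
  · exact h i h1 h3
  · exact k i h3 h2

/-! ## The matrix -/

theorem of_pk (b n : ℕ) : of b n = pk (b + 1) (fun _ => 2 ^ b) n := by
  rw [of_gs]
  induction n with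
  | zero => simp [gs, pk]
  | succ n ih =>
    simp only [gs, pk]
    rw [← ih]
    ring

theorem dgt_dg (b X k : ℕ) : ((dgt (b + 1) X k : ℕ) : ℤ) = Mat.dg b X k + (2 ^ b : ℕ) := by
  unfold dgt Mat.dg
  rw [pow_mul]
  ring

theorem dg_of (b f k : ℕ) (h : k < f) : Mat.dg b (of b f) k = 0 := by
  have h1 := dgt_dg b (of b f) k
  rw [dgt_of b f k h] at h1
  omega

/-- the bilinear part -/
def hL (b N f i j : ℕ) (L : List Blk) : ℤ := dL (uL b j (fB b N f L)) (vL b i (fA b N f L))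

theorem nd_fB (b N f : ℕ) (L : List Blk) : nd (fB b N f L) = nd (fA b N f L) := by
  induction L with
  | nil => rfl
  | cons k L ih =>
    cases k with
    | sq s c m A => exact ih
    | bl s c m A B =>
      show m + nd (fB b N f L) = m + nd (fA b N f L)
      rw [ih]

theorem gL_split {b N : ℕ} (f : ℕ) {i j : ℕ} (hi : i < N) (hj : j < N) (L : List Blk) :
    gL b i j L = gL b i j (sqs L) + (hL b N f i j L + hL b N f j i L) := by
  induction L with
  | nil =>
    have h0 : ∀ i j, i < N → j < N → hL b N f i j [] = 0 := by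
      intro i j hi hj
      unfold hL
      show dL (smL (sgz false * (1 : ℕ)) (ls b f ((List.replicate N (of b f)).getD j 0)) ++ [])
        (ls b f ((List.replicate N (of b f)).getD i 0) ++ []) = 0
      rw [List.append_nil, List.append_nil, dL_sm]
      have e : ∀ i, i < N → (List.replicate N (of b f)).getD i 0 = of b f := by
        intro i hi
        rw [List.getD_eq_getElem _ _ (by simpa using hi), List.getElem_replicate]
      rw [e i hi, e j hj, dL_ls, Finset.sum_eq_zero, mul_zero]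
      intro k hk
      rw [dg_of b f k (Finset.mem_range.1 hk), mul_zero]
    rw [h0 i j hi hj, h0 j i hj hi]
    rfl
  | cons k L ih =>
    cases k with
    | sq s c m A =>
      show _ + gL b i j L = (_ + gL b i j (sqs L)) + (hL b N f i j L + hL b N f j i L)
      rw [ih]
      ring
    | bl s c m A B =>
      have h1 : ∀ i j, hL b N f i j (.bl s c m A B :: L) =
          sgz s * c * (∑ k ∈ Finset.range m, row b B k j * row b A k i) + hL b N f i j L := by
        intro i j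
        unfold hL
        show dL (smL (sgz s * c) (ls b m (B.getD j 0)) ++ uL b j (fB b N f L))
          (ls b m (A.getD i 0) ++ vL b i (fA b N f L)) = _
        rw [dL_append _ _ _ _ (by rw [length_smL, length_ls, length_ls]), dL_sm, dL_ls]
        rfl
      rw [h1, h1]
      show sgz s * c * (∑ k ∈ Finset.range m, (row b A k i * row b B k j + row b B k i * row b A k j)) + gL b i j L =
        gL b i j (sqs L) + _
      rw [ih, Finset.sum_add_distrib]
      have e1 : ∑ k ∈ Finset.range m, row b A k i * row b B k j = ∑ k ∈ Finset.range m, row b B k j * row b A k i :=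
        Finset.sum_congr rfl fun k _ => mul_comm _ _
      rw [e1]
      ring

theorem hL_le {b r N f i j : ℕ} {L : List Blk} (h : ∀ c ∈ vL b j (fB b N f L), c.natAbs ≤ 2 ^ r)
    (h' : ∀ c ∈ vL b i (fA b N f L), c.natAbs ≤ 2 ^ r) :
    |hL b N f i j L| ≤ ((wt (fB b N f L) * 2 ^ (2 * r) : ℕ) : ℤ) := by
  unfold hL
  have hn : (uL b j (fB b N f L)).length = (vL b i (fA b N f L)).length := by
    rw [length_uL, length_vL, nd_fB]
  rw [← dt_eq _ _ hn]
  have hP : ∀ c, |(vL b i (fA b N f L)).getD c 0| ≤ ((2 ^ r : ℕ) : ℤ) := by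
    intro c
    by_cases hc : c < (vL b i (fA b N f L)).length
    · rw [List.getD_eq_getElem _ _ hc]
      have := h' _ (List.getElem_mem hc)
      rw [Int.abs_eq_natAbs]
      exact_mod_cast this
    · rw [List.getD_eq_default _ _ (by omega)]
      simp
  refine (dt_le _ _ _ _ hP).trans ?_
  rw [sum_abs_l1]
  have h1 := Nat.mul_le_mul_right (2 ^ r) (l1_uL b r j (fB b N f L) h)
  have h2 : wt (fB b N f L) * 2 ^ r * 2 ^ r = wt (fB b N f L) * 2 ^ (2 * r) := by rw [two_mul, pow_add]; ring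
  rw [h2] at h1
  exact_mod_cast h1

/-! ## Digits of the rows -/

theorem of_sum (b n : ℕ) : ((of b n : ℕ) : ℤ) = ∑ k ∈ Finset.range n, ((2 ^ b : ℕ) : ℤ) * (2 ^ (b + 1) : ℤ) ^ k := by
  rw [of_pk, pk_sum]

theorem digB (b N : ℕ) (L : List Blk) (j : ℕ) (h : j < (uu b N L).length)
    (hu : ∀ k < nd L, |(uL b j L).getD k 0| < (2 ^ b : ℕ)) (x : ℕ)
    (hx : x = ((uu b N L).getD j 0 + ((2 ^ (b + 1)) ^ nd L - kk b L % (2 ^ (b + 1)) ^ nd L + of b (nd L))) %
      (2 ^ (b + 1)) ^ nd L) :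
    ∀ k < nd L, ((dgt (b + 1) x k : ℕ) : ℤ) = (uL b j L).getD k 0 + (2 ^ b : ℕ) := by
  refine dgt_of_mod (b + 1) (nd L) (nd L) le_rfl x (fun k => (uL b j L).getD k 0 + (2 ^ b : ℕ)) ?_ ?_
  · have e0 := va_eq ((2 ^ (b + 1) : ℕ) : ℤ) (uL b j L)
    rw [length_uL] at e0
    have h1 := uu_eq b N L j h
    set M : ℕ := (2 ^ (b + 1)) ^ nd L with hM
    have hMz : (2 ^ (b + 1) : ℤ) ^ nd L = (M : ℤ) := by rw [hM]; push_cast; rfl
    have hk : kk b L % M ≤ M := (Nat.mod_lt _ (by positivity)).le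
    have e1 : ∑ k ∈ Finset.range (nd L), ((uL b j L).getD k 0 + (2 ^ b : ℕ)) * (2 ^ (b + 1) : ℤ) ^ k =
        evz ((2 ^ (b + 1) : ℕ) : ℤ) (uL b j L) + (of b (nd L) : ℕ) := by
      rw [of_sum, ← e0]
      unfold va
      rw [← Finset.sum_add_distrib]
      refine Finset.sum_congr rfl fun k _ => ?_
      push_cast
      ring
    rw [e1, hMz, hx, Int.natCast_mod]
    refine (Int.mod_modEq _ _).trans ?_
    rw [Nat.cast_add, Nat.cast_add, Nat.cast_sub hk, h1]
    have h2 : ((kk b L % M : ℕ) : ℤ) ≡ (kk b L : ℤ) [ZMOD (M : ℤ)] := by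
      rw [Int.natCast_mod]
      exact Int.mod_modEq _ _
    obtain ⟨z, hz⟩ := h2.dvd
    refine Int.modEq_iff_dvd.2 ⟨-z - 1, ?_⟩
    linear_combination -hz
  · intro k hk
    have h1 := hu k hk
    rw [abs_lt] at h1
    have h4 : (2 ^ (b + 1) : ℤ) = 2 * ((2 ^ b : ℕ) : ℤ) := by push_cast; ring
    rw [h4]
    constructor
    · linarith [h1.1]
    · linarith [h1.2]

theorem digA (b N : ℕ) (L : List Blk) (i : ℕ) (h : i < (vv b N L).length) :
    ∀ k < nd L, ((dgt (b + 1) ((vv b N L).getD i 0) k : ℕ) : ℤ) = (vL b i L).getD k 0 + (2 ^ b : ℕ) := by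
  intro k hk
  rw [dgt_dg, ← (vv_ls b N L i h).1, ls_getD _ _ _ _ hk]

theorem dgt_mat (w q : ℕ) (F : ℕ → ℕ → ℕ) (hF : ∀ k j, F k j < 2 ^ w) {k : ℕ} (hk : k < 2 ^ q) :
    dgt (w * 2 ^ q) (mat w q F) k = pk w (F k) (2 ^ q) := by
  have h1 : mat w q F = pk (w * 2 ^ q) (fun i => pk w (F i) (2 ^ q)) (2 ^ q) :=
    (pk_nest w (2 ^ q) (2 ^ q) (by positivity) F).symm
  rw [h1, dgt_pk _ _ _ hk]
  intro i _
  exact pk_lt w _ fun j _ => hF i j

theorem mat_lt (w q : ℕ) (F : ℕ → ℕ → ℕ) (hF : ∀ k j, F k j < 2 ^ w) : mat w q F < 2 ^ (w * 2 ^ q * 2 ^ q) := by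
  have h := pk_lt w (2 ^ q * 2 ^ q) (f := fun p => F (p / 2 ^ q) (p % 2 ^ q)) fun p _ => hF _ _
  rw [← mul_assoc] at h
  exact h

theorem row_sub (b q : ℕ) (F : ℕ → ℕ) : ((pk (b + 1) F (2 ^ q) : ℕ) : ℤ) - (of b (2 ^ q) : ℕ) =
    ∑ j ∈ Finset.range (2 ^ q), (2 ^ (b + 1) : ℤ) ^ j * ((F j : ℤ) - (2 ^ b : ℕ)) := by
  rw [pk_sum, of_sum, ← Finset.sum_sub_distrib]
  exact Finset.sum_congr rfl fun j _ => by ring

theorem of_le (b q : ℕ) : of b (2 ^ q) ≤ 2 ^ ((b + 1) * 2 ^ q) := by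
  rw [pow_mul]
  exact (of_lt b (2 ^ q)).le

theorem evs_spec (b q : ℕ) (l : List ℕ) (hl : l.length ≤ 2 ^ q) (C c x : ℕ) (hx : x < 2 ^ ((b + 1) * (2 ^ q * C))) :
    ((evs (2 ^ b) (of b (2 ^ q)) (2 ^ ((b + 1) * 2 ^ q)) (2 ^ ((b + 1) * 2 ^ q)) ((b + 1) * 2 ^ q) (lz b q)
      (trs (b + 1) q (lvs (b + 1) q q) l C c) x : ℕ) : ℤ) ≡
      ∑ k ∈ Finset.range (2 ^ q * C), (((dgt (b + 1) x k : ℕ) : ℤ) - (2 ^ b : ℕ)) *
        ∑ j ∈ Finset.range (2 ^ q), (2 ^ (b + 1) : ℤ) ^ j *
          (((dgt (b + 1) (l.getD j 0) (2 ^ q * c + k) : ℕ) : ℤ) - (2 ^ b : ℕ))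
      [ZMOD ((2 ^ ((b + 1) * 2 ^ q) : ℕ) : ℤ)] := by
  induction C generalizing c x with
  | zero => simp only [mul_zero, Finset.range_zero, Finset.sum_empty]; rfl
  | succ C ih =>
    have e0 : evs (2 ^ b) (of b (2 ^ q)) (2 ^ ((b + 1) * 2 ^ q)) (2 ^ ((b + 1) * 2 ^ q)) ((b + 1) * 2 ^ q) (lz b q)
        (trs (b + 1) q (lvs (b + 1) q q) l (C + 1) c) x =
        evt (2 ^ b) (of b (2 ^ q)) (2 ^ ((b + 1) * 2 ^ q))
          (mkT ((b + 1) * 2 ^ q) q (tpc (b + 1) q (lvs (b + 1) q q) l c)) (lz b q) (x % 2 ^ ((b + 1) * 2 ^ q)) +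
        evs (2 ^ b) (of b (2 ^ q)) (2 ^ ((b + 1) * 2 ^ q)) (2 ^ ((b + 1) * 2 ^ q)) ((b + 1) * 2 ^ q) (lz b q)
          (trs (b + 1) q (lvs (b + 1) q q) l C (c + 1)) (x >>> ((b + 1) * 2 ^ q)) := rfl
    have hF : ∀ k j, (fun k j => dgt (b + 1) (l.getD j 0) (2 ^ q * c + k)) k j < 2 ^ (b + 1) := fun k j => dgt_lt _ _ _
    have hY := mat_lt (b + 1) q _ hF
    rw [← tpc_eq (b + 1) q l c hl] at hY
    have h1 := evt_eq' b ((b + 1) * 2 ^ q) _ rfl (of b (2 ^ q)) (of_le b q) q (x % 2 ^ ((b + 1) * 2 ^ q))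
      (tpc (b + 1) q (lvs (b + 1) q q) l c) (Nat.mod_lt _ (by positivity)) hY
    have e2 : (b + 1) * (2 ^ q * (C + 1)) = (b + 1) * 2 ^ q + (b + 1) * (2 ^ q * C) := by ring
    have hx2 : x / 2 ^ ((b + 1) * 2 ^ q) < 2 ^ ((b + 1) * (2 ^ q * C)) := by
      rw [e2, pow_add] at hx
      exact Nat.div_lt_of_lt_mul hx
    have h2 := ih (c + 1) _ hx2
    rw [e0, Nat.shiftRight_eq_div_pow, Nat.cast_add]
    refine (h1.add h2).trans ?_
    have e3 : 2 ^ q * (C + 1) = 2 ^ q + 2 ^ q * C := by ring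
    rw [e3, Finset.sum_range_add]
    have s1 : ∀ k ∈ Finset.range (2 ^ q), (((dgt (b + 1) (x % 2 ^ ((b + 1) * 2 ^ q)) k : ℕ) : ℤ) - (2 ^ b : ℕ)) *
        (((dgt ((b + 1) * 2 ^ q) (tpc (b + 1) q (lvs (b + 1) q q) l c) k : ℕ) : ℤ) - (of b (2 ^ q) : ℕ)) =
        (((dgt (b + 1) x k : ℕ) : ℤ) - (2 ^ b : ℕ)) * ∑ j ∈ Finset.range (2 ^ q), (2 ^ (b + 1) : ℤ) ^ j *
          (((dgt (b + 1) (l.getD j 0) (2 ^ q * c + k) : ℕ) : ℤ) - (2 ^ b : ℕ)) := by
      intro k hk
      rw [dgt_mod _ _ _ _ (Finset.mem_range.1 hk), tpc_eq (b + 1) q l c hl, dgt_mat (b + 1) q _ hF (Finset.mem_range.1 hk),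
        row_sub]
    have s2 : ∀ k ∈ Finset.range (2 ^ q * C), (((dgt (b + 1) (x / 2 ^ ((b + 1) * 2 ^ q)) k : ℕ) : ℤ) - (2 ^ b : ℕ)) *
        ∑ j ∈ Finset.range (2 ^ q), (2 ^ (b + 1) : ℤ) ^ j *
          (((dgt (b + 1) (l.getD j 0) (2 ^ q * (c + 1) + k) : ℕ) : ℤ) - (2 ^ b : ℕ)) =
        (((dgt (b + 1) x (2 ^ q + k) : ℕ) : ℤ) - (2 ^ b : ℕ)) * ∑ j ∈ Finset.range (2 ^ q), (2 ^ (b + 1) : ℤ) ^ j *
          (((dgt (b + 1) (l.getD j 0) (2 ^ q * c + (2 ^ q + k)) : ℕ) : ℤ) - (2 ^ b : ℕ)) := by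
      intro k _
      have e4 : 2 ^ q * (c + 1) + k = 2 ^ q * c + (2 ^ q + k) := by ring
      rw [dgt_shr, e4, add_comm k]
    rw [Finset.sum_congr rfl s1, Finset.sum_congr rfl s2]

theorem rws_length (O OF M P s : ℕ) (lv : List (ℕ × ℕ × ℕ)) (ts : List Tr) (X : List ℕ) :
    (rws O OF M P s lv ts X).length = X.length := by
  induction X with
  | nil => rfl
  | cons x X ih => simp [rws, ih]

theorem rws_getD (O OF M P s : ℕ) (lv : List (ℕ × ℕ × ℕ)) (ts : List Tr) (X : List ℕ) (i : ℕ) (h : i < X.length) :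
    (rws O OF M P s lv ts X).getD i 0 = (evs O OF M P s lv ts (X.getD i 0) + OF) % M := by
  induction X generalizing i with
  | nil => simp at h
  | cons x X ih =>
    cases i with
    | zero => rfl
    | succ i => exact ih i (by simpa using h)

/-- **digits of the rows of the bilinear part** -/
theorem bls_dig {b r q C N f : ℕ} {L : List Blk} (hN : N ≤ 2 ^ q) (hn : nd (fA b N f L) = 2 ^ q * C)
    (hw : wt (fB b N f L) * 2 ^ (2 * r) < 2 ^ b)
    (hA : (vv b N (fA b N f L)).length = N) (hB : (uu b N (fB b N f L)).length = N)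
    (dA : ∀ i < N, ∀ c ∈ vL b i (fA b N f L), c.natAbs ≤ 2 ^ r)
    (dB : ∀ i < N, ∀ c ∈ vL b i (fB b N f L), c.natAbs ≤ 2 ^ r) {i j : ℕ} (hi : i < N) (hj : j < N) :
    ((dgt (b + 1) ((bls b q C (nd (fA b N f L)) (kk b (fB b N f L)) (vv b N (fA b N f L))
      (uu b N (fB b N f L))).getD i 0) j : ℕ) : ℤ) = (2 ^ b : ℕ) + hL b N f i j L := by
  set n := nd (fA b N f L) with hnd
  have hnB : nd (fB b N f L) = n := nd_fB b N f L
  have hpow : Nat.pow 2 (Nat.mul (Nat.succ b) n) = (2 ^ (b + 1)) ^ n := by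
    show 2 ^ ((b + 1) * n) = _
    rw [pow_mul]
  set K' : ℕ := (2 ^ (b + 1)) ^ n - kk b (fB b N f L) % (2 ^ (b + 1)) ^ n + of b n with hK'
  set B' : List ℕ := ru K' ((2 ^ (b + 1)) ^ n) (uu b N (fB b N f L)) with hB'
  have lB' : B'.length = N := by rw [hB', ru_length, hB]
  have e0 : bls b q C n (kk b (fB b N f L)) (vv b N (fA b N f L)) (uu b N (fB b N f L)) =
      rws (2 ^ b) (of b (2 ^ q)) (2 ^ ((b + 1) * 2 ^ q)) (2 ^ ((b + 1) * 2 ^ q)) ((b + 1) * 2 ^ q) (lz b q)
        (trs (b + 1) q (lvs (b + 1) q q) B' C 0) (vv b N (fA b N f L)) := by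
    show rws (2 ^ b) (of b (2 ^ q)) (2 ^ ((b + 1) * 2 ^ q)) (2 ^ ((b + 1) * 2 ^ q)) ((b + 1) * 2 ^ q) (lz b q)
        (trs (b + 1) q (lvs (b + 1) q q) (ru (Nat.pow 2 (Nat.mul (Nat.succ b) n) -
          kk b (fB b N f L) % Nat.pow 2 (Nat.mul (Nat.succ b) n) + of b n)
          (Nat.pow 2 (Nat.mul (Nat.succ b) n)) (uu b N (fB b N f L))) C 0) (vv b N (fA b N f L)) = _
    rw [hpow]
  rw [e0, rws_getD _ _ _ _ _ _ _ _ _ (by omega)]
  obtain ⟨v1, v2⟩ := vv_ls b N (fA b N f L) i (by omega)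
  set x := (vv b N (fA b N f L)).getD i 0 with hx
  have hx2 : x < 2 ^ ((b + 1) * (2 ^ q * C)) := by
    rw [pow_mul, ← hn]
    exact v2
  have hev := evs_spec b q B' (by omega) C 0 x hx2
  -- the digits
  have ha : ∀ k < n, ((dgt (b + 1) x k : ℕ) : ℤ) - (2 ^ b : ℕ) = (vL b i (fA b N f L)).getD k 0 := by
    intro k hk
    have := digA b N (fA b N f L) i (by omega) k hk
    rw [← hx] at this
    rw [this]
    ring
  have hbound : ∀ j < N, ∀ k < n, |(uL b j (fB b N f L)).getD k 0| < (2 ^ b : ℕ) := by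
    intro j hj k hk
    have h1 := l1_uL b r j (fB b N f L) (dB j hj)
    have h2 : |(uL b j (fB b N f L)).getD k 0| ≤ (l1 (uL b j (fB b N f L)) : ℤ) := by
      rw [← sum_abs_l1, length_uL, hnB]
      exact Finset.single_le_sum (f := fun c => |(uL b j (fB b N f L)).getD c 0|) (fun _ _ => abs_nonneg _)
        (Finset.mem_range.2 hk)
    have h3 : wt (fB b N f L) * 2 ^ r ≤ wt (fB b N f L) * 2 ^ (2 * r) :=
      Nat.mul_le_mul_left _ (Nat.pow_le_pow_right (by norm_num) (by omega))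
    have h4 : l1 (uL b j (fB b N f L)) < 2 ^ b := by omega
    refine lt_of_le_of_lt h2 ?_
    exact_mod_cast h4
  have hb : ∀ j < N, ∀ k < n, ((dgt (b + 1) (B'.getD j 0) (2 ^ q * 0 + k) : ℕ) : ℤ) - (2 ^ b : ℕ) =
      (uL b j (fB b N f L)).getD k 0 := by
    intro j hj k hk
    have h1 := digB b N (fB b N f L) j (by omega) (by rw [hnB]; exact hbound j hj) (B'.getD j 0)
      (by rw [hB', ru_getD _ _ _ _ (by omega), hnB]) k (by omega)
    have h2 : 2 ^ q * 0 + k = k := by ring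
    rw [h2, h1]
    ring
  set F := (evs (2 ^ b) (of b (2 ^ q)) (2 ^ ((b + 1) * 2 ^ q)) (2 ^ ((b + 1) * 2 ^ q)) ((b + 1) * 2 ^ q) (lz b q)
      (trs (b + 1) q (lvs (b + 1) q q) B' C 0) x + of b (2 ^ q)) % 2 ^ ((b + 1) * 2 ^ q) with hF
  set h : ℕ → ℤ := fun j => (2 ^ b : ℕ) + ∑ k ∈ Finset.range n, (((dgt (b + 1) x k : ℕ) : ℤ) - (2 ^ b : ℕ)) *
    (((dgt (b + 1) (B'.getD j 0) (2 ^ q * 0 + k) : ℕ) : ℤ) - (2 ^ b : ℕ)) with hh
  have hval : ∀ j < N, h j = (2 ^ b : ℕ) + hL b N f i j L := by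
    intro j hj
    simp only [hh]
    congr 1
    unfold hL
    rw [← dt_eq _ _ (by rw [length_uL, length_vL, nd_fB]), length_uL, hnB]
    unfold dt
    refine Finset.sum_congr rfl fun k hk => ?_
    rw [ha k (Finset.mem_range.1 hk), hb j hj k (Finset.mem_range.1 hk)]
    exact mul_comm _ _
  rw [← hval j hj]
  refine dgt_of_mod (b + 1) (2 ^ q) N hN F h ?_ ?_ j hj
  · have hM : (2 ^ (b + 1) : ℤ) ^ 2 ^ q = ((2 ^ ((b + 1) * 2 ^ q) : ℕ) : ℤ) := by push_cast; rw [pow_mul]
    rw [hM, hF, Int.natCast_mod]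
    refine (Int.mod_modEq _ _).trans ?_
    rw [Nat.cast_add, of_sum]
    refine (hev.add_right _).trans ?_
    have e1 : (∑ k ∈ Finset.range (2 ^ q * C), (((dgt (b + 1) x k : ℕ) : ℤ) - (2 ^ b : ℕ)) *
        ∑ j ∈ Finset.range (2 ^ q), (2 ^ (b + 1) : ℤ) ^ j *
          (((dgt (b + 1) (B'.getD j 0) (2 ^ q * 0 + k) : ℕ) : ℤ) - (2 ^ b : ℕ))) +
        ∑ k ∈ Finset.range (2 ^ q), ((2 ^ b : ℕ) : ℤ) * (2 ^ (b + 1) : ℤ) ^ k =
        ∑ j ∈ Finset.range (2 ^ q), h j * (2 ^ (b + 1) : ℤ) ^ j := by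
      rw [← hn]
      have e2 : ∀ k ∈ Finset.range n, (((dgt (b + 1) x k : ℕ) : ℤ) - (2 ^ b : ℕ)) *
          ∑ j ∈ Finset.range (2 ^ q), (2 ^ (b + 1) : ℤ) ^ j *
            (((dgt (b + 1) (B'.getD j 0) (2 ^ q * 0 + k) : ℕ) : ℤ) - (2 ^ b : ℕ)) =
          ∑ j ∈ Finset.range (2 ^ q), ((((dgt (b + 1) x k : ℕ) : ℤ) - (2 ^ b : ℕ)) *
            (((dgt (b + 1) (B'.getD j 0) (2 ^ q * 0 + k) : ℕ) : ℤ) - (2 ^ b : ℕ))) * (2 ^ (b + 1) : ℤ) ^ j := by
        intro k _
        rw [Finset.mul_sum]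
        exact Finset.sum_congr rfl fun j _ => by ring
      rw [Finset.sum_congr rfl e2, Finset.sum_comm, ← Finset.sum_add_distrib]
      refine Finset.sum_congr rfl fun j _ => ?_
      simp only [hh]
      rw [← Finset.sum_mul]
      ring
    rw [e1]
  · intro j hj
    rw [hval j hj]
    have h1 := hL_le (b := b) (r := r) (N := N) (f := f) (i := i) (j := j) (L := L) (dB j hj) (dA i hi)
    have h2 : |hL b N f i j L| < ((2 ^ b : ℕ) : ℤ) := lt_of_le_of_lt h1 (by exact_mod_cast hw)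
    rw [abs_lt] at h2
    have h4 : (2 ^ (b + 1) : ℤ) = 2 * ((2 ^ b : ℕ) : ℤ) := by push_cast; ring
    rw [h4]
    constructor
    · linarith [h2.1]
    · linarith [h2.2]

/-! ## Soundness -/

theorem inx_spec {s M w e X F si : ℕ} (sj : ℕ) (V Fs : List ℕ) (h : inx s M w e X F si sj V Fs = true) (p : ℕ)
    (h1 : p < V.length) (h2 : p < Fs.length) :
    (mid s M X (V.getD p 0) + ((F >>> (sj + w * p)) % M + ((Fs.getD p 0) >>> si) % M) + e) % M ≤ 2 * e := by
  induction V generalizing sj Fs p with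
  | nil => simp at h1
  | cons Y V ih =>
    cases Fs with
    | nil => simp at h2
    | cons G Fs =>
      simp only [inx, Bool.cond_false_right, Bool.and_eq_true] at h
      obtain ⟨k1, k2⟩ := h
      cases p with
      | zero =>
        have := Nat.le_of_ble_eq_true k1
        rw [mul_zero, add_zero]
        exact this
      | succ p =>
        have := ih (sj + w) Fs k2 p (by simpa using h1) (by simpa using h2)
        have e1 : sj + w * (p + 1) = sj + w + w * p := by ring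
        rw [e1]
        exact this

theorem oux_spec {b s M w e T : ℕ} (si : ℕ) {U V Fs P D : List ℕ} (h : oux b s M w e T si U V Fs P D = true) :
    U.length ≤ V.length ∧ U.length ≤ Fs.length ∧
      (∀ i < U.length, dia b T (P.getD i 0) (D.getD i 0)
        (mid s M (U.getD i 0) (V.getD i 0) + 2 * ((Fs.getD i 0 >>> (si + w * i)) % M)) = true) ∧
      (∀ i < U.length, ∀ j, i < j → j < V.length → j < Fs.length →
        (mid s M (U.getD i 0) (V.getD j 0) + ((Fs.getD i 0 >>> (si + w * j)) % M + (Fs.getD j 0 >>> (si + w * i)) % M) + e) %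
          M ≤ 2 * e) := by
  induction U generalizing si V Fs P D with
  | nil => exact ⟨Nat.zero_le _, Nat.zero_le _, fun i hi => by simp at hi, fun i hi => by simp at hi⟩
  | cons X U ih =>
    cases V with
    | nil => cases Fs <;> cases P <;> cases D <;> simp [oux] at h
    | cons Y V =>
      cases Fs with
      | nil => cases P <;> cases D <;> simp [oux] at h
      | cons F Fs =>
        cases P with
        | nil => cases D <;> simp [oux] at h
        | cons p P =>
          cases D with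
          | nil => simp [oux] at h
          | cons d D =>
            simp only [oux, Bool.cond_false_right, Bool.and_eq_true] at h
            obtain ⟨h1, h2, h3⟩ := h
            obtain ⟨i1, i1', i2, i3⟩ := ih (si + w) h3
            have ew : ∀ i, si + w * (i + 1) = si + w + w * i := fun i => by ring
            refine ⟨by simpa using i1, by simpa using i1', ?_, ?_⟩
            · intro i hi
              cases i with
              | zero =>
                rw [mul_zero, add_zero]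
                exact h1
              | succ i =>
                rw [ew]
                exact i2 i (by simpa using hi)
            · intro i hi j hij hj hj'
              cases j with
              | zero => omega
              | succ j =>
                have hj2 : j < V.length := by simpa using hj
                have hj3 : j < Fs.length := by simpa using hj'
                cases i with
                | zero =>
                  have := inx_spec (si + w) V Fs h2 j hj2 hj3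
                  rw [mul_zero, add_zero, ew]
                  exact this
                | succ i =>
                  rw [ew, ew]
                  exact i3 i (by simpa using hi) j (by omega) hj2 hj3

theorem getD_drop' (l : List ℕ) (n i : ℕ) : (List.drop n l).getD i 0 = l.getD (n + i) 0 := by
  simp [List.getD_eq_getElem?_getD]

theorem getD_take' (l : List ℕ) (n i : ℕ) (h : i < n) : (List.take n l).getD i 0 = l.getD i 0 := by
  simp [List.getD_eq_getElem?_getD, h]

/-- bounds of the digits of one coordinate -/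
theorem dig_le {b r N lo hi i : ℕ} {L : List Blk} (hr : r < b) (hl : (vv b N L).length = N) (h1 : lo ≤ i) (h2 : i < hi)
    (h3 : i < N)
    (h : okd (Nat.mul (Nat.sub (Nat.pow 2 b) (Nat.pow 2 r)) (on b (nd L)))
      (Nat.mul (Nat.sub (Nat.pow 2 (Nat.succ b)) (Nat.pow 2 (Nat.succ r))) (on b (nd L)))
      (List.take (Nat.sub hi lo) (List.drop lo (vv b N L))) = true) : ∀ c ∈ vL b i L, c.natAbs ≤ 2 ^ r := by
  intro c hc
  obtain ⟨p, rfl⟩ : ∃ p, i = lo + p := ⟨i - lo, by omega⟩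
  have hp : p < Nat.sub hi lo := by show p < hi - lo; omega
  have hp2 : p < (List.take (Nat.sub hi lo) (List.drop lo (vv b N L))).length := by
    rw [List.length_take, List.length_drop, hl]
    show p < min (hi - lo) (N - lo)
    omega
  have hi' : lo + p < (vv b N L).length := by omega
  obtain ⟨l1, l2⟩ := vv_ls b N L (lo + p) hi'
  obtain ⟨k1, k2⟩ := okd_spec _ _ _ h p hp2
  rw [getD_take' _ _ _ hp, getD_drop'] at k1 k2
  have hon : on b (nd L) = gs (2 ^ (b + 1)) (nd L) := on_eq _ _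
  rw [hon] at k1 k2
  have key := okd_digit b r (nd L) _ hr l2 k1 k2
  rw [← l1] at hc
  obtain ⟨j, hj, rfl⟩ := List.mem_iff_getElem.1 hc
  have hj' : j < nd L := by rwa [length_ls] at hj
  have h9 := ls_getD b (nd L) ((vv b N L).getD (lo + p) 0) j hj'
  rw [List.getD_eq_getElem _ _ hj] at h9
  rw [h9]
  have := key j hj'
  rw [Int.abs_eq_natAbs] at this
  exact_mod_cast this

/-- **soundness** -/
theorem soundX {b r mm q C f N e T : ℕ} {L : List Blk} {P D : List ℕ} (h0 : okX0 b r mm q C f N e L = true)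
    (hR : RowsX b r mm q C f N e T L P D 0 N) (v : ℕ → ℝ) :
    ((T : ℝ) - N * (e + 1)) * sqv N v ≤ (L.map (Blk.val b N v)).sum + dgv N P D v := by
  simp only [okX0, Bool.cond_false_right, Bool.and_eq_true] at h0
  obtain ⟨h1, h2, h3, h4, h5, h6, h7, h8, h9, h10, h11, h12⟩ := h0
  have w1 : (wt (sqs L) + 2 * wt (fB b N f L)) * 2 ^ (2 * r) < 2 ^ b := Nat.le_of_ble_eq_true h1
  have w2 : nd (sqs L) ≤ 2 ^ mm := Nat.le_of_ble_eq_true h2
  have w3 : 1 ≤ nd (sqs L) := Nat.le_of_ble_eq_true h3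
  have w4 : r < b := Nat.le_of_ble_eq_true h4
  have w5 : e < 2 ^ b := Nat.le_of_ble_eq_true h5
  have w6 : N ≤ 2 ^ q := Nat.le_of_ble_eq_true h6
  have w7 : nd (fA b N f L) = 2 ^ q * C := Nat.eq_of_beq_eq_true h7
  have w8 : (uu b N (sqs L)).length = N := Nat.eq_of_beq_eq_true h8
  have w9 : (uu b N (fB b N f L)).length = N := Nat.eq_of_beq_eq_true h9
  have l10 : (vv b N (sqs L)).length = N := Nat.eq_of_beq_eq_true h10
  have l11 : (vv b N (fA b N f L)).length = N := Nat.eq_of_beq_eq_true h11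
  have l12 : (vv b N (fB b N f L)).length = N := Nat.eq_of_beq_eq_true h12
  have hall : ∀ i < N, (∀ c ∈ vL b i (sqs L), c.natAbs ≤ 2 ^ r) ∧ (∀ c ∈ vL b i (fA b N f L), c.natAbs ≤ 2 ^ r) ∧
      (∀ c ∈ vL b i (fB b N f L), c.natAbs ≤ 2 ^ r) := by
    intro i hi
    obtain ⟨lo, hi', l1, l2, hP⟩ := hR i (Nat.zero_le _) hi
    simp only [okX, okZ, Bool.cond_false_right, Bool.and_eq_true] at hP
    obtain ⟨q1, q2, q3, _⟩ := hP
    have q3' := q3
    rw [← nd_fB b N f L] at q3'
    exact ⟨dig_le w4 l10 l1 l2 hi q1, dig_le w4 l11 l1 l2 hi q2, dig_le w4 l12 l1 l2 hi q3'⟩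
  have d10 := fun i hi => (hall i hi).1
  have d11 := fun i hi => (hall i hi).2.1
  have d12 := fun i hi => (hall i hi).2.2
  have p4 : 0 < 2 ^ (2 * r) := by positivity
  have w1a : wt (sqs L) * 2 ^ (2 * r) < 2 ^ b := by nlinarith [Nat.zero_le (wt (fB b N f L) * 2 ^ (2 * r))]
  have w1b : wt (fB b N f L) * 2 ^ (2 * r) < 2 ^ b := by
    nlinarith [Nat.zero_le (wt (fB b N f L) * 2 ^ (2 * r)), Nat.zero_le (wt (sqs L) * 2 ^ (2 * r))]
  have hpow : Nat.pow 2 (Nat.mul (Nat.succ b) (nd (sqs L))) = (2 ^ (b + 1)) ^ nd (sqs L) := by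
    show 2 ^ ((b + 1) * nd (sqs L)) = _
    rw [pow_mul]
  set n := nd (sqs L) with hn
  set KU : ℕ := (2 ^ (b + 1)) ^ n - kk b (sqs L) % (2 ^ (b + 1)) ^ n with hKU
  set KV : ℕ := (2 ^ (b + 1)) ^ n - of b n with hKV
  set MM : ℕ := (2 ^ (b + 1)) ^ n with hMM
  set sh : ℕ := (b + 1) * (2 ^ mm - n) with hsh
  set F : List ℕ := bls b q C (nd (fA b N f L)) (kk b (fB b N f L)) (vv b N (fA b N f L)) (uu b N (fB b N f L)) with hF
  have lF : F.length = N := by
    rw [hF]
    unfold bls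
    rw [rws_length, l11]
  -- the sum of one entry
  have hdiag : ∀ i < N, ∀ j < N, ((dgt (b + 1) (F.getD i 0) j : ℕ) : ℤ) = (2 ^ b : ℕ) + hL b N f i j L :=
    fun i hi j hj => bls_dig w6 w7 w1b l11 w9 d11 d12 hi hj
  have hent : ∀ i < N, ∀ j < N, ∃ d : ℤ, (d = 0 ∨ d = 1) ∧
      ((mid ((b + 1) * (n - 1)) (2 ^ (b + 1)) ((ru KU MM (uu b N (sqs L))).getD i 0)
        ((rv (b + 1) mm sh (mks (b + 1) mm 1) KV MM (vv b N (sqs L))).getD j 0) +
          (dgt (b + 1) (F.getD i 0) j + dgt (b + 1) (F.getD j 0) i) : ℕ) : ℤ) ≡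
          gL b i j L - d [ZMOD ((2 ^ (b + 1) : ℕ) : ℤ)] ∧ |gL b i j L| < (2 ^ b : ℕ) := by
    intro i hi j hj
    obtain ⟨d, hd, hm, hg⟩ := entry (b := b) (r := r) (mm := mm) (N := N) (L := sqs L) (i := i) (j := j) w2 w3 w1a
      (by omega) (by omega) (d10 i hi) (d10 j hj) _ _ (ru_getD KU MM _ _ (by omega))
      (rv_getD (b + 1) mm sh (mks (b + 1) mm 1) KV MM _ _ (by omega))
    refine ⟨d, hd, ?_, ?_⟩
    · rw [Nat.cast_add, Nat.cast_add, hdiag i hi j hj, hdiag j hj i hi, gL_split f hi hj L]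
      obtain ⟨z, hz⟩ := hm.dvd
      refine Int.modEq_iff_dvd.2 ⟨z - 1, ?_⟩
      have h4 : ((2 ^ (b + 1) : ℕ) : ℤ) = 2 * ((2 ^ b : ℕ) : ℤ) := by push_cast; ring
      rw [h4] at hz ⊢
      linear_combination hz
    · rw [gL_split f hi hj L]
      -- bound of the squares
      have b1 : |gL b i j (sqs L)| ≤ ((wt (sqs L) * 2 ^ (2 * r) : ℕ) : ℤ) := by
        rw [← gL_eq, ← dt_eq _ _ (by rw [length_uL, length_vL])]
        have hP : ∀ c, |(vL b j (sqs L)).getD c 0| ≤ ((2 ^ r : ℕ) : ℤ) := by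
          intro c
          by_cases hc : c < (vL b j (sqs L)).length
          · rw [List.getD_eq_getElem _ _ hc]
            have := d10 j hj _ (List.getElem_mem hc)
            rw [Int.abs_eq_natAbs]
            exact_mod_cast this
          · rw [List.getD_eq_default _ _ (by omega)]
            simp
        refine (dt_le _ _ _ _ hP).trans ?_
        rw [sum_abs_l1]
        have h1 := Nat.mul_le_mul_right (2 ^ r) (l1_uL b r i (sqs L) (d10 i hi))
        have h2 : wt (sqs L) * 2 ^ r * 2 ^ r = wt (sqs L) * 2 ^ (2 * r) := by rw [two_mul, pow_add]; ring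
        rw [h2] at h1
        exact_mod_cast h1
      have b2 := hL_le (b := b) (r := r) (N := N) (f := f) (i := i) (j := j) (L := L) (d12 j hj) (d11 i hi)
      have b3 := hL_le (b := b) (r := r) (N := N) (f := f) (i := j) (j := i) (L := L) (d12 i hi) (d11 j hj)
      have b4 : |gL b i j (sqs L) + (hL b N f i j L + hL b N f j i L)| ≤
          |gL b i j (sqs L)| + (|hL b N f i j L| + |hL b N f j i L|) :=
        (abs_add_le _ _).trans (add_le_add le_rfl (abs_add_le _ _))
      have b5 : (wt (sqs L) + 2 * wt (fB b N f L)) * 2 ^ (2 * r) =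
          wt (sqs L) * 2 ^ (2 * r) + (wt (fB b N f L) * 2 ^ (2 * r) + wt (fB b N f L) * 2 ^ (2 * r)) := by ring
      rw [b5] at w1
      have b6 : ((wt (sqs L) * 2 ^ (2 * r) : ℕ) : ℤ) + (((wt (fB b N f L) * 2 ^ (2 * r) : ℕ) : ℤ) +
        ((wt (fB b N f L) * 2 ^ (2 * r) : ℕ) : ℤ)) < ((2 ^ b : ℕ) : ℤ) := by exact_mod_cast w1
      linarith
  -- the rows
  have hdg : ∀ X k, (X >>> ((b + 1) * k)) % 2 ^ (b + 1) = dgt (b + 1) X k := fun X k => by
    rw [Nat.shiftRight_eq_div_pow]; rfl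
  have hrow : ∀ i < N,
      dia b T (P.getD i 0) (D.getD i 0) (mid ((b + 1) * (n - 1)) (2 ^ (b + 1))
        ((ru KU MM (uu b N (sqs L))).getD i 0)
        ((rv (b + 1) mm sh (mks (b + 1) mm 1) KV MM (vv b N (sqs L))).getD i 0) +
          (dgt (b + 1) (F.getD i 0) i + dgt (b + 1) (F.getD i 0) i)) = true ∧
      ∀ j, i < j → j < N → (mid ((b + 1) * (n - 1)) (2 ^ (b + 1))
        ((ru KU MM (uu b N (sqs L))).getD i 0)
        ((rv (b + 1) mm sh (mks (b + 1) mm 1) KV MM (vv b N (sqs L))).getD j 0) +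
          (dgt (b + 1) (F.getD i 0) j + dgt (b + 1) (F.getD j 0) i) + e) % 2 ^ (b + 1) ≤ 2 * e := by
    intro i hi
    obtain ⟨lo, hi', l1, l2, hP⟩ := hR i (Nat.zero_le _) hi
    obtain ⟨p, rfl⟩ : ∃ p, i = lo + p := ⟨i - lo, by omega⟩
    simp only [okX, okZ, Bool.cond_false_right, Bool.and_eq_true] at hP
    have hP := hP.2.2.2
    unfold okY at hP
    rw [← hF, hpow] at hP
    obtain ⟨o1, o1', o2, o3⟩ := oux_spec _ hP
    have hq : p < hi' - lo := by omega
    have lU : (List.take (Nat.sub hi' lo) (List.drop lo (uu b N (sqs L)))).length = min (hi' - lo) (N - lo) := by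
      rw [List.length_take, List.length_drop, w8]
      rfl
    have hqU : p < (List.take (Nat.sub hi' lo) (List.drop lo (uu b N (sqs L)))).length := by rw [lU]; omega
    have hqV : ∀ p, lo + p < N → p < (List.drop lo (vv b N (sqs L))).length := by
      intro p hp
      rw [List.length_drop, l10]
      omega
    have hqF : ∀ p, lo + p < N → p < (List.drop lo F).length := by
      intro p hp
      rw [List.length_drop, lF]
      omega
    have eU : (ru KU MM (List.take (Nat.sub hi' lo) (List.drop lo (uu b N (sqs L))))).getD p 0 =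
        (ru KU MM (uu b N (sqs L))).getD (lo + p) 0 := by
      rw [ru_getD _ _ _ _ hqU, ru_getD _ _ _ _ (by omega : lo + p < (uu b N (sqs L)).length),
        getD_take' _ _ _ (show p < Nat.sub hi' lo from hq), getD_drop']
    have eV : ∀ p, lo + p < N →
        (rv (b + 1) mm sh (mks (b + 1) mm 1) KV MM (List.drop lo (vv b N (sqs L)))).getD p 0 =
        (rv (b + 1) mm sh (mks (b + 1) mm 1) KV MM (vv b N (sqs L))).getD (lo + p) 0 := by
      intro p hp
      rw [rv_getD _ _ _ _ _ _ _ _ (hqV p hp), rv_getD _ _ _ _ _ _ _ _ (by omega : lo + p < (vv b N (sqs L)).length),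
        getD_drop']
    have hqU' : p < (ru KU MM (List.take (Nat.sub hi' lo) (List.drop lo (uu b N (sqs L))))).length := by
      rw [ru_length]; exact hqU
    have ei : ∀ k, Nat.mul (Nat.succ b) lo + Nat.succ b * k = (b + 1) * (lo + k) := fun k => by
      show (b + 1) * lo + (b + 1) * k = _
      ring
    constructor
    · have h := o2 p hqU'
      rw [getD_drop', getD_drop', getD_drop', ei, two_mul] at h
      rw [← eU, ← eV p hi, ← hdg]
      exact h
    · intro j hj hjN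
      obtain ⟨k, rfl⟩ : ∃ k, j = lo + k := ⟨j - lo, by omega⟩
      have h := o3 p hqU' k (by omega) (by rw [rv_length]; exact hqV k hjN) (hqF k hjN)
      rw [getD_drop', getD_drop', ei, ei] at h
      rw [← eU, ← eV k hjN, ← hdg, ← hdg]
      exact h
  rw [← gL_val]
  refine Helper25.SH.Mat.form_ge (fun i j => gL b i j L) (fun i j => gL_symm b i j L) ?_ ?_ v
  · intro i j hij hj
    obtain ⟨d, hd, hm, hg⟩ := hent i (by omega) j hj
    exact off_bound hd w5 hm hg ((hrow i (by omega)).2 j hij hj)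
  · intro i hi
    obtain ⟨d, hd, hm, hg⟩ := hent i hi i hi
    exact dia_bound hd hm hg (hrow i hi).1

end Helper25.SH.MatX
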