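import Pool.Agent.Helper25.SH.Dot

set_option autoImplicit false

namespace Helper25.SH.Dot

open Helper54.RC.Fast Helper76.RC.TPoly

/-! ## Reversal of the digits -/

/-- mask -/
def mk (s N : ℕ) : ℕ :=
  Nat.mul (Nat.sub (Nat.pow 2 s) 1)
    (Nat.div (Nat.sub (Nat.pow 2 (Nat.mul (Nat.mul 2 s) N)) 1) (Nat.sub (Nat.pow 2 (Nat.mul 2 s)) 1))
/-- exchange of neighbouring blocks of `s` bits -/
def sw (s M X : ℕ) : ℕ := Nat.add (Nat.shiftLeft (Nat.land X M) s) (Nat.land (Nat.shiftRight X s) M)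

theorem mk_eq (s N : ℕ) (hs : 0 < s) : mk s N = (2 ^ s - 1) * gs (2 ^ (2 * s)) N := by
  have e : mk s N = (2 ^ s - 1) * ((2 ^ (2 * s * N) - 1) / (2 ^ (2 * s) - 1)) := rfl
  have h1 : 1 ≤ 2 ^ (2 * s) := Nat.one_le_two_pow
  have h2 : 0 < 2 ^ (2 * s) - 1 := by
    have : 2 ≤ 2 ^ (2 * s) := by
      calc 2 = 2 ^ 1 := rfl
        _ ≤ 2 ^ (2 * s) := Nat.pow_le_pow_right (by norm_num) (by omega)
    omega
  rw [e, pow_mul 2 (2 * s) N, ← gs_mul _ N h1, Nat.mul_div_cancel_left _ h2]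

theorem mk_zero (s : ℕ) (hs : 0 < s) : mk s 0 = 0 := by rw [mk_eq _ _ hs]; simp [gs]

theorem mk_succ (s N : ℕ) (hs : 0 < s) : mk s (N + 1) = (2 ^ s - 1) + 2 ^ s * (0 + 2 ^ s * mk s N) := by
  rw [mk_eq _ _ hs, mk_eq _ _ hs, gs]
  have : 2 ^ (2 * s) = 2 ^ s * 2 ^ s := by rw [two_mul, pow_add]
  rw [this]
  ring

theorem land_low (s x : ℕ) (hx : x < 2 ^ s) : x &&& (2 ^ s - 1) = x := by
  rw [Nat.and_two_pow_sub_one_eq_mod, Nat.mod_eq_of_lt hx]

theorem sw_succ {s N x y : ℕ} (hs : 0 < s) (hx : x < 2 ^ s) (hy : y < 2 ^ s) (X : ℕ) :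
    sw s (mk s (N + 1)) (x + 2 ^ s * (y + 2 ^ s * X)) = y + 2 ^ s * (x + 2 ^ s * sw s (mk s N) X) := by
  have hp : 0 < 2 ^ s := by positivity
  have hlt : 2 ^ s - 1 < 2 ^ s := by omega
  have d1 : sw s (mk s (N + 1)) (x + 2 ^ s * (y + 2 ^ s * X)) =
    ((x + 2 ^ s * (y + 2 ^ s * X)) &&& mk s (N + 1)) <<< s +
      (((x + 2 ^ s * (y + 2 ^ s * X)) >>> s) &&& mk s (N + 1)) := rfl
  have d2 : sw s (mk s N) X = (X &&& mk s N) <<< s + ((X >>> s) &&& mk s N) := rfl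
  rw [d1, d2, mk_succ _ _ hs, land_cons hx hlt, land_cons hy hp, land_low s x hx, Nat.and_zero]
  have e1 : (x + 2 ^ s * (y + 2 ^ s * X)) >>> s = y + 2 ^ s * X := by
    rw [Nat.shiftRight_eq_div_pow, Nat.add_mul_div_left _ _ hp, Nat.div_eq_of_lt hx, zero_add]
  have e2 : X &&& (0 + 2 ^ s * mk s N) = 2 ^ s * ((X >>> s) &&& mk s N) := by
    conv_lhs => rw [← Nat.mod_add_div X (2 ^ s)]
    rw [land_cons (Nat.mod_lt _ hp) hp, Nat.and_zero, zero_add, Nat.shiftRight_eq_div_pow]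
  rw [e1, land_cons hy hlt, land_low s y hy, e2]
  simp only [Nat.shiftLeft_eq]
  ring

theorem sw_zero (s X : ℕ) (hs : 0 < s) : sw s (mk s 0) X = 0 := by
  rw [mk_zero s hs]
  show (X &&& 0) <<< s + ((X >>> s) &&& 0) = 0
  simp

/-- the masks of the levels, the last one first -/
def mks (w : ℕ) : ℕ → ℕ → List ℕ
  | 0, _ => []
  | m + 1, N => mk (Nat.mul w (Nat.pow 2 m)) N :: mks w m (Nat.mul 2 N)

/-- reversal in blocks of `2 ^ m` digits of width `w`, `l = mks w m N` -/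
def rl (w : ℕ) : ℕ → List ℕ → ℕ → ℕ
  | 0, _, X => X
  | _ + 1, [], X => X
  | m + 1, M :: l, X => sw (Nat.mul w (Nat.pow 2 m)) M (rl w m l X)

/-- reversal by recursion -/
def rr (w : ℕ) : ℕ → ℕ → ℕ
  | 0, X => X
  | m + 1, X => rr w m (X / 2 ^ (w * 2 ^ m)) + 2 ^ (w * 2 ^ m) * rr w m (X % 2 ^ (w * 2 ^ m))

theorem rr_lt (w m X : ℕ) (hX : X < 2 ^ (w * 2 ^ m)) : rr w m X < 2 ^ (w * 2 ^ m) := by
  induction m generalizing X with
  | zero => exact hX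
  | succ m ih =>
    have e : 2 ^ (w * 2 ^ (m + 1)) = 2 ^ (w * 2 ^ m) * 2 ^ (w * 2 ^ m) := by
      rw [← pow_add]
      congr 1
      rw [pow_succ]
      ring
    rw [e] at hX ⊢
    set P := 2 ^ (w * 2 ^ m) with hP
    have hp : 0 < P := by positivity
    have h1 := ih (X / P) (Nat.div_lt_of_lt_mul hX)
    have h2 := ih (X % P) (Nat.mod_lt _ hp)
    show rr w m (X / P) + P * rr w m (X % P) < P * P
    nlinarith

theorem rl_zero (w m : ℕ) (hw : 0 < w) (X : ℕ) (h : m ≠ 0) : rl w m (mks w m 0) X = 0 := by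
  cases m with
  | zero => exact absurd rfl h
  | succ m =>
    show sw (w * 2 ^ m) (mk (w * 2 ^ m) 0) _ = 0
    exact sw_zero _ _ (by positivity)

theorem rl_cons (w m N x X : ℕ) (hw : 0 < w) (hx : x < 2 ^ (w * 2 ^ m)) :
    rl w m (mks w m (N + 1)) (x + 2 ^ (w * 2 ^ m) * X) =
      rr w m x + 2 ^ (w * 2 ^ m) * rl w m (mks w m N) X := by
  induction m generalizing N x X with
  | zero => rfl
  | succ m ih =>
    have e : 2 ^ (w * 2 ^ (m + 1)) = 2 ^ (w * 2 ^ m) * 2 ^ (w * 2 ^ m) := by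
      rw [← pow_add]
      congr 1
      rw [pow_succ]
      ring
    rw [e] at hx ⊢
    set P := 2 ^ (w * 2 ^ m) with hP
    have hp : 0 < P := by positivity
    have d1 : ∀ N X, rl w (m + 1) (mks w (m + 1) N) X = sw (w * 2 ^ m) (mk (w * 2 ^ m) N) (rl w m (mks w m (2 * N)) X) :=
      fun _ _ => rfl
    have d2 : rr w (m + 1) x = rr w m (x / P) + P * rr w m (x % P) := rfl
    have hx1 : x / P < P := Nat.div_lt_of_lt_mul hx
    have hx0 : x % P < P := Nat.mod_lt _ hp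
    have ex : x + P * P * X = x % P + P * (x / P + P * X) := by
      conv_lhs => rw [← Nat.mod_add_div x P]
      ring
    rw [d1, d1, d2, ex, show 2 * (N + 1) = (2 * N + 1) + 1 by ring, ih _ _ _ hx0, ih _ _ _ hx1]
    rw [sw_succ (by positivity) (rr_lt _ _ _ hx0) (rr_lt _ _ _ hx1)]
    ring

/-- fast reversal -/
theorem rl_eq (w m X : ℕ) (hw : 0 < w) (hX : X < 2 ^ (w * 2 ^ m)) : rl w m (mks w m 1) X = rr w m X := by
  have h := rl_cons w m 0 X 0 hw hX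
  rw [mul_zero, add_zero] at h
  rw [h]
  cases m with
  | zero => show rr w 0 X + 2 ^ (w * 2 ^ 0) * 0 = rr w 0 X; simp
  | succ m => rw [rl_zero w (m + 1) hw 0 (by omega), mul_zero, add_zero]

theorem pw2 (b m : ℕ) : 2 ^ ((b + 1) * 2 ^ m) = (2 ^ (b + 1)) ^ (2 ^ m) := by rw [pow_mul]

theorem ls_rr (b m X : ℕ) (hX : X < 2 ^ ((b + 1) * 2 ^ m)) :
    ls b (2 ^ m) (rr (b + 1) m X) = (ls b (2 ^ m) X).reverse := by
  induction m generalizing X with
  | zero =>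
    show ls b 1 X = (ls b 1 X).reverse
    simp [lst]
  | succ m ih =>
    have e : 2 ^ ((b + 1) * 2 ^ (m + 1)) = 2 ^ ((b + 1) * 2 ^ m) * 2 ^ ((b + 1) * 2 ^ m) := by
      rw [← pow_add]
      congr 1
      rw [pow_succ]
      ring
    have e2 : 2 ^ (m + 1) = 2 ^ m + 2 ^ m := by rw [pow_succ]; ring
    rw [e] at hX
    have hPB : 2 ^ ((b + 1) * 2 ^ m) = (2 ^ (b + 1)) ^ (2 ^ m) := pw2 b m
    set P := 2 ^ ((b + 1) * 2 ^ m) with hP
    have hp : 0 < P := by positivity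
    have hx1 : X / P < P := Nat.div_lt_of_lt_mul hX
    have hx0 : X % P < P := Nat.mod_lt _ hp
    have d2 : rr (b + 1) (m + 1) X = rr (b + 1) m (X / P) + P * rr (b + 1) m (X % P) := rfl
    have r1 := rr_lt (b + 1) m _ hx1
    have r0 := rr_lt (b + 1) m _ hx0
    rw [e2, ls_append, ls_append, ← hPB, d2, List.reverse_append]
    have c1 : ls b (2 ^ m) (rr (b + 1) m (X / P) + P * rr (b + 1) m (X % P)) = ls b (2 ^ m) (rr (b + 1) m (X / P)) := by
      rw [← ls_mod b (2 ^ m) (2 ^ m) _ le_rfl, ← hPB, Nat.add_mul_mod_self_left, Nat.mod_eq_of_lt r1]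
    have c2 : (rr (b + 1) m (X / P) + P * rr (b + 1) m (X % P)) / P = rr (b + 1) m (X % P) := by
      rw [Nat.add_mul_div_left _ _ hp, Nat.div_eq_of_lt r1, zero_add]
    have c3 : ls b (2 ^ m) X = ls b (2 ^ m) (X % P) := by
      rw [hPB, ls_mod b (2 ^ m) (2 ^ m) _ le_rfl]
    rw [c1, c2, c3, ih _ hx1, ih _ hx0]

end Helper25.SH.Dot
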