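import Pool.Agent.Helper25.SH.Defs

/-!
# MP_506470_co : tools for weak set-homogeneity
-/

namespace SetHom

variable {V : Type}

/-- The isomorphism of induced subgraphs given by a map which preserves and reflects adjacency. -/
theorem iso_of_map {G : SimpleGraph V} [DecidableEq V] (S : Finset V) (f : V → V)
    (hf : Set.InjOn f S) (hadj : ∀ x ∈ S, ∀ y ∈ S, (G.Adj (f x) (f y) ↔ G.Adj x y)) :
    Nonempty (G.induce (S : Set V) ≃g G.induce ((S.image f : Finset V) : Set V)) := by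
  classical
  let F : {x // x ∈ (S : Set V)} → {x // x ∈ ((S.image f : Finset V) : Set V)} :=
      fun x => ⟨f x.1, by
    have := x.2
    simp only [Finset.coe_image]
    exact Set.mem_image_of_mem f this⟩
  have hF : Function.Bijective F := by
    constructor
    · intro x y h
      exact Subtype.ext (hf x.2 y.2 (congrArg Subtype.val h))
    · rintro ⟨y, hy⟩
      simp only [Finset.coe_image] at hy
      obtain ⟨x, hx, rfl⟩ := hy
      exact ⟨⟨x, hx⟩, rfl⟩
  refine ⟨⟨Equiv.ofBijective F hF, ?_⟩⟩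
  intro x y
  exact hadj x.1 x.2 y.1 y.2

/-- Weak set-homogeneity for a set given with a copy. -/
theorem WSH.map {G : SimpleGraph V} (hW : WSH G) (S : Finset V) (hS : NonDom G S) (f : V → V)
    (hf : Set.InjOn f S) (hadj : ∀ x ∈ S, ∀ y ∈ S, (G.Adj (f x) (f y) ↔ G.Adj x y)) :
    ∃ φ : G ≃g G, φ '' (S : Set V) = f '' (S : Set V) := by
  classical
  obtain ⟨φ, hφ⟩ := hW S (S.image f) hS (iso_of_map S f hf hadj)
  exact ⟨φ, by rw [hφ, Finset.coe_image]⟩

/-- Weak set-homogeneity for tuples with a given pattern: the automorphism maps the first tuple to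
the second one up to an automorphism of the pattern. -/
theorem WSH.tuple {G : SimpleGraph V} (hW : WSH G) {k : ℕ} (P : Fin k → Fin k → Bool)
    (hP : ∀ i, ∃ j, j ≠ i ∧ P i j = false) (f g : Fin k → V) (hf : Function.Injective f)
    (hg : Function.Injective g) (hfP : ∀ i j, G.Adj (f i) (f j) ↔ P i j = true)
    (hgP : ∀ i j, G.Adj (g i) (g j) ↔ P i j = true) :
    ∃ (φ : G ≃g G) (σ : Equiv.Perm (Fin k)), (∀ i, φ (f i) = g (σ i)) ∧
      ∀ i j, P (σ i) (σ j) = P i j := by
  classical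
  let S : Finset V := Finset.univ.image f
  have hmem : ∀ i, f i ∈ S := fun i => Finset.mem_image_of_mem f (Finset.mem_univ i)
  have hS : ∀ x ∈ S, ∃ i, f i = x := by
    intro x hx
    obtain ⟨i, -, rfl⟩ := Finset.mem_image.1 hx
    exact ⟨i, rfl⟩
  have hND : NonDom G S := by
    intro x hx
    obtain ⟨i, rfl⟩ := hS x hx
    obtain ⟨j, hj, hij⟩ := hP i
    refine ⟨f j, hmem j, fun h => hj (hf h), ?_⟩
    rw [hfP, hij]
    simp
  let h : V → V := fun x => if hx : ∃ i, f i = x then g (Classical.choose hx) else x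
  have hh : ∀ i, h (f i) = g i := by
    intro i
    have hx : ∃ j, f j = f i := ⟨i, rfl⟩
    have : h (f i) = g (Classical.choose hx) := dif_pos hx
    rw [this, hf (Classical.choose_spec hx)]
  obtain ⟨φ, hφ⟩ := hW.map S hND h
    (by
      intro x hx y hy hxy
      obtain ⟨i, rfl⟩ := hS x hx
      obtain ⟨j, rfl⟩ := hS y hy
      rw [hh, hh] at hxy
      rw [hg hxy])
    (by
      intro x hx y hy
      obtain ⟨i, rfl⟩ := hS x hx
      obtain ⟨j, rfl⟩ := hS y hy
      rw [hh, hh, hfP, hgP])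
  have key : ∀ i, ∃ j, φ (f i) = g j := by
    intro i
    have h1 : φ (f i) ∈ h '' (S : Set V) := by
      rw [← hφ]
      exact Set.mem_image_of_mem _ (hmem i)
    obtain ⟨x, hx, h2⟩ := h1
    obtain ⟨j, rfl⟩ := hS x hx
    exact ⟨j, by rw [← h2, hh]⟩
  choose s hs using key
  have hsinj : Function.Injective s := by
    intro i j hij
    apply hf
    apply φ.injective
    rw [hs, hs, hij]
  have hsbij : Function.Bijective s := Finite.injective_iff_bijective.1 hsinj
  refine ⟨φ, Equiv.ofBijective s hsbij, fun i => by simpa using hs i, ?_⟩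
  intro i j
  show P (s i) (s j) = P i j
  have h1 : P (s i) (s j) = true ↔ P i j = true := by
    rw [← hgP, ← hfP, ← hs, ← hs, φ.map_adj_iff]
  cases h2 : P (s i) (s j) <;> cases h3 : P i j <;> simp_all

/-- Weak set-homogeneity for pairs of non-adjacent vertices. -/
theorem WSH.pair {G : SimpleGraph V} (hW : WSH G) {a b a' b' : V} (hab : a ≠ b)
    (hab' : a' ≠ b') (h : ¬ G.Adj a b) (h' : ¬ G.Adj a' b') :
    ∃ φ : G ≃g G, (φ a = a' ∧ φ b = b') ∨ (φ a = b' ∧ φ b = a') := by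
  have h1 : ¬ G.Adj b a := fun e => h e.symm
  have h2 : ¬ G.Adj b' a' := fun e => h' e.symm
  obtain ⟨φ, σ, h3, -⟩ := hW.tuple (k := 2) (fun _ _ => false) (by decide) ![a, b] ![a', b']
    (by
      intro i j hij
      fin_cases i <;> fin_cases j <;> simp_all)
    (by
      intro i j hij
      fin_cases i <;> fin_cases j <;> simp_all)
    (by
      intro i j
      fin_cases i <;> fin_cases j <;> simp_all)
    (by
      intro i j
      fin_cases i <;> fin_cases j <;> simp_all)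
  refine ⟨φ, ?_⟩
  have e0 := h3 0
  have e1 := h3 1
  have hs : ∀ σ : Equiv.Perm (Fin 2), (σ 0 = 0 ∧ σ 1 = 1) ∨ (σ 0 = 1 ∧ σ 1 = 0) := by decide
  rcases hs σ with ⟨s0, s1⟩ | ⟨s0, s1⟩
  · rw [s0] at e0
    rw [s1] at e1
    left
    exact ⟨by simpa using e0, by simpa using e1⟩
  · rw [s0] at e0
    rw [s1] at e1
    right
    exact ⟨by simpa using e0, by simpa using e1⟩

/-- Weak set-homogeneity for an edge and a vertex which is not adjacent to its ends. -/
theorem WSH.k2k1 {G : SimpleGraph V} (hW : WSH G) {a b c a' b' c' : V} (hab : G.Adj a b)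
    (hac : ¬ G.Adj a c) (hbc : ¬ G.Adj b c) (hab' : G.Adj a' b') (hac' : ¬ G.Adj a' c')
    (hbc' : ¬ G.Adj b' c') :
    ∃ φ : G ≃g G, φ c = c' ∧ ((φ a = a' ∧ φ b = b') ∨ (φ a = b' ∧ φ b = a')) := by
  have h1 : ¬ G.Adj c a := fun e => hac e.symm
  have h2 : ¬ G.Adj c b := fun e => hbc e.symm
  have h1' : ¬ G.Adj c' a' := fun e => hac' e.symm
  have h2' : ¬ G.Adj c' b' := fun e => hbc' e.symm
  have e1 : a ≠ c := fun e => hbc (e ▸ hab.symm)
  have e2 : b ≠ c := fun e => hac (e ▸ hab)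
  have e1' : a' ≠ c' := fun e => hbc' (e ▸ hab'.symm)
  have e2' : b' ≠ c' := fun e => hac' (e ▸ hab')
  have e3 := hab.ne
  have e3' := hab'.ne
  have hba := hab.symm
  have hba' := hab'.symm
  obtain ⟨φ, σ, h3, h4⟩ := hW.tuple (k := 3)
    (fun i j => (i == 0 && j == 1) || (i == 1 && j == 0)) (by decide) ![a, b, c] ![a', b', c']
    (by
      intro i j hij
      fin_cases i <;> fin_cases j <;> simp_all)
    (by
      intro i j hij
      fin_cases i <;> fin_cases j <;> simp_all)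
    (by
      intro i j
      fin_cases i <;> fin_cases j <;> simp_all)
    (by
      intro i j
      fin_cases i <;> fin_cases j <;> simp_all)
  refine ⟨φ, ?_⟩
  have e0 := h3 0
  have e1 := h3 1
  have e2 := h3 2
  have hs : ∀ σ : Equiv.Perm (Fin 3), (∀ i j, ((σ i == 0 && σ j == 1) || (σ i == 1 && σ j == 0)) =
      ((i == 0 && j == 1) || (i == 1 && j == 0))) →
      (σ 0 = 0 ∧ σ 1 = 1 ∧ σ 2 = 2) ∨ (σ 0 = 1 ∧ σ 1 = 0 ∧ σ 2 = 2) := by decide
  rcases hs σ h4 with ⟨s0, s1, s2⟩ | ⟨s0, s1, s2⟩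
  · rw [s0] at e0
    rw [s1] at e1
    rw [s2] at e2
    exact ⟨by simpa using e2, Or.inl ⟨by simpa using e0, by simpa using e1⟩⟩
  · rw [s0] at e0
    rw [s1] at e1
    rw [s2] at e2
    exact ⟨by simpa using e2, Or.inr ⟨by simpa using e0, by simpa using e1⟩⟩

/-- Weak set-homogeneity for independent sets. -/
theorem WSH.indep {G : SimpleGraph V} (hW : WSH G) {I J : Finset V} (hI : Indep G I)
    (hJ : Indep G J) (hcard : I.card = J.card) (h2 : 2 ≤ I.card) :
    ∃ φ : G ≃g G, φ '' (I : Set V) = (J : Set V) := by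
  classical
  refine hW I J ?_ ?_
  · intro s hs
    obtain ⟨t, ht, hts⟩ := Finset.exists_mem_ne (show 1 < I.card by omega) s
    exact ⟨t, ht, hts, hI s hs t ht⟩
  · let e : I ≃ J := Finset.equivOfCardEq hcard
    refine ⟨⟨e, ?_⟩⟩
    intro x y
    have h1 : ¬ G.Adj (e x).1 (e y).1 := hJ _ (e x).2 _ (e y).2
    have h2 : ¬ G.Adj x.1 y.1 := hI _ x.2 _ y.2
    exact ⟨fun h => absurd h h1, fun h => absurd h h2⟩

/-- Weak set-homogeneity for independent triples. -/
theorem WSH.triple {G : SimpleGraph V} (hW : WSH G) {a b c a' b' c' : V} (hab : a ≠ b)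
    (hbc : b ≠ c) (hac : a ≠ c) (nab : ¬ G.Adj a b) (nbc : ¬ G.Adj b c) (nac : ¬ G.Adj a c)
    (hab' : a' ≠ b') (hbc' : b' ≠ c') (hac' : a' ≠ c') (nab' : ¬ G.Adj a' b')
    (nbc' : ¬ G.Adj b' c') (nac' : ¬ G.Adj a' c') :
    ∃ φ : G ≃g G, φ '' ({a, b, c} : Set V) = ({a', b', c'} : Set V) := by
  classical
  have h := hW.indep (I := {a, b, c}) (J := {a', b', c'})
    (by
      intro x hx y hy
      simp only [Finset.mem_insert, Finset.mem_singleton] at hx hy
      rcases hx with rfl | rfl | rfl <;> rcases hy with rfl | rfl | rfl <;>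
        simp_all [G.adj_comm])
    (by
      intro x hx y hy
      simp only [Finset.mem_insert, Finset.mem_singleton] at hx hy
      rcases hx with rfl | rfl | rfl <;> rcases hy with rfl | rfl | rfl <;>
        simp_all [G.adj_comm])
    (by
      rw [Finset.card_eq_three.2 ⟨a, b, c, hab, hac, hbc, rfl⟩,
        Finset.card_eq_three.2 ⟨a', b', c', hab', hac', hbc', rfl⟩])
    (by
      rw [Finset.card_eq_three.2 ⟨a, b, c, hab, hac, hbc, rfl⟩]
      norm_num)
  simpa using h

/-- Automorphisms transport middles. -/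
theorem Mid.map {V W : Type} {G : SimpleGraph V} {H : SimpleGraph W} (f : V → W)
    (hf : Function.Injective f) (hadj : ∀ x y, H.Adj (f x) (f y) ↔ G.Adj x y) {S : Set V}
    {a b c : V} (h : Mid G S a b c) : Mid H (f '' S) (f a) (f b) (f c) := by
  obtain ⟨ma, mb, mc, ab, bc, ac, nab, nbc, nac, conv, ray, ⟨l, hl, l1, l2, l3⟩,
    ⟨r, hr, r1, r2, r3⟩⟩ := h
  refine ⟨Set.mem_image_of_mem f ma, Set.mem_image_of_mem f mb, Set.mem_image_of_mem f mc,
    hf.ne ab, hf.ne bc, hf.ne ac, by rwa [hadj], by rwa [hadj], by rwa [hadj], ?_, ?_,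
    ⟨f l, Set.mem_image_of_mem f hl, by rwa [hadj], by rwa [hadj], by rwa [hadj]⟩,
    ⟨f r, Set.mem_image_of_mem f hr, by rwa [hadj], by rwa [hadj], by rwa [hadj]⟩⟩
  · rintro _ ⟨u, hu, rfl⟩
    rw [hadj, hadj, hadj]
    exact conv u hu
  · rintro _ ⟨u, hu, rfl⟩
    rw [hadj, hadj, hadj]
    exact ray u hu

theorem Mid.symm {G : SimpleGraph V} {S : Set V} {a b c : V} (h : Mid G S a b c) :
    Mid G S c b a := by
  obtain ⟨ma, mb, mc, ab, bc, ac, nab, nbc, nac, conv, ray, ⟨l, hl, l1, l2, l3⟩,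
    ⟨r, hr, r1, r2, r3⟩⟩ := h
  exact ⟨mc, mb, ma, bc.symm, ab.symm, ac.symm, fun e => nbc e.symm, fun e => nab e.symm,
    fun e => nac e.symm, fun u hu h1 h2 => conv u hu h2 h1, fun u hu h1 => (ray u hu h1).symm,
    ⟨r, hr, r2, r1, r3⟩, ⟨l, hl, l2, l1, l3⟩⟩

/-- The middle is unique. -/
theorem Mid.not_swap {G : SimpleGraph V} {S : Set V} {a b c : V} (h : Mid G S a b c) :
    ¬ Mid G S b a c := by
  intro h'
  obtain ⟨u, hu, h1, h2, h3⟩ := h.right
  exact h3 (h'.conv u hu h1 h2)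

/-- Transport of the ray type along an injective map onto `S`. -/
theorem RayOn.map {V W : Type} {G : SimpleGraph V} {H : SimpleGraph W} (f : V → W)
    (hf : Function.Injective f) (hadj : ∀ x y, H.Adj (f x) (f y) ↔ G.Adj x y) {S : Set V}
    (h : RayOn G S) : RayOn H (f '' S) := by
  classical
  have pull : ∀ I : Finset W, (I : Set W) ⊆ f '' S → ∃ J : Finset V, (J : Set V) ⊆ S ∧
      J.card = I.card ∧ J.image f = I := by
    intro I hI
    refine ⟨I.preimage f hf.injOn, ?_, ?_, ?_⟩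
    · intro x hx
      have : f x ∈ I := by simpa using hx
      obtain ⟨y, hy, hxy⟩ := hI this
      rwa [← hf hxy]
    · rw [← Finset.card_image_of_injective _ hf]
      congr 1
      ext y
      constructor
      · intro hy
        obtain ⟨x, hx, rfl⟩ := Finset.mem_image.1 hy
        simpa using hx
      · intro hy
        obtain ⟨x, -, rfl⟩ := hI hy
        exact Finset.mem_image_of_mem f (by simpa using hy)
    · ext y
      constructor
      · intro hy
        obtain ⟨x, hx, rfl⟩ := Finset.mem_image.1 hy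
        simpa using hx
      · intro hy
        obtain ⟨x, -, rfl⟩ := hI hy
        exact Finset.mem_image_of_mem f (by simpa using hy)
  constructor
  · rintro _ ⟨a, ha, rfl⟩ _ ⟨b, hb, rfl⟩ _ ⟨c, hc, rfl⟩
    rw [hadj, hadj, hadj]
    exact h.tf a ha b hb c hc
  · rintro _ ⟨u, hu, rfl⟩ _ ⟨v, hv, rfl⟩ huv hn
    rw [hadj] at hn
    refine ((h.inter u hu v hv (fun e => huv (by rw [e])) hn).image hf.injOn).mono ?_
    rintro _ ⟨x, ⟨hx, h1, h2⟩, rfl⟩
    exact ⟨Set.mem_image_of_mem f hx, (hadj _ _).2 h1, (hadj _ _).2 h2⟩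
  · rintro _ ⟨u, hu, rfl⟩ _ ⟨v, hv, rfl⟩ huv hn
    rw [hadj] at hn
    refine ((h.diff u hu v hv (fun e => huv (by rw [e])) hn).image hf.injOn).mono ?_
    rintro _ ⟨x, ⟨hx, h1, h2⟩, rfl⟩
    exact ⟨Set.mem_image_of_mem f hx, (hadj _ _).2 h1, fun e => h2 ((hadj _ _).1 e)⟩
  · intro I hI hind
    obtain ⟨J, hJS, -, rfl⟩ := pull I hI
    have hJ : Indep G J := by
      intro x hx y hy hxy
      exact hind (f x) (Finset.mem_image_of_mem f hx) (f y) (Finset.mem_image_of_mem f hy)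
        ((hadj _ _).2 hxy)
    refine ((h.common J hJS hJ).image hf.injOn).mono ?_
    rintro _ ⟨x, ⟨hx, h1⟩, rfl⟩
    refine ⟨Set.mem_image_of_mem f hx, ?_⟩
    intro y hy
    obtain ⟨z, hz, rfl⟩ := Finset.mem_image.1 hy
    exact (hadj _ _).2 (h1 z hz)
  · rintro _ ⟨a, ha, rfl⟩ _ ⟨b, hb, rfl⟩ _ ⟨c, hc, rfl⟩ hab hbc hac nab nbc nac
    rw [hadj] at nab nbc nac
    rcases h.mid a ha b hb c hc (fun e => hab (by rw [e])) (fun e => hbc (by rw [e]))
      (fun e => hac (by rw [e])) nab nbc nac with h1 | h1 | h1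
    · exact Or.inl (h1.map f hf hadj)
    · exact Or.inr (Or.inl (h1.map f hf hadj))
    · exact Or.inr (Or.inr (h1.map f hf hadj))
  · intro I hI hind hcard
    obtain ⟨J, hJS, hJc, rfl⟩ := pull I hI
    have hJ : Indep G J := by
      intro x hx y hy hxy
      exact hind (f x) (Finset.mem_image_of_mem f hx) (f y) (Finset.mem_image_of_mem f hy)
        ((hadj _ _).2 hxy)
    obtain ⟨a, b, c, d, h1, h2, h3, h4, h5⟩ := h.quad J hJS hJ (by rw [hJc, hcard])
    refine ⟨f a, f b, f c, f d, ?_, h2.map f hf hadj, h3.map f hf hadj, h4.map f hf hadj,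
      h5.map f hf hadj⟩
    rw [Finset.coe_image, h1]
    simp only [Set.image_insert_eq, Set.image_singleton]
  · rintro _ ⟨c, hc, rfl⟩ _ ⟨e, he, rfl⟩ hce hn
    rw [hadj] at hn
    obtain ⟨a, ha, h1⟩ := h.beyond c hc e he (fun e => hce (by rw [e])) hn
    exact ⟨f a, Set.mem_image_of_mem f ha, h1.map f hf hadj⟩
  · obtain ⟨a, ha, b, hb, c, hc, d, hd, h1, h2, h3, h4, h5, h6⟩ := h.two
    exact ⟨f a, Set.mem_image_of_mem f ha, f b, Set.mem_image_of_mem f hb, f c,
      Set.mem_image_of_mem f hc, f d, Set.mem_image_of_mem f hd, (hadj _ _).2 h1, (hadj _ _).2 h2,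
      fun e => h3 ((hadj _ _).1 e), fun e => h4 ((hadj _ _).1 e), fun e => h5 ((hadj _ _).1 e),
      fun e => h6 ((hadj _ _).1 e)⟩

end SetHom
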