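import Pool.Agent.Helper25.SH.Tsp
import Pool.Agent.Helper25.SH.MatU

/-!
# Sparse combinations of packed rows
-/

set_option autoImplicit false

namespace Helper25.SH.Tsp

open Helper54.RC.Fast Helper25.SH.Mat

/-! ## Digits of natural numbers -/

/-- digit `k` in base `2 ^ w` -/
def dgt (w X k : ℕ) : ℕ := X / 2 ^ (w * k) % 2 ^ w

theorem dgt_lt (w X k : ℕ) : dgt w X k < 2 ^ w := Nat.mod_lt _ (by positivity)

theorem dgt_shr (w X d k : ℕ) : dgt w (X / 2 ^ (w * d)) k = dgt w X (k + d) := by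
  unfold dgt
  rw [Nat.div_div_eq_div_mul, ← pow_add]
  congr 3
  ring

theorem dgt_mod (w X m k : ℕ) (h : k < m) : dgt w (X % 2 ^ (w * m)) k = dgt w X k := by
  unfold dgt
  obtain ⟨n, rfl⟩ : ∃ n, m = k + 1 + n := ⟨m - k - 1, by omega⟩
  have e : 2 ^ (w * (k + 1 + n)) = 2 ^ (w * k) * (2 ^ w * 2 ^ (w * n)) := by
    rw [← pow_add, ← pow_add]; congr 1; ring
  rw [e, Nat.mod_mul_right_div_self, Nat.mod_mul_right_mod]

theorem pk_dgt (w m X : ℕ) (h : X < 2 ^ (w * m)) : pk w (dgt w X) m = X := by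
  induction m generalizing X with
  | zero =>
    have : X = 0 := by simpa using h
    subst this
    rfl
  | succ m ih =>
    have e : 2 ^ (w * (m + 1)) = 2 ^ w * 2 ^ (w * m) := by rw [← pow_add]; congr 1; ring
    rw [e] at h
    have h1 := ih (X / 2 ^ w) (Nat.div_lt_of_lt_mul h)
    have h2 : (fun k => dgt w X (k + 1)) = dgt w (X / 2 ^ w) := by
      funext k
      have := dgt_shr w X 1 k
      rw [mul_one] at this
      exact this.symm
    simp only [pk]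
    rw [h2, h1]
    unfold dgt
    rw [mul_zero, pow_zero, Nat.div_one]
    exact Nat.mod_add_div X _

theorem dgt_pk (w m : ℕ) {f : ℕ → ℕ} (hf : ∀ k < m, f k < 2 ^ w) {k : ℕ} (hk : k < m) : dgt w (pk w f m) k = f k := by
  induction m generalizing f k with
  | zero => omega
  | succ m ih =>
    have h0 := hf 0 (by omega)
    simp only [pk]
    cases k with
    | zero =>
      unfold dgt
      rw [mul_zero, pow_zero, Nat.div_one, Nat.add_mul_mod_self_left, Nat.mod_eq_of_lt h0]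
    | succ k =>
      have h1 := dgt_shr w (f 0 + 2 ^ w * pk w (fun k => f (k + 1)) m) 1 k
      rw [mul_one, Nat.add_mul_div_left _ _ (by positivity), Nat.div_eq_of_lt h0, zero_add] at h1
      rw [← h1]
      exact ih (f := fun k => f (k + 1)) (fun k hk => hf (k + 1) (by omega)) (by omega)

theorem pk_sum (w m : ℕ) (f : ℕ → ℕ) : ((pk w f m : ℕ) : ℤ) = ∑ k ∈ Finset.range m, (f k : ℤ) * (2 ^ w : ℤ) ^ k := by
  induction m generalizing f with
  | zero => simp [pk]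
  | succ m ih =>
    simp only [pk]
    rw [Finset.sum_range_succ']
    push_cast
    rw [ih fun k => f (k + 1), Finset.mul_sum, add_comm]
    congr 1
    · refine Finset.sum_congr rfl fun k _ => ?_
      rw [pow_succ]
      ring
    · ring

/-- digits of a residue -/
theorem dgt_of_mod (w a N : ℕ) (hN : N ≤ a) (E : ℕ) (h : ℕ → ℤ) (hE : (E : ℤ) ≡ ∑ j ∈ Finset.range a, h j * (2 ^ w : ℤ) ^ j
    [ZMOD (2 ^ w : ℤ) ^ a]) (hh : ∀ j < N, 0 ≤ h j ∧ h j < 2 ^ w) : ∀ j < N, ((dgt w E j : ℕ) : ℤ) = h j := by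
  obtain ⟨d, rfl⟩ : ∃ d, a = N + d := ⟨a - N, by omega⟩
  set H : ℕ := pk w (fun j => (h j).toNat) N with hH
  have h1 : ∀ j < N, ((h j).toNat : ℤ) = h j := fun j hj => Int.toNat_of_nonneg (hh j hj).1
  have h2 : ∀ j < N, (h j).toNat < 2 ^ w := fun j hj => by
    have := (hh j hj).2
    have h3 := h1 j hj
    have : (((h j).toNat : ℕ) : ℤ) < ((2 ^ w : ℕ) : ℤ) := by rw [h3]; push_cast; exact this
    exact_mod_cast this
  have hHlt : H < 2 ^ (w * N) := pk_lt w N h2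
  have hHs : ((H : ℕ) : ℤ) = ∑ j ∈ Finset.range N, h j * (2 ^ w : ℤ) ^ j := by
    rw [hH, pk_sum]
    refine Finset.sum_congr rfl fun j hj => ?_
    rw [h1 j (Finset.mem_range.1 hj)]
  have e1 : (E : ℤ) ≡ H [ZMOD (2 ^ w : ℤ) ^ N] := by
    have e2 : (E : ℤ) ≡ ∑ j ∈ Finset.range (N + d), h j * (2 ^ w : ℤ) ^ j [ZMOD (2 ^ w : ℤ) ^ N] :=
      hE.of_dvd (pow_dvd_pow _ (by omega))
    refine e2.trans ?_
    rw [Finset.sum_range_add, hHs]
    have e3 : ∑ x ∈ Finset.range d, h (N + x) * (2 ^ w : ℤ) ^ (N + x) =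
        (2 ^ w : ℤ) ^ N * ∑ x ∈ Finset.range d, h (N + x) * (2 ^ w : ℤ) ^ x := by
      rw [Finset.mul_sum]
      refine Finset.sum_congr rfl fun x _ => ?_
      rw [pow_add]
      ring
    rw [e3]
    exact Int.modEq_iff_dvd.2 ⟨-(∑ x ∈ Finset.range d, h (N + x) * (2 ^ w : ℤ) ^ x), by ring⟩
  have e2 : E % 2 ^ (w * N) = H := by
    have hM : (2 ^ w : ℤ) ^ N = ((2 ^ (w * N) : ℕ) : ℤ) := by push_cast; rw [pow_mul]
    rw [hM] at e1
    have e4 : E ≡ H [MOD 2 ^ (w * N)] := (Int.natCast_modEq_iff).1 e1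
    have e5 : E % 2 ^ (w * N) = H % 2 ^ (w * N) := e4
    rw [e5, Nat.mod_eq_of_lt hHlt]
  intro j hj
  rw [← dgt_mod w E N j hj, e2, hH, dgt_pk w N h2 hj]
  exact h1 j hj

/-! ## Packing of a list -/

/-- value of a list of numbers at the distance `S` -/
def vl (S : ℕ) : List ℕ → ℕ
  | [] => 0
  | x :: l => x + 2 ^ S * vl S l
/-- neighbours together -/
def mg (S : ℕ) : List ℕ → List ℕ
  | x :: y :: l => Nat.add x (Nat.shiftLeft y S) :: mg S l
  | [x] => [x]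
  | [] => []
/-- the number -/
def pkl : ℕ → ℕ → List ℕ → ℕ
  | 0, _, l => l.headD 0
  | q + 1, S, l => pkl q (Nat.mul 2 S) (mg S l)

theorem vl_mg (S : ℕ) : ∀ l : List ℕ, vl (2 * S) (mg S l) = vl S l
  | [] => rfl
  | [x] => by simp [mg, vl]
  | x :: y :: l => by
    show (x + y <<< S) + 2 ^ (2 * S) * vl (2 * S) (mg S l) = x + 2 ^ S * (y + 2 ^ S * vl S l)
    rw [vl_mg S l, Nat.shiftLeft_eq, two_mul, pow_add]
    ring

theorem mg_length (S : ℕ) : ∀ l : List ℕ, 2 * (mg S l).length ≤ l.length + 1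
  | [] => by simp [mg]
  | [x] => by simp [mg]
  | x :: y :: l => by
    have := mg_length S l
    simp only [mg, List.length_cons]
    omega

theorem pkl_eq (q S : ℕ) (l : List ℕ) (h : l.length ≤ 2 ^ q) : pkl q S l = vl S l := by
  induction q generalizing S l with
  | zero =>
    match l, h with
    | [], _ => rfl
    | [x], _ => simp [pkl, vl]
    | x :: y :: l, h => simp at h
  | succ q ih =>
    have h1 := mg_length S l
    rw [pow_succ] at h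
    show pkl q (2 * S) (mg S l) = _
    rw [ih _ _ (by omega), vl_mg]

theorem vl_pk (S : ℕ) (l : List ℕ) (m : ℕ) (h : l.length ≤ m) : vl S l = pk S (fun i => l.getD i 0) m := by
  induction l generalizing m with
  | nil => simp [vl, pk_zero]
  | cons x l ih =>
    obtain ⟨m, rfl⟩ : ∃ m', m = m' + 1 := ⟨m - 1, by simp at h; omega⟩
    simp only [vl, pk]
    rw [ih m (by simpa using h)]
    simp

/-- one piece of all columns -/
def cks (s P : ℕ) : List ℕ → List ℕ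
  | [] => []
  | x :: l => Nat.mod (Nat.shiftRight x s) P :: cks s P l

theorem cks_length (s P : ℕ) (l : List ℕ) : (cks s P l).length = l.length := by
  induction l with
  | nil => rfl
  | cons x l ih => simp [cks, ih]

theorem cks_getD (s P : ℕ) (l : List ℕ) (i : ℕ) : (cks s P l).getD i 0 = (l.getD i 0 >>> s) % P := by
  induction l generalizing i with
  | nil => simp [cks]
  | cons x l ih =>
    cases i with
    | zero => rfl
    | succ i => exact ih i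

/-- the transposed piece `c` -/
def tpc (w q : ℕ) (lv : List (ℕ × ℕ × ℕ)) (l : List ℕ) (c : ℕ) : ℕ :=
  trp lv (pkl q (Nat.mul w (Nat.pow 2 q)) (cks (Nat.mul (Nat.mul w (Nat.pow 2 q)) c) (Nat.pow 2 (Nat.mul w (Nat.pow 2 q))) l))

theorem tpc_eq (w q : ℕ) (l : List ℕ) (c : ℕ) (h : l.length ≤ 2 ^ q) :
    tpc w q (lvs w q q) l c = mat w q (fun k j => dgt w (l.getD j 0) (2 ^ q * c + k)) := by
  have e0 : tpc w q (lvs w q q) l c =
    trp (lvs w q q) (pkl q (w * 2 ^ q) (cks (w * 2 ^ q * c) (2 ^ (w * 2 ^ q)) l)) := rfl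
  have e1 : pkl q (w * 2 ^ q) (cks (w * 2 ^ q * c) (2 ^ (w * 2 ^ q)) l) =
      mat w q (fun j k => dgt w (l.getD j 0) (2 ^ q * c + k)) := by
    rw [pkl_eq q _ _ (by rw [cks_length]; exact h), vl_pk _ _ (2 ^ q) (by rw [cks_length]; exact h)]
    refine Eq.trans ?_ (pk_nest w (2 ^ q) (2 ^ q) (by positivity)
      (fun j k => dgt w (l.getD j 0) (2 ^ q * c + k)))
    refine pk_congr _ _ fun j _ => ?_
    rw [cks_getD]
    set x := l.getD j 0 with hx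
    have h1 : (x >>> (w * 2 ^ q * c)) % 2 ^ (w * 2 ^ q) < 2 ^ (w * 2 ^ q) := Nat.mod_lt _ (by positivity)
    rw [← pk_dgt w (2 ^ q) _ h1]
    refine pk_congr _ _ fun k hk => ?_
    rw [dgt_mod w _ _ _ hk, Nat.shiftRight_eq_div_pow]
    have h2 : w * 2 ^ q * c = w * (2 ^ q * c) := by ring
    rw [h2, dgt_shr, add_comm]
  rw [e0, e1, trp_eq w q fun i k => dgt_lt _ _ _]

/-! ## Trees of rows -/

/-- binary tree -/
inductive Tr
  | lf (Y : ℕ)
  | nd (l r : Tr)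

/-- the tree of the `2 ^ p` digits in base `2 ^ Z` -/
def mkT (Z : ℕ) : ℕ → ℕ → Tr
  | 0, Y => .lf Y
  | p + 1, Y => .nd (mkT Z p (Nat.mod Y (Nat.pow 2 (Nat.mul Z (Nat.pow 2 p)))))
    (mkT Z p (Nat.shiftRight Y (Nat.mul Z (Nat.pow 2 p))))

/-- `(x - O) (Y - OF)` modulo `M` -/
def lfv (O OF M x Y : ℕ) : ℕ :=
  bif Nat.ble O x then Nat.mul (Nat.sub x O) (Nat.add Y (Nat.sub M OF))
  else Nat.mul (Nat.sub O x) (Nat.sub (Nat.add M OF) Y)

/-- zero, modulus, shift of the levels -/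
def lz (b : ℕ) : ℕ → List (ℕ × ℕ × ℕ)
  | 0 => []
  | p + 1 => (of b (Nat.pow 2 (Nat.succ p)), Nat.pow 2 (Nat.mul (Nat.succ b) (Nat.pow 2 p)),
      Nat.mul (Nat.succ b) (Nat.pow 2 p)) :: lz b p

/-- sparse combination of the leaves -/
def evt (O OF M : ℕ) : Tr → List (ℕ × ℕ × ℕ) → ℕ → ℕ
  | .lf Y, _, x => lfv O OF M x Y
  | .nd l r, (z, P, s) :: ls, x =>
    bif Nat.beq x z then 0 else Nat.add (evt O OF M l ls (Nat.mod x P)) (evt O OF M r ls (Nat.shiftRight x s))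
  | .nd _ _, [], _ => 0

theorem lfv_eq (O OF M x Y : ℕ) (h1 : OF ≤ M) (h2 : Y ≤ M + OF) :
    ((lfv O OF M x Y : ℕ) : ℤ) ≡ ((x : ℤ) - O) * ((Y : ℤ) - OF) [ZMOD (M : ℤ)] := by
  unfold lfv
  by_cases h : O ≤ x
  · have hb : Nat.ble O x = true := Nat.ble_eq_true_of_le h
    rw [hb]
    show (((x - O) * (Y + (M - OF)) : ℕ) : ℤ) ≡ _ [ZMOD (M : ℤ)]
    push_cast [Nat.cast_sub h, Nat.cast_sub h1]
    exact Int.modEq_iff_dvd.2 ⟨-((x : ℤ) - O), by ring⟩
  · have hb : Nat.ble O x = false := by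
      rw [Bool.eq_false_iff]
      intro h'
      exact h (Nat.le_of_ble_eq_true h')
    rw [hb]
    show (((O - x) * (M + OF - Y) : ℕ) : ℤ) ≡ _ [ZMOD (M : ℤ)]
    push_cast [Nat.cast_sub (by omega : x ≤ O), Nat.cast_sub h2]
    exact Int.modEq_iff_dvd.2 ⟨-((O : ℤ) - x), by ring⟩

theorem dgt_of (b n k : ℕ) (hk : k < n) : dgt (b + 1) (of b n) k = 2 ^ b := by
  have h1 : of b n = pk (b + 1) (fun _ => 2 ^ b) n := by
    rw [of_gs]
    clear hk
    induction n with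
    | zero => simp [gs, pk]
    | succ n ih =>
      simp only [gs, pk]
      rw [← ih]
      ring
  rw [h1, dgt_pk]
  · intro k _
    exact Nat.pow_lt_pow_right (by norm_num) (by omega)
  · exact hk

/-- **the sparse combination** -/
theorem evt_eq (b Z M : ℕ) (hM : M = 2 ^ Z) (OF : ℕ) (hOF : OF ≤ M) (p : ℕ) (x Y : ℕ) :
    ((evt (2 ^ b) OF M (mkT Z p Y) (lz b p) x : ℕ) : ℤ) ≡
      ∑ k ∈ Finset.range (2 ^ p), (((dgt (b + 1) (x % 2 ^ ((b + 1) * 2 ^ p)) k : ℕ) : ℤ) - (2 ^ b : ℕ)) *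
        (((dgt Z (Y % 2 ^ (Z * 2 ^ p)) k : ℕ) : ℤ) - OF) [ZMOD (M : ℤ)] ∨
      2 ^ ((b + 1) * 2 ^ p) ≤ x ∨ 2 ^ (Z * 2 ^ p) ≤ Y := by
  by_cases hx : 2 ^ ((b + 1) * 2 ^ p) ≤ x
  · exact Or.inr (Or.inl hx)
  by_cases hY : 2 ^ (Z * 2 ^ p) ≤ Y
  · exact Or.inr (Or.inr hY)
  left
  push Not at hx hY
  induction p generalizing x Y with
  | zero =>
    rw [Nat.mod_eq_of_lt hx, Nat.mod_eq_of_lt hY]
    simp only [pow_zero, mul_one] at hx hY
    have e1 : dgt (b + 1) x 0 = x := by unfold dgt; simp [Nat.mod_eq_of_lt hx]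
    have e2 : dgt Z Y 0 = Y := by unfold dgt; simp [Nat.mod_eq_of_lt hY]
    rw [pow_zero, Finset.sum_range_one, e1, e2]
    show ((lfv (2 ^ b) OF M x Y : ℕ) : ℤ) ≡ _ [ZMOD (M : ℤ)]
    exact lfv_eq _ _ _ _ _ hOF (by omega)
  | succ p ih =>
    rw [Nat.mod_eq_of_lt hx, Nat.mod_eq_of_lt hY]
    have hp : 2 ^ (p + 1) = 2 ^ p + 2 ^ p := by rw [pow_succ]; ring
    have hxe : 2 ^ ((b + 1) * 2 ^ (p + 1)) = 2 ^ ((b + 1) * 2 ^ p) * 2 ^ ((b + 1) * 2 ^ p) := by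
      rw [← pow_add]; congr 1; rw [hp]; ring
    have hYe : 2 ^ (Z * 2 ^ (p + 1)) = 2 ^ (Z * 2 ^ p) * 2 ^ (Z * 2 ^ p) := by
      rw [← pow_add]; congr 1; rw [hp]; ring
    by_cases hz : x = of b (2 ^ (p + 1))
    · -- all digits are zero
      have e0 : evt (2 ^ b) OF M (mkT Z (p + 1) Y) (lz b (p + 1)) x = 0 := by
        show (bif Nat.beq x (of b (2 ^ (p + 1))) then 0 else _) = 0
        rw [hz, Nat.beq_refl]
        rfl
      rw [e0]
      have e1 : ∑ k ∈ Finset.range (2 ^ (p + 1)), (((dgt (b + 1) x k : ℕ) : ℤ) - (2 ^ b : ℕ)) *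
          (((dgt Z Y k : ℕ) : ℤ) - OF) = 0 := by
        refine Finset.sum_eq_zero fun k hk => ?_
        rw [hz, dgt_of b _ k (Finset.mem_range.1 hk)]
        ring
      rw [e1]
      rfl
    · have e0 : evt (2 ^ b) OF M (mkT Z (p + 1) Y) (lz b (p + 1)) x =
          evt (2 ^ b) OF M (mkT Z p (Y % 2 ^ (Z * 2 ^ p))) (lz b p) (x % 2 ^ ((b + 1) * 2 ^ p)) +
          evt (2 ^ b) OF M (mkT Z p (Y >>> (Z * 2 ^ p))) (lz b p) (x >>> ((b + 1) * 2 ^ p)) := by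
        show (bif Nat.beq x (of b (2 ^ (p + 1))) then 0 else _) = _
        have : Nat.beq x (of b (2 ^ (p + 1))) = false := by
          rw [Bool.eq_false_iff]
          intro h
          exact hz (Nat.eq_of_beq_eq_true h)
        rw [this]
        rfl
      have px : 0 < 2 ^ ((b + 1) * 2 ^ p) := by positivity
      have pY : 0 < 2 ^ (Z * 2 ^ p) := by positivity
      have lx : x % 2 ^ ((b + 1) * 2 ^ p) < 2 ^ ((b + 1) * 2 ^ p) := Nat.mod_lt _ px
      have lY : Y % 2 ^ (Z * 2 ^ p) < 2 ^ (Z * 2 ^ p) := Nat.mod_lt _ pY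
      have ux : x / 2 ^ ((b + 1) * 2 ^ p) < 2 ^ ((b + 1) * 2 ^ p) := Nat.div_lt_of_lt_mul (hxe ▸ hx)
      have uY : Y / 2 ^ (Z * 2 ^ p) < 2 ^ (Z * 2 ^ p) := Nat.div_lt_of_lt_mul (hYe ▸ hY)
      have i1 := ih (x % 2 ^ ((b + 1) * 2 ^ p)) (Y % 2 ^ (Z * 2 ^ p)) lx lY
      have i2 := ih (x / 2 ^ ((b + 1) * 2 ^ p)) (Y / 2 ^ (Z * 2 ^ p)) ux uY
      rw [Nat.mod_eq_of_lt lx, Nat.mod_eq_of_lt lY] at i1
      rw [Nat.mod_eq_of_lt ux, Nat.mod_eq_of_lt uY] at i2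
      rw [e0, Nat.shiftRight_eq_div_pow, Nat.shiftRight_eq_div_pow, hp, Finset.sum_range_add]
      push_cast
      push_cast at i1 i2
      refine (i1.add i2).trans ?_
      have s1 : ∀ k ∈ Finset.range (2 ^ p), (((dgt (b + 1) (x % 2 ^ ((b + 1) * 2 ^ p)) k : ℕ) : ℤ) - 2 ^ b) *
          (((dgt Z (Y % 2 ^ (Z * 2 ^ p)) k : ℕ) : ℤ) - OF) =
          (((dgt (b + 1) x k : ℕ) : ℤ) - 2 ^ b) * (((dgt Z Y k : ℕ) : ℤ) - OF) := by
        intro k hk
        rw [dgt_mod _ _ _ _ (Finset.mem_range.1 hk), dgt_mod _ _ _ _ (Finset.mem_range.1 hk)]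
      have s2 : ∀ k ∈ Finset.range (2 ^ p), (((dgt (b + 1) (x / 2 ^ ((b + 1) * 2 ^ p)) k : ℕ) : ℤ) - 2 ^ b) *
          (((dgt Z (Y / 2 ^ (Z * 2 ^ p)) k : ℕ) : ℤ) - OF) =
          (((dgt (b + 1) x (2 ^ p + k) : ℕ) : ℤ) - 2 ^ b) * (((dgt Z Y (2 ^ p + k) : ℕ) : ℤ) - OF) := by
        intro k _
        rw [dgt_shr, dgt_shr, add_comm k]
      rw [Finset.sum_congr rfl s1, Finset.sum_congr rfl s2]

/-- the version for numbers of the right size -/
theorem evt_eq' (b Z M : ℕ) (hM : M = 2 ^ Z) (OF : ℕ) (hOF : OF ≤ M) (p : ℕ) (x Y : ℕ)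
    (hx : x < 2 ^ ((b + 1) * 2 ^ p)) (hY : Y < 2 ^ (Z * 2 ^ p)) :
    ((evt (2 ^ b) OF M (mkT Z p Y) (lz b p) x : ℕ) : ℤ) ≡
      ∑ k ∈ Finset.range (2 ^ p), (((dgt (b + 1) x k : ℕ) : ℤ) - (2 ^ b : ℕ)) *
        (((dgt Z Y k : ℕ) : ℤ) - OF) [ZMOD (M : ℤ)] := by
  rcases evt_eq b Z M hM OF hOF p x Y with h | h | h
  · rw [Nat.mod_eq_of_lt hx, Nat.mod_eq_of_lt hY] at h
    exact h
  · omega
  · omega

end Helper25.SH.Tsp
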