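import Pool.Agent.Helper54.RC.Fast4

/-!
# Transposition of a matrix of digits

`mat w q f` is the number whose digit (base `2 ^ w`) at the position `i 2 ^ q + k` is `f i k`. It is transposed by `q` exchanges of
index bits, each one a few operations with big natural numbers.
-/

set_option autoImplicit false

namespace Helper25.SH.Tsp

open Helper54.RC.Fast

/-- the number with the digits `f 0, .., f (m - 1)` -/
def pk (w : ℕ) : (ℕ → ℕ) → ℕ → ℕ
  | _, 0 => 0
  | f, m + 1 => f 0 + 2 ^ w * pk w (fun k => f (k + 1)) m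

theorem pk_congr (w m : ℕ) {f g : ℕ → ℕ} (h : ∀ k < m, f k = g k) : pk w f m = pk w g m := by
  induction m generalizing f g with
  | zero => rfl
  | succ m ih =>
    simp only [pk]
    rw [h 0 (by omega), ih fun k hk => h (k + 1) (by omega)]

theorem pk_add (w : ℕ) (f : ℕ → ℕ) (m n : ℕ) :
    pk w f (m + n) = pk w f m + 2 ^ (w * m) * pk w (fun k => f (k + m)) n := by
  induction m generalizing f with
  | zero => simp [pk]
  | succ m ih =>
    have e : m + 1 + n = (m + n) + 1 := by ring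
    rw [e]
    simp only [pk]
    rw [ih]
    have e2 : 2 ^ (w * (m + 1)) = 2 ^ w * 2 ^ (w * m) := by rw [← pow_add]; congr 1; ring
    rw [e2]
    have e3 : (fun k => f (k + m + 1)) = fun k => f (k + (m + 1)) := by funext k; rw [add_assoc]
    rw [e3]
    ring

theorem pk_zero (w m : ℕ) : pk w (fun _ => 0) m = 0 := by
  induction m with
  | zero => rfl
  | succ m ih => simp only [pk]; rw [ih]; ring

theorem pk_z (w m : ℕ) {f : ℕ → ℕ} (h : ∀ k < m, f k = 0) : pk w f m = 0 :=
  (pk_congr w m h).trans (pk_zero w m)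

theorem pk_lt (w m : ℕ) {f : ℕ → ℕ} (h : ∀ k < m, f k < 2 ^ w) : pk w f m < 2 ^ (w * m) := by
  induction m generalizing f with
  | zero => simp [pk]
  | succ m ih =>
    have h1 := ih (f := fun k => f (k + 1)) fun k hk => h (k + 1) (by omega)
    have h0 := h 0 (by omega)
    have e2 : 2 ^ (w * (m + 1)) = 2 ^ w * 2 ^ (w * m) := by rw [← pow_add]; congr 1; ring
    simp only [pk]
    rw [e2]
    have h2 : pk w (fun k => f (k + 1)) m + 1 ≤ 2 ^ (w * m) := h1
    calc f 0 + 2 ^ w * pk w (fun k => f (k + 1)) m < 2 ^ w + 2 ^ w * pk w (fun k => f (k + 1)) m := by omega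
      _ = 2 ^ w * (pk w (fun k => f (k + 1)) m + 1) := by ring
      _ ≤ _ := Nat.mul_le_mul_left _ h2

theorem pk_addf (w m : ℕ) (f g : ℕ → ℕ) : pk w f m + pk w g m = pk w (fun k => f k + g k) m := by
  induction m generalizing f g with
  | zero => rfl
  | succ m ih =>
    simp only [pk]
    rw [← ih]
    ring

theorem land_pk (w m : ℕ) {f g : ℕ → ℕ} (hf : ∀ k < m, f k < 2 ^ w) (hg : ∀ k < m, g k < 2 ^ w) :
    pk w f m &&& pk w g m = pk w (fun k => f k &&& g k) m := by
  induction m generalizing f g with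
  | zero => simp [pk]
  | succ m ih =>
    simp only [pk]
    rw [land_cons (hf 0 (by omega)) (hg 0 (by omega)), ih (fun k hk => hf (k + 1) (by omega))
      fun k hk => hg (k + 1) (by omega)]

/-- extension by zeros -/
theorem pk_ext (w m n : ℕ) (h : m ≤ n) (f : ℕ → ℕ) : pk w f m = pk w (fun k => if k < m then f k else 0) n := by
  obtain ⟨d, rfl⟩ : ∃ d, n = m + d := ⟨n - m, by omega⟩
  rw [pk_add]
  have e1 : pk w (fun k => if k < m then f k else 0) m = pk w f m :=
    pk_congr _ _ fun k hk => by simp [hk]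
  have e2 : pk w (fun k => if k + m < m then f (k + m) else 0) d = 0 := pk_z _ _ fun k _ => by simp
  rw [e1, e2]
  ring

/-- shift to the right -/
theorem pk_shr (w m d : ℕ) {f : ℕ → ℕ} (hf : ∀ k < m, f k < 2 ^ w) (hd : d ≤ m) :
    pk w f m >>> (w * d) = pk w (fun k => if k < m - d then f (k + d) else 0) m := by
  obtain ⟨n, rfl⟩ : ∃ n, m = d + n := ⟨m - d, by omega⟩
  rw [pk_add, Nat.shiftRight_eq_div_pow, Nat.add_mul_div_left _ _ (by positivity),
    Nat.div_eq_of_lt (pk_lt w d fun k hk => hf k (by omega)), zero_add, Nat.add_sub_cancel_left]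
  exact pk_ext w n (d + n) (by omega) _

/-- shift to the left, without loss -/
theorem pk_shl (w m d : ℕ) (hd : d ≤ m) {f : ℕ → ℕ} (h : ∀ k, m ≤ k + d → f k = 0) :
    pk w f m <<< (w * d) = pk w (fun k => if k < d then 0 else f (k - d)) m := by
  obtain ⟨n, rfl⟩ : ∃ n, m = d + n := ⟨m - d, by omega⟩
  rw [Nat.shiftLeft_eq]
  have e1 : pk w f (d + n) = pk w f n := by
    rw [add_comm, pk_add]
    have : pk w (fun k => f (k + n)) d = 0 := pk_z _ _ fun k _ => h (k + n) (by omega)
    rw [this]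
    ring
  rw [e1, pk_add]
  have e2 : pk w (fun k => if k < d then 0 else f (k - d)) d = 0 := pk_z _ _ fun k hk => by simp [hk]
  have e3 : (fun k => if k + d < d then 0 else f (k + d - d)) = f := by
    funext k
    simp
  rw [e2, e3]
  ring

/-- nested digits -/
theorem pk_nest (w a m : ℕ) (ha : 0 < a) (F : ℕ → ℕ → ℕ) :
    pk (w * a) (fun i => pk w (F i) a) m = pk w (fun p => F (p / a) (p % a)) (a * m) := by
  induction m generalizing F with
  | zero => rfl
  | succ m ih =>
    have e : a * (m + 1) = a + a * m := by ring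
    simp only [pk]
    rw [e, pk_add, ih fun i => F (i + 1)]
    congr 1
    · exact pk_congr _ _ fun k hk => by rw [Nat.div_eq_of_lt hk, Nat.mod_eq_of_lt hk]
    · congr 1
      refine pk_congr _ _ fun k _ => ?_
      rw [Nat.add_div_right _ ha, Nat.add_mod_right]

/-! ## Masks -/

/-- `x0` at the positions `k < 2 ^ u` with bit `t` equal to `β` -/
def mm (W x0 t : ℕ) (β : Bool) : ℕ → ℕ
  | 0 => x0
  | u + 1 =>
    bif Nat.beq u t then (bif β then Nat.shiftLeft (mm W x0 t β u) (Nat.mul W (Nat.pow 2 u)) else mm W x0 t β u)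
    else Nat.add (mm W x0 t β u) (Nat.shiftLeft (mm W x0 t β u) (Nat.mul W (Nat.pow 2 u)))

theorem tb_low {k t u : ℕ} (h : t < u) : Nat.testBit (k + 2 ^ u) t = Nat.testBit k t := by
  rw [add_comm]
  exact Nat.testBit_two_pow_add_gt h k

theorem mm_eq (W x0 t : ℕ) (β : Bool) (u : ℕ) :
    mm W x0 t β u = pk W (fun k => if u ≤ t ∨ Nat.testBit k t = β then x0 else 0) (2 ^ u) := by
  induction u with
  | zero => simp [mm, pk]
  | succ u ih =>
    have hp : 2 ^ (u + 1) = 2 ^ u + 2 ^ u := by rw [pow_succ]; ring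
    rw [hp, pk_add]
    by_cases hut : u = t
    · subst hut
      have e0 : mm W x0 u β (u + 1) = bif β then Nat.shiftLeft (mm W x0 u β u) (Nat.mul W (Nat.pow 2 u))
          else mm W x0 u β u := by
        show (bif Nat.beq u u then _ else _) = _
        rw [Nat.beq_refl]
        rfl
      rw [e0, ih]
      have f1 : ∀ k < 2 ^ u, Nat.testBit k u = false := fun k hk => Nat.testBit_lt_two_pow hk
      have f2 : ∀ k < 2 ^ u, Nat.testBit (k + 2 ^ u) u = true := fun k hk => by
        rw [add_comm, Nat.testBit_two_pow_add_eq, f1 k hk]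
        rfl
      cases β with
      | false =>
        have g1 : pk W (fun k => if u + 1 ≤ u ∨ Nat.testBit k u = false then x0 else 0) (2 ^ u) =
            pk W (fun k => if u ≤ u ∨ Nat.testBit k u = false then x0 else 0) (2 ^ u) :=
          pk_congr _ _ fun k hk => by simp [f1 k hk]
        have g2 : pk W (fun k => if u + 1 ≤ u ∨ Nat.testBit (k + 2 ^ u) u = false then x0 else 0) (2 ^ u) = 0 :=
          pk_z _ _ fun k hk => by simp [f2 k hk]
        rw [g1, g2]
        simp
      | true =>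
        have g1 : pk W (fun k => if u + 1 ≤ u ∨ Nat.testBit (k + 2 ^ u) u = true then x0 else 0) (2 ^ u) =
            pk W (fun k => if u ≤ u ∨ Nat.testBit k u = true then x0 else 0) (2 ^ u) :=
          pk_congr _ _ fun k hk => by simp [f2 k hk]
        have g2 : pk W (fun k => if u + 1 ≤ u ∨ Nat.testBit k u = true then x0 else 0) (2 ^ u) = 0 :=
          pk_z _ _ fun k hk => by simp [f1 k hk]
        rw [g1, g2]
        show (pk W _ (2 ^ u)) <<< (W * 2 ^ u) = _
        rw [Nat.shiftLeft_eq, zero_add, mul_comm]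
    · have e0 : mm W x0 t β (u + 1) = mm W x0 t β u + (mm W x0 t β u) <<< (W * 2 ^ u) := by
        show (bif Nat.beq u t then _ else _) = _
        have : Nat.beq u t = false := by
          rw [Bool.eq_false_iff]
          intro h
          exact hut (Nat.eq_of_beq_eq_true h)
        rw [this]
        rfl
      rw [e0, ih, Nat.shiftLeft_eq]
      rcases lt_or_gt_of_ne hut with hlt | hgt
      · have g1 : ∀ k, (u + 1 ≤ t ∨ Nat.testBit k t = β) ↔ True := fun k => by
          simp [Nat.succ_le_of_lt hlt]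
        have g2 : ∀ k, (u ≤ t ∨ Nat.testBit k t = β) ↔ True := fun k => by simp [hlt.le]
        simp only [g1, g2, if_true]
        ring
      · have g0 : ¬ (u + 1 ≤ t) := by omega
        have g0' : ¬ (u ≤ t) := by omega
        simp only [g0, g0', false_or, tb_low hgt]
        ring

/-- mask of the positions `i 2 ^ q + k` with bit `t` of `i` equal to `β` and bit `t` of `k` equal to `γ` -/
def msk (w q t : ℕ) (β γ : Bool) : ℕ :=
  mm (Nat.mul w (Nat.pow 2 q)) (mm w (Nat.sub (Nat.pow 2 w) 1) t γ q) t β q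

theorem msk_eq (w q t : ℕ) (ht : t < q) (β γ : Bool) :
    msk w q t β γ = pk w (fun p => if Nat.testBit (p / 2 ^ q) t = β ∧ Nat.testBit (p % 2 ^ q) t = γ then 2 ^ w - 1
      else 0) (2 ^ q * 2 ^ q) := by
  have h1 : mm w (2 ^ w - 1) t γ q = pk w (fun k => if Nat.testBit k t = γ then 2 ^ w - 1 else 0) (2 ^ q) := by
    rw [mm_eq]
    exact pk_congr _ _ fun k _ => by simp [Nat.not_le.2 ht]
  have h2 : msk w q t β γ = mm (w * 2 ^ q) (mm w (2 ^ w - 1) t γ q) t β q := rfl
  rw [h2, mm_eq, h1]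
  have h3 : pk (w * 2 ^ q) (fun k => if q ≤ t ∨ Nat.testBit k t = β then
      pk w (fun k => if Nat.testBit k t = γ then 2 ^ w - 1 else 0) (2 ^ q) else 0) (2 ^ q) =
      pk (w * 2 ^ q) (fun i => pk w (fun k => if Nat.testBit i t = β ∧ Nat.testBit k t = γ then 2 ^ w - 1 else 0)
        (2 ^ q)) (2 ^ q) := by
    refine pk_congr _ _ fun i _ => ?_
    by_cases hi : Nat.testBit i t = β
    · simp [hi]
    · simp only [hi, Nat.not_le.2 ht, false_or, false_and, if_false]
      rw [pk_zero]
  rw [h3, pk_nest w (2 ^ q) (2 ^ q) (by positivity)]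

/-! ## One exchange -/

/-- exchange of bit `t` of the two indices; `Ms = msk 0 0 + msk 1 1`, `Ma = msk 0 1`, `s = w (2 ^ (q + t) - 2 ^ t)` -/
def stp (Ms Ma s X : ℕ) : ℕ :=
  Nat.add (Nat.add (Nat.land X Ms) (Nat.land (Nat.shiftRight X s) Ma)) (Nat.shiftLeft (Nat.land X Ma) s)

/-- the matrix -/
def mat (w q : ℕ) (f : ℕ → ℕ → ℕ) : ℕ := pk w (fun p => f (p / 2 ^ q) (p % 2 ^ q)) (2 ^ q * 2 ^ q)

theorem tb_sub {k t : ℕ} (h : Nat.testBit k t = true) : 2 ^ t ≤ k ∧ Nat.testBit (k - 2 ^ t) t = false := by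
  have h1 : 2 ^ t ≤ k := Nat.ge_two_pow_of_testBit h
  refine ⟨h1, ?_⟩
  obtain ⟨m, rfl⟩ : ∃ m, k = 2 ^ t + m := ⟨k - 2 ^ t, by omega⟩
  rw [Nat.testBit_two_pow_add_eq] at h
  rw [Nat.add_sub_cancel_left]
  simpa using h

theorem tb_add {k t : ℕ} (h : Nat.testBit k t = false) : Nat.testBit (k + 2 ^ t) t = true := by
  rw [add_comm, Nat.testBit_two_pow_add_eq, h]; rfl

/-- adding `2 ^ t` to a number below `2 ^ q` whose bit `t` is zero -/
theorem add_lt {k t q : ℕ} (hk : k < 2 ^ q) (ht : t < q) (h : Nat.testBit k t = false) : k + 2 ^ t < 2 ^ q := by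
  by_contra hc
  push Not at hc
  obtain ⟨m, rfl⟩ : ∃ m, q = t + 1 + m := ⟨q - t - 1, by omega⟩
  -- the quotient by `2 ^ (t + 1)`
  have e1 : 2 ^ (t + 1 + m) = 2 ^ (t + 1) * 2 ^ m := pow_add _ _ _
  have h1 : k % 2 ^ (t + 1) < 2 ^ t := by
    by_contra h2
    push Not at h2
    have h3 : k % 2 ^ (t + 1) < 2 ^ (t + 1) := Nat.mod_lt _ (by positivity)
    have h4 : Nat.testBit (k % 2 ^ (t + 1)) t = true := by
      obtain ⟨r, hr⟩ : ∃ r, k % 2 ^ (t + 1) = 2 ^ t + r := ⟨k % 2 ^ (t + 1) - 2 ^ t, by omega⟩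
      rw [hr, Nat.testBit_two_pow_add_eq, Nat.testBit_lt_two_pow]
      · rfl
      · rw [pow_succ] at h3; omega
    rw [Nat.testBit_mod_two_pow] at h4
    simp [h] at h4
  have h5 : k / 2 ^ (t + 1) < 2 ^ m := by
    rw [Nat.div_lt_iff_lt_mul (by positivity), mul_comm, ← e1]
    exact hk
  have h6 := Nat.div_add_mod k (2 ^ (t + 1))
  have h7 : 2 ^ (t + 1) * (k / 2 ^ (t + 1)) + 2 ^ (t + 1) ≤ 2 ^ (t + 1) * 2 ^ m := by
    calc 2 ^ (t + 1) * (k / 2 ^ (t + 1)) + 2 ^ (t + 1) = 2 ^ (t + 1) * (k / 2 ^ (t + 1) + 1) := by ring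
      _ ≤ _ := Nat.mul_le_mul_left _ h5
  have h8 : 2 ^ (t + 1) = 2 ^ t + 2 ^ t := by rw [pow_succ]; ring
  omega

/-- the function after the exchange -/
def sf (t : ℕ) (f : ℕ → ℕ → ℕ) (i k : ℕ) : ℕ :=
  if Nat.testBit i t = Nat.testBit k t then f i k
  else if Nat.testBit k t = true then f (i + 2 ^ t) (k - 2 ^ t) else f (i - 2 ^ t) (k + 2 ^ t)

theorem land_full (w x : ℕ) (hx : x < 2 ^ w) : x &&& (2 ^ w - 1) = x := by
  rw [Nat.and_two_pow_sub_one_eq_mod, Nat.mod_eq_of_lt hx]

theorem stp_mat (w q t : ℕ) (ht : t < q) {f : ℕ → ℕ → ℕ} (hf : ∀ i k, f i k < 2 ^ w) :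
    stp (msk w q t false false + msk w q t true true) (msk w q t false true) (w * (2 ^ (q + t) - 2 ^ t)) (mat w q f) =
      mat w q (sf t f) := by
  set a := 2 ^ q with ha
  have ha0 : 0 < a := by positivity
  set n := a * a with hn
  set δ := 2 ^ (q + t) - 2 ^ t with hδ
  have hδ2 : δ = 2 ^ t * a - 2 ^ t := by rw [hδ, ha, pow_add, mul_comm]
  have hta : 2 ^ t < a := Nat.pow_lt_pow_right (by norm_num) ht
  have hδn : δ ≤ n := by
    rw [hδ2, hn]
    exact (Nat.sub_le _ _).trans (Nat.mul_le_mul_right _ hta.le)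
  have hδ3 : δ + 2 ^ t = 2 ^ t * a := by
    rw [hδ2]
    exact Nat.sub_add_cancel (Nat.le_mul_of_pos_right _ ha0)
  have hm : 2 ^ w - 1 < 2 ^ w := Nat.sub_lt (by positivity) (by norm_num)
  -- masks
  have hMs : msk w q t false false + msk w q t true true =
      pk w (fun p => if Nat.testBit (p / a) t = Nat.testBit (p % a) t then 2 ^ w - 1 else 0) n := by
    rw [msk_eq w q t ht, msk_eq w q t ht, pk_addf]
    refine pk_congr _ _ fun p _ => ?_
    cases h1 : Nat.testBit (p / a) t <;> cases h2 : Nat.testBit (p % a) t <;> simp [← ha, h1, h2]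
  have hMa := msk_eq w q t ht false true
  rw [← ha, ← hn] at hMa
  have hX : mat w q f = pk w (fun p => f (p / a) (p % a)) n := rfl
  have hfp : ∀ p < n, f (p / a) (p % a) < 2 ^ w := fun p _ => hf _ _
  -- the positions
  have pos1 : ∀ p < n, Nat.testBit (p / a) t = false → Nat.testBit (p % a) t = true →
      p + δ < n ∧ (p + δ) / a = p / a + 2 ^ t ∧ (p + δ) % a = p % a - 2 ^ t := by
    intro p hp h1 h2
    have hk := Nat.mod_lt p ha0
    have hi : p / a < a := by
      rw [Nat.div_lt_iff_lt_mul ha0]; exact hp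
    obtain ⟨h3, _⟩ := tb_sub h2
    have h4 := add_lt (ha ▸ hi) ht h1
    rw [← ha] at h4
    have e0 := Nat.div_add_mod p a
    obtain ⟨k', hk'⟩ : ∃ k', p % a = k' + 2 ^ t := ⟨p % a - 2 ^ t, by omega⟩
    have e2 : p + δ = a * (p / a + 2 ^ t) + (p % a - 2 ^ t) := by
      rw [hk', Nat.add_sub_cancel, mul_add]
      rw [hk'] at e0
      linarith [mul_comm (2 ^ t) a]
    have h5 : p % a - 2 ^ t < a := lt_of_le_of_lt (Nat.sub_le _ _) hk
    refine ⟨?_, ?_, ?_⟩
    · rw [e2, hn]
      calc a * (p / a + 2 ^ t) + (p % a - 2 ^ t) < a * (p / a + 2 ^ t) + a := by omega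
        _ = a * (p / a + 2 ^ t + 1) := by ring
        _ ≤ a * a := Nat.mul_le_mul_left _ h4
    · rw [e2, Nat.mul_add_div ha0, Nat.div_eq_of_lt h5, add_zero]
    · rw [e2, Nat.mul_add_mod, Nat.mod_eq_of_lt h5]
  have pos2 : ∀ p < n, Nat.testBit (p / a) t = true → Nat.testBit (p % a) t = false →
      δ ≤ p ∧ (p - δ) / a = p / a - 2 ^ t ∧ (p - δ) % a = p % a + 2 ^ t := by
    intro p hp h1 h2
    have hk := Nat.mod_lt p ha0
    obtain ⟨h3, _⟩ := tb_sub h1
    have h4 := add_lt (ha ▸ hk) ht h2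
    rw [← ha] at h4
    have e0 := Nat.div_add_mod p a
    obtain ⟨j, hj⟩ : ∃ j, p / a = j + 2 ^ t := ⟨p / a - 2 ^ t, by omega⟩
    have e3 : p = (a * j + (p % a + 2 ^ t)) + δ := by
      rw [hj, mul_add] at e0
      linarith [mul_comm (2 ^ t) a]
    have e2 : p - δ = a * j + (p % a + 2 ^ t) := Nat.sub_eq_of_eq_add e3
    have e4 : δ ≤ p := by
      calc δ ≤ (a * j + (p % a + 2 ^ t)) + δ := Nat.le_add_left _ _
        _ = p := e3.symm
    refine ⟨e4, ?_, ?_⟩
    · rw [e2, Nat.mul_add_div ha0, Nat.div_eq_of_lt h4, add_zero, hj]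
      omega
    · rw [e2, Nat.mul_add_mod, Nat.mod_eq_of_lt h4]
  -- the three terms
  have g1 : mat w q f &&& (msk w q t false false + msk w q t true true) =
      pk w (fun p => if Nat.testBit (p / a) t = Nat.testBit (p % a) t then f (p / a) (p % a) else 0) n := by
    rw [hMs, hX, land_pk w n hfp fun p _ => by split_ifs <;> [exact hm; positivity]]
    refine pk_congr _ _ fun p hp => ?_
    split_ifs
    · exact land_full w _ (hfp p hp)
    · exact Nat.and_zero _
  have g2 : (mat w q f >>> (w * δ)) &&& msk w q t false true =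
      pk w (fun p => if Nat.testBit (p / a) t = false ∧ Nat.testBit (p % a) t = true then
        f (p / a + 2 ^ t) (p % a - 2 ^ t) else 0) n := by
    rw [hX, pk_shr w n δ hfp hδn, hMa, land_pk w n (fun p _ => by split_ifs <;> [exact hf _ _; positivity])
      fun p _ => by split_ifs <;> [exact hm; positivity]]
    refine pk_congr _ _ fun p hp => ?_
    by_cases h : Nat.testBit (p / a) t = false ∧ Nat.testBit (p % a) t = true
    · obtain ⟨q1, q2, q3⟩ := pos1 p hp h.1 h.2
      rw [if_pos h, if_pos h, if_pos (by omega), q2, q3]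
      exact land_full w _ (hf _ _)
    · rw [if_neg h, if_neg h]
      exact Nat.and_zero _
  have g3 : (mat w q f &&& msk w q t false true) <<< (w * δ) =
      pk w (fun p => if Nat.testBit (p / a) t = true ∧ Nat.testBit (p % a) t = false then
        f (p / a - 2 ^ t) (p % a + 2 ^ t) else 0) n := by
    rw [hMa, hX, land_pk w n hfp fun p _ => by split_ifs <;> [exact hm; positivity]]
    have e1 : pk w (fun p => f (p / a) (p % a) &&&
        (if Nat.testBit (p / a) t = false ∧ Nat.testBit (p % a) t = true then 2 ^ w - 1 else 0)) n =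
        pk w (fun p => if p < n ∧ Nat.testBit (p / a) t = false ∧ Nat.testBit (p % a) t = true then f (p / a) (p % a)
          else 0) n := by
      refine pk_congr _ _ fun p hp => ?_
      by_cases h : Nat.testBit (p / a) t = false ∧ Nat.testBit (p % a) t = true
      · rw [if_pos h, if_pos ⟨hp, h⟩]
        exact land_full w _ (hf _ _)
      · rw [if_neg h, if_neg fun h' => h h'.2]
        exact Nat.and_zero _
    rw [e1, pk_shl w n δ hδn]
    · refine pk_congr _ _ fun p hp => ?_
      by_cases h : Nat.testBit (p / a) t = true ∧ Nat.testBit (p % a) t = false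
      · obtain ⟨q1, q2, q3⟩ := pos2 p hp h.1 h.2
        rw [if_pos h, if_neg (by omega)]
        have h3 : Nat.testBit (p / a - 2 ^ t) t = false := (tb_sub h.1).2
        have h4 : Nat.testBit (p % a + 2 ^ t) t = true := tb_add h.2
        rw [if_pos ⟨by omega, by rw [q2]; exact h3, by rw [q3]; exact h4⟩, q2, q3]
      · rw [if_neg h]
        by_cases hpd : p < δ
        · rw [if_pos hpd]
        · rw [if_neg hpd]
          rw [if_neg]
          rintro ⟨h1, h2, h3⟩
          obtain ⟨q1, q2, q3⟩ := pos1 (p - δ) h1 h2 h3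
          rw [Nat.sub_add_cancel (by omega)] at q2 q3
          apply h
          rw [q2, q3]
          exact ⟨tb_add h2, (tb_sub h3).2⟩
    · intro k hk
      rw [if_neg]
      rintro ⟨h1, h2, h3⟩
      obtain ⟨q1, _, _⟩ := pos1 k h1 h2 h3
      omega
  have e0 : stp (msk w q t false false + msk w q t true true) (msk w q t false true) (w * δ) (mat w q f) =
      (mat w q f &&& (msk w q t false false + msk w q t true true)) +
        ((mat w q f >>> (w * δ)) &&& msk w q t false true) + (mat w q f &&& msk w q t false true) <<< (w * δ) := rfl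
  rw [e0, g1, g2, g3, pk_addf, pk_addf]
  show _ = pk w (fun p => sf t f (p / a) (p % a)) n
  refine pk_congr _ _ fun p _ => ?_
  unfold sf
  cases h1 : Nat.testBit (p / a) t <;> cases h2 : Nat.testBit (p % a) t <;> simp

/-! ## All exchanges -/

/-- the data of the levels `t = q - 1, .., 0` -/
def lvs (w q : ℕ) : ℕ → List (ℕ × ℕ × ℕ)
  | 0 => []
  | t + 1 => (Nat.add (msk w q t false false) (msk w q t true true), msk w q t false true,
      Nat.mul w (Nat.sub (Nat.pow 2 (Nat.add q t)) (Nat.pow 2 t))) :: lvs w q t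
/-- all exchanges -/
def trp : List (ℕ × ℕ × ℕ) → ℕ → ℕ
  | [], X => X
  | (Ms, Ma, s) :: l, X => stp Ms Ma s (trp l X)

/-- the low `t` bits of `i` replaced by those of `k` -/
def sw (t i k : ℕ) : ℕ := i - i % 2 ^ t + k % 2 ^ t

theorem md_succ (i t : ℕ) : i % 2 ^ (t + 1) = i % 2 ^ t + 2 ^ t * (if Nat.testBit i t = true then 1 else 0) := by
  rw [pow_succ, Nat.mod_mul]
  congr 2
  rw [Nat.testBit_eq_decide_div_mod_eq]
  have := Nat.mod_two_eq_zero_or_one (i / 2 ^ t)
  rcases this with h | h <;> simp [h]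

theorem sf_sw (t : ℕ) (f : ℕ → ℕ → ℕ) :
    sf t (fun i k => f (sw t i k) (sw t k i)) = fun i k => f (sw (t + 1) i k) (sw (t + 1) k i) := by
  funext i k
  have mi := md_succ i t
  have mk := md_succ k t
  have li : i % 2 ^ (t + 1) ≤ i := Nat.mod_le _ _
  have lk : k % 2 ^ (t + 1) ≤ k := Nat.mod_le _ _
  unfold sf
  cases h1 : Nat.testBit i t <;> cases h2 : Nat.testBit k t
  · simp only [if_true]
    simp only [h1, h2] at mi mk
    simp only [Bool.false_eq_true, if_false, mul_zero, add_zero] at mi mk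
    unfold sw
    rw [mi, mk]
  · simp only [Bool.false_eq_true, if_false, if_true]
    simp only [h1, h2] at mi mk
    simp only [Bool.false_eq_true, if_false, if_true, mul_zero, mul_one, add_zero] at mi mk
    have hk := (tb_sub h2).1
    obtain ⟨m, rfl⟩ : ∃ m, k = m + 2 ^ t := ⟨k - 2 ^ t, by omega⟩
    unfold sw
    rw [Nat.add_sub_cancel, Nat.add_mod_right, mi, mk, Nat.add_mod_right]
    rw [mk, Nat.add_mod_right] at lk
    rw [mi] at li
    congr 1 <;> omega
  · simp only [Bool.true_eq_false, if_false, Bool.false_eq_true]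
    simp only [h1, h2] at mi mk
    simp only [Bool.false_eq_true, if_false, if_true, mul_zero, mul_one, add_zero] at mi mk
    have hi := (tb_sub h1).1
    obtain ⟨m, rfl⟩ : ∃ m, i = m + 2 ^ t := ⟨i - 2 ^ t, by omega⟩
    unfold sw
    rw [Nat.add_sub_cancel, Nat.add_mod_right, mi, mk, Nat.add_mod_right]
    rw [mi, Nat.add_mod_right] at li
    rw [mk] at lk
    congr 1 <;> omega
  · simp only [if_true]
    simp only [h1, h2] at mi mk
    simp only [if_true, mul_one] at mi mk
    unfold sw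
    rw [mi, mk]
    rw [mi] at li
    rw [mk] at lk
    congr 1 <;> omega

theorem trp_lvs (w q t : ℕ) (ht : t ≤ q) {f : ℕ → ℕ → ℕ} (hf : ∀ i k, f i k < 2 ^ w) :
    trp (lvs w q t) (mat w q f) = mat w q (fun i k => f (sw t i k) (sw t k i)) := by
  induction t with
  | zero =>
    show mat w q f = _
    congr 1
    funext i k
    simp [sw, Nat.mod_one]
  | succ t ih =>
    show stp (msk w q t false false + msk w q t true true) (msk w q t false true) (w * (2 ^ (q + t) - 2 ^ t))
      (trp (lvs w q t) (mat w q f)) = _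
    rw [ih (by omega), stp_mat w q t (by omega) (fun i k => hf _ _), sf_sw]

/-- **the transposition** -/
theorem trp_eq (w q : ℕ) {f : ℕ → ℕ → ℕ} (hf : ∀ i k, f i k < 2 ^ w) :
    trp (lvs w q q) (mat w q f) = mat w q (fun i k => f k i) := by
  rw [trp_lvs w q q le_rfl hf]
  unfold mat
  refine pk_congr _ _ fun p hp => ?_
  have ha : 0 < 2 ^ q := by positivity
  have h1 : p / 2 ^ q < 2 ^ q := by rw [Nat.div_lt_iff_lt_mul ha]; exact hp
  have h2 : p % 2 ^ q < 2 ^ q := Nat.mod_lt _ ha
  unfold sw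
  simp only [Nat.mod_eq_of_lt h1, Nat.mod_eq_of_lt h2]
  simp

end Helper25.SH.Tsp
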